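import Pool.Agent.P.MP_6b6f2e_an.Defs

set_option autoImplicit false

namespace Pool.Agent.P.MP_6b6f2e_an

open Filter Topology

/-- `Z` is the `ℓ_p`-sum of the spaces `E n` if `p < ∞`, and their `c_0`-sum if `p = ∞`:
`Z` is linearly isometric to the space of all `x = (x_n)` in `lp E p` with `‖x_n‖ → 0`
(for `p < ∞` this is all of `lp E p`). -/
def IsSum (𝕜 : Type) [RCLike 𝕜] (p : ENNReal) [Fact (1 ≤ p)] (E : ℕ → Type)
    [∀ n, NormedAddCommGroup (E n)] [∀ n, NormedSpace 𝕜 (E n)]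
    (Z : Type) [NormedAddCommGroup Z] [NormedSpace 𝕜 Z] : Prop :=
  ∃ e : Z →ₗᵢ[𝕜] lp E p, ∀ x : lp E p, (∃ z, e z = x) ↔ Tendsto (fun n => ‖x n‖) atTop (𝓝 0)

/-- `X` contains a complemented isomorphic copy of `Z`: the identity of `Z` factors through `X`. -/
def ComplementedCopy (𝕜 X Z : Type) [RCLike 𝕜] [NormedAddCommGroup X] [NormedSpace 𝕜 X]
    [NormedAddCommGroup Z] [NormedSpace 𝕜 Z] : Prop :=
  ∃ (i : Z →L[𝕜] X) (q : X →L[𝕜] Z), ∀ z, q (i z) = z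

end Pool.Agent.P.MP_6b6f2e_an
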