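import Pool.Agent.P.MP_6b6f2e_an.Ideals
import Pool.Agent.P.MP_6b6f2e_an.SumDefs

set_option autoImplicit false
set_option linter.unusedSectionVars false

namespace Pool.Agent.P.MP_6b6f2e_an

open Finset Filter Topology TopologicalSpace
open scoped ENNReal

/-- The sequences `x = (x_n)` with `x_n ∈ ℓ_r^n`, lying in the `ℓ_p`-sum, with `‖x_n‖ → 0`.
For `p < ∞` this is the whole `ℓ_p`-sum of the spaces `ℓ_r^n`; for `p = ∞` it is their
`c_0`-sum. -/
def blockSum (𝕜 : Type) [RCLike 𝕜] (r p : ENNReal) [Fact (1 ≤ r)] :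
    Submodule 𝕜 (lp (fun n : ℕ => PiLp r fun _ : Fin n => 𝕜) p) where
  carrier := {x | Tendsto (fun n => ‖x n‖) atTop (𝓝 0)}
  add_mem' := fun {x y} hx hy =>
    squeeze_zero (fun _ => norm_nonneg _) (fun n => norm_add_le (x n) (y n))
      (by simpa using Tendsto.add hx hy)
  zero_mem' := by simp
  smul_mem' := fun c x hx =>
    squeeze_zero (fun _ => norm_nonneg _) (fun n => (norm_smul c (x n)).le)
      (by simpa using Tendsto.const_mul ‖c‖ hx)

section lp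

variable {p : ℝ≥0∞} [hp : Fact (1 ≤ p)] {E : ℕ → Type} [∀ n, NormedAddCommGroup (E n)]
  {ι : Type} [Fintype ι]

theorem nn_le_lp (y : lp E p) {e : ι → ℕ} (he : Function.Injective e) :
    nn p (fun i => ‖y (e i)‖) ≤ ‖y‖ := by
  by_cases hp' : p = ∞
  · subst hp'
    refine (nn_top_le_iff _ (norm_nonneg _)).2 fun i => ?_
    rw [abs_norm]
    exact lp.norm_apply_le_norm ENNReal.top_ne_zero y _
  · rw [nn_le_iff hp' _ (norm_nonneg _)]
    simp only [abs_norm]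
    rw [← sum_image (s := univ) (g := e) (f := fun n => ‖y n‖ ^ p.toReal) he.injOn]
    exact lp.sum_rpow_le_norm_rpow (toReal_pos' hp') y _

theorem lp_le_nn (y : lp E p) (e : ι → ℕ) (h : ∀ n, y n ≠ 0 → ∃ i, e i = n) :
    ‖y‖ ≤ nn p (fun i => ‖y (e i)‖) := by
  have key : ∀ s : Finset ℕ, nn p (fun n : s => ‖y n‖) ≤ nn p (fun i => ‖y (e i)‖) := by
    intro s
    classical
    let t := s ∪ univ.image e
    let e' : ι → t := fun i => ⟨e i, mem_union_right _ (mem_image_of_mem _ (mem_univ i))⟩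
    let j : s → t := fun n => ⟨n, mem_union_left _ n.2⟩
    have hj : Function.Injective j := fun n m hnm =>
      Subtype.ext (congrArg Subtype.val hnm :)
    refine (nn_comp_le hj fun n : t => ‖y n‖).trans (nn_le_comp e' (fun n : t => ‖y n‖) ?_)
    intro n hn
    obtain ⟨i, hi⟩ := h n (by simpa using hn)
    exact ⟨i, Subtype.ext hi⟩
  by_cases hp' : p = ∞
  · subst hp'
    refine lp.norm_le_of_forall_le (nn_nonneg _) fun n => le_trans ?_ (key {n})
    exact (le_abs_self _).trans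
      (abs_le_nn (fun m : ({n} : Finset ℕ) => ‖y m‖) ⟨n, mem_singleton_self n⟩)
  · refine lp.norm_le_of_forall_sum_le (toReal_pos' hp') (nn_nonneg _) fun s => ?_
    have := (nn_le_iff hp' _ (nn_nonneg _)).1 (key s)
    simp only [abs_norm] at this
    rwa [sum_coe_sort s fun n => ‖y n‖ ^ p.toReal] at this

theorem lp_tail (y : lp E p) (hy : Tendsto (fun n => ‖y n‖) atTop (𝓝 0)) {ε : ℝ} (hε : 0 < ε) :
    ∃ s : Finset ℕ, ∀ (ι : Type) [Fintype ι] (e : ι → ℕ), Function.Injective e →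
      (∀ i, e i ∉ s) → nn p (fun i => ‖y (e i)‖) ≤ ε := by
  by_cases hp' : p = ∞
  · subst hp'
    obtain ⟨n, hn⟩ := eventually_atTop.1 (hy.eventually (gt_mem_nhds hε))
    refine ⟨range n, fun ι _ e _ h => (nn_top_le_iff _ hε.le).2 fun i => ?_⟩
    rw [abs_norm]
    exact (hn _ (by simpa using h i)).le
  · obtain ⟨s, hs⟩ := (lp.hasSum_norm (toReal_pos' hp') y).summable.vanishing
      (Iio_mem_nhds (Real.rpow_pos_of_pos hε p.toReal))
    refine ⟨s, fun ι _ e he h => ?_⟩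
    rw [nn_le_iff hp' _ hε.le]
    simp only [abs_norm]
    rw [← sum_image (s := univ) (g := e) (f := fun n => ‖y n‖ ^ p.toReal) he.injOn]
    refine le_of_lt (hs _ (disjoint_left.2 fun n hn => ?_))
    obtain ⟨i, -, rfl⟩ := mem_image.1 hn
    exact h i

end lp

variable {𝕜 : Type} [RCLike 𝕜] {p r : ℝ≥0∞} [Fact (1 ≤ p)] [Fact (1 ≤ r)]

/-- Extension by zero. -/
noncomputable def pad (r : ℝ≥0∞) {β : Type} {n : ℕ} (e : β → Fin n) :
    (β → 𝕜) →ₗ[𝕜] PiLp r fun _ : Fin n => 𝕜 :=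
  (WithLp.linearEquiv r 𝕜 (Fin n → 𝕜)).symm.toLinearMap ∘ₗ Function.ExtendByZero.linearMap 𝕜 e

theorem pad_apply {β : Type} {n : ℕ} {e : β → Fin n} (he : Function.Injective e) (z : β → 𝕜)
    (b : β) : pad r e z (e b) = z b :=
  he.extend_apply z 0 b

theorem norm_pad_le {β : Type} [Fintype β] {n : ℕ} {e : β → Fin n} (he : Function.Injective e)
    (z : β → 𝕜) : ‖pad r e z‖ ≤ nn r fun b => ‖z b‖ := by
  rw [norm_piLp]
  refine (nn_le_comp e _ fun j hj => ?_).trans (le_of_eq ?_)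
  · by_contra h
    exact hj (by
      have : pad r e z j = 0 := Function.extend_apply' z (0 : Fin n → 𝕜) j h
      rw [this, norm_zero])
  · simp only [pad_apply he]

/-- The inclusion of one block. -/
noncomputable def sing (𝕜 : Type) [RCLike 𝕜] (r p : ℝ≥0∞) [Fact (1 ≤ r)] (n : ℕ) :
    (PiLp r fun _ : Fin n => 𝕜) →ₗ[𝕜] blockSum 𝕜 r p :=
  LinearMap.codRestrict _ (lp.lsingle (E := fun n : ℕ => PiLp r fun _ : Fin n => 𝕜) p n) fun x => by
    refine tendsto_const_nhds.congr' ?_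
    filter_upwards [eventually_gt_atTop n] with m hm
    exact (norm_eq_zero.2 (lp.single_apply_ne (E := fun n : ℕ => PiLp r fun _ : Fin n => 𝕜)
      p n x hm.ne')).symm

theorem sing_same (n : ℕ) (x : PiLp r fun _ : Fin n => 𝕜) : (sing 𝕜 r p n x).1 n = x :=
  lp.single_apply_self (E := fun n : ℕ => PiLp r fun _ : Fin n => 𝕜) p n x

theorem sing_ne {n m : ℕ} (h : m ≠ n) (x : PiLp r fun _ : Fin n => 𝕜) :
    (sing 𝕜 r p n x).1 m = 0 :=
  lp.single_apply_ne (E := fun n : ℕ => PiLp r fun _ : Fin n => 𝕜) p n x h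

theorem sum_sing_apply {ι : Type} [Fintype ι] (e : ι → ℕ)
    (x : ∀ i, PiLp r fun _ : Fin (e i) => 𝕜) (n : ℕ) :
    (∑ i, sing 𝕜 r p (e i) (x i)).1 n = ∑ i, (sing 𝕜 r p (e i) (x i)).1 n := by
  rw [Submodule.coe_sum, lp.coeFn_sum, Finset.sum_apply]

theorem sum_sing_same {ι : Type} [Fintype ι] {e : ι → ℕ} (he : Function.Injective e)
    (x : ∀ i, PiLp r fun _ : Fin (e i) => 𝕜) (i : ι) :
    (∑ i, sing 𝕜 r p (e i) (x i)).1 (e i) = x i := by
  rw [sum_sing_apply, sum_eq_single i (fun j _ h => sing_ne (he.ne h.symm) _) (by simp), sing_same]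

theorem sum_sing_ne {ι : Type} [Fintype ι] (e : ι → ℕ)
    (x : ∀ i, PiLp r fun _ : Fin (e i) => 𝕜) {n : ℕ} (h : ∀ i, e i ≠ n) :
    (∑ i, sing 𝕜 r p (e i) (x i)).1 n = 0 := by
  rw [sum_sing_apply]
  exact sum_eq_zero fun i _ => sing_ne (h i).symm _

theorem kappa_of_core {X : Type} [NormedAddCommGroup X] [NormedSpace 𝕜 X] [CompleteSpace X]
    [SeparableSpace X] (hX : ComplementedCopy 𝕜 X (blockSum 𝕜 r p)) {C : ℝ} {G : ℕ → Gad 𝕜}
    (hG : Core p r C G) : kappa 𝕜 X = 2 ^ Cardinal.continuum := by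
  classical
  obtain ⟨i, q, hiq⟩ := hX
  let ν : ∀ l, (G l).α → ℕ := fun l a =>
    Nat.pair (Fintype.card (G l).β) (Nat.pair l (Fintype.equivFin _ a))
  have hν : ∀ l a l' a', ν l a = ν l' a' → (⟨l, a⟩ : Σ l, (G l).α) = ⟨l', a'⟩ := by
    intro l a l' a' h
    obtain ⟨h1, h2⟩ := Nat.pair_eq_pair.1 (Nat.pair_eq_pair.1 h).2
    subst h1
    rw [(Fintype.equivFin _).injective (Fin.ext h2)]
  have hν1 : ∀ l, Function.Injective (ν l) := fun l a a' h => by simpa using hν _ _ _ _ h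
  have hνF : ∀ F : Finset ℕ, Function.Injective fun σ : Σ l : F, (G l).α => ν σ.1 σ.2 := by
    rintro F ⟨⟨l, hl⟩, a⟩ ⟨⟨l', hl'⟩, a'⟩ h
    have := hν _ _ _ _ h
    obtain ⟨rfl, h2⟩ := Sigma.mk.inj_iff.1 this
    obtain rfl : a = a' := eq_of_heq h2
    rfl
  let e : ∀ l a, (G l).β → Fin (ν l a) := fun l a b =>
    Fin.castLE (Nat.left_le_pair _ _) (Fintype.equivFin _ b)
  have he : ∀ l a, Function.Injective (e l a) := fun l a =>
    (Fin.castLE_injective _).comp (Fintype.equivFin _).injective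
  let J : ∀ l, (G l).C →ₗ[𝕜] blockSum 𝕜 r p := fun l =>
    ∑ a, sing 𝕜 r p (ν l a) ∘ₗ pad r (e l a) ∘ₗ LinearMap.proj a
  have hJ : ∀ l z, J l z = ∑ a, sing 𝕜 r p (ν l a) (pad r (e l a) (z a)) := fun l z => by
    simp [J]
  let Q : ∀ l, blockSum 𝕜 r p →ₗ[𝕜] (G l).C := fun l =>
    { toFun := fun y a b => y.1 (ν l a) (e l a b)
      map_add' := fun _ _ => rfl
      map_smul' := fun _ _ => rfl }
  have hQ : ∀ l y a b, Q l y a b = y.1 (ν l a) (e l a b) := fun _ _ _ _ => rfl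
  have hQF : ∀ (F : Finset ℕ) y, nn p (fun l : F => N p r (Q l y)) ≤
      nn p fun σ : Σ l : F, (G l).α => ‖y.1 (ν σ.1 σ.2)‖ := fun F y => by
    rw [N_sigma (κ := fun (l : F) (_ : (G l).α) => (G l).β)]
    refine nn_mono' (fun _ => nn_nonneg _) fun σ => ?_
    rw [norm_piLp]
    exact nn_comp_le (he σ.1 σ.2) fun j => ‖y.1 (ν σ.1 σ.2) j‖
  refine kappa_of_blocks hG (fun l => (i : _ →ₗ[𝕜] X) ∘ₗ J l) (fun l => Q l ∘ₗ (q : X →ₗ[𝕜] _))
    (K := ‖i‖ + ‖q‖) (by positivity) (fun l z => ?_) (fun l l' h z => ?_) (fun F z => ?_)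
    (fun F y => ?_) fun y ε hε => ?_
  · funext a b
    simp only [LinearMap.comp_apply, ContinuousLinearMap.coe_coe, hiq, hQ, hJ]
    rw [sum_sing_same (hν1 l) (fun a => pad r (e l a) (z a)), pad_apply (he l a)]
  · funext a b
    simp only [LinearMap.comp_apply, ContinuousLinearMap.coe_coe, hiq, hQ, hJ]
    rw [sum_sing_ne (ν l') (fun a => pad r (e l' a) (z a)) fun a' h' =>
      h (congrArg Sigma.fst (hν _ _ _ _ h')).symm]
    rfl
  · simp only [LinearMap.comp_apply, ContinuousLinearMap.coe_coe, ← map_sum]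
    refine (i.le_opNorm _).trans (mul_le_mul (by linarith [norm_nonneg q]) ?_ (norm_nonneg _)
      (by positivity))
    have h1 : ∑ l : F, J l (z l) = ∑ σ : Σ l : F, (G l).α,
        sing 𝕜 r p (ν σ.1 σ.2) (pad r (e σ.1 σ.2) (z σ.1 σ.2)) := by
      rw [Fintype.sum_sigma]
      simp only [hJ]
    rw [h1, N_sigma (κ := fun (l : F) (_ : (G l).α) => (G l).β)]
    refine (lp_le_nn _ (fun σ : Σ l : F, (G l).α => ν σ.1 σ.2) fun n hn => ?_).trans ?_
    · by_contra h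
      exact hn (sum_sing_ne _ _ fun σ hσ => h ⟨σ, hσ⟩)
    · refine nn_mono' (fun _ => norm_nonneg _) fun σ => ?_
      exact (congrArg norm (sum_sing_same (p := p) (hνF F)
        (fun σ => pad r (e σ.1 σ.2) (z σ.1 σ.2)) σ)).trans_le (norm_pad_le (he _ _) _)
  · refine (hQF F (q y)).trans ((nn_le_lp _ (hνF F)).trans ((q.le_opNorm y).trans ?_))
    exact mul_le_mul_of_nonneg_right (by linarith [norm_nonneg i]) (norm_nonneg _)
  · obtain ⟨s, hs⟩ := lp_tail (q y).1 (q y).2 hε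
    refine ⟨s.image fun n => (Nat.unpair (Nat.unpair n).2).1, fun F hF => (hQF F (q y)).trans
      (hs _ _ (hνF F) fun σ hσ => disjoint_left.1 hF σ.1.2 (mem_image.2 ⟨_, hσ, ?_⟩))⟩
    simp [ν]

end Pool.Agent.P.MP_6b6f2e_an
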