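import Pool.Agent.P.MP_6b6f2e_an.Tools

set_option autoImplicit false
set_option linter.unusedSectionVars false

namespace Pool.Agent.P.MP_6b6f2e_an

open Finset
open scoped ENNReal

section

variable {Φ κ C : Type} [Fintype Φ] [DecidableEq Φ] [Fintype κ] [Fintype C] [DecidableEq C]
  [AddCommGroup C]

theorem sum_colour_eq {φ ψ : Φ} (h : ψ ≠ φ) :
    Fintype.card C * ∑ ξ : Φ → C, (if ξ ψ = ξ φ then (1 : ℝ) else 0) = Fintype.card (Φ → C) := by
  have h1 : ∀ c : C, ∑ ξ : Φ → C, (if ξ ψ = ξ φ then (1 : ℝ) else 0) =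
      ∑ ξ : Φ → C, (if ξ ψ - ξ φ = c then (1 : ℝ) else 0) := fun c => by
    rw [← Equiv.sum_comp (Equiv.addRight (Pi.single φ c : Φ → C))]
    refine sum_congr rfl fun ξ _ => ?_
    simp only [Equiv.coe_addRight, Pi.add_apply, Pi.single_eq_of_ne h, Pi.single_eq_same, add_zero,
      sub_eq_iff_eq_add']
  rw [← nsmul_eq_mul, ← card_univ, ← sum_const, sum_congr rfl fun c _ => h1 c, sum_comm]
  simp

theorem exists_colour (w : Φ → κ → ℝ) (hw : ∀ φ k, 0 ≤ w φ k) (𝓛 : κ → Finset Φ) {L : ℝ}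
    (hL : ∀ k, (𝓛 k).card ≤ L) : ∃ ξ : Φ → C,
      ∑ k, ∑ φ ∈ (𝓛 k).filter (fun φ => ∃ ψ ∈ 𝓛 k, ψ ≠ φ ∧ ξ ψ = ξ φ), w φ k ≤
        L / Fintype.card C * ∑ φ, ∑ k, w φ k := by
  have hM : (0 : ℝ) < Fintype.card C := by exact_mod_cast Fintype.card_pos
  have hN : (0 : ℝ) < Fintype.card (Φ → C) := by exact_mod_cast Fintype.card_pos
  have key := exists_le_of_sum_le (s := (univ : Finset (Φ → C))) univ_nonempty
    (f := fun ξ => ∑ k, ∑ φ ∈ (𝓛 k).filter (fun φ => ∃ ψ ∈ 𝓛 k, ψ ≠ φ ∧ ξ ψ = ξ φ), w φ k)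
    (g := fun _ => L / Fintype.card C * ∑ φ, ∑ k, w φ k) (by
      calc _ ≤ ∑ ξ : Φ → C, ∑ k, ∑ φ, w φ k *
              ∑ ψ ∈ (𝓛 k).erase φ, (if ξ ψ = ξ φ then (1 : ℝ) else 0) := by
            refine sum_le_sum fun ξ _ => sum_le_sum fun k _ => ?_
            refine le_trans (sum_le_sum fun φ hφ => ?_) (sum_le_sum_of_subset_of_nonneg
              (subset_univ _) fun φ _ _ => mul_nonneg (hw φ k) (by positivity))
            obtain ⟨ψ, h1, h2, h3⟩ := (mem_filter.1 hφ).2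
            refine le_mul_of_one_le_right (hw φ k) ?_
            have := single_le_sum (f := fun ψ => if ξ ψ = ξ φ then (1 : ℝ) else 0)
              (fun _ _ => by positivity) (mem_erase.2 ⟨h2, h1⟩)
            rwa [if_pos h3] at this
        _ ≤ ∑ k, ∑ φ, w φ k * (L * (Fintype.card (Φ → C) / Fintype.card C)) := by
            rw [sum_comm]
            refine sum_le_sum fun k _ => ?_
            rw [sum_comm]
            refine sum_le_sum fun φ _ => ?_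
            rw [← mul_sum, sum_comm]
            refine mul_le_mul_of_nonneg_left ?_ (hw φ k)
            refine (sum_le_card_nsmul _ _ (Fintype.card (Φ → C) / Fintype.card C : ℝ)
              fun ψ hψ => ?_).trans ?_
            · rw [le_div_iff₀' hM, sum_colour_eq (mem_erase.1 hψ).1]
            · rw [nsmul_eq_mul]
              exact mul_le_mul_of_nonneg_right
                ((Nat.cast_le.2 (card_erase_le)).trans (hL k)) (by positivity)
        _ = _ := by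
            simp only [← sum_mul, sum_const, card_univ, nsmul_eq_mul]
            rw [sum_comm]
            ring)
  exact key.imp fun ξ h => h.2

theorem glob_abs {p : ℝ≥0∞} [Fact (1 ≤ p)] (hp : p ≠ ∞) (C : Type) [Fintype C] [AddCommGroup C]
    (a b : Φ → κ → ℝ) (ha : ∀ φ k, 0 ≤ a φ k) (hb : ∀ φ k, 0 ≤ b φ k) {B L E u v : ℝ} (hB : 0 ≤ B)
    (hL0 : 0 ≤ L) (ψ : ℕ → ℝ) (hψ : ∀ n, 0 ≤ ψ n) (h1 : ∀ φ, nn p (a φ) ≤ B)
    (h2 : ∀ φ (t : κ → ℝ), (∀ k, 0 ≤ t k) → ∑ k, t k * b φ k ≤ B * nn p t)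
    (h3 : ∀ (A : Finset Φ) (t : κ → ℝ), (∀ k, 0 ≤ t k) →
      ∑ k, t k * √(∑ φ ∈ A, b φ k ^ 2) ≤ ψ A.card * nn p t)
    (h4 : ∀ n : ℕ, ψ n * (B * (n : ℝ) ^ (1 / p.toReal)) ≤ u * n + v)
    (𝓛 : κ → Finset Φ) (hL : ∀ k, (𝓛 k).card ≤ L) (hE : ∑ k, ∑ φ ∈ (𝓛 k)ᶜ, a φ k * b φ k ≤ E) :
    ∑ φ, ∑ k, a φ k * b φ k ≤ E + L / Fintype.card C * (Fintype.card Φ * B ^ 2) +
      (u * Fintype.card Φ + v * Fintype.card C) := by
  classical
  have hπ := toReal_pos' hp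
  obtain ⟨ξ, hξ⟩ := exists_colour (C := C) (fun φ k => a φ k * b φ k)
    (fun φ k => mul_nonneg (ha φ k) (hb φ k)) 𝓛 hL
  have a1 : ∑ φ, ∑ k, a φ k * b φ k ≤ Fintype.card Φ * B ^ 2 := by
    rw [← nsmul_eq_mul, ← card_univ]
    exact sum_le_card_nsmul _ _ _ fun φ _ => (h2 φ _ (ha φ)).trans (by
      rw [sq]; exact mul_le_mul_of_nonneg_left (h1 φ) hB)
  let D : κ → Finset Φ := fun k => (𝓛 k).filter fun φ => ¬∃ ψ ∈ 𝓛 k, ψ ≠ φ ∧ ξ ψ = ξ φ
  have a2 : ∀ c, ∑ k, ∑ φ ∈ (D k).filter (fun φ => ξ φ = c), a φ k * b φ k ≤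
      u * (univ.filter fun φ => ξ φ = c).card + v := fun c => by
    have hsub : ∀ k, (D k).filter (fun φ => ξ φ = c) ⊆ univ.filter fun φ => ξ φ = c :=
      fun k => filter_subset_filter _ (subset_univ _)
    let t : κ → ℝ := fun k => ∑ φ ∈ (D k).filter (fun φ => ξ φ = c), a φ k
    have ht : ∀ k, 0 ≤ t k := fun k => sum_nonneg fun φ _ => ha φ k
    have b1 : ∀ k, t k ^ p.toReal ≤ ∑ φ ∈ univ.filter (fun φ => ξ φ = c), a φ k ^ p.toReal := by
      intro k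
      have hc : ((D k).filter fun φ => ξ φ = c).card ≤ 1 := card_le_one.2 fun φ hφ φ' hφ' => by
        by_contra hne
        obtain ⟨h5, h6⟩ := mem_filter.1 hφ
        obtain ⟨h7, h8⟩ := mem_filter.1 hφ'
        exact (mem_filter.1 h7).2 ⟨φ, (mem_filter.1 h5).1, hne, h6.trans h8.symm⟩
      refine le_trans ?_ (sum_le_sum_of_subset_of_nonneg (hsub k)
        fun φ _ _ => Real.rpow_nonneg (ha φ k) _)
      rcases ((D k).filter fun φ => ξ φ = c).eq_empty_or_nonempty with h | ⟨φ, h⟩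
      · simp [t, h, Real.zero_rpow hπ.ne']
      · have := eq_singleton_iff_unique_mem.2 ⟨h, fun φ' h' => card_le_one.1 hc _ h' _ h⟩
        simp [t, this]
    have b2 : nn p t ≤ B * ((univ.filter fun φ => ξ φ = c).card : ℝ) ^ (1 / p.toReal) := by
      rw [nn_le_iff hp _ (by positivity), Real.mul_rpow hB (by positivity),
        ← Real.rpow_mul (by positivity), one_div_mul_cancel hπ.ne', Real.rpow_one]
      simp only [abs_of_nonneg (ht _)]
      refine (sum_le_sum fun k _ => b1 k).trans ?_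
      rw [sum_comm, mul_comm, ← nsmul_eq_mul]
      exact sum_le_card_nsmul _ _ _ fun φ _ => sum_rpow_le_of_nn hp (ha φ) (h1 φ)
    refine le_trans (sum_le_sum fun k _ => ?_) ((h3 (univ.filter fun φ => ξ φ = c) t ht).trans
      ((mul_le_mul_of_nonneg_left b2 (hψ _)).trans (h4 _)))
    rw [sum_mul]
    refine sum_le_sum fun φ hφ => mul_le_mul_of_nonneg_left (Real.le_sqrt_of_sq_le ?_) (ha φ k)
    exact single_le_sum (f := fun φ => b φ k ^ 2) (fun _ _ => sq_nonneg _) (hsub k hφ)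
  have a3 : ∑ k, ∑ φ ∈ D k, a φ k * b φ k ≤ u * Fintype.card Φ + v * Fintype.card C := by
    rw [sum_congr rfl fun k _ => (sum_fiberwise (D k) ξ fun φ => a φ k * b φ k).symm, sum_comm]
    refine (sum_le_sum fun c _ => a2 c).trans (le_of_eq ?_)
    rw [sum_add_distrib, ← mul_sum, ← Nat.cast_sum, ← card_eq_sum_card_fiberwise
      (f := ξ) (s := univ) (t := univ) fun _ _ => mem_univ _]
    simp [mul_comm]
  have a4 : ∑ φ, ∑ k, a φ k * b φ k = ∑ k, ∑ φ ∈ (𝓛 k)ᶜ, a φ k * b φ k +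
      ∑ k, ∑ φ ∈ (𝓛 k).filter (fun φ => ∃ ψ ∈ 𝓛 k, ψ ≠ φ ∧ ξ ψ = ξ φ), a φ k * b φ k +
      ∑ k, ∑ φ ∈ D k, a φ k * b φ k := by
    rw [sum_comm, ← sum_add_distrib, ← sum_add_distrib]
    refine sum_congr rfl fun k _ => ?_
    rw [add_assoc, sum_filter_add_sum_filter_not, add_comm, sum_add_sum_compl]
  rw [a4]
  exact add_le_add (add_le_add hE (hξ.trans (mul_le_mul_of_nonneg_left a1 (by positivity)))) a3

theorem card_large (a : Φ → ℝ) {τ : ℝ} (hτ : 0 < τ) :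
    ((univ.filter fun φ => τ * √(∑ φ, a φ ^ 2) < a φ).card : ℝ) ≤ 1 / τ ^ 2 := by
  have h0 : 0 ≤ ∑ φ, a φ ^ 2 := by positivity
  rcases h0.eq_or_lt with h | h
  · have : (univ.filter fun φ => τ * √(∑ φ, a φ ^ 2) < a φ) = ∅ :=
      filter_eq_empty_iff.2 fun φ _ => by
        have := (sum_eq_zero_iff_of_nonneg fun φ _ => sq_nonneg (a φ)).1 h.symm φ (mem_univ _)
        rw [← h, pow_eq_zero_iff two_ne_zero |>.1 this]
        simp
    rw [this]
    simp only [card_empty, Nat.cast_zero]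
    positivity
  · have h1 := (card_mul_le (univ.filter fun φ => τ * √(∑ φ, a φ ^ 2) < a φ) (fun φ => a φ ^ 2)
      (c := (τ * √(∑ φ, a φ ^ 2)) ^ 2) fun φ hφ =>
        pow_le_pow_left₀ (by positivity) (mem_filter.1 hφ).2.le 2).trans
      (sum_le_sum_of_subset_of_nonneg (subset_univ _) fun _ _ _ => sq_nonneg _)
    rw [mul_pow, Real.sq_sqrt h0, ← mul_assoc] at h1
    rw [le_div_iff₀ (by positivity)]
    exact (mul_le_iff_le_one_left h).1 h1

end

end Pool.Agent.P.MP_6b6f2e_an
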