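import Pool.Agent.P.MP_6b6f2e_an.Mix

set_option autoImplicit false
set_option linter.unusedSectionVars false

namespace Pool.Agent.P.MP_6b6f2e_an

open Finset
open scoped ENNReal

/-- The sign attached to a Boolean. -/
def sn (b : Bool) : ℝ := if b then 1 else -1

theorem sn_not (b : Bool) : sn (!b) = -sn b := by cases b <;> simp [sn]

theorem abs_sn (b : Bool) : |sn b| = 1 := by cases b <;> simp [sn]

theorem sn_mul_self (b : Bool) : sn b * sn b = 1 := by cases b <;> simp [sn]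

variable {𝕜 : Type} [RCLike 𝕜]

theorem norm_sn (b : Bool) : ‖(sn b : 𝕜)‖ = 1 := by rw [RCLike.norm_ofReal, abs_sn]

theorem sum_flip {ι : Type} [Fintype ι] [DecidableEq ι] (j : ι) (F : (ι → Bool) → ℝ) :
    ∑ ε, F ε = ∑ ε, F (Function.update ε j (!ε j)) := by
  have h : Function.Involutive fun ε : ι → Bool => Function.update ε j (!ε j) := fun ε => by
    simp
  exact (Equiv.sum_comp h.toPerm F).symm

section lower

variable {H : Type} [NormedAddCommGroup H] [InnerProductSpace 𝕜 H] {ι : Type} [Fintype ι]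
  [DecidableEq ι]

theorem sum_insert_sign (v : ι → H) {s : Finset ι} {j : ι} (hj : j ∉ s) (G : H → ℝ) :
    2 * ∑ ε : ι → Bool, G (∑ i ∈ insert j s, (sn (ε i) : 𝕜) • v i) =
      ∑ ε : ι → Bool, (G (∑ i ∈ s, (sn (ε i) : 𝕜) • v i + v j) +
        G (∑ i ∈ s, (sn (ε i) : 𝕜) • v i - v j)) := by
  rw [two_mul]
  nth_rewrite 2 [sum_flip j]
  rw [← sum_add_distrib]
  refine sum_congr rfl fun ε _ => ?_
  have h : ∑ i ∈ s, (sn (Function.update ε j (!ε j) i) : 𝕜) • v i =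
      ∑ i ∈ s, (sn (ε i) : 𝕜) • v i :=
    sum_congr rfl fun i hi => by rw [Function.update_of_ne (ne_of_mem_of_not_mem hi hj)]
  rw [sum_insert hj, sum_insert hj, h, Function.update_self]
  cases ε j <;> simp [sn, add_comm, sub_eq_add_neg]

theorem moments (v : ι → H) (s : Finset ι) :
    ∑ ε : ι → Bool, ‖∑ i ∈ s, (sn (ε i) : 𝕜) • v i‖ ^ 2 =
        Fintype.card (ι → Bool) * ∑ i ∈ s, ‖v i‖ ^ 2 ∧
      ∑ ε : ι → Bool, ‖∑ i ∈ s, (sn (ε i) : 𝕜) • v i‖ ^ 4 ≤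
        3 * Fintype.card (ι → Bool) * (∑ i ∈ s, ‖v i‖ ^ 2) ^ 2 := by
  induction s using Finset.induction_on with
  | empty => simp
  | insert j s hj ih =>
    obtain ⟨h2, h4⟩ := ih
    have e2 := sum_insert_sign (𝕜 := 𝕜) v hj fun x => ‖x‖ ^ 2
    have e4 := sum_insert_sign (𝕜 := 𝕜) v hj fun x => ‖x‖ ^ 4
    have p2 : ∀ x : H, ‖x + v j‖ ^ 2 + ‖x - v j‖ ^ 2 = 2 * ‖x‖ ^ 2 + 2 * ‖v j‖ ^ 2 := fun x => by
      rw [norm_add_sq (𝕜 := 𝕜), norm_sub_sq (𝕜 := 𝕜)]; ring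
    have p4 : ∀ x : H, ‖x + v j‖ ^ 4 + ‖x - v j‖ ^ 4 ≤
        2 * ‖x‖ ^ 4 + 12 * ‖v j‖ ^ 2 * ‖x‖ ^ 2 + 2 * ‖v j‖ ^ 4 := fun x => by
      have a1 : ‖x + v j‖ ^ 4 = (‖x + v j‖ ^ 2) ^ 2 := by ring
      have a2 : ‖x - v j‖ ^ 4 = (‖x - v j‖ ^ 2) ^ 2 := by ring
      have a3 : |RCLike.re (inner 𝕜 x (v j))| ≤ ‖x‖ * ‖v j‖ :=
        (RCLike.abs_re_le_norm _).trans (norm_inner_le_norm _ _)
      have a4 := pow_le_pow_left₀ (abs_nonneg _) a3 2
      rw [sq_abs] at a4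
      rw [a1, a2, norm_add_sq (𝕜 := 𝕜), norm_sub_sq (𝕜 := 𝕜)]
      nlinarith
    simp only [p2, sum_add_distrib, ← mul_sum, h2, sum_const, card_univ, nsmul_eq_mul] at e2
    have e5 := e4.trans_le (sum_le_sum fun ε _ => p4 _)
    simp only [sum_add_distrib, ← mul_sum, h2, sum_const, card_univ, nsmul_eq_mul] at e5
    rw [sum_insert hj]
    have h0 : (0 : ℝ) ≤ Fintype.card (ι → Bool) * ‖v j‖ ^ 4 := by positivity
    constructor
    · linarith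
    · nlinarith

theorem khintchine (v : ι → H) :
    Fintype.card (ι → Bool) * √(∑ i, ‖v i‖ ^ 2) ≤
      8 * ∑ ε : ι → Bool, ‖∑ i, (sn (ε i) : 𝕜) • v i‖ := by
  obtain ⟨h2, h4⟩ := moments (𝕜 := 𝕜) v univ
  have h0 : 0 ≤ ∑ i, ‖v i‖ ^ 2 := by positivity
  rw [← Real.sq_sqrt h0] at h2 h4
  set σ := √(∑ i, ‖v i‖ ^ 2)
  rcases (Real.sqrt_nonneg (∑ i, ‖v i‖ ^ 2)).eq_or_lt with hσ | hσ
  · rw [show σ = 0 from hσ.symm, mul_zero]; positivity
  have hσ' : 0 < σ := hσ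
  have key : ∀ t : ℝ, 0 ≤ t → 4 * σ ^ 2 * t ^ 2 ≤ 8 * σ ^ 3 * t + t ^ 4 := fun t ht => by
    rcases le_total t (2 * σ) with h | h
    · have : 4 * σ ^ 2 * t * t ≤ 4 * σ ^ 2 * t * (2 * σ) :=
        mul_le_mul_of_nonneg_left h (by positivity)
      nlinarith [pow_nonneg ht 4]
    · have : (2 * σ) ^ 2 * t ^ 2 ≤ t ^ 2 * t ^ 2 :=
        mul_le_mul_of_nonneg_right (pow_le_pow_left₀ (by positivity) h 2) (by positivity)
      nlinarith [mul_nonneg (pow_nonneg hσ'.le 3) ht]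
  have h := sum_le_sum fun (ε : ι → Bool) (_ : ε ∈ univ) =>
    key _ (norm_nonneg (∑ i, (sn (ε i) : 𝕜) • v i))
  simp only [sum_add_distrib, ← mul_sum, h2] at h
  refine le_of_mul_le_mul_left ?_ (pow_pos hσ' 3)
  nlinarith

end lower

theorem card_signs_pos {ι : Type} [Fintype ι] [DecidableEq ι] :
    (0 : ℝ) < Fintype.card (ι → Bool) := by exact_mod_cast Fintype.card_pos

theorem khin_sum {ι κ : Type} [Fintype ι] [DecidableEq ι] [Fintype κ] {H : κ → Type}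
    [∀ k, NormedAddCommGroup (H k)] [∀ k, InnerProductSpace 𝕜 (H k)] (t : κ → ℝ)
    (ht : ∀ k, 0 ≤ t k) (v : ∀ k, ι → H k) {B : ℝ}
    (h : ∀ ε : ι → Bool, ∑ k, t k * ‖∑ i, (sn (ε i) : 𝕜) • v k i‖ ≤ B) :
    ∑ k, t k * √(∑ i, ‖v k i‖ ^ 2) ≤ 8 * B := by
  refine le_of_mul_le_mul_left ?_ (card_signs_pos (ι := ι))
  calc (Fintype.card (ι → Bool) : ℝ) * ∑ k, t k * √(∑ i, ‖v k i‖ ^ 2)
      = ∑ k, t k * (Fintype.card (ι → Bool) * √(∑ i, ‖v k i‖ ^ 2)) := by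
        rw [mul_sum]; exact sum_congr rfl fun k _ => by ring
    _ ≤ ∑ k, t k * (8 * ∑ ε : ι → Bool, ‖∑ i, (sn (ε i) : 𝕜) • v k i‖) :=
        sum_le_sum fun k _ => mul_le_mul_of_nonneg_left (khintchine (v k)) (ht k)
    _ = 8 * ∑ ε : ι → Bool, ∑ k, t k * ‖∑ i, (sn (ε i) : 𝕜) • v k i‖ := by
        rw [sum_comm, mul_sum]
        exact sum_congr rfl fun k _ => by rw [← mul_sum]; ring
    _ ≤ 8 * ∑ _ε : ι → Bool, B := by gcongr with ε; exact h ε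
    _ = _ := by simp; ring

theorem khin_nn {p : ℝ≥0∞} [Fact (1 ≤ p)] {ι κ : Type} [Fintype ι] [DecidableEq ι] [Fintype κ]
    (v : ι → κ → 𝕜) {B : ℝ}
    (h : ∀ ε : ι → Bool, (nn p fun k => ‖∑ i, (sn (ε i) : 𝕜) * v i k‖) ≤ B) :
    (nn p fun k => √(∑ i, ‖v i k‖ ^ 2)) ≤ 8 * B := by
  refine le_of_mul_le_mul_left ?_ (card_signs_pos (ι := ι))
  rw [← abs_of_pos (card_signs_pos (ι := ι)), ← nn_mul, abs_of_pos card_signs_pos]
  refine (nn_mono' (fun k => by positivity) fun k => khintchine (𝕜 := 𝕜) fun i => v i k).trans ?_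
  rw [nn_mul]
  calc |8| * nn p (fun k => ∑ ε : ι → Bool, ‖∑ i, (sn (ε i) : 𝕜) • v i k‖)
      ≤ 8 * ∑ _ε : ι → Bool, B := by
        rw [abs_of_pos (by norm_num : (0 : ℝ) < 8)]
        gcongr
        exact (nn_sum_le _ _).trans (sum_le_sum fun ε _ => h ε)
    _ = _ := by simp; ring

theorem sum_exp_le {ι : Type} [Fintype ι] [DecidableEq ι] (a : ι → ℝ) (h : ∑ i, a i ^ 2 ≤ 2) :
    ∑ ε : ι → Bool, Real.exp (∑ i, sn (ε i) * a i) ≤ 3 * Fintype.card (ι → Bool) := by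
  simp only [Real.exp_sum]
  rw [← Fintype.prod_sum fun i b => Real.exp (sn b * a i)]
  calc ∏ i, ∑ b, Real.exp (sn b * a i) ≤ ∏ i, 2 * Real.exp (a i ^ 2 / 2) := by
        refine prod_le_prod (fun i _ => by positivity) fun i _ => ?_
        have := Real.cosh_le_exp_half_sq (a i)
        rw [Real.cosh_eq] at this
        simp [sn]
        linarith
    _ = 2 ^ Fintype.card ι * Real.exp (∑ i, a i ^ 2 / 2) := by
        rw [prod_mul_distrib, Real.exp_sum]; simp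
    _ ≤ 2 ^ Fintype.card ι * 3 := by
        gcongr
        refine (Real.exp_le_exp.2 ?_).trans (Real.exp_one_lt_d9.le.trans (by norm_num))
        rw [← sum_div]; linarith
    _ = _ := by simp; ring

theorem khin_upper (r : ℝ) (hr : 0 ≤ r) : ∃ K : ℝ, 1 ≤ K ∧
    ∀ (ι : Type) [Fintype ι] [DecidableEq ι] (c : ι → 𝕜), ∑ i, ‖c i‖ ^ 2 ≤ 1 →
      ∑ ε : ι → Bool, ‖∑ i, (sn (ε i) : 𝕜) * c i‖ ^ r ≤ K * Fintype.card (ι → Bool) := by
  have h1 : ∀ t : ℝ, 0 ≤ t → t ^ r ≤ (1 + (⌈r⌉₊).factorial) * Real.exp t := fun t ht => by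
    have a1 := Real.pow_div_factorial_le_exp t ht ⌈r⌉₊
    rw [div_le_iff₀ (by positivity)] at a1
    have a2 := Real.one_le_exp ht
    rcases le_total t 1 with h | h
    · have := Real.rpow_le_one ht h hr
      nlinarith [pow_nonneg ht ⌈r⌉₊]
    · have := Real.rpow_le_rpow_of_exponent_le h (Nat.le_ceil r)
      rw [Real.rpow_natCast] at this
      nlinarith
  have hf : (0 : ℝ) ≤ (⌈r⌉₊).factorial := by positivity
  refine ⟨(1 + (⌈r⌉₊).factorial) * 12, by linarith, fun ι _ _ c hc => ?_⟩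
  let a : Bool × Bool → ι → ℝ := fun b i => sn b.1 * RCLike.re (c i) + sn b.2 * RCLike.im (c i)
  have ha : ∀ b, ∑ i, a b i ^ 2 ≤ 2 := fun b => by
    refine (sum_le_sum fun i _ => ?_ : _ ≤ ∑ i, 2 * ‖c i‖ ^ 2).trans (by rw [← mul_sum]; linarith)
    rw [RCLike.norm_sq_eq_def]
    have e1 := sn_mul_self b.1
    have e2 := sn_mul_self b.2
    simp only [a]
    nlinarith [sq_nonneg (sn b.1 * RCLike.re (c i) - sn b.2 * RCLike.im (c i))]
  have h2 : ∀ ε : ι → Bool, Real.exp ‖∑ i, (sn (ε i) : 𝕜) * c i‖ ≤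
      ∑ b, Real.exp (∑ i, sn (ε i) * a b i) := fun ε => by
    set z := ∑ i, (sn (ε i) : 𝕜) * c i with hz
    have e : ∀ b, ∑ i, sn (ε i) * a b i = sn b.1 * RCLike.re z + sn b.2 * RCLike.im z := fun b => by
      simp only [hz, map_sum, RCLike.re_ofReal_mul, RCLike.im_ofReal_mul, mul_sum, a,
        ← sum_add_distrib]
      exact sum_congr rfl fun i _ => by ring
    have s : ∀ x : ℝ, sn (decide (0 ≤ x)) * x = |x| := fun x => by
      by_cases hx : 0 ≤ x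
      · simp [sn, hx, abs_of_nonneg hx]
      · simp [sn, hx, abs_of_neg (not_le.1 hx)]
    refine le_trans ?_ (single_le_sum (fun b _ => (Real.exp_pos _).le)
      (mem_univ (decide (0 ≤ RCLike.re z), decide (0 ≤ RCLike.im z))))
    rw [e, s, s]
    refine Real.exp_le_exp.2 (abs_le_of_sq_le_sq' ?_ (by positivity)).2
    rw [RCLike.norm_sq_eq_def]
    nlinarith [abs_mul_abs_self (RCLike.re z), abs_mul_abs_self (RCLike.im z),
      mul_nonneg (abs_nonneg (RCLike.re z)) (abs_nonneg (RCLike.im z))]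
  calc ∑ ε : ι → Bool, ‖∑ i, (sn (ε i) : 𝕜) * c i‖ ^ r
      ≤ ∑ ε : ι → Bool, (1 + (⌈r⌉₊).factorial) * ∑ b, Real.exp (∑ i, sn (ε i) * a b i) :=
        sum_le_sum fun ε _ => (h1 _ (norm_nonneg _)).trans
          (mul_le_mul_of_nonneg_left (h2 ε) (by positivity))
    _ = (1 + (⌈r⌉₊).factorial) * ∑ b, ∑ ε : ι → Bool, Real.exp (∑ i, sn (ε i) * a b i) := by
        rw [← mul_sum, sum_comm]
    _ ≤ (1 + (⌈r⌉₊).factorial) * ∑ _b : Bool × Bool, (3 * Fintype.card (ι → Bool) : ℝ) := by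
        gcongr with b; exact sum_exp_le _ (ha b)
    _ = _ := by simp; ring

end Pool.Agent.P.MP_6b6f2e_an
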