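import Pool.Agent.P.MP_6b6f2e_an.Curves
import Pool.Agent.P.MP_6b6f2e_an.Colour
import Pool.Agent.P.MP_6b6f2e_an.Khin

set_option autoImplicit false
set_option linter.unusedSectionVars false

namespace Pool.Agent.P.MP_6b6f2e_an

open Finset
open scoped ENNReal

variable {𝕜 : Type} [RCLike 𝕜] {p r : ℝ≥0∞} [Fact (1 ≤ p)] [Fact (1 ≤ r)]

theorem N_flat {Γ : Type} [Fintype Γ] {κ : Γ → Type} [∀ γ, Fintype (κ γ)] (x : ∀ γ, κ γ → 𝕜) :
    N p p x = nn p fun σ : Σ γ, κ γ => ‖x σ.1 σ.2‖ :=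
  nn_sigma fun γ b => ‖x γ b‖

section gadget

variable {X Φ : Type} [Fintype X] [DecidableEq X] [Nonempty X] [Fintype Φ] [DecidableEq Φ]
  [Nonempty Φ]

/-- Spreading the row `i₀` along the curves. -/
noncomputable def dilA (π : ℝ) (ev : Φ → X → X) (i₀ : X × X) :
    (X × X → Φ → 𝕜) →ₗ[𝕜] (X × X → Φ → 𝕜) where
  toFun w i φ := (1 / (Fintype.card X : ℝ) ^ (1 / π) * ind ev φ i : ℝ) * w i₀ φ
  map_add' y y' := by funext i φ; simp [mul_add]
  map_smul' t y := by funext i φ; simp [mul_left_comm]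

/-- The gadget for the `ℓ_p`-sum of `ℓ_r^n`, `r < p < ∞`. -/
@[reducible] noncomputable def gadA (𝕜 : Type) [RCLike 𝕜] (π : ℝ) (ev : Φ → X → X) (i₀ : X × X) :
    Gad 𝕜 where
  α := X × X
  β := Φ
  I := Φ
  fα := inferInstance
  fβ := inferInstance
  fI := inferInstance
  T := dilA π ev i₀
  x φ := ee i₀ φ
  f φ i ψ := if ψ = φ then (((Fintype.card X : ℝ) ^ (1 / π) / (Fintype.card X * Fintype.card Φ) :
    ℝ) : 𝕜) * ind ev φ i else 0

variable {ev : Φ → X → X} {K : ℝ}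

theorem ΦA (π : ℝ) (i₀ : X × X) (S : (X × X → Φ → 𝕜) →ₗ[𝕜] (X × X → Φ → 𝕜)) :
    (gadA 𝕜 π ev i₀).Φ S = (((Fintype.card X : ℝ) ^ (1 / π) / (Fintype.card X * Fintype.card Φ) :
      ℝ) : 𝕜) * ∑ φ, ∑ x, S (ee i₀ φ) (x, ev φ x) φ := by
  unfold Gad.Φ pair
  rw [mul_sum]
  refine sum_congr rfl fun φ _ => ?_
  rw [← sum_ind_mul φ fun i => S (ee i₀ φ) i φ, mul_sum]
  refine sum_congr rfl fun i _ => ?_
  rw [sum_eq_single φ (fun ψ _ h => by simp [h]) (by simp)]
  simp only [if_true, mul_assoc]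

theorem curve_one (hp : p ≠ ∞) (y : X × X → Φ → 𝕜) (φ : Φ) : ‖∑ x, y (x, ev φ x) φ‖ ≤
    Fintype.card X / (Fintype.card X : ℝ) ^ (1 / p.toReal) * N p r y := by
  have hs : (0 : ℝ) < Fintype.card X := by exact_mod_cast Fintype.card_pos
  have h1 := sum_le_card_nn hp univ fun x => ‖y (x, ev φ x) φ‖
  simp only [abs_norm, card_univ] at h1
  rw [Real.rpow_sub hs, Real.rpow_one] at h1
  refine (norm_sum_le _ _).trans (h1.trans (mul_le_mul_of_nonneg_left ?_ (by positivity)))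
  refine le_trans (nn_mono' (fun _ => norm_nonneg _) fun x => ?_)
    (nn_comp_le (e := fun x => (x, ev φ x)) (fun x x' h => (Prod.ext_iff.1 h).1) _)
  exact (le_abs_self _).trans (abs_le_nn (p := r) (fun b => ‖y (x, ev φ x) b‖) φ)

theorem curve_weak (hrp : r ≤ p) (hp : p ≠ ∞) (y : X × X → Φ → 𝕜) (A : Finset Φ) :
    ∑ φ ∈ A, ‖∑ x, y (x, ev φ x) φ‖ ≤ Fintype.card X / (Fintype.card X : ℝ) ^ (1 / p.toReal) *
      ((A.card : ℝ) ^ (1 - 1 / r.toReal) *
        (Fintype.card X : ℝ) ^ (1 / r.toReal - 1 / p.toReal)) * N p r y := by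
  have hs : (0 : ℝ) < Fintype.card X := by exact_mod_cast Fintype.card_pos
  have h1 := sum_le_card_nn (ne_top_of_le_ne_top hp hrp) (A ×ˢ (univ : Finset X))
    fun j => ‖y (j.2, ev j.1 j.2) j.1‖
  simp only [abs_norm, card_product, card_univ, sum_product, Nat.cast_mul] at h1
  have h2 : (nn r fun j : Φ × X => ‖y (j.2, ev j.1 j.2) j.1‖) ≤ N r r y := by
    rw [N_flat]
    exact nn_comp_le (e := fun j : Φ × X => (⟨(j.2, ev j.1 j.2), j.1⟩ : Σ _ : X × X, Φ))
      (fun j j' h => by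
        simp only [Sigma.mk.injEq, Prod.mk.injEq, heq_eq_eq] at h
        exact Prod.ext h.2 h.1.1) fun σ => ‖y σ.1 σ.2‖
  have h3 : N r r y ≤ _ * N p r y := nn_le_card hrp hp _
  refine (sum_le_sum fun φ _ => norm_sum_le _ _).trans (h1.trans ((mul_le_mul_of_nonneg_left
    (h2.trans h3) (by positivity)).trans (le_of_eq ?_)))
  rw [Fintype.card_prod, Nat.cast_mul, Real.mul_rpow hs.le hs.le,
    Real.mul_rpow (by positivity) hs.le, Real.rpow_sub hs, Real.rpow_sub hs, Real.rpow_one]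
  have : (Fintype.card X : ℝ) ^ (1 / r.toReal) ≠ 0 := by positivity
  field_simp

theorem oneA (π : ℝ) (i₀ : X × X) : (gadA 𝕜 π ev i₀).Φ (gadA 𝕜 π ev i₀).T = 1 := by
  have hs : (0 : ℝ) < Fintype.card X := by exact_mod_cast Fintype.card_pos
  have hm : (0 : ℝ) < Fintype.card Φ := by exact_mod_cast Fintype.card_pos
  rw [ΦA]
  simp only [dilA, LinearMap.coe_mk, AddHom.coe_mk, ee_same, ind, if_true, mul_one, sum_const,
    card_univ, nsmul_eq_mul]
  rw [← RCLike.ofReal_natCast (K := 𝕜) (Fintype.card X),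
    ← RCLike.ofReal_natCast (K := 𝕜) (Fintype.card Φ), ← RCLike.ofReal_mul,
    ← RCLike.ofReal_mul, ← RCLike.ofReal_mul]
  refine Eq.trans (congrArg _ ?_) RCLike.ofReal_one
  have : (Fintype.card X : ℝ) ^ (1 / π) ≠ 0 := by positivity
  field_simp

theorem hΦA (hp : p ≠ ∞) (i₀ : X × X) (S : (X × X → Φ → 𝕜) →ₗ[𝕜] (X × X → Φ → 𝕜)) (B : ℝ)
    (hB : 0 ≤ B) (hS : ∀ y, N p r (S y) ≤ B * N p r y) :
    ‖(gadA 𝕜 p.toReal ev i₀).Φ S‖ ≤ B := by
  have hs : (0 : ℝ) < Fintype.card X := by exact_mod_cast Fintype.card_pos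
  have hm : (0 : ℝ) < Fintype.card Φ := by exact_mod_cast Fintype.card_pos
  rw [ΦA, norm_mul, RCLike.norm_ofReal, abs_of_nonneg (by positivity)]
  have h : ‖∑ φ, ∑ x, S (ee i₀ φ) (x, ev φ x) φ‖ ≤
      ∑ _φ : Φ, Fintype.card X / (Fintype.card X : ℝ) ^ (1 / p.toReal) * B :=
    norm_sum_le_of_le _ fun φ _ => (curve_one (r := r) hp _ φ).trans (mul_le_mul_of_nonneg_left
      ((hS _).trans (mul_le_of_le_one_right hB (N_ee _ _))) (by positivity))
  refine (mul_le_mul_of_nonneg_left h (by positivity)).trans (le_of_eq ?_)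
  simp only [sum_const, card_univ, nsmul_eq_mul]
  have : (Fintype.card X : ℝ) ^ (1 / p.toReal) ≠ 0 := by positivity
  field_simp

theorem norm_dilA (π : ℝ) (i₀ : X × X) (w : X × X → Φ → 𝕜) (i : X × X) (φ : Φ) :
    ‖dilA π ev i₀ w i φ‖ = 1 / (Fintype.card X : ℝ) ^ (1 / π) * (ind ev φ i * ‖w i₀ φ‖) := by
  simp only [dilA, LinearMap.coe_mk, AddHom.coe_mk, norm_mul, RCLike.norm_ofReal]
  rw [abs_of_nonneg (mul_nonneg (by positivity) (ind_nonneg _ _)), mul_assoc]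

theorem ind_rpow (φ : Φ) (i : X × X) {σ : ℝ} (hσ : 0 < σ) (t : ℝ) :
    (ind ev φ i * t) ^ σ = ind ev φ i * t ^ σ := by
  unfold ind; split_ifs <;> simp [Real.zero_rpow hσ.ne']

theorem div_rpow_card (hp : p ≠ ∞) {t : ℝ} (ht : 0 ≤ t) :
    (1 / (Fintype.card X : ℝ) ^ (1 / p.toReal) * t) ^ p.toReal =
      1 / Fintype.card X * t ^ p.toReal := by
  rw [Real.mul_rpow (by positivity) ht, Real.div_rpow zero_le_one (by positivity), Real.one_rpow,
    ← Real.rpow_mul (by positivity), one_div_mul_cancel (toReal_pos' hp).ne', Real.rpow_one]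

theorem dilA_le (hp : p ≠ ∞) (i₀ : X × X) (w : X × X → Φ → 𝕜) :
    N p p (dilA p.toReal ev i₀ w) ≤ N p p w := by
  have hs : (0 : ℝ) < Fintype.card X := by exact_mod_cast Fintype.card_pos
  refine le_trans ?_ (row_le_N w i₀)
  rw [N_flat, nn_le_iff hp _ (nn_nonneg _), nn_rpow hp, Fintype.sum_sigma, sum_comm]
  refine sum_le_sum fun φ _ => le_of_eq ?_
  have e : ∀ i, ‖dilA p.toReal ev i₀ w i φ‖ ^ p.toReal =
      ind ev φ i * (1 / Fintype.card X * ‖w i₀ φ‖ ^ p.toReal) := fun i => by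
    rw [norm_dilA, div_rpow_card hp (mul_nonneg (ind_nonneg _ _) (norm_nonneg _)),
      ind_rpow _ _ (toReal_pos' hp), mul_left_comm]
  simp only [abs_norm, e, ← sum_mul, sum_ind]
  field_simp

theorem locA (hrp : r ≤ p) (hp : p ≠ ∞) (hK : ∀ φ ψ, φ ≠ ψ → ∑ i, ind ev φ i * ind ev ψ i ≤ K)
    (hK0 : 0 ≤ K) (i₀ : X × X) {D : ℕ} {θ δ η : ℝ} (hθ : 0 < θ) (hδ : 0 < δ) (hη : 0 ≤ η)
    (h1 : K * (D / θ ^ r.toReal) ^ 2 + (δ ^ (p.toReal / r.toReal - 1) * Fintype.card X +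
      (θ ^ r.toReal * Fintype.card X + K) / δ) ≤ η ^ p.toReal * Fintype.card X) :
    Loc p r p p 1 (gadA 𝕜 p.toReal ev i₀) D η := by
  classical
  have hs : (0 : ℝ) < Fintype.card X := by exact_mod_cast Fintype.card_pos
  have hr : r ≠ ∞ := ne_top_of_le_ne_top hp hrp
  have hρ := toReal_pos' hr
  have hπ := toReal_pos' hp
  intro J _ hJ y hy
  have hy' : ∀ j, ∑ φ, ‖y j i₀ φ‖ ^ r.toReal ≤ 1 := fun j => by
    simpa using sum_rpow_le_of_nn hr (fun _ => norm_nonneg _) ((row_le_N (y j) i₀).trans (hy j))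
  let Λ : Finset Φ := univ.filter fun φ => ∃ j, θ < ‖y j i₀ φ‖
  have hΛ : Λ.card ≤ D / θ ^ r.toReal := by
    rw [le_div_iff₀ (by positivity)]
    refine (card_mul_le Λ (fun φ => ∑ j, ‖y j i₀ φ‖ ^ r.toReal) fun φ hφ => ?_).trans ?_
    · obtain ⟨j, hj⟩ := (mem_filter.1 hφ).2
      exact (Real.rpow_le_rpow hθ.le hj.le hρ.le).trans (single_le_sum
        (f := fun j => ‖y j i₀ φ‖ ^ r.toReal) (fun _ _ => by positivity) (mem_univ j))
    · refine (sum_le_sum_of_subset_of_nonneg (subset_univ _) fun _ _ _ => by positivity).trans ?_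
      rw [sum_comm]
      refine (sum_le_card_nsmul _ _ 1 fun j _ => hy' j).trans ?_
      simpa using hJ
  let P : X × X → Φ → Prop := fun i φ => φ ∈ Λ ∧ ∀ ψ ∈ Λ, ev ψ i.1 = i.2 → ψ = φ
  refine ⟨LinearMap.id, mask P ∘ₗ dilA p.toReal ev i₀, fun z => ?_, fun z => ?_, fun j => ?_⟩
  · rw [one_mul]
    exact N_anti hrp z
  · rw [one_mul]
    refine le_trans (nn_mono' (fun _ => nn_nonneg _) fun i => nn_le_of_unique (p := p) _ ?_)
      ((N_mono (norm_mask_le P _)).trans (dilA_le hp i₀ z))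
    have key : ∀ φ, ‖(mask P ∘ₗ dilA p.toReal ev i₀) z i φ‖ ≠ 0 → P i φ ∧ ev φ i.1 = i.2 := by
      intro φ h
      rw [LinearMap.comp_apply, mask_apply] at h
      split_ifs at h with h'
      · refine ⟨h', by_contra fun h'' => h ?_⟩
        rw [norm_dilA, ind, if_neg h'', zero_mul, mul_zero]
      · simp at h
    exact fun φ ψ hφ hψ => (key ψ hψ).1.2 φ (key φ hφ).1.1 (key φ hφ).2
  · rw [LinearMap.id_apply, N, nn_le_iff hp _ hη]
    let c : Φ → ℝ := fun φ => if φ ∈ Λ then 0 else ‖y j i₀ φ‖ ^ r.toReal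
    have hc0 : ∀ φ, 0 ≤ c φ := fun φ => by simp only [c]; positivity
    have a1 := flat_sum hK hK0 c (θ := θ ^ r.toReal) (β := p.toReal / r.toReal) hc0
      (fun φ => by
        simp only [c]
        split_ifs with h
        · positivity
        · exact Real.rpow_le_rpow (norm_nonneg _) (not_lt.1 fun h' =>
            h (mem_filter.2 ⟨mem_univ _, j, h'⟩)) hρ.le) (by positivity)
      (le_trans (sum_le_sum fun φ _ => by simp only [c]; split_ifs <;> first | positivity | rfl)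
        (hy' j))
      ((one_le_div hρ).2 (ENNReal.toReal_mono hp hrp)) hδ
    have a2 := (bad_sum hK hK0 Λ).trans (mul_le_mul_of_nonneg_left
      (pow_le_pow_left₀ (Nat.cast_nonneg _) hΛ 2) hK0)
    have a3 : ∀ i, |nn r fun φ => ‖((gadA 𝕜 p.toReal ev i₀).T (y j) -
        (mask P ∘ₗ dilA p.toReal ev i₀) (y j)) i φ‖| ^ p.toReal ≤ 1 / Fintype.card X *
          (∑ φ ∈ Λ, ∑ ψ ∈ Λ.erase φ, ind ev φ i * ind ev ψ i +
            (∑ φ, ind ev φ i * c φ) ^ (p.toReal / r.toReal)) := fun i => by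
      have b0 : ∀ φ, ‖((gadA 𝕜 p.toReal ev i₀).T (y j) - (mask P ∘ₗ dilA p.toReal ev i₀) (y j))
          i φ‖ = 1 / (Fintype.card X : ℝ) ^ (1 / p.toReal) *
            if P i φ then 0 else ind ev φ i * ‖y j i₀ φ‖ := fun φ => by
        simp only [Pi.sub_apply, LinearMap.comp_apply, mask_apply]
        split_ifs
        · simp
        · rw [sub_zero, norm_dilA]
      simp only [b0, nn_mul]
      rw [abs_of_nonneg (mul_nonneg (abs_nonneg _) (nn_nonneg _)), abs_of_nonneg (by positivity),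
        div_rpow_card hp (nn_nonneg _)]
      refine mul_le_mul_of_nonneg_left ?_ (by positivity)
      have b1 : 0 ≤ ∑ φ, ind ev φ i * c φ :=
        sum_nonneg fun φ _ => mul_nonneg (ind_nonneg _ _) (hc0 φ)
      have b2 : ∀ φ, 0 ≤ ∑ ψ ∈ Λ.erase φ, ind ev φ i * ind ev ψ i := fun φ =>
        sum_nonneg fun ψ _ => mul_nonneg (ind_nonneg _ _) (ind_nonneg _ _)
      by_cases hb : ∃ φ ∈ Λ, ∃ ψ ∈ Λ.erase φ, ev φ i.1 = i.2 ∧ ev ψ i.1 = i.2
      · obtain ⟨φ, hφ, ψ, hψ, e1, e2⟩ := hb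
        refine le_add_of_le_of_nonneg (le_trans ?_ ((single_le_sum (fun ψ _ => mul_nonneg
          (ind_nonneg _ _) (ind_nonneg _ _)) hψ).trans (single_le_sum (fun φ _ => b2 φ) hφ)))
          (by positivity)
        rw [ind, ind, if_pos e1, if_pos e2, mul_one]
        refine Real.rpow_le_one (nn_nonneg _) (le_trans (nn_mono' (fun φ => ?_) fun φ => ?_)
          ((row_le_N (y j) i₀).trans (hy j))) hπ.le
        · split_ifs
          · rfl
          · exact mul_nonneg (ind_nonneg _ _) (norm_nonneg _)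
        · split_ifs
          · exact norm_nonneg _
          · exact mul_le_of_le_one_left (norm_nonneg _) (ind_le _ _)
      · refine le_add_of_nonneg_of_le (sum_nonneg fun φ _ => b2 φ) ?_
        rw [nn_eq hr, ← Real.rpow_mul (by positivity), one_div_mul_eq_div]
        refine Real.rpow_le_rpow (by positivity) (sum_le_sum fun φ _ => ?_) (by positivity)
        split_ifs with h
        · rw [abs_zero, Real.zero_rpow hρ.ne']
          exact mul_nonneg (ind_nonneg _ _) (hc0 φ)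
        · rw [abs_of_nonneg (mul_nonneg (ind_nonneg _ _) (norm_nonneg _)), ind_rpow _ _ hρ]
          by_cases e1 : ev φ i.1 = i.2
          · have : φ ∉ Λ := fun hφ => h ⟨hφ, fun ψ hψ e2 => by_contra fun hne =>
              hb ⟨φ, hφ, ψ, mem_erase.2 ⟨hne, hψ⟩, e1, e2⟩⟩
            simp only [c, if_neg this, le_refl]
          · simp [ind, e1]
    refine (sum_le_sum fun i _ => a3 i).trans ?_
    rw [← mul_sum, sum_add_distrib, one_div, inv_mul_le_iff₀' hs]
    exact (add_le_add a2 a1).trans h1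

theorem N_signs (hr : r ≠ ∞) (i₀ : X × X) (ε : Φ → Bool) :
    N p r (∑ φ, (sn (ε φ) : 𝕜) • (ee i₀ φ : X × X → Φ → 𝕜)) ≤
      (Fintype.card Φ : ℝ) ^ (1 / r.toReal) := by
  rw [N_row _ i₀ fun i h => by simp [Finset.sum_apply, ee_of_ne i₀ _ h], nn_eq hr]
  refine le_of_eq (congrArg (· ^ (1 / r.toReal)) ?_)
  have : ∀ φ, ‖(∑ ψ, (sn (ε ψ) : 𝕜) • (ee i₀ ψ : X × X → Φ → 𝕜)) i₀ φ‖ = 1 := fun φ => by
    simp only [Finset.sum_apply, Pi.smul_apply, smul_eq_mul]
    rw [sum_eq_single φ (fun ψ _ h => by rw [ee_of_ne' i₀ h.symm, mul_zero]) (by simp), ee_same,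
      mul_one, norm_sn]
  simp only [this, abs_one, Real.one_rpow, sum_const, card_univ, nsmul_eq_mul, mul_one]

theorem globA (hrp : r ≤ p) (hp : p ≠ ∞) (i₀ : X × X) (C : Type) [Fintype C] [AddCommGroup C]
    (hM : (Fintype.card C : ℝ) * Fintype.card X ^ 2 = Fintype.card Φ) {B τ μ : ℝ} (hB : 0 < B)
    (hτ : 0 < τ) (hμ : 1 / r.toReal ≤ μ ∨ 1 - 1 / r.toReal ≤ μ) :
    Glob p r p p (gadA 𝕜 p.toReal ev i₀) B
      (8 * B ^ 2 * τ * (Fintype.card Φ : ℝ) ^ μ * Fintype.card X + B ^ 2 / (τ ^ 2 * Fintype.card C)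
        + 16 * B ^ 2 / (Fintype.card X : ℝ) ^ (1 / r.toReal - 1 / p.toReal)) := by
  classical
  have hs1 : (1 : ℝ) ≤ Fintype.card X := by exact_mod_cast Fintype.card_pos
  have hm1 : (1 : ℝ) ≤ Fintype.card Φ := by exact_mod_cast Fintype.card_pos
  have hs : (0 : ℝ) < Fintype.card X := by linarith
  have hm : (0 : ℝ) < Fintype.card Φ := by linarith
  have hC : (0 : ℝ) < Fintype.card C := by exact_mod_cast Fintype.card_pos
  have hr : r ≠ ∞ := ne_top_of_le_ne_top hp hrp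
  have hρ := toReal_pos' hr
  have hπ := toReal_pos' hp
  have hsπ : 0 < (Fintype.card X : ℝ) ^ (1 / p.toReal) := by positivity
  set d := 1 / r.toReal - 1 / p.toReal with hd
  have hd0 : 0 ≤ d := sub_nonneg.2 (one_div_le_one_div_of_le hρ (ENNReal.toReal_mono hp hrp))
  have hd1 : d ≤ 1 := by
    have := (div_le_one hρ).2 (one_le_toReal hr)
    linarith [one_div_pos.2 hπ]
  have hsd : 0 < (Fintype.card X : ℝ) ^ d := by positivity
  intro Γ _ κ _ W V hW hV
  let z : Φ → (Σ γ, κ γ) → 𝕜 := fun φ σ => W (ee i₀ φ) σ.1 σ.2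
  let G : Φ → (Σ γ, κ γ) → 𝕜 := fun φ σ =>
    (((Fintype.card X : ℝ) ^ (1 / p.toReal) / Fintype.card X : ℝ) : 𝕜) *
      ∑ x, V (ee σ.1 σ.2) (x, ev φ x) φ
  have hG : ∀ (g : (Σ γ, κ γ) → 𝕜) φ, ∑ σ, g σ * G φ σ =
      (((Fintype.card X : ℝ) ^ (1 / p.toReal) / Fintype.card X : ℝ) : 𝕜) *
        ∑ x, V (fun γ k => g ⟨γ, k⟩) (x, ev φ x) φ := fun g φ => by
    simp only [map_apply_eq V fun γ k => g ⟨γ, k⟩, G, mul_sum]
    rw [sum_comm]
    refine sum_congr rfl fun x _ => ?_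
    rw [Fintype.sum_sigma]
    exact sum_congr rfl fun γ _ => sum_congr rfl fun k _ => by ring
  have hVg : ∀ (g : (Σ γ, κ γ) → 𝕜) (t : (Σ γ, κ γ) → ℝ), (∀ σ, ‖g σ‖ ≤ t σ) →
      N p r (V fun γ k => g ⟨γ, k⟩) ≤ B * nn p t := fun g t h => by
    refine (hV _).trans (mul_le_mul_of_nonneg_left ?_ hB.le)
    rw [N_flat]
    exact nn_mono' (fun _ => norm_nonneg _) h
  have h1 : ∀ φ, (nn p fun σ => ‖z φ σ‖) ≤ B := fun φ => by
    rw [← N_flat (W (ee i₀ φ))]
    exact (hW _).trans (mul_le_of_le_one_right hB.le (N_ee _ _))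
  have h2 : ∀ φ (t : (Σ γ, κ γ) → ℝ), (∀ k, 0 ≤ t k) → ∑ k, t k * ‖G φ k‖ ≤ B * nn p t := by
    intro φ t ht
    obtain ⟨g, hg, e⟩ := phase_sum t ht (G φ)
    rw [e, hG, norm_mul, RCLike.norm_ofReal, abs_of_nonneg (by positivity)]
    refine (mul_le_mul_of_nonneg_left ((curve_one (r := r) hp _ φ).trans
      (mul_le_mul_of_nonneg_left (hVg g t hg) (by positivity))) (by positivity)).trans
      (le_of_eq ?_)
    field_simp
  have h3 : ∀ (A : Finset Φ) (t : (Σ γ, κ γ) → ℝ), (∀ k, 0 ≤ t k) →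
      ∑ k, t k * √(∑ φ ∈ A, ‖G φ k‖ ^ 2) ≤
        8 * B * ((A.card : ℝ) ^ (1 - 1 / r.toReal) * (Fintype.card X : ℝ) ^ d) * nn p t := by
    intro A t ht
    have := khin_sum (𝕜 := 𝕜) (H := fun _ => 𝕜) t ht (fun σ (φ : A) => G φ σ)
      (B := B * ((A.card : ℝ) ^ (1 - 1 / r.toReal) * (Fintype.card X : ℝ) ^ d) * nn p t) fun ε => by
        obtain ⟨g, hg, e⟩ := phase_sum t ht fun σ => ∑ φ : A, (sn (ε φ) : 𝕜) • G φ σ
        have e2 : ∑ σ, g σ * ∑ φ : A, (sn (ε φ) : 𝕜) • G φ σ =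
            ∑ φ : A, (sn (ε φ) : 𝕜) * ∑ σ, g σ * G φ σ := by
          simp only [mul_sum, smul_eq_mul]
          rw [sum_comm]
          exact sum_congr rfl fun φ _ => sum_congr rfl fun σ _ => mul_left_comm _ _ _
        rw [e, e2]
        refine (norm_sum_le _ _).trans ?_
        simp only [hG, norm_mul, abs_sn, one_mul, RCLike.norm_ofReal, ← mul_sum]
        rw [sum_coe_sort A fun φ => ‖∑ x, V (fun γ k => g ⟨γ, k⟩) (x, ev φ x) φ‖,
          abs_of_nonneg (by positivity)]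
        refine (mul_le_mul_of_nonneg_left ((curve_weak hrp hp _ A).trans
          (mul_le_mul_of_nonneg_left (hVg g t hg) (by positivity))) (by positivity)).trans
          (le_of_eq ?_)
        rw [← hd]
        field_simp
    simp only [fun k => sum_coe_sort A fun φ => ‖G φ k‖ ^ 2] at this
    exact this.trans (le_of_eq (by ring))
  have h4 : ∀ n : ℕ, 8 * B * ((n : ℝ) ^ (1 - 1 / r.toReal) * (Fintype.card X : ℝ) ^ d) *
      (B * (n : ℝ) ^ (1 / p.toReal)) ≤ 8 * B ^ 2 / (Fintype.card X : ℝ) ^ d * n +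
        8 * B ^ 2 / (Fintype.card X : ℝ) ^ d * Fintype.card X ^ 2 := fun n => by
    have b1 := Real.geom_mean_le_arith_mean2_weighted (sub_nonneg.2 hd1) hd0
      (Nat.cast_nonneg (α := ℝ) n) (sq_nonneg (Fintype.card X : ℝ)) (sub_add_cancel 1 d)
    have b2 : (n : ℝ) ^ (1 - d) = (n : ℝ) ^ (1 - 1 / r.toReal) * (n : ℝ) ^ (1 / p.toReal) := by
      have b4 := (div_le_one hρ).2 (one_le_toReal hr)
      rw [← Real.rpow_add' (Nat.cast_nonneg _) (by linarith [one_div_pos.2 hπ]), hd]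
      congr 1
      ring
    rw [b2, sq, Real.mul_rpow hs.le hs.le] at b1
    rw [← mul_add, div_mul_eq_mul_div, le_div_iff₀ hsd]
    have b3 : (1 - d) * n + d * (Fintype.card X * Fintype.card X) ≤
        n + (Fintype.card X : ℝ) ^ 2 := by
      nlinarith [mul_nonneg hd0 (Nat.cast_nonneg (α := ℝ) n), mul_nonneg (sub_nonneg.2 hd1)
        (mul_nonneg hs.le hs.le)]
    nlinarith [mul_le_mul_of_nonneg_left (b1.trans b3) (by positivity : 0 ≤ 8 * B ^ 2)]
  obtain ⟨𝓛, hL, hE⟩ : ∃ 𝓛 : (Σ γ, κ γ) → Finset Φ, (∀ k, ((𝓛 k).card : ℝ) ≤ 1 / τ ^ 2) ∧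
      ∑ k, ∑ φ ∈ (𝓛 k)ᶜ, ‖z φ k‖ * ‖G φ k‖ ≤
        Fintype.card Φ * (8 * B ^ 2 * τ * (Fintype.card Φ : ℝ) ^ μ * Fintype.card X) := by
    rcases hμ with hμ | hμ
    · refine ⟨fun k => univ.filter fun φ => τ * √(∑ φ, ‖z φ k‖ ^ 2) < ‖z φ k‖,
        fun k => card_large _ hτ, ?_⟩
      have b1 := khin_nn (p := p) z (B := B * (Fintype.card Φ : ℝ) ^ (1 / r.toReal)) fun ε => by
        have := (hW _).trans (mul_le_mul_of_nonneg_left (N_signs (p := p) hr i₀ ε) hB.le)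
        rw [N_flat] at this
        simpa only [map_sum, map_smul, Finset.sum_apply, Pi.smul_apply, smul_eq_mul] using this
      calc _ ≤ ∑ k, ∑ φ, τ * (√(∑ φ, ‖z φ k‖ ^ 2) * ‖G φ k‖) := sum_le_sum fun k _ =>
            (sum_le_sum fun φ hφ => by
              rw [← mul_assoc]
              exact mul_le_mul_of_nonneg_right (by simpa using hφ) (norm_nonneg _)).trans
            (sum_le_sum_of_subset_of_nonneg (subset_univ _) fun _ _ _ => by positivity)
        _ ≤ _ := by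
            rw [sum_comm, ← nsmul_eq_mul, ← card_univ]
            refine sum_le_card_nsmul _ _ _ fun φ _ => ?_
            rw [← mul_sum]
            refine (mul_le_mul_of_nonneg_left ((h2 φ _ fun _ => Real.sqrt_nonneg _).trans
              (mul_le_mul_of_nonneg_left b1 hB.le)) hτ.le).trans ?_
            have b2 := (Real.rpow_le_rpow_of_exponent_le hm1 hμ).trans
              (le_mul_of_one_le_right (by positivity) hs1)
            rw [card_univ]
            nlinarith [mul_le_mul_of_nonneg_left b2 (by positivity : 0 ≤ 8 * B ^ 2 * τ)]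
    · refine ⟨fun k => univ.filter fun φ => τ * √(∑ φ, ‖G φ k‖ ^ 2) < ‖G φ k‖,
        fun k => card_large _ hτ, ?_⟩
      calc _ ≤ ∑ k, ∑ φ, τ * (‖z φ k‖ * √(∑ φ, ‖G φ k‖ ^ 2)) := sum_le_sum fun k _ =>
            (sum_le_sum fun φ hφ => by
              rw [mul_left_comm]
              exact mul_le_mul_of_nonneg_left (by simpa using hφ) (norm_nonneg _)).trans
            (sum_le_sum_of_subset_of_nonneg (subset_univ _) fun _ _ _ => by positivity)
        _ ≤ _ := by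
            rw [sum_comm, ← nsmul_eq_mul, ← card_univ]
            refine sum_le_card_nsmul _ _ _ fun φ _ => ?_
            rw [← mul_sum]
            refine (mul_le_mul_of_nonneg_left ((h3 univ _ fun _ => norm_nonneg _).trans
              (mul_le_mul_of_nonneg_left (h1 φ) (by positivity))) hτ.le).trans ?_
            have b2 := mul_le_mul (Real.rpow_le_rpow_of_exponent_le hm1 hμ)
              (Real.rpow_le_self_of_one_le hs1 hd1) hsd.le (by positivity)
            rw [card_univ]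
            nlinarith [mul_le_mul_of_nonneg_left b2 (by positivity : 0 ≤ 8 * B ^ 2 * τ)]
  have key := glob_abs hp C (fun φ σ => ‖z φ σ‖) (fun φ σ => ‖G φ σ‖) (fun _ _ => norm_nonneg _)
    (fun _ _ => norm_nonneg _) hB.le (by positivity)
    (fun n => 8 * B * ((n : ℝ) ^ (1 - 1 / r.toReal) * (Fintype.card X : ℝ) ^ d))
    (fun n => by positivity) h1 h2 h3 h4 𝓛 hL hE
  have e : (gadA 𝕜 p.toReal ev i₀).Φ (V ∘ₗ W) =
      ((1 / Fintype.card Φ : ℝ) : 𝕜) * ∑ φ, ∑ σ, z φ σ * G φ σ := by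
    rw [ΦA]
    simp only [hG, ← mul_sum, ← mul_assoc, ← RCLike.ofReal_mul]
    congr 2
    ring
  rw [e, norm_mul, RCLike.norm_ofReal, abs_of_nonneg (by positivity), one_div,
    inv_mul_le_iff₀ hm]
  refine (norm_sum_le_of_le _ fun φ _ => norm_sum_le_of_le _ fun σ _ =>
    (norm_mul _ _).le).trans (key.trans (le_of_eq ?_))
  rw [mul_assoc _ _ (Fintype.card C : ℝ), mul_comm _ (Fintype.card C : ℝ), hM]
  field_simp
  ring

end gadget

theorem coreA (hrp : r < p) (hp : p ≠ ∞) (h2 : r ≠ 2) : ∃ G : ℕ → Gad 𝕜, Core p r 2 G := by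
  have hr : r ≠ ∞ := ne_top_of_lt hrp
  have hρ := toReal_pos' hr
  have hπ := toReal_pos' hp
  have hρπ := ENNReal.toReal_strict_mono hp hrp
  have hρ1 := (div_le_one hρ).2 (one_le_toReal hr)
  set d := 1 / r.toReal - 1 / p.toReal with hd
  have hd0 : 0 < d := sub_pos.2 (one_div_lt_one_div_of_lt hρ hρπ)
  have hd1 : d ≤ 1 := by linarith [one_div_pos.2 hπ]
  set μ := min (1 / r.toReal) (1 - 1 / r.toReal) with hμ
  have hμ1 : μ < 1 / 2 := by
    have : r.toReal ≠ 2 := fun h => h2 (by rw [← ENNReal.ofReal_toReal hr, h]; simp)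
    rcases this.lt_or_gt with h | h
    · exact min_lt_of_right_lt (by linarith [one_div_lt_one_div_of_lt hρ h])
    · exact min_lt_of_left_lt (one_div_lt_one_div_of_lt two_pos h)
  obtain ⟨K, hK⟩ := exists_nat_ge (7 / (1 - 2 * μ))
  rw [div_le_iff₀ (by linarith)] at hK
  refine core_of (u := p) (v := p) (by norm_num) fun D η B ε hη hB hε => ?_
  set η' := min η 1 ^ p.toReal / 3 with hη'
  have hη0 : 0 < η' := by positivity
  obtain ⟨δ, hδ, hδ'⟩ := exists_rpow_le (sub_pos.2 ((one_lt_div hρ).2 hρπ)) hη0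
  obtain ⟨θ, hθ, hθ'⟩ := exists_rpow_le hρ (mul_pos hη0 hδ)
  obtain ⟨n, hn⟩ := exists_nat_ge (max ((25 * (B + 1) ^ 2 / ε) ^ (1 / d))
    (((K + 2 : ℕ) * ((D + 1 : ℕ) / θ ^ r.toReal) ^ 2 + (K + 2 : ℕ) / δ) / η'))
  obtain ⟨q, hq, hq'⟩ := Nat.exists_infinite_primes n
  have := Fact.mk hq'
  have hq1 : (1 : ℝ) ≤ q := by exact_mod_cast hq'.one_le
  have hq0 : (0 : ℝ) < q := by linarith
  have hn' := hn.trans (Nat.cast_le.2 hq)
  obtain ⟨ev, hev⟩ := exists_curves q (K + 2)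
  have hloc := locA (𝕜 := 𝕜) hrp.le hp hev (by positivity) (0, 0) (D := D + 1) (η := min η 1)
    hθ hδ (by positivity) (by
      have a1 := (le_max_right _ _).trans hn'
      rw [div_le_iff₀ hη0] at a1
      rw [← div_le_iff₀ hδ] at hθ'
      rw [ZMod.card, add_div, mul_div_right_comm, show min η 1 ^ p.toReal = 3 * η' by
        rw [hη']; ring]
      nlinarith [mul_le_mul_of_nonneg_right hδ' hq0.le, mul_le_mul_of_nonneg_right hθ' hq0.le])
  refine ⟨gadA 𝕜 p.toReal ev (0, 0), ⟨⟨fun y => ?_, oneA _ _, fun S B hB hS =>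
    (hΦA hp _ S B hB hS).trans (by linarith)⟩, fun i => N_ee _ _⟩,
    hloc.mono (by norm_num) (by omega) (min_le_left _ _), ?_⟩
  · refine (hloc.bound (by norm_num) (by omega) le_rfl y).trans
      (mul_le_mul_of_nonneg_right ?_ (N_nonneg _))
    linarith [min_le_right η 1]
  · intro Γ _ κ _ W V hW hV
    refine (globA hrp.le hp (0, 0) (Fin K → ZMod q) (by simp [pow_add]) (B := B + 1) (μ := μ)
      (τ := 1 / (((q : ℝ) ^ (K + 2)) ^ μ * q ^ 2)) (by positivity) (by positivity)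
      ((min_cases _ _).imp (fun h => h.1.ge) fun h => h.1.ge) Γ κ W V
      (fun z => (hW z).trans (mul_le_mul_of_nonneg_right (by linarith) (N_nonneg _)))
      fun z => (hV z).trans (mul_le_mul_of_nonneg_right (by linarith) (N_nonneg _))).trans ?_
    simp only [Fintype.card_fun, ZMod.card, Fintype.card_fin, Nat.cast_pow, ← hd]
    have a1 : (q : ℝ) ^ d ≤ q := Real.rpow_le_self_of_one_le hq1 hd1
    have a2 : 25 * (B + 1) ^ 2 / ε ≤ (q : ℝ) ^ d := by
      have := (le_max_left _ _).trans hn'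
      rwa [one_div, Real.rpow_inv_le_iff_of_pos (by positivity) hq0.le hd0] at this
    have a3 : (((q : ℝ) ^ (K + 2)) ^ μ * q ^ 2) ^ 2 * q ≤ q ^ K := by
      simp only [← Real.rpow_natCast, ← Real.rpow_mul hq0.le, ← Real.rpow_add hq0]
      rw [← Real.rpow_add_one hq0.ne']
      refine Real.rpow_le_rpow_of_exponent_le hq1 ?_
      push_cast
      linarith
    have a4 : 0 < (q : ℝ) ^ d := by positivity
    have a5 : (B + 1) ^ 2 / q ≤ (B + 1) ^ 2 / (q : ℝ) ^ d := by gcongr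
    have a6 : (B + 1) ^ 2 / ((1 / (((q : ℝ) ^ (K + 2)) ^ μ * q ^ 2)) ^ 2 * q ^ K) ≤
        (B + 1) ^ 2 / q := by
      refine div_le_div_of_nonneg_left (by positivity) hq0 ?_
      rwa [div_pow, one_pow, one_div, le_inv_mul_iff₀ (by positivity)]
    have a7 : 8 * (B + 1) ^ 2 * (1 / (((q : ℝ) ^ (K + 2)) ^ μ * q ^ 2)) *
        ((q : ℝ) ^ (K + 2)) ^ μ * q = 8 * ((B + 1) ^ 2 / q) := by
      have : ((q : ℝ) ^ (K + 2)) ^ μ ≠ 0 := by positivity
      field_simp
    rw [div_le_comm₀ hε a4, mul_div_assoc] at a2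
    rw [a7, mul_div_assoc]
    linarith

end Pool.Agent.P.MP_6b6f2e_an
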