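import Pool.Agent.P.MP_6b6f2e_an.Khin

set_option autoImplicit false
set_option linter.unusedSectionVars false

namespace Pool.Agent.P.MP_6b6f2e_an

open Finset

/-- Characters of the Klein four-group, possibly twisted by a bent function. -/
def hh (b : Bool) (c ω : Bool × Bool) : ℤ :=
  (if c.1 && ω.1 then -1 else 1) * (if c.2 && ω.2 then -1 else 1) *
    (if b && ω.1 && ω.2 then -1 else 1)

theorem hh_abs : ∀ b c ω, |hh b c ω| = 1 := by decide

theorem hh_same : ∀ b c c', ∑ ω, hh b c ω * hh b c' ω = if c = c' then 4 else 0 := by decide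

theorem hh_ne : ∀ b b' c c', b ≠ b' → |∑ ω, hh b c ω * hh b' c' ω| ≤ 2 := by decide

theorem hh_le : ∀ b b' c c', |∑ ω, hh b c ω * hh b' c' ω| ≤ 4 := by decide

/-- Mutually incoherent orthogonal sign bases. -/
structure IsMub {A Ω : Type} [Fintype Ω] [DecidableEq Ω] (η : ℝ) (f : A → Ω → Ω → ℝ) : Prop where
  abs_eq : ∀ α j ω, |f α j ω| = 1
  orth : ∀ α j j', ∑ ω, f α j ω * f α j' ω = if j = j' then (Fintype.card Ω : ℝ) else 0
  coh : ∀ α β j j', α ≠ β → |∑ ω, f α j ω * f β j' ω| ≤ η * Fintype.card Ω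

theorem exists_mub (a : ℕ) {η : ℝ} (hη : 0 < η) :
    ∃ (Ω : Type) (_ : Fintype Ω) (_ : DecidableEq Ω) (_ : Nonempty Ω) (f : Fin a → Ω → Ω → ℝ),
      IsMub η f := by
  classical
  obtain ⟨t, ht⟩ := exists_pow_lt_of_lt_one hη (by norm_num : (1 / 2 : ℝ) < 1)
  let f : Fin a → (Fin a × Fin t → Bool × Bool) → (Fin a × Fin t → Bool × Bool) → ℝ :=
    fun α j ω => ∏ i, (hh (decide (i.1 = α)) (j i) (ω i) : ℝ)
  have hs : ∀ α β j j', ∑ ω, f α j ω * f β j' ω = ∏ i, ((∑ ω, hh (decide (i.1 = α)) (j i) ω *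
      hh (decide (i.1 = β)) (j' i) ω : ℤ) : ℝ) := fun α β j j' => by
    push_cast
    rw [Fintype.prod_sum]
    simp only [f, prod_mul_distrib]
  have hc : (Fintype.card (Fin a × Fin t → Bool × Bool) : ℝ) = ∏ _i : Fin a × Fin t, 4 := by
    simp
  refine ⟨_, inferInstance, inferInstance, inferInstance, f, fun α j ω => ?_, fun α j j' => ?_,
    fun α β j j' h => ?_⟩
  · simp only [f, abs_prod, ← Int.cast_abs, hh_abs]
    simp
  · rw [hs, hc]
    simp only [hh_same]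
    split_ifs with h
    · simp [h]
    · obtain ⟨i, hi⟩ := Function.ne_iff.1 h
      exact prod_eq_zero (mem_univ i) (by simp [hi])
  · rw [hs, hc, abs_prod]
    calc _ ≤ ∏ i : Fin a × Fin t, ((if i.1 = α then 1 / 2 else 1) * 4 : ℝ) := by
          refine prod_le_prod (fun _ _ => abs_nonneg _) fun i _ => ?_
          rw [← Int.cast_abs]
          split_ifs with hi
          · have := hh_ne (decide (i.1 = α)) (decide (i.1 = β)) (j i) (j' i) (by simp [hi, h])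
            have h2 : ((2 : ℤ) : ℝ) = 1 / 2 * 4 := by norm_num
            rw [← h2]
            exact_mod_cast this
          · have := hh_le (decide (i.1 = α)) (decide (i.1 = β)) (j i) (j' i)
            rw [one_mul]
            exact_mod_cast this
      _ = (1 / 2) ^ t * ∏ _i : Fin a × Fin t, (4 : ℝ) := by
          rw [prod_mul_distrib, Fintype.prod_prod_type]
          simp [prod_ite_eq']
      _ ≤ _ := mul_le_mul_of_nonneg_right ht.le (by positivity)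

variable {𝕜 : Type} [RCLike 𝕜]

theorem synth_le {I Ω : Type} [Fintype Ω] (u : I → Ω → ℝ) {n η : ℝ} (hn : 0 ≤ n) (hη : 0 ≤ η)
    (h1 : ∀ i, ∑ ω, u i ω * u i ω ≤ n) (h2 : ∀ i i', i ≠ i' → |∑ ω, u i ω * u i' ω| ≤ η * n)
    (Λ : Finset I) (c : I → 𝕜) :
    ∑ ω, ‖∑ i ∈ Λ, c i * u i ω‖ ^ 2 ≤ n * (1 + η * Λ.card) * ∑ i ∈ Λ, ‖c i‖ ^ 2 := by
  classical
  have e : ∑ ω, ‖∑ i ∈ Λ, c i * u i ω‖ ^ 2 = ∑ i ∈ Λ, ∑ i' ∈ Λ,
      RCLike.re ((starRingEnd 𝕜) (c i) * c i') * ∑ ω, u i ω * u i' ω := by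
    have : ∀ ω, ‖∑ i ∈ Λ, c i * u i ω‖ ^ 2 = ∑ i ∈ Λ, ∑ i' ∈ Λ,
        RCLike.re ((starRingEnd 𝕜) (c i) * c i') * (u i ω * u i' ω) := fun ω => by
      rw [← RCLike.ofReal_re (K := 𝕜) (‖_‖ ^ 2), RCLike.ofReal_pow, ← RCLike.conj_mul, map_sum,
        sum_mul_sum, map_sum]
      refine sum_congr rfl fun i _ => ?_
      rw [map_sum]
      refine sum_congr rfl fun i' _ => ?_
      rw [mul_comm (RCLike.re _), ← RCLike.re_ofReal_mul]
      congr 1
      simp only [map_mul, RCLike.conj_ofReal]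
      ring
    simp only [this, mul_sum]
    rw [sum_comm]
    exact sum_congr rfl fun i _ => sum_comm
  rw [e]
  calc _ ≤ ∑ i ∈ Λ, ∑ i' ∈ Λ, ((if i = i' then n * ‖c i‖ ^ 2 else 0) + η * n * (‖c i‖ * ‖c i'‖)) := by
        refine sum_le_sum fun i _ => sum_le_sum fun i' _ => ?_
        have a1 : |RCLike.re ((starRingEnd 𝕜) (c i) * c i')| ≤ ‖c i‖ * ‖c i'‖ :=
          (RCLike.abs_re_le_norm _).trans (by rw [norm_mul, RCLike.norm_conj])
        refine (le_abs_self _).trans ?_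
        rw [abs_mul]
        split_ifs with h
        · subst h
          have a2 : |∑ ω, u i ω * u i ω| ≤ n := by
            rw [abs_of_nonneg (sum_nonneg fun _ _ => mul_self_nonneg _)]; exact h1 i
          have a3 := mul_le_mul a1 a2 (abs_nonneg _) (by positivity)
          have a4 : 0 ≤ η * n * (‖c i‖ * ‖c i‖) := by positivity
          nlinarith
        · have a3 := mul_le_mul a1 (h2 i i' h) (abs_nonneg _) (by positivity)
          linarith
    _ = n * ∑ i ∈ Λ, ‖c i‖ ^ 2 + η * n * (∑ i ∈ Λ, ‖c i‖) ^ 2 := by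
        simp only [sum_add_distrib, ← mul_sum, sq (∑ i ∈ Λ, ‖c i‖), ← sum_mul]
        congr 1
        rw [mul_sum]
        exact sum_congr rfl fun i hi => by simp [hi]
    _ ≤ _ := by
        have := mul_le_mul_of_nonneg_left
          (sq_sum_le_card_mul_sum_sq (s := Λ) (f := fun i => ‖c i‖)) (mul_nonneg hη hn)
        nlinarith

theorem bessel_le {I Ω : Type} [Fintype Ω] (u : I → Ω → ℝ) {n η : ℝ} (hn : 0 ≤ n) (hη : 0 ≤ η)
    (h1 : ∀ i, ∑ ω, u i ω * u i ω ≤ n) (h2 : ∀ i i', i ≠ i' → |∑ ω, u i ω * u i' ω| ≤ η * n)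
    (Λ : Finset I) (h : Ω → 𝕜) :
    ∑ i ∈ Λ, ‖∑ ω, h ω * u i ω‖ ^ 2 ≤ n * (1 + η * Λ.card) * ∑ ω, ‖h ω‖ ^ 2 := by
  set L := n * (1 + η * Λ.card) with hL
  have hL0 : 0 ≤ L := by positivity
  let c : I → 𝕜 := fun i => (starRingEnd 𝕜) (∑ ω, h ω * u i ω)
  have hc : ∀ i, ‖c i‖ = ‖∑ ω, h ω * u i ω‖ := fun i => RCLike.norm_conj _
  have s := synth_le u hn hη h1 h2 Λ c
  simp only [hc, ← hL] at s
  set A := ∑ i ∈ Λ, ‖∑ ω, h ω * u i ω‖ ^ 2 with hA
  have hA0 : 0 ≤ A := by positivity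
  have e : (A : 𝕜) = ∑ ω, h ω * ∑ i ∈ Λ, c i * u i ω := by
    simp only [hA, mul_sum]
    rw [sum_comm]
    push_cast
    refine sum_congr rfl fun i _ => ?_
    rw [← RCLike.conj_mul, mul_sum]
    exact sum_congr rfl fun ω _ => by simp only [c]; ring
  have b1 : A ≤ ∑ ω, ‖h ω‖ * ‖∑ i ∈ Λ, c i * u i ω‖ := by
    have := congrArg norm e
    rw [RCLike.norm_ofReal, abs_of_nonneg hA0] at this
    rw [this]
    exact norm_sum_le_of_le _ fun ω _ => (norm_mul _ _).le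
  have b2 := (pow_le_pow_left₀ hA0 b1 2).trans (sum_mul_sq_le_sq_mul_sq _ _ _)
  have b3 := b2.trans (mul_le_mul_of_nonneg_left s (by positivity))
  rcases hA0.eq_or_lt with h0 | h0
  · rw [← h0]; positivity
  · refine le_of_mul_le_mul_left ?_ h0
    nlinarith

section

variable {A Ω : Type} [Fintype Ω] [DecidableEq Ω] {η : ℝ} {f : A → Ω → Ω → ℝ}

theorem IsMub.synth_one (hf : IsMub η f) (α : A) (c : Ω → 𝕜) :
    ∑ ω, ‖∑ j, c j * f α j ω‖ ^ 2 ≤ Fintype.card Ω * ∑ j, ‖c j‖ ^ 2 := by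
  simpa using synth_le (f α) (η := 0) (Nat.cast_nonneg _) le_rfl (fun j => by simp [hf.orth])
    (fun j j' h => by simp [hf.orth, h]) univ c

theorem IsMub.bessel_one (hf : IsMub η f) (α : A) (h : Ω → 𝕜) :
    ∑ j, ‖∑ ω, h ω * f α j ω‖ ^ 2 ≤ Fintype.card Ω * ∑ ω, ‖h ω‖ ^ 2 := by
  simpa using bessel_le (f α) (η := 0) (Nat.cast_nonneg _) le_rfl (fun j => by simp [hf.orth])
    (fun j j' h => by simp [hf.orth, h]) univ h

theorem IsMub.coh' (hf : IsMub η f) (hη : 0 ≤ η) (i i' : A × Ω) (h : i ≠ i') :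
    |∑ ω, f i.1 i.2 ω * f i'.1 i'.2 ω| ≤ η * Fintype.card Ω := by
  by_cases h1 : i.1 = i'.1
  · have h2 : i.2 ≠ i'.2 := fun h2 => h (Prod.ext h1 h2)
    rw [h1, hf.orth, if_neg h2, abs_zero]
    positivity
  · exact hf.coh _ _ _ _ h1

theorem IsMub.synth (hf : IsMub η f) (hη : 0 ≤ η) (Λ : Finset (A × Ω)) (hΛ : η * Λ.card ≤ 1)
    (c : A × Ω → 𝕜) :
    ∑ ω, ‖∑ i ∈ Λ, c i * f i.1 i.2 ω‖ ^ 2 ≤ 2 * Fintype.card Ω * ∑ i ∈ Λ, ‖c i‖ ^ 2 := by
  refine (synth_le (fun i : A × Ω => f i.1 i.2) (Nat.cast_nonneg _) hη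
    (fun j => by simp [hf.orth]) (hf.coh' hη) Λ c).trans
    (mul_le_mul_of_nonneg_right ?_ (by positivity))
  nlinarith [Nat.cast_nonneg (α := ℝ) (Fintype.card Ω)]

theorem IsMub.bessel (hf : IsMub η f) (hη : 0 ≤ η) (Λ : Finset (A × Ω)) (hΛ : η * Λ.card ≤ 1)
    (h : Ω → 𝕜) :
    ∑ i ∈ Λ, ‖∑ ω, h ω * f i.1 i.2 ω‖ ^ 2 ≤ 2 * Fintype.card Ω * ∑ ω, ‖h ω‖ ^ 2 := by
  refine (bessel_le (fun i : A × Ω => f i.1 i.2) (Nat.cast_nonneg _) hη
    (fun j => by simp [hf.orth]) (hf.coh' hη) Λ h).trans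
    (mul_le_mul_of_nonneg_right ?_ (by positivity))
  nlinarith [Nat.cast_nonneg (α := ℝ) (Fintype.card Ω)]

end

end Pool.Agent.P.MP_6b6f2e_an
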