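import Pool.Agent.P.MP_6b6f2e_an.Tools
import Pool.Agent.P.MP_6b6f2e_an.Mub

set_option autoImplicit false
set_option linter.unusedSectionVars false

namespace Pool.Agent.P.MP_6b6f2e_an

open Finset
open scoped ENNReal

variable {𝕜 : Type} [RCLike 𝕜] {r : ℝ≥0∞} [Fact (1 ≤ r)]

theorem toReal_lt_two (hr : r < 2) : r.toReal < 2 := by
  have := ENNReal.toReal_strict_mono (by simp) hr
  simpa using this

theorem sqrt_sum_le {κ : Type} [Fintype κ] (Λ : Finset κ) [DecidableEq κ] (x : κ → ℝ)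
    (hx : ∀ k, 0 ≤ x k) : √(∑ k, x k ^ 2) ≤ ∑ k ∈ Λ, x k + √(∑ k ∈ Λᶜ, x k ^ 2) := by
  rw [← sum_add_sum_compl Λ]
  have h1 : ∑ k ∈ Λ, x k ^ 2 ≤ (∑ k ∈ Λ, x k) ^ 2 := sum_sq_le_sq_sum_of_nonneg fun k _ => hx k
  have h2 : 0 ≤ ∑ k ∈ Λᶜ, x k ^ 2 := by positivity
  have h3 : 0 ≤ ∑ k ∈ Λ, x k := sum_nonneg fun k _ => hx k
  refine Real.sqrt_le_iff.2 ⟨by positivity, ?_⟩
  nlinarith [Real.sq_sqrt h2, mul_nonneg h3 (Real.sqrt_nonneg (∑ k ∈ Λᶜ, x k ^ 2))]

theorem sum_sqrt_le {A : Type} [Fintype A] (x : A → ℝ) (hx : ∀ a, 0 ≤ x a) :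
    ∑ a, √(x a) ≤ √(Fintype.card A) * √(∑ a, x a) := by
  have := Real.sum_sqrt_mul_sqrt_le univ (f := fun _ : A => (1 : ℝ)) (fun _ => zero_le_one) hx
  simpa using this

/-- A weak form of the Bennett-Carl inequality. -/
theorem bennett (hr : r < 2) {δ : ℝ} (hδ : 0 < δ) : ∃ a₀ : ℝ, ∀ (A κ : Type) [Fintype A]
    [Fintype κ], a₀ ≤ √(Fintype.card A) → ∀ (x : A → κ → 𝕜) (B : ℝ), 0 < B →
    (∀ ε : A → 𝕜, (∀ a, ‖ε a‖ ≤ 1) → (nn r fun k => ‖∑ a, ε a * x a k‖) ≤ B) →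
    ∑ a, √(∑ k, ‖x a k‖ ^ 2) ≤ δ * B * √(Fintype.card A) := by
  classical
  have hr' : r ≠ ∞ := ne_top_of_lt hr
  have hρ := toReal_pos' hr'
  obtain ⟨θ, hθ, hθ'⟩ := exists_rpow_le (sub_pos.2 (toReal_lt_two hr))
    (by positivity : 0 < (δ / 16) ^ 2)
  refine ⟨2 / (δ * θ ^ r.toReal), fun A κ _ _ ha x B hB h => ?_⟩
  set σ : κ → ℝ := fun k => √(∑ a, ‖x a k‖ ^ 2) with hσ
  have h1 : ∑ k, σ k ^ r.toReal ≤ (8 * B) ^ r.toReal :=
    sum_rpow_le_of_nn hr' (fun _ => Real.sqrt_nonneg _)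
      (khin_nn x fun ε => h _ fun a => (norm_sn _).le)
  let Λ := univ.filter fun k => θ * (8 * B) < σ k
  have h2 : Λ.card * θ ^ r.toReal ≤ 1 := by
    have := (card_mul_le Λ (fun k => σ k ^ r.toReal) (c := (θ * (8 * B)) ^ r.toReal)
      fun k hk => Real.rpow_le_rpow (by positivity) (mem_filter.1 hk).2.le hρ.le).trans
      ((sum_le_sum_of_subset_of_nonneg (subset_univ _) fun k _ _ => by positivity).trans h1)
    rw [Real.mul_rpow hθ.le (by positivity), ← mul_assoc] at this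
    exact (mul_le_iff_le_one_left (by positivity)).1 this
  have h3 : ∀ k, ∑ a, ‖x a k‖ ≤ B := fun k => by
    choose c hc1 hc using fun a => exists_phase (x a k)
    refine le_trans ?_ ((abs_le_nn (p := r) (fun k => ‖∑ a, c a * x a k‖) k).trans (h c hc1))
    rw [abs_norm, sum_congr rfl fun a _ => hc a, ← RCLike.ofReal_sum, RCLike.norm_ofReal]
    exact le_abs_self _
  have h4 : ∑ k ∈ Λᶜ, σ k ^ 2 ≤ (δ / 2 * B) ^ 2 := by
    have := sum_rpow_small Λᶜ σ hρ (toReal_lt_two hr).le (fun _ _ => Real.sqrt_nonneg _)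
      (θ := θ * (8 * B)) fun k hk => by simpa [Λ] using hk
    simp only [Real.rpow_two] at this
    refine this.trans ?_
    calc (θ * (8 * B)) ^ (2 - r.toReal) * ∑ k ∈ Λᶜ, σ k ^ r.toReal
        ≤ (θ * (8 * B)) ^ (2 - r.toReal) * (8 * B) ^ r.toReal := by
          gcongr
          exact (sum_le_sum_of_subset_of_nonneg (subset_univ _) fun k _ _ => by positivity).trans h1
      _ = θ ^ (2 - r.toReal) * (8 * B) ^ 2 := by
          rw [Real.mul_rpow hθ.le (by positivity), mul_assoc, ← Real.rpow_add (by positivity),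
            sub_add_cancel, Real.rpow_two]
      _ ≤ (δ / 16) ^ 2 * (8 * B) ^ 2 := by gcongr
      _ = _ := by ring
  have h5 : (Λ.card : ℝ) ≤ δ / 2 * √(Fintype.card A) := by
    rw [div_le_iff₀ (by positivity)] at ha
    have hp : 0 < θ ^ r.toReal := by positivity
    refine le_of_mul_le_mul_right (h2.trans ?_) hp
    nlinarith
  calc ∑ a, √(∑ k, ‖x a k‖ ^ 2)
      ≤ ∑ a, (∑ k ∈ Λ, ‖x a k‖ + √(∑ k ∈ Λᶜ, ‖x a k‖ ^ 2)) :=
        sum_le_sum fun a _ => sqrt_sum_le Λ _ fun _ => norm_nonneg _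
    _ ≤ Λ.card * B + √(Fintype.card A) * (δ / 2 * B) := by
        rw [sum_add_distrib, sum_comm]
        refine add_le_add (by simpa using sum_le_card_nsmul Λ _ B fun k _ => h3 k)
          ((sum_sqrt_le _ fun _ => by positivity).trans ?_)
        refine mul_le_mul_of_nonneg_left (Real.sqrt_le_iff.2 ⟨by positivity, ?_⟩) (by positivity)
        rw [sum_comm]
        refine le_trans (le_of_eq (sum_congr rfl fun k _ => ?_)) h4
        rw [hσ, Real.sq_sqrt (by positivity)]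
    _ ≤ _ := by nlinarith

section gadget

variable {A Ω : Type} [Fintype A] [DecidableEq A] [Fintype Ω] [DecidableEq Ω] [Nonempty Ω]

/-- Synthesis into the row `a₀`. -/
noncomputable def synB (f : A → Ω → Ω → ℝ) (a₀ : A) (c : ℝ) : (A → Ω → 𝕜) →ₗ[𝕜] (A → Ω → 𝕜) where
  toFun y a ω := if a = a₀ then c * ∑ i : A × Ω, y i.1 i.2 * f i.1 i.2 ω else 0
  map_add' y y' := by
    funext a ω; by_cases h : a = a₀ <;> simp [h, add_mul, sum_add_distrib, mul_add]
  map_smul' t y := by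
    funext a ω; by_cases h : a = a₀ <;> simp [h, mul_sum, mul_left_comm, mul_assoc]

/-- The gadget for the `c_0`-sum of `ℓ_r^n`, `r < 2`. -/
@[reducible] noncomputable def gadB (𝕜 : Type) [RCLike 𝕜] (ρ : ℝ) (f : A → Ω → Ω → ℝ) (a₀ : A) :
    Gad 𝕜 where
  α := A
  β := Ω
  I := A × Ω
  fα := inferInstance
  fβ := inferInstance
  fI := inferInstance
  T := synB f a₀ (1 / ((Fintype.card Ω : ℝ) ^ (1 / ρ) * √(Fintype.card A)))
  x i := ee i.1 i.2
  f i a ω := if a = a₀ then (((Fintype.card Ω : ℝ) ^ (1 / ρ) / (√(Fintype.card A) *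
    (Fintype.card Ω : ℝ) ^ 2) * f i.1 i.2 ω : ℝ) : 𝕜) else 0

theorem ΦB (ρ : ℝ) (f : A → Ω → Ω → ℝ) (a₀ : A) (S : (A → Ω → 𝕜) →ₗ[𝕜] (A → Ω → 𝕜)) :
    (gadB 𝕜 ρ f a₀).Φ S = (((Fintype.card Ω : ℝ) ^ (1 / ρ) / (√(Fintype.card A) *
      (Fintype.card Ω : ℝ) ^ 2) : ℝ) : 𝕜) *
        ∑ i : A × Ω, ∑ ω, S (ee i.1 i.2) a₀ ω * f i.1 i.2 ω := by
  unfold Gad.Φ pair
  rw [mul_sum]
  refine sum_congr rfl fun i _ => ?_
  rw [sum_eq_single a₀ (fun a _ h => by simp [h]) (by simp), mul_sum]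
  refine sum_congr rfl fun ω _ => ?_
  simp only [if_true]
  push_cast
  ring

theorem N_synB (hr : r < 2) (f : A → Ω → Ω → ℝ) (a₀ : A) (y : A → Ω → 𝕜) {c : ℝ} (hc : 0 ≤ c)
    (h : ∑ ω, ‖∑ i : A × Ω, y i.1 i.2 * f i.1 i.2 ω‖ ^ 2 ≤
      Fintype.card Ω * Fintype.card A * c ^ 2) :
    N ∞ r ((gadB 𝕜 r.toReal f a₀).T y) ≤ c := by
  have hn : (0 : ℝ) < Fintype.card Ω := by exact_mod_cast Fintype.card_pos
  have ha : (0 : ℝ) < Fintype.card A := by exact_mod_cast Fintype.card_pos_iff.2 ⟨a₀⟩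
  refine N_top_le _ hc fun a => ?_
  by_cases h' : a = a₀
  · have e : ∀ ω, ‖(gadB 𝕜 r.toReal f a₀).T y a ω‖ =
        1 / ((Fintype.card Ω : ℝ) ^ (1 / r.toReal) * √(Fintype.card A)) *
          ‖∑ i : A × Ω, y i.1 i.2 * f i.1 i.2 ω‖ := fun ω => by
      simp only [synB, LinearMap.coe_mk, AddHom.coe_mk, h', if_true]
      rw [norm_mul, RCLike.norm_ofReal, abs_of_nonneg (by positivity)]
    simp only [e, nn_mul]
    rw [abs_of_nonneg (by positivity), one_div, inv_mul_le_iff₀ (by positivity)]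
    refine (nn_le_card hr.le (by simp) _).trans ?_
    have h2 : nn 2 (fun ω => ‖∑ i : A × Ω, y i.1 i.2 * (f i.1 i.2 ω : 𝕜)‖) ≤
        √(Fintype.card Ω) * √(Fintype.card A) * c := by
      rw [nn_two]
      refine Real.sqrt_le_iff.2 ⟨by positivity, h.trans (le_of_eq ?_)⟩
      rw [mul_pow, mul_pow, Real.sq_sqrt hn.le, Real.sq_sqrt ha.le]
    refine (mul_le_mul_of_nonneg_left h2 (by positivity)).trans (le_of_eq ?_)
    rw [Real.rpow_sub hn, ENNReal.toReal_ofNat, ← Real.sqrt_eq_rpow]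
    have := (Real.sqrt_pos.2 hn).ne'
    field_simp
  · simpa [synB, h', nn_zero] using hc

theorem N_sel (j : A → Ω) (ε : A → 𝕜) (hε : ∀ a, ‖ε a‖ ≤ 1) :
    N ∞ r (∑ a, ε a • (ee a (j a) : A → Ω → 𝕜)) ≤ 1 := by
  refine N_top_le _ zero_le_one fun a => ?_
  refine le_trans (nn_mono' (fun _ => norm_nonneg _) fun ω => ?_)
    ((row_le_N (p := ∞) (u := r) (ee a (j a) : A → Ω → 𝕜) a).trans (N_ee _ _))
  rw [Finset.sum_apply, Finset.sum_apply,
    sum_eq_single a (fun a' _ h => by simp [ee_of_ne a' _ h.symm]) (by simp)]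
  simp only [Pi.smul_apply, norm_smul]
  exact mul_le_of_le_one_left (norm_nonneg _) (hε a)

theorem sum_row_le (hr : r ≠ ∞) (w : A → Ω → 𝕜) (a₀ : A) :
    ∑ ω, ‖w a₀ ω‖ ≤ Fintype.card Ω / (Fintype.card Ω : ℝ) ^ (1 / r.toReal) * N ∞ r w := by
  have hn : (0 : ℝ) < Fintype.card Ω := by exact_mod_cast Fintype.card_pos
  have := sum_le_card_nn hr univ fun ω => ‖w a₀ ω‖
  simp only [abs_norm, card_univ] at this
  rw [Real.rpow_sub hn, Real.rpow_one] at this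
  exact this.trans (mul_le_mul_of_nonneg_left (row_le_N w a₀) (by positivity))

variable {η : ℝ} {f : A → Ω → Ω → ℝ}

theorem oneB (hf : IsMub η f) (ρ : ℝ) (a₀ : A) :
    (gadB 𝕜 ρ f a₀).Φ (gadB 𝕜 ρ f a₀).T = 1 := by
  have hn : (0 : ℝ) < Fintype.card Ω := by exact_mod_cast Fintype.card_pos
  have ha : (0 : ℝ) < Fintype.card A := by exact_mod_cast Fintype.card_pos_iff.2 ⟨a₀⟩
  rw [ΦB]
  have e : ∀ i : A × Ω, ∑ ω, (gadB 𝕜 ρ f a₀).T (ee i.1 i.2) a₀ ω * f i.1 i.2 ω =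
      ((1 / ((Fintype.card Ω : ℝ) ^ (1 / ρ) * √(Fintype.card A)) * Fintype.card Ω : ℝ) : 𝕜) := by
    intro i
    have h1 := hf.orth i.1 i.2 i.2
    rw [if_pos rfl] at h1
    simp only [synB, LinearMap.coe_mk, AddHom.coe_mk, if_true]
    generalize (1 / ((Fintype.card Ω : ℝ) ^ (1 / ρ) * √(Fintype.card A))) = c
    rw [← h1, mul_sum, RCLike.ofReal_sum]
    refine sum_congr rfl fun ω _ => ?_
    have := pair_ee (fun a j => (f a j ω : 𝕜)) i.1 i.2
    rw [pair_comm, pair] at this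
    rw [Fintype.sum_prod_type, this]
    push_cast
    ring
  simp only [e, sum_const, card_univ, nsmul_eq_mul, Fintype.card_prod]
  rw [← RCLike.ofReal_natCast (Fintype.card A * Fintype.card Ω), ← RCLike.ofReal_mul,
    ← RCLike.ofReal_mul]
  refine Eq.trans (congrArg _ ?_) RCLike.ofReal_one
  have h2 := Real.mul_self_sqrt ha.le
  have h3 := (Real.sqrt_pos.2 ha).ne'
  have h4 : (Fintype.card Ω : ℝ) ^ (1 / ρ) ≠ 0 := by positivity
  push_cast
  field_simp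
  rw [sq, h2]

theorem hΦB (hr : r < 2) (hf : IsMub η f) (a₀ : A) (S : (A → Ω → 𝕜) →ₗ[𝕜] (A → Ω → 𝕜)) (B : ℝ)
    (hB : 0 ≤ B) (hS : ∀ y, N ∞ r (S y) ≤ B * N ∞ r y) :
    ‖(gadB 𝕜 r.toReal f a₀).Φ S‖ ≤ 8 * B := by
  have hn : (0 : ℝ) < Fintype.card Ω := by exact_mod_cast Fintype.card_pos
  have ha : (0 : ℝ) < Fintype.card A := by exact_mod_cast Fintype.card_pos_iff.2 ⟨a₀⟩
  have hm : 0 < (Fintype.card Ω : ℝ) ^ (1 / r.toReal) := by positivity
  have key : ∀ j, ∑ a, ∑ ω, ‖S (ee a j) a₀ ω‖ ≤ √(Fintype.card A) *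
      (8 * (Fintype.card Ω / (Fintype.card Ω : ℝ) ^ (1 / r.toReal) * B)) := fun j => by
    have h1 := khin_sum (𝕜 := 𝕜) (H := fun _ : Ω => 𝕜) (fun _ => 1) (fun _ => zero_le_one)
      (fun ω a => S (ee a j) a₀ ω)
      (B := Fintype.card Ω / (Fintype.card Ω : ℝ) ^ (1 / r.toReal) * B) fun ε => by
        have h2 := sum_row_le (ne_top_of_lt hr) (S (∑ a, (sn (ε a) : 𝕜) • ee a j)) a₀
        have h3 := (hS _).trans (mul_le_of_le_one_right hB
          (N_sel (fun _ => j) (fun a => (sn (ε a) : 𝕜)) fun a => (norm_sn _).le))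
        simpa only [map_sum, map_smul, Finset.sum_apply, Pi.smul_apply, smul_eq_mul, one_mul]
          using h2.trans (mul_le_mul_of_nonneg_left h3 (by positivity))
    rw [sum_comm]
    refine le_trans (sum_le_sum fun ω _ => ?_) ((mul_sum _ _ _).symm.trans_le
      (mul_le_mul_of_nonneg_left h1 (Real.sqrt_nonneg _)))
    have := sum_sqrt_le (fun a => ‖S (ee a j) a₀ ω‖ ^ 2) fun _ => by positivity
    simpa using this
  rw [ΦB, norm_mul, RCLike.norm_ofReal, abs_of_nonneg (by positivity), Fintype.sum_prod_type_right]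
  have h4 : ‖∑ j, ∑ a, ∑ ω, S (ee a j) a₀ ω * (f a j ω : 𝕜)‖ ≤ ∑ _j : Ω, √(Fintype.card A) *
      (8 * (Fintype.card Ω / (Fintype.card Ω : ℝ) ^ (1 / r.toReal) * B)) :=
    norm_sum_le_of_le _ fun j _ => le_trans (norm_sum_le_of_le _ fun a _ =>
      norm_sum_le_of_le _ fun ω _ => by rw [norm_mul, RCLike.norm_ofReal, hf.abs_eq, mul_one])
      (key j)
  refine (mul_le_mul_of_nonneg_left h4 (by positivity)).trans (le_of_eq ?_)
  have h3 := (Real.sqrt_pos.2 ha).ne'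
  simp only [sum_const, card_univ, nsmul_eq_mul]
  field_simp

theorem locB (hr : r < 2) (hf : IsMub η f) (hη : 0 ≤ η) (a₀ : A) {D : ℕ} {θ η' : ℝ} (hθ : 0 < θ)
    (hη' : 0 ≤ η') (h1 : Fintype.card A * θ ^ (2 - r.toReal) ≤ η' ^ 2)
    (h2 : η * (D * Fintype.card A) ≤ θ ^ r.toReal) :
    Loc ∞ r r 2 2 (gadB 𝕜 r.toReal f a₀) D η' := by
  classical
  have hr' : r ≠ ∞ := ne_top_of_lt hr
  have hρ := toReal_pos' hr'
  intro J _ hJ y hy
  have hy' : ∀ j a, ∑ ω, ‖y j a ω‖ ^ r.toReal ≤ 1 := fun j a => by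
    simpa using sum_rpow_le_of_nn hr' (fun _ => norm_nonneg _) ((row_le_N (y j) a).trans (hy j))
  let P : A → Ω → Prop := fun a ω => ∃ j, θ < ‖y j a ω‖
  let Λ : Finset (A × Ω) := univ.filter fun i => P i.1 i.2
  have hΛ : η * Λ.card ≤ 1 := by
    have a1 : Λ.card * θ ^ r.toReal ≤ ∑ i ∈ Λ, ∑ j, ‖y j i.1 i.2‖ ^ r.toReal :=
      card_mul_le _ _ fun i hi => by
        obtain ⟨j, hj⟩ := (mem_filter.1 hi).2
        exact (Real.rpow_le_rpow hθ.le hj.le hρ.le).trans (single_le_sum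
          (f := fun j => ‖y j i.1 i.2‖ ^ r.toReal) (fun _ _ => by positivity) (mem_univ j))
    have a2 : ∑ i ∈ Λ, ∑ j, ‖y j i.1 i.2‖ ^ r.toReal ≤ D * Fintype.card A := by
      refine (sum_le_sum_of_subset_of_nonneg (subset_univ _) fun _ _ _ => by positivity).trans ?_
      rw [sum_comm]
      calc _ ≤ ∑ _j : J, ∑ _a : A, (1 : ℝ) := sum_le_sum fun j _ => by
              rw [Fintype.sum_prod_type]; exact sum_le_sum fun a _ => hy' j a
        _ ≤ _ := by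
              simp only [sum_const, card_univ, nsmul_eq_mul, mul_one]
              gcongr
    have hp : 0 < θ ^ r.toReal := by positivity
    refine le_of_mul_le_mul_right ?_ hp
    nlinarith [mul_le_mul_of_nonneg_left (a1.trans a2) hη]
  refine ⟨mask P, (gadB 𝕜 r.toReal f a₀).T ∘ₗ mask P, fun z => ?_, fun z => ?_, fun j => ?_⟩
  · have := N_mono (p := ∞) (u := r) (norm_mask_le P z)
    linarith [N_nonneg (p := ∞) (u := r) z]
  · refine N_synB hr f a₀ _ (by linarith [N_nonneg (p := ∞) (u := 2) z]) ?_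
    have e : ∀ ω, ∑ i : A × Ω, mask P z i.1 i.2 * (f i.1 i.2 ω : 𝕜) =
        ∑ i ∈ Λ, z i.1 i.2 * f i.1 i.2 ω := fun ω => by
      rw [sum_filter]
      exact sum_congr rfl fun i _ => by rw [mask_apply]; split_ifs <;> simp
    simp only [e]
    refine (hf.synth hη Λ hΛ fun i => z i.1 i.2).trans ?_
    have a1 : ∑ i ∈ Λ, ‖z i.1 i.2‖ ^ 2 ≤ Fintype.card A * N ∞ 2 z ^ 2 := by
      refine (sum_le_sum_of_subset_of_nonneg (subset_univ _) fun _ _ _ => by positivity).trans ?_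
      rw [Fintype.sum_prod_type, ← nsmul_eq_mul, ← card_univ]
      exact sum_le_card_nsmul _ _ _ fun a _ => (sum_sq_le_nn le_rfl _).trans
        (pow_le_pow_left₀ (nn_nonneg _) (row_le_N z a) 2)
    have a2 : (0 : ℝ) ≤ Fintype.card Ω * (Fintype.card A * N ∞ 2 z ^ 2) := by positivity
    nlinarith [mul_le_mul_of_nonneg_left a1 (Nat.cast_nonneg (α := ℝ) (Fintype.card Ω))]
  · have e : mask P (mask P (y j)) = mask P (y j) := by
      funext a ω; simp only [mask_apply]; split_ifs <;> rfl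
    rw [LinearMap.comp_apply, e, ← map_sub]
    refine N_synB hr f a₀ _ hη' ?_
    set y' := y j - mask P (y j) with hy''
    have b1 : ∀ a ω, ‖y' a ω‖ ≤ θ ∧ ‖y' a ω‖ ≤ ‖y j a ω‖ := fun a ω => by
      simp only [hy'', Pi.sub_apply, mask_apply]
      split_ifs with h
      · simp [hθ.le]
      · simpa using not_exists.1 h j
    have b2 : ∀ a, ∑ ω, ‖y' a ω‖ ^ 2 ≤ θ ^ (2 - r.toReal) := fun a => by
      have := sum_rpow_small univ (fun ω => ‖y' a ω‖) hρ (toReal_lt_two hr).le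
        (fun _ _ => norm_nonneg _) fun ω _ => (b1 a ω).1
      simp only [Real.rpow_two] at this
      refine this.trans (mul_le_of_le_one_right (by positivity) (le_trans ?_ (hy' j a)))
      exact sum_le_sum fun ω _ => Real.rpow_le_rpow (norm_nonneg _) (b1 a ω).2 hρ.le
    calc _ ≤ ∑ ω, Fintype.card A * ∑ a, ‖∑ j, y' a j * (f a j ω : 𝕜)‖ ^ 2 :=
          sum_le_sum fun ω _ => by
            rw [Fintype.sum_prod_type]
            exact (pow_le_pow_left₀ (norm_nonneg _) (norm_sum_le _ _) 2).trans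
              sq_sum_le_card_mul_sum_sq
      _ ≤ Fintype.card A * ∑ _a : A, Fintype.card Ω * θ ^ (2 - r.toReal) := by
          rw [← mul_sum, sum_comm]
          gcongr with a
          exact (hf.synth_one a _).trans (mul_le_mul_of_nonneg_left (b2 a) (Nat.cast_nonneg _))
      _ = Fintype.card Ω * Fintype.card A * (Fintype.card A * θ ^ (2 - r.toReal)) := by
          simp only [sum_const, card_univ, nsmul_eq_mul]; ring
      _ ≤ _ := by gcongr

theorem globB (hr : r < 2) (hf : IsMub η f) (a₀ : A) {δ B : ℝ} (hδ : 0 < δ) (hB : 0 < B)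
    (hb : ∀ (κ : Type) [Fintype κ] (x : A → κ → 𝕜),
      (∀ ε : A → 𝕜, (∀ a, ‖ε a‖ ≤ 1) → (nn r fun k => ‖∑ a, ε a * x a k‖) ≤ B) →
      ∑ a, √(∑ k, ‖x a k‖ ^ 2) ≤ δ * B * √(Fintype.card A)) :
    Glob ∞ r r 2 (gadB 𝕜 r.toReal f a₀) B (8 * δ * B ^ 2) := by
  have hn : (0 : ℝ) < Fintype.card Ω := by exact_mod_cast Fintype.card_pos
  have ha : (0 : ℝ) < Fintype.card A := by exact_mod_cast Fintype.card_pos_iff.2 ⟨a₀⟩
  have hm : 0 < (Fintype.card Ω : ℝ) ^ (1 / r.toReal) := by positivity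
  intro Γ _ κ _ W V hW hV
  choose jm hjm using fun γ a => exists_max_image univ
    (fun j => ∑ k, ‖W (ee a j) γ k‖ ^ 2) univ_nonempty
  have h1 : ∀ γ, ∑ a, √(∑ k, ‖W (ee a (jm γ a)) γ k‖ ^ 2) ≤ δ * B * √(Fintype.card A) :=
    fun γ => hb _ (fun a k => W (ee a (jm γ a)) γ k) fun ε hε => by
      have := (row_le_N _ γ).trans ((hW _).trans (mul_le_of_le_one_right hB.le
        (N_sel (jm γ) ε hε)))
      simpa [map_sum, Finset.sum_apply] using this
  have h2 : ∑ γ, √(∑ k, ∑ ω, ‖V (ee γ k) a₀ ω‖ ^ 2) ≤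
      8 * (Fintype.card Ω / (Fintype.card Ω : ℝ) ^ (1 / r.toReal) * B) := by
    have := khin_sum (𝕜 := 𝕜) (H := fun γ => EuclideanSpace 𝕜 (κ γ)) (fun _ => 1)
      (fun _ => zero_le_one) (fun γ ω => WithLp.toLp 2 fun k => V (ee γ k) a₀ ω)
      (B := Fintype.card Ω / (Fintype.card Ω : ℝ) ^ (1 / r.toReal) * B) fun ε => by
        have a1 := N_le_of_pair dualE_one (dualE_of_conj 2 2)
          (fun γ k => ∑ ω, (sn (ε ω) : 𝕜) * V (ee γ k) a₀ ω)
          (c := Fintype.card Ω / (Fintype.card Ω : ℝ) ^ (1 / r.toReal) * B) fun g hg => by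
            have e : pair g (fun γ k => ∑ ω, (sn (ε ω) : 𝕜) * V (ee γ k) a₀ ω) =
                ∑ ω, (sn (ε ω) : 𝕜) * V g a₀ ω := by
              simp only [pair, map_apply_eq V g, mul_sum]
              rw [sum_comm]
              refine sum_congr rfl fun γ _ => ?_
              rw [sum_comm]
              exact sum_congr rfl fun ω _ => sum_congr rfl fun k _ => by ring
            rw [e]
            refine (norm_sum_le_of_le _ fun ω _ => by rw [norm_mul, norm_sn, one_mul]).trans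
              ((sum_row_le (ne_top_of_lt hr) _ a₀).trans (mul_le_mul_of_nonneg_left
                ((hV g).trans (mul_le_of_le_one_right hB.le hg)) (by positivity)))
        rw [N, nn_one] at a1
        refine le_trans (le_of_eq (sum_congr rfl fun γ _ => ?_)) a1
        rw [abs_of_nonneg (nn_nonneg _), one_mul, norm_piLp]
        congr 1
        funext k
        simp only [WithLp.ofLp_sum, WithLp.ofLp_smul, Finset.sum_apply, Pi.smul_apply, smul_eq_mul]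
    refine le_trans (le_of_eq (sum_congr rfl fun γ _ => ?_)) this
    simp only [one_mul, EuclideanSpace.norm_sq_eq]
    rw [sum_comm]
  have h3 : ∀ γ a, ‖∑ j, ∑ k, W (ee a j) γ k * ∑ ω, V (ee γ k) a₀ ω * f a j ω‖ ≤
      Fintype.card Ω * (√(∑ k, ‖W (ee a (jm γ a)) γ k‖ ^ 2) *
        √(∑ k, ∑ ω, ‖V (ee γ k) a₀ ω‖ ^ 2)) := fun γ a => by
    rw [← Fintype.sum_prod_type']
    refine (norm_sum_le_of_le _ fun i _ => (norm_mul _ _).le).trans
      ((Real.sum_mul_le_sqrt_mul_sqrt _ _ _).trans ?_)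
    have b1 : ∑ i : Ω × κ γ, ‖W (ee a i.1) γ i.2‖ ^ 2 ≤
        Fintype.card Ω * ∑ k, ‖W (ee a (jm γ a)) γ k‖ ^ 2 := by
      rw [Fintype.sum_prod_type, ← nsmul_eq_mul, ← card_univ]
      exact sum_le_card_nsmul _ _ _ fun j hj => (hjm γ a).2 j hj
    have b2 : ∑ i : Ω × κ γ, ‖∑ ω, V (ee γ i.2) a₀ ω * (f a i.1 ω : 𝕜)‖ ^ 2 ≤
        Fintype.card Ω * ∑ k, ∑ ω, ‖V (ee γ k) a₀ ω‖ ^ 2 := by
      rw [Fintype.sum_prod_type_right, mul_sum]
      exact sum_le_sum fun k _ => hf.bessel_one a fun ω => V (ee γ k) a₀ ω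
    have b3 := mul_le_mul (Real.sqrt_le_sqrt b1) (Real.sqrt_le_sqrt b2) (Real.sqrt_nonneg _)
      (Real.sqrt_nonneg _)
    rw [Real.sqrt_mul hn.le, Real.sqrt_mul hn.le, mul_mul_mul_comm,
      Real.mul_self_sqrt hn.le] at b3
    exact b3
  have e : ∑ i : A × Ω, ∑ ω, (V ∘ₗ W) (ee i.1 i.2) a₀ ω * (f i.1 i.2 ω : 𝕜) =
      ∑ γ, ∑ a, ∑ j, ∑ k, W (ee a j) γ k * ∑ ω, V (ee γ k) a₀ ω * f a j ω := by
    have e1 : ∀ a j, ∑ ω, (V ∘ₗ W) (ee a j) a₀ ω * (f a j ω : 𝕜) =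
        ∑ γ, ∑ k, W (ee a j) γ k * ∑ ω, V (ee γ k) a₀ ω * f a j ω := fun a j => by
      rw [LinearMap.comp_apply]
      simp only [map_apply_eq V (W (ee a j)), sum_mul, mul_sum]
      rw [sum_comm]
      refine sum_congr rfl fun γ _ => ?_
      rw [sum_comm]
      exact sum_congr rfl fun k _ => sum_congr rfl fun ω _ => by ring
    rw [Fintype.sum_prod_type]
    simp only [e1]
    rw [sum_comm (γ := Γ)]
    exact sum_congr rfl fun a _ => sum_comm
  rw [ΦB, e, norm_mul, RCLike.norm_ofReal, abs_of_nonneg (by positivity)]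
  have h4 : ‖∑ γ, ∑ a, ∑ j, ∑ k, W (ee a j) γ k * ∑ ω, V (ee γ k) a₀ ω * (f a j ω : 𝕜)‖ ≤
      Fintype.card Ω * (δ * B * √(Fintype.card A) *
        (8 * (Fintype.card Ω / (Fintype.card Ω : ℝ) ^ (1 / r.toReal) * B))) := by
    refine (norm_sum_le_of_le _ fun γ _ => norm_sum_le_of_le _ fun a _ => h3 γ a).trans ?_
    simp only [← mul_sum, ← sum_mul]
    refine mul_le_mul_of_nonneg_left ((sum_le_sum fun γ _ =>
      mul_le_mul_of_nonneg_right (h1 γ) (Real.sqrt_nonneg _)).trans ?_) hn.le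
    rw [← mul_sum]
    exact mul_le_mul_of_nonneg_left h2 (by positivity)
  refine (mul_le_mul_of_nonneg_left h4 (by positivity)).trans (le_of_eq ?_)
  have h3 := (Real.sqrt_pos.2 ha).ne'
  field_simp

end gadget

theorem coreB (hr : r < 2) : ∃ G : ℕ → Gad 𝕜, Core ∞ r 8 G := by
  refine core_of (u := r) (v := 2) (by norm_num) fun D η B ε hη hB hε => ?_
  obtain ⟨a₀, ha₀⟩ := bennett (𝕜 := 𝕜) hr (δ := ε / (8 * (B + 1) ^ 2)) (by positivity)
  obtain ⟨a, ha⟩ := exists_nat_ge (a₀ ^ 2)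
  obtain ⟨θ, hθ, hθ'⟩ := exists_rpow_le (sub_pos.2 (toReal_lt_two hr))
    (by positivity : 0 < (min η 1) ^ 2 / (a + 1 : ℕ))
  obtain ⟨Ω, _, _, _, f, hf⟩ := exists_mub (a + 1)
    (η := θ ^ r.toReal / ((D + 1 : ℕ) * (a + 1 : ℕ))) (by positivity)
  have hloc := locB (𝕜 := 𝕜) hr hf (by positivity) 0 (D := D + 1) (η' := min η 1) hθ
    (by positivity) (by
      rw [le_div_iff₀' (by positivity)] at hθ'; simpa using hθ')
    (by rw [Fintype.card_fin, div_mul_cancel₀ _ (by positivity)])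
  refine ⟨gadB 𝕜 r.toReal f 0, ⟨⟨fun y => ?_, oneB hf _ _, hΦB hr hf 0⟩, fun i => N_ee _ _⟩,
    hloc.mono (by norm_num) (by omega) (min_le_left _ _), ?_⟩
  · refine (hloc.bound (by norm_num) (by omega) hr.le y).trans
      (mul_le_mul_of_nonneg_right ?_ (N_nonneg _))
    linarith [min_le_right η 1]
  · intro Γ _ κ _ W V hW hV
    refine (globB hr hf 0 (δ := ε / (8 * (B + 1) ^ 2)) (B := B + 1) (by positivity)
      (by positivity) (fun κ _ x => ha₀ _ κ ?_ x _ (by positivity)) Γ κ W V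
      (fun z => (hW z).trans (mul_le_mul_of_nonneg_right (by linarith) (N_nonneg _)))
      fun z => (hV z).trans (mul_le_mul_of_nonneg_right (by linarith) (N_nonneg _))).trans
      (le_of_eq (by field_simp))
    refine Real.le_sqrt_of_sq_le ?_
    rw [Fintype.card_fin]
    push_cast
    linarith

end Pool.Agent.P.MP_6b6f2e_an
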