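import Pool.Agent.P.MP_6b6f2e_an.Tools
import Pool.Agent.P.MP_6b6f2e_an.Mub

set_option autoImplicit false
set_option linter.unusedSectionVars false

namespace Pool.Agent.P.MP_6b6f2e_an

open Finset
open scoped ENNReal

variable {𝕜 : Type} [RCLike 𝕜] {r : ℝ≥0∞} [Fact (1 ≤ r)]

theorem N_unit {p : ℝ≥0∞} [Fact (1 ≤ p)] {β : Type} [Fintype β] (z : Unit → β → 𝕜) :
    N p r z = nn r fun b => ‖z () b‖ :=
  N_row z () fun _ h => absurd rfl h

theorem sqrt_le_of_pair {Ω : Type} [Fintype Ω] (w : Ω → 𝕜) {b : ℝ}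
    (h : ∀ c : Ω → 𝕜, ∑ ω, ‖c ω‖ ^ 2 ≤ 1 → ‖∑ ω, c ω * w ω‖ ≤ b) : √(∑ ω, ‖w ω‖ ^ 2) ≤ b := by
  have := N_le_of_pair dualE_one (dualE_of_conj 2 2) (fun _ : Unit => w) (c := b) fun g hg => by
    rw [N_unit, nn_two, Real.sqrt_le_left zero_le_one, one_pow] at hg
    simpa [pair] using h _ hg
  rwa [N_unit, nn_two] at this

theorem two_lt_toReal (hr : 2 < r) (hr' : r ≠ ∞) : 2 < r.toReal := by
  have := ENNReal.toReal_strict_mono hr' hr
  simpa using this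

section gadget

variable {A Ω : Type} [Fintype A] [DecidableEq A] [Fintype Ω] [DecidableEq Ω] [Nonempty Ω]

theorem rad_orth (ω ω' : Ω) : ∑ s : Ω → Bool, sn (s ω) * sn (s ω') =
    if ω = ω' then (Fintype.card (Ω → Bool) : ℝ) else 0 := by
  split_ifs with h
  · simp [h, sn_mul_self]
  · have := sum_flip ω fun s : Ω → Bool => sn (s ω) * sn (s ω')
    simp only [Function.update_self, Function.update_of_ne (Ne.symm h), sn_not, neg_mul,
      sum_neg_distrib] at this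
    linarith

/-- The Rademacher quotient map. -/
noncomputable def radQ (A : Type) (ρ : ℝ) (y : Unit → (Ω → Bool) ⊕ (A × Ω) → 𝕜) (ω : Ω) : 𝕜 :=
  ((Fintype.card (Ω → Bool) : ℝ) ^ (1 / ρ) / Fintype.card (Ω → Bool) : ℝ) *
    ∑ s, y () (.inl s) * sn (s ω)

/-- The Rademacher embedding. -/
noncomputable def radJ (A : Type) (ρ : ℝ) :
    (Ω → 𝕜) →ₗ[𝕜] (Unit → (Ω → Bool) ⊕ (A × Ω) → 𝕜) where
  toFun c _ := Sum.elim
    (fun s => (1 / (Fintype.card (Ω → Bool) : ℝ) ^ (1 / ρ) : ℝ) * ∑ ω, sn (s ω) * c ω) fun _ => 0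
  map_add' c c' := by
    funext _ b; cases b <;> simp [mul_add, sum_add_distrib]
  map_smul' t c := by
    funext _ b; cases b <;> simp [mul_sum, mul_left_comm]

/-- The analysis operator composed with the Rademacher quotient map. -/
noncomputable def anaC (ρ : ℝ) (f : A → Ω → Ω → ℝ) :
    (Unit → (Ω → Bool) ⊕ (A × Ω) → 𝕜) →ₗ[𝕜] (Unit → (Ω → Bool) ⊕ (A × Ω) → 𝕜) where
  toFun y _ := Sum.elim (fun _ => 0)
    fun i => (1 / √(Fintype.card Ω) : ℝ) * ∑ ω, radQ A ρ y ω * f i.1 i.2 ω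
  map_add' c c' := by
    funext _ b; cases b <;> simp [radQ, mul_add, add_mul, sum_add_distrib]
  map_smul' t c := by
    funext _ b; cases b <;> simp [radQ, mul_sum, sum_mul, mul_left_comm, mul_assoc]

/-- The gadget for the `c_0`-sum of `ℓ_r^n`, `2 < r < ∞`. -/
@[reducible] noncomputable def gadC (𝕜 : Type) [RCLike 𝕜] (ρ K : ℝ) (f : A → Ω → Ω → ℝ) :
    Gad 𝕜 where
  α := Unit
  β := (Ω → Bool) ⊕ (A × Ω)
  I := A × Ω
  fα := inferInstance
  fβ := inferInstance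
  fI := inferInstance
  T := anaC ρ f
  x i := radJ A ρ fun ω => (1 / (K * √(Fintype.card Ω)) * f i.1 i.2 ω : ℝ)
  f i := ((K / (Fintype.card A * Fintype.card Ω) : ℝ) : 𝕜) • ee () (.inr i)

theorem ΦC (ρ K : ℝ) (f : A → Ω → Ω → ℝ) (S : (gadC 𝕜 ρ K f).C →ₗ[𝕜] (gadC 𝕜 ρ K f).C) :
    (gadC 𝕜 ρ K f).Φ S = ((K / (Fintype.card A * Fintype.card Ω) : ℝ) : 𝕜) *
      ∑ i : A × Ω, S ((gadC 𝕜 ρ K f).x i) () (.inr i) := by
  unfold Gad.Φ
  rw [mul_sum]
  refine sum_congr rfl fun i _ => ?_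
  rw [pair_comm, pair_smul, pair_ee]

theorem radQ_J (ρ : ℝ) (c : Ω → 𝕜) (ω : Ω) : radQ A ρ (radJ A ρ c) ω = c ω := by
  have hM : (0 : ℝ) < Fintype.card (Ω → Bool) := by exact_mod_cast Fintype.card_pos
  have e : ∑ s : Ω → Bool, (∑ ω', (sn (s ω') : 𝕜) * c ω') * sn (s ω) =
      (Fintype.card (Ω → Bool) : ℝ) * c ω := by
    simp only [sum_mul]
    rw [sum_comm]
    have : ∀ ω', ∑ s : Ω → Bool, (sn (s ω') : 𝕜) * c ω' * sn (s ω) =
        ((∑ s : Ω → Bool, sn (s ω') * sn (s ω) : ℝ) : 𝕜) * c ω' := fun ω' => by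
      rw [RCLike.ofReal_sum, sum_mul]
      exact sum_congr rfl fun s _ => by push_cast; ring
    simp only [this, rad_orth]
    rw [sum_eq_single ω (fun ω' _ h => by simp [h]) (by simp), if_pos rfl]
  simp only [radQ, radJ, LinearMap.coe_mk, AddHom.coe_mk, Sum.elim_inl, mul_assoc, ← mul_sum]
  rw [e, ← mul_assoc, ← mul_assoc, ← RCLike.ofReal_mul, ← RCLike.ofReal_mul]
  have h4 : (Fintype.card (Ω → Bool) : ℝ) ^ (1 / ρ) ≠ 0 := by positivity
  have : (Fintype.card (Ω → Bool) : ℝ) ^ (1 / ρ) / Fintype.card (Ω → Bool) *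
      (1 / (Fintype.card (Ω → Bool) : ℝ) ^ (1 / ρ)) * Fintype.card (Ω → Bool) = 1 := by
    field_simp
  rw [this]
  simp

theorem radQ_le (hr : 2 ≤ r) (hr' : r ≠ ∞) (y : Unit → (Ω → Bool) ⊕ (A × Ω) → 𝕜) :
    ∑ ω, ‖radQ A r.toReal y ω‖ ^ 2 ≤ N ∞ r y ^ 2 := by
  have hM : (0 : ℝ) < Fintype.card (Ω → Bool) := by exact_mod_cast Fintype.card_pos
  have h1 := bessel_le (fun (ω : Ω) (s : Ω → Bool) => sn (s ω)) (η := 0) hM.le le_rfl
    (fun ω => by rw [rad_orth, if_pos rfl]) (fun ω ω' h => by simp [rad_orth, h]) univ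
    fun s => y () (.inl s)
  have h2 := nn_le_card hr hr' fun s : Ω → Bool => ‖y () (.inl s)‖
  have h3 : (nn r fun s : Ω → Bool => ‖y () (.inl s)‖) ≤ N ∞ r y := by
    rw [N_unit]; exact nn_comp_le Sum.inl_injective fun b => ‖y () b‖
  rw [nn_two] at h2
  have h4 := pow_le_pow_left₀ (Real.sqrt_nonneg _)
    (h2.trans (mul_le_mul_of_nonneg_left h3 (by positivity))) 2
  rw [Real.sq_sqrt (by positivity), Real.rpow_sub hM, ENNReal.toReal_ofNat,
    ← Real.sqrt_eq_rpow, mul_pow, div_pow, Real.sq_sqrt hM.le] at h4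
  simp only [radQ, norm_mul, mul_pow, ← mul_sum, RCLike.norm_ofReal, sq_abs]
  simp only [zero_mul, add_zero, mul_one] at h1
  refine (mul_le_mul_of_nonneg_left (h1.trans (mul_le_mul_of_nonneg_left h4 hM.le))
    (by positivity)).trans (le_of_eq ?_)
  have h5 : (Fintype.card (Ω → Bool) : ℝ) ^ (1 / r.toReal) ≠ 0 := by positivity
  field_simp

theorem radJ_le (hr' : r ≠ ∞) {K : ℝ} (hK : 1 ≤ K)
    (h : ∀ c : Ω → 𝕜, ∑ i, ‖c i‖ ^ 2 ≤ 1 → ∑ ε : Ω → Bool,
      ‖∑ i, (sn (ε i) : 𝕜) * c i‖ ^ r.toReal ≤ K * Fintype.card (Ω → Bool))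
    (c : Ω → 𝕜) (hc : ∑ i, ‖c i‖ ^ 2 ≤ 1) : N ∞ r (radJ A r.toReal c) ≤ K := by
  have hM : (0 : ℝ) < Fintype.card (Ω → Bool) := by exact_mod_cast Fintype.card_pos
  have hρ := toReal_pos' hr'
  rw [N_unit, nn_le_iff hr' _ (by linarith), Fintype.sum_sum_type]
  simp only [radJ, LinearMap.coe_mk, AddHom.coe_mk, Sum.elim_inl, Sum.elim_inr, norm_zero, abs_zero,
    Real.zero_rpow hρ.ne', sum_const_zero, add_zero, norm_mul, RCLike.norm_ofReal]
  have e : ∀ s : Ω → Bool, (|1 / (Fintype.card (Ω → Bool) : ℝ) ^ (1 / r.toReal)| *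
      ‖∑ i, (sn (s i) : 𝕜) * c i‖) ^ r.toReal =
      1 / Fintype.card (Ω → Bool) * ‖∑ i, (sn (s i) : 𝕜) * c i‖ ^ r.toReal := fun s => by
    rw [Real.mul_rpow (abs_nonneg _) (norm_nonneg _), abs_of_nonneg (by positivity),
      Real.div_rpow zero_le_one (by positivity), Real.one_rpow, ← Real.rpow_mul hM.le,
      one_div_mul_cancel hρ.ne', Real.rpow_one]
  simp only [abs_mul, abs_abs, abs_norm, e, ← mul_sum]
  refine (mul_le_mul_of_nonneg_left (h c hc) (by positivity)).trans ?_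
  rw [mul_comm K, ← mul_assoc, one_div_mul_cancel hM.ne', one_mul]
  exact Real.self_le_rpow_of_one_le hK (one_le_toReal hr')

variable {η : ℝ} {f : A → Ω → Ω → ℝ}

theorem norm_anaC (ρ : ℝ) (y : Unit → (Ω → Bool) ⊕ (A × Ω) → 𝕜) (i : A × Ω) :
    ‖anaC ρ f y () (.inr i)‖ ^ 2 =
      1 / Fintype.card Ω * ‖∑ ω, radQ A ρ y ω * f i.1 i.2 ω‖ ^ 2 := by
  simp only [anaC, LinearMap.coe_mk, AddHom.coe_mk, Sum.elim_inr, norm_mul, mul_pow,
    RCLike.norm_ofReal, sq_abs, div_pow, one_pow, Real.sq_sqrt (Nat.cast_nonneg _)]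

theorem anaC_le (hr : 2 ≤ r) (hr' : r ≠ ∞) (hf : IsMub η f)
    (y : Unit → (Ω → Bool) ⊕ (A × Ω) → 𝕜) (hy : N ∞ r y ≤ 1) :
    ∑ b, ‖anaC r.toReal f y () b‖ ^ 2 ≤ Fintype.card A := by
  have hn : (0 : ℝ) < Fintype.card Ω := by exact_mod_cast Fintype.card_pos
  rw [Fintype.sum_sum_type]
  simp only [norm_anaC]
  have h0 : ∑ s : Ω → Bool, ‖anaC r.toReal f y () (.inl s)‖ ^ 2 = 0 := by simp [anaC]
  rw [h0, zero_add, Fintype.sum_prod_type]
  have h1 := (radQ_le hr hr' y).trans (pow_le_one₀ (N_nonneg _) hy)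
  refine (sum_le_card_nsmul _ _ 1 fun a _ => ?_).trans (by simp)
  rw [← mul_sum, one_div, inv_mul_le_iff₀ hn]
  exact (hf.bessel_one a (radQ A r.toReal y)).trans (mul_le_mul_of_nonneg_left h1 hn.le)

theorem oneC (hf : IsMub η f) (ρ : ℝ) {K : ℝ} (hK : 1 ≤ K) [Nonempty A] :
    (gadC 𝕜 ρ K f).Φ (gadC 𝕜 ρ K f).T = 1 := by
  have hn : (0 : ℝ) < Fintype.card Ω := by exact_mod_cast Fintype.card_pos
  have ha : (0 : ℝ) < Fintype.card A := by exact_mod_cast Fintype.card_pos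
  rw [ΦC]
  have e : ∀ i : A × Ω, (gadC 𝕜 ρ K f).T ((gadC 𝕜 ρ K f).x i) () (.inr i) = ((1 / K : ℝ) : 𝕜) := by
    intro i
    have h1 := hf.orth i.1 i.2 i.2
    rw [if_pos rfl] at h1
    simp only [anaC, LinearMap.coe_mk, AddHom.coe_mk, Sum.elim_inr, radQ_J, ← RCLike.ofReal_mul,
      ← RCLike.ofReal_sum, mul_assoc, ← mul_sum, h1]
    congr 1
    have h2 := Real.mul_self_sqrt hn.le
    have h3 := (Real.sqrt_pos.2 hn).ne'
    field_simp
    rw [sq, h2]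
  simp only [e, sum_const, card_univ, nsmul_eq_mul, Fintype.card_prod]
  rw [← RCLike.ofReal_natCast (Fintype.card A * Fintype.card Ω), ← RCLike.ofReal_mul,
    ← RCLike.ofReal_mul]
  refine Eq.trans (congrArg _ ?_) RCLike.ofReal_one
  push_cast
  field_simp

theorem locC (hr : 2 < r) (hr' : r ≠ ∞) (hf : IsMub η f) (hη : 0 ≤ η) (K : ℝ) {D : ℕ} {θ η' : ℝ}
    (hθ : 0 < θ) (hη' : 0 ≤ η') (h1 : θ ^ (r.toReal - 2) * Fintype.card A ≤ η' ^ r.toReal)
    (h2 : η * (D * Fintype.card A) ≤ θ ^ 2) :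
    Loc ∞ r 2 r 2 (gadC 𝕜 r.toReal K f) D η' := by
  classical
  have hn : (0 : ℝ) < Fintype.card Ω := by exact_mod_cast Fintype.card_pos
  intro J _ hJ y hy
  let P : Unit → (Ω → Bool) ⊕ (A × Ω) → Prop := fun _ b => ∃ j, θ < ‖anaC r.toReal f (y j) () b‖
  let Λ : Finset (A × Ω) := univ.filter fun i => P () (.inr i)
  have hΛ : η * Λ.card ≤ 1 := by
    have a1 : Λ.card * θ ^ 2 ≤ ∑ i ∈ Λ, ∑ j, ‖anaC r.toReal f (y j) () (.inr i)‖ ^ 2 :=
      card_mul_le _ _ fun i hi => by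
        obtain ⟨j, hj⟩ := (mem_filter.1 hi).2
        exact (pow_le_pow_left₀ hθ.le hj.le 2).trans (single_le_sum
          (f := fun j => ‖anaC r.toReal f (y j) () (.inr i)‖ ^ 2) (fun _ _ => by positivity)
          (mem_univ j))
    have a2 : ∑ i ∈ Λ, ∑ j, ‖anaC r.toReal f (y j) () (.inr i)‖ ^ 2 ≤ D * Fintype.card A := by
      refine (sum_le_sum_of_subset_of_nonneg (subset_univ _) fun _ _ _ => by positivity).trans ?_
      rw [sum_comm]
      calc _ ≤ ∑ _j : J, (Fintype.card A : ℝ) := sum_le_sum fun j _ => by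
              refine le_trans ?_ (anaC_le hr.le hr' hf (y j) (hy j))
              rw [Fintype.sum_sum_type]
              exact le_add_of_nonneg_left (by positivity)
        _ ≤ _ := by
              simp only [sum_const, card_univ, nsmul_eq_mul]
              gcongr
    refine le_of_mul_le_mul_right ?_ (by positivity : 0 < θ ^ 2)
    nlinarith [mul_le_mul_of_nonneg_left (a1.trans a2) hη]
  refine ⟨mask P ∘ₗ anaC r.toReal f, LinearMap.id, fun z => ?_, fun z => ?_, fun j => ?_⟩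
  · rw [N_unit, nn_two]
    refine Real.sqrt_le_iff.2 ⟨by linarith [N_nonneg (p := ∞) (u := r) z], ?_⟩
    have e : ∑ b, ‖(mask P ∘ₗ anaC r.toReal f) z () b‖ ^ 2 =
        1 / Fintype.card Ω * ∑ i ∈ Λ, ‖∑ ω, radQ A r.toReal z ω * f i.1 i.2 ω‖ ^ 2 := by
      rw [Fintype.sum_sum_type, mul_sum, sum_filter]
      have h0 : ∑ s : Ω → Bool, ‖(mask P ∘ₗ anaC r.toReal f) z () (.inl s)‖ ^ 2 = 0 := by
        simp [anaC, mask_apply]
      rw [h0, zero_add]
      refine sum_congr rfl fun i _ => ?_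
      rw [LinearMap.comp_apply, mask_apply]
      split_ifs
      · exact norm_anaC _ _ _
      · simp
    rw [e, one_div, inv_mul_le_iff₀ hn]
    refine (hf.bessel hη Λ hΛ (radQ A r.toReal z)).trans ?_
    nlinarith [mul_le_mul_of_nonneg_left (radQ_le hr.le hr' z) hn.le,
      mul_nonneg hn.le (sq_nonneg (N ∞ r z))]
  · rw [LinearMap.id_apply]
    linarith [N_nonneg (p := ∞) (u := r) z]
  · rw [N_unit, nn_le_iff hr' _ hη']
    rw [LinearMap.id_apply]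
    set y' := (gadC 𝕜 r.toReal K f).T (y j) - (mask P ∘ₗ anaC r.toReal f) (y j) with hy''
    have b1 : ∀ b, ‖y' () b‖ ≤ θ ∧ ‖y' () b‖ ≤ ‖anaC r.toReal f (y j) () b‖ := fun b => by
      simp only [hy'', Pi.sub_apply, LinearMap.comp_apply, mask_apply]
      split_ifs with h
      · simp [hθ.le]
      · simpa using not_exists.1 h j
    have := sum_rpow_small univ (fun b => ‖y' () b‖) two_pos (two_lt_toReal hr hr').le
      (fun _ _ => norm_nonneg _) fun b _ => (b1 b).1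
    simp only [Real.rpow_two] at this
    simp only [abs_norm]
    refine this.trans (le_trans (mul_le_mul_of_nonneg_left ?_ (by positivity)) h1)
    exact (sum_le_sum fun b _ => pow_le_pow_left₀ (norm_nonneg _) (b1 b).2 2).trans
      (anaC_le hr.le hr' hf (y j) (hy j))

theorem xC_le (hf : IsMub η f) {K : ℝ} (hK : 1 ≤ K)
    (hJ : ∀ c : Ω → 𝕜, ∑ i, ‖c i‖ ^ 2 ≤ 1 → N ∞ r (radJ A r.toReal c) ≤ K) (i : A × Ω) :
    N ∞ r ((gadC 𝕜 r.toReal K f).x i) ≤ 1 := by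
  have hn : (0 : ℝ) < Fintype.card Ω := by exact_mod_cast Fintype.card_pos
  have e : (fun ω => ((1 / (K * √(Fintype.card Ω)) * f i.1 i.2 ω : ℝ) : 𝕜)) =
      ((1 / K : ℝ) : 𝕜) • fun ω => ((1 / √(Fintype.card Ω) * f i.1 i.2 ω : ℝ) : 𝕜) := by
    funext ω
    rw [Pi.smul_apply, smul_eq_mul, ← RCLike.ofReal_mul]
    congr 1
    ring
  show N ∞ r (radJ A r.toReal _) ≤ 1
  rw [e, map_smul, N_smul, RCLike.norm_ofReal, abs_of_nonneg (by positivity), one_div,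
    inv_mul_le_iff₀ (by linarith), mul_one]
  refine hJ _ (le_of_eq ?_)
  simp only [RCLike.norm_ofReal, abs_mul, hf.abs_eq, mul_one, sq_abs, div_pow, one_pow,
    Real.sq_sqrt hn.le, sum_const, card_univ, nsmul_eq_mul]
  field_simp

theorem hΦC {K : ℝ} (hK : 1 ≤ K) [Nonempty A]
    (hx : ∀ i, N ∞ r ((gadC 𝕜 r.toReal K f).x i) ≤ 1)
    (S : (gadC 𝕜 r.toReal K f).C →ₗ[𝕜] (gadC 𝕜 r.toReal K f).C) (B : ℝ)
    (hB : 0 ≤ B) (hS : ∀ y, N ∞ r (S y) ≤ B * N ∞ r y) :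
    ‖(gadC 𝕜 r.toReal K f).Φ S‖ ≤ K * B := by
  have hn : (0 : ℝ) < Fintype.card Ω := by exact_mod_cast Fintype.card_pos
  have ha : (0 : ℝ) < Fintype.card A := by exact_mod_cast Fintype.card_pos
  rw [ΦC, norm_mul, RCLike.norm_ofReal, abs_of_nonneg (by positivity)]
  have h : ‖∑ i : A × Ω, S ((gadC 𝕜 r.toReal K f).x i) () (.inr i)‖ ≤ ∑ _i : A × Ω, B :=
    norm_sum_le_of_le _ fun i _ => (norm_le_N (p := ∞) (u := r) _ _ _).trans
      ((hS _).trans (mul_le_of_le_one_right hB (hx i)))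
  refine (mul_le_mul_of_nonneg_left h (by positivity)).trans (le_of_eq ?_)
  simp only [sum_const, card_univ, nsmul_eq_mul, Fintype.card_prod]
  push_cast
  field_simp

theorem globC (hr : 2 < r) (hr' : r ≠ ∞) (hf : IsMub η f) {K B : ℝ} (hK : 1 ≤ K) (hB : 0 < B)
    [Nonempty A] (hJ : ∀ c : Ω → 𝕜, ∑ i, ‖c i‖ ^ 2 ≤ 1 → N ∞ r (radJ A r.toReal c) ≤ K) :
    Glob ∞ r 2 r (gadC 𝕜 r.toReal K f) B
      (8 * B ^ 2 * K / (Fintype.card A : ℝ) ^ (1 / r.toReal)) := by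
  have hn : (0 : ℝ) < Fintype.card Ω := by exact_mod_cast Fintype.card_pos
  have ha : (0 : ℝ) < Fintype.card A := by exact_mod_cast Fintype.card_pos
  have hρ := toReal_pos' hr'
  have hm : 0 < (Fintype.card Ω : ℝ) ^ (1 / r.toReal) := by positivity
  have hm' : 0 < (Fintype.card A : ℝ) ^ (1 / r.toReal) := by positivity
  have hK0 : 0 < K := by linarith
  intro Γ _ κ _ W V hW hV
  let w : ∀ γ, κ γ → Ω → 𝕜 := fun γ k ω =>
    W (radJ A r.toReal fun j => if ω = j then 1 else 0) γ k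
  have hw : ∀ c γ k, W (radJ A r.toReal c) γ k = ∑ ω, c ω * w γ k ω := fun c γ k => by
    rw [(radJ A r.toReal).pi_apply_eq_sum_univ c]
    simp only [map_sum, map_smul, Finset.sum_apply, Pi.smul_apply, smul_eq_mul, w]
  have hWJ : ∀ c : Ω → 𝕜, ∑ i, ‖c i‖ ^ 2 ≤ 1 → N ∞ 2 (W (radJ A r.toReal c)) ≤ B * K :=
    fun c hc => (hW _).trans (mul_le_mul_of_nonneg_left (hJ c hc) hB.le)
  have h1 : ∀ γ k, √(∑ ω, ‖w γ k ω‖ ^ 2) ≤ B * K := fun γ k =>
    sqrt_le_of_pair _ fun c hc => by rw [← hw]; exact (norm_le_N _ _ _).trans (hWJ c hc)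
  have h2 : ∀ γ, ∑ k, ∑ ω, ‖w γ k ω‖ ^ 2 ≤ Fintype.card Ω * (B * K) ^ 2 := fun γ => by
    rw [sum_comm, ← nsmul_eq_mul, ← card_univ]
    refine sum_le_card_nsmul _ _ _ fun ω _ => (sum_sq_le_nn le_rfl _).trans
      (pow_le_pow_left₀ (nn_nonneg _) ((row_le_N _ γ).trans (hWJ _ ?_)) 2)
    rw [sum_eq_single ω (fun j _ h => by simp [Ne.symm h]) (by simp)]
    simp
  let t : (Σ γ, κ γ) → ℝ := fun σ => √(∑ ω, ‖w σ.1 σ.2 ω‖ ^ 2)
  have h3 : ∀ γ, (nn r fun k => t ⟨γ, k⟩) ≤ B * K * (Fintype.card Ω : ℝ) ^ (1 / r.toReal) := by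
    intro γ
    rw [nn_le_iff hr' _ (by positivity)]
    have := sum_rpow_small univ (fun k => t ⟨γ, k⟩) two_pos (two_lt_toReal hr hr').le
      (fun _ _ => Real.sqrt_nonneg _) fun k _ => h1 γ k
    simp only [Real.rpow_two, t, Real.sq_sqrt (sum_nonneg fun _ _ => sq_nonneg _)] at this
    simp only [t, abs_of_nonneg (Real.sqrt_nonneg _)]
    refine this.trans ((mul_le_mul_of_nonneg_left (h2 γ) (by positivity)).trans (le_of_eq ?_))
    rw [Real.mul_rpow (x := B * K) (by positivity) hm.le, ← Real.rpow_mul hn.le,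
      one_div_mul_cancel hρ.ne', Real.rpow_one, Real.rpow_sub (by positivity), Real.rpow_two]
    field_simp
  let v : (Σ γ, κ γ) → Ω → 𝕜 := fun σ ω =>
    ∑ i : A × Ω, V (ee σ.1 σ.2) () (.inr i) * f i.1 i.2 ω
  have h4 := khin_sum (𝕜 := 𝕜) (H := fun _ => 𝕜) t (fun _ => Real.sqrt_nonneg _) v
    (B := Fintype.card A * Fintype.card Ω * √(Fintype.card Ω) * B ^ 2 * K /
      (Fintype.card A : ℝ) ^ (1 / r.toReal)) fun ε => by
      obtain ⟨g, hg, e⟩ := phase_sum t (fun _ => Real.sqrt_nonneg _)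
        fun σ => ∑ ω, (sn (ε ω) : 𝕜) • v σ ω
      have e2 : ∑ σ, g σ * ∑ ω, (sn (ε ω) : 𝕜) • v σ ω = ∑ i : A × Ω,
          V (fun γ k => g ⟨γ, k⟩) () (.inr i) * ∑ ω, (sn (ε ω) : 𝕜) * f i.1 i.2 ω := by
        simp only [map_apply_eq V fun γ k => g ⟨γ, k⟩, smul_eq_mul, v, mul_sum, sum_mul]
        rw [Fintype.sum_sigma]
        symm
        rw [sum_comm]
        rw [sum_congr rfl fun ω _ => sum_comm, sum_comm]
        refine sum_congr rfl fun γ _ => ?_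
        rw [sum_congr rfl fun ω _ => sum_comm, sum_comm]
        exact sum_congr rfl fun k _ => sum_congr rfl fun ω _ => sum_congr rfl fun i _ => by ring
      rw [e, e2]
      have b1 : N ∞ r (fun γ k => g ⟨γ, k⟩) ≤ B * K * (Fintype.card Ω : ℝ) ^ (1 / r.toReal) :=
        N_top_le _ (by positivity) fun γ =>
          (nn_mono' (fun _ => norm_nonneg _) fun k => hg ⟨γ, k⟩).trans (h3 γ)
      have b2 := nn_le_card hr.le hr' fun i : A × Ω => ‖V (fun γ k => g ⟨γ, k⟩) () (.inr i)‖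
      have b3 : (nn r fun i : A × Ω => ‖V (fun γ k => g ⟨γ, k⟩) () (.inr i)‖) ≤
          B * (B * K * (Fintype.card Ω : ℝ) ^ (1 / r.toReal)) := by
        refine le_trans ?_ ((hV _).trans (mul_le_mul_of_nonneg_left b1 hB.le))
        rw [N_unit]
        exact nn_comp_le Sum.inr_injective fun b => ‖V (fun γ k => g ⟨γ, k⟩) () b‖
      have b4 : ∑ i : A × Ω, ‖∑ ω, (sn (ε ω) : 𝕜) * f i.1 i.2 ω‖ ^ 2 ≤
          Fintype.card A * Fintype.card Ω * Fintype.card Ω := by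
        rw [Fintype.sum_prod_type, mul_assoc, ← nsmul_eq_mul, ← card_univ]
        refine sum_le_card_nsmul _ _ _ fun a _ =>
          (hf.bessel_one a fun ω => (sn (ε ω) : 𝕜)).trans (le_of_eq ?_)
        simp only [norm_sn, one_pow, sum_const, card_univ, nsmul_eq_mul, mul_one]
      rw [nn_two] at b2
      refine (norm_sum_mul_le _ _ _).trans ((mul_le_mul (b2.trans (mul_le_mul_of_nonneg_left b3
        (by positivity))) (Real.sqrt_le_sqrt b4) (Real.sqrt_nonneg _) (by positivity)).trans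
        (le_of_eq ?_))
      rw [Fintype.card_prod, Nat.cast_mul, Real.rpow_sub (by positivity), ENNReal.toReal_ofNat,
        ← Real.sqrt_eq_rpow, Real.mul_rpow ha.le hn.le, Real.sqrt_mul (mul_pos ha hn).le]
      have b5 := Real.mul_self_sqrt (mul_pos ha hn).le
      generalize √((Fintype.card A : ℝ) * Fintype.card Ω) = s at b5 ⊢
      rw [← b5]
      field_simp
  have e : ∑ i : A × Ω, (V ∘ₗ W) ((gadC 𝕜 r.toReal K f).x i) () (.inr i) =
      ((1 / (K * √(Fintype.card Ω)) : ℝ) : 𝕜) * ∑ σ : Σ γ, κ γ, ∑ ω, w σ.1 σ.2 ω * v σ ω := by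
    have e1 : ∀ i : A × Ω, (V ∘ₗ W) ((gadC 𝕜 r.toReal K f).x i) () (.inr i) =
        ∑ σ : Σ γ, κ γ, ∑ ω, ((1 / (K * √(Fintype.card Ω)) : ℝ) : 𝕜) * (w σ.1 σ.2 ω *
          (V (ee σ.1 σ.2) () (.inr i) * f i.1 i.2 ω)) := fun i => by
      rw [LinearMap.comp_apply, map_apply_eq V, Fintype.sum_sigma]
      refine sum_congr rfl fun γ _ => sum_congr rfl fun k _ => ?_
      rw [hw, sum_mul]
      exact sum_congr rfl fun ω _ => by rw [RCLike.ofReal_mul]; ring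
    simp only [e1, v, mul_sum]
    rw [sum_comm]
    exact sum_congr rfl fun σ _ => sum_comm
  rw [ΦC, e, norm_mul, norm_mul, RCLike.norm_ofReal, RCLike.norm_ofReal,
    abs_of_nonneg (by positivity), abs_of_nonneg (by positivity)]
  have h5 : ‖∑ σ : Σ γ, κ γ, ∑ ω, w σ.1 σ.2 ω * v σ ω‖ ≤ _ :=
    (norm_sum_le_of_le _ fun σ _ => norm_sum_mul_le _ _ _).trans h4
  refine (mul_le_mul_of_nonneg_left (mul_le_mul_of_nonneg_left h5 (by positivity))
    (by positivity)).trans (le_of_eq ?_)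
  have h6 := (Real.sqrt_pos.2 hn).ne'
  field_simp

end gadget

theorem coreC (hr : 2 < r) (hr' : r ≠ ∞) : ∃ (C : ℝ) (G : ℕ → Gad 𝕜), Core ∞ r C G := by
  have hρ := toReal_pos' hr'
  obtain ⟨K, hK, hK'⟩ := khin_upper (𝕜 := 𝕜) r.toReal hρ.le
  refine ⟨5 + K, core_of (u := 2) (v := r) (by linarith) fun D η B ε hη hB hε => ?_⟩
  obtain ⟨a, ha⟩ := exists_nat_ge ((8 * (B + 1) ^ 2 * K / ε) ^ r.toReal)
  obtain ⟨θ, hθ, hθ'⟩ := exists_rpow_le (sub_pos.2 (two_lt_toReal hr hr'))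
    (by positivity : 0 < (min η 1) ^ r.toReal / (a + 1 : ℕ))
  obtain ⟨Ω, _, _, _, f, hf⟩ := exists_mub (a + 1)
    (η := θ ^ 2 / ((D + 1 : ℕ) * (a + 1 : ℕ))) (by positivity)
  have hloc := locC (𝕜 := 𝕜) hr hr' hf (by positivity) K (D := D + 1) (η' := min η 1) hθ
    (by positivity) (by
      rw [le_div_iff₀ (by positivity)] at hθ'; simpa using hθ')
    (by rw [Fintype.card_fin, div_mul_cancel₀ _ (by positivity)])
  have hJ := radJ_le (A := Fin (a + 1)) hr' hK (hK' Ω)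
  have hx := xC_le hf hK hJ
  refine ⟨gadC 𝕜 r.toReal K f, ⟨⟨fun y => ?_, oneC hf _ hK, fun S B hB hS =>
    (hΦC hK hx S B hB hS).trans (mul_le_mul_of_nonneg_right (by linarith) hB)⟩, hx⟩,
    hloc.mono (by linarith) (by omega) (min_le_left _ _), ?_⟩
  · refine (hloc.bound (by norm_num) (by omega) hr.le y).trans
      (mul_le_mul_of_nonneg_right ?_ (N_nonneg _))
    linarith [min_le_right η 1]
  · intro Γ _ κ _ W V hW hV
    refine (globC hr hr' hf (B := B + 1) hK (by positivity) hJ Γ κ W V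
      (fun z => (hW z).trans (mul_le_mul_of_nonneg_right (by linarith) (N_nonneg _)))
      fun z => (hV z).trans (mul_le_mul_of_nonneg_right (by linarith) (N_nonneg _))).trans ?_
    rw [div_le_comm₀ (by positivity) hε, one_div, Real.le_rpow_inv_iff_of_pos (by positivity)
      (by positivity) hρ, Fintype.card_fin]
    push_cast
    linarith

end Pool.Agent.P.MP_6b6f2e_an
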