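import Pool.Agent.P.MP_6b6f2e_an.Tools

set_option autoImplicit false
set_option linter.unusedSectionVars false

namespace Pool.Agent.P.MP_6b6f2e_an

open Finset
open scoped ENNReal

theorem nn_le_of_unique {p r : ℝ≥0∞} [Fact (1 ≤ p)] [Fact (1 ≤ r)] {ι : Type} [Fintype ι]
    (a : ι → ℝ) (h : ∀ i j, a i ≠ 0 → a j ≠ 0 → i = j) : nn r a ≤ nn p a := by
  classical
  by_cases h0 : ∃ i, a i ≠ 0
  · obtain ⟨i, hi⟩ := h0
    have : a = fun j => if j = i then a i else 0 := by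
      funext j
      split_ifs with hj
      · rw [hj]
      · by_contra hne
        exact hj (h j i hne hi)
    refine le_trans (le_of_eq ?_) (abs_le_nn (p := p) a i)
    rw [← nn_single (p := r) i (a i), ← this]
  · have : a = fun _ => 0 := funext fun i => not_not.1 (not_exists.1 h0 i)
    rw [this, nn_zero, nn_zero]

section

variable {X Φ : Type} [Fintype X] [DecidableEq X] [Fintype Φ] [DecidableEq Φ]

/-- The indicator function of the graph of `ev φ`. -/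
def ind (ev : Φ → X → X) (φ : Φ) (i : X × X) : ℝ := if ev φ i.1 = i.2 then 1 else 0

variable {ev : Φ → X → X} {K : ℝ}

theorem ind_nonneg (φ : Φ) (i : X × X) : 0 ≤ ind ev φ i := by unfold ind; positivity

theorem ind_le (φ : Φ) (i : X × X) : ind ev φ i ≤ 1 := by unfold ind; split_ifs <;> norm_num

theorem sum_ind_mul {R : Type} [RCLike R] (φ : Φ) (y : X × X → R) :
    ∑ i, (ind ev φ i : R) * y i = ∑ x, y (x, ev φ x) := by
  rw [Fintype.sum_prod_type]
  refine sum_congr rfl fun x _ => ?_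
  rw [sum_eq_single (ev φ x) (fun x' _ h => by simp [ind, Ne.symm h]) (by simp)]
  simp [ind]

theorem sum_ind (φ : Φ) : ∑ i, ind ev φ i = Fintype.card X := by
  simpa using sum_ind_mul (R := ℝ) (ev := ev) φ fun _ => 1

theorem sum_ind_ind (φ ψ : Φ) :
    ∑ i, ind ev φ i * ind ev ψ i = (univ.filter fun x => ev ψ x = ev φ x).card := by
  have := sum_ind_mul (R := ℝ) (ev := ev) φ (ind ev ψ)
  simp only [RCLike.ofReal_real_eq_id, id] at this
  rw [this]
  simp [ind]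

theorem flat_sum (hK : ∀ φ ψ, φ ≠ ψ → ∑ i, ind ev φ i * ind ev ψ i ≤ K) (hK0 : 0 ≤ K) (c : Φ → ℝ)
    {θ β δ : ℝ} (hc0 : ∀ φ, 0 ≤ c φ) (hc : ∀ φ, c φ ≤ θ) (hθ : 0 ≤ θ) (hc1 : ∑ φ, c φ ≤ 1)
    (hβ : 1 ≤ β) (hδ : 0 < δ) : ∑ i, (∑ φ, ind ev φ i * c φ) ^ β ≤
      δ ^ (β - 1) * Fintype.card X + (θ * Fintype.card X + K) / δ := by
  have hs : (0 : ℝ) ≤ Fintype.card X := Nat.cast_nonneg _
  have h0 : ∀ i, 0 ≤ ∑ φ, ind ev φ i * c φ := fun i =>
    sum_nonneg fun φ _ => mul_nonneg (ind_nonneg _ _) (hc0 φ)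
  have h1 : ∀ i, ∑ φ, ind ev φ i * c φ ≤ 1 := fun i =>
    (sum_le_sum fun φ _ => mul_le_of_le_one_left (hc0 φ) (ind_le _ _)).trans hc1
  have h2 : ∀ b : ℝ, 0 ≤ b → b ≤ 1 → b ^ β ≤ δ ^ (β - 1) * b + b ^ 2 / δ := fun b hb hb1 => by
    rcases le_total b δ with h | h
    · have := sum_rpow_small ({0} : Finset ℕ) (fun _ => b) one_pos hβ (fun _ _ => hb) fun _ _ => h
      simp only [sum_singleton, Real.rpow_one] at this
      exact this.trans (le_add_of_nonneg_right (by positivity))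
    · refine (Real.rpow_le_self_of_le_one hb hb1 hβ).trans (le_add_of_nonneg_of_le
        (by positivity) ?_)
      rw [le_div_iff₀ hδ]
      nlinarith
  have h3 : ∑ i, ∑ φ, ind ev φ i * c φ ≤ Fintype.card X := by
    rw [sum_comm]
    simp only [← sum_mul, sum_ind, ← mul_sum]
    exact mul_le_of_le_one_right hs hc1
  have h4 : ∑ i, (∑ φ, ind ev φ i * c φ) ^ 2 ≤ θ * Fintype.card X + K := by
    have e : ∑ i, (∑ φ, ind ev φ i * c φ) ^ 2 =
        ∑ φ, c φ * ∑ ψ, c ψ * ∑ i, ind ev φ i * ind ev ψ i := by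
      simp only [sq, sum_mul_sum]
      simp only [mul_sum]
      rw [sum_comm]
      refine sum_congr rfl fun φ _ => ?_
      rw [sum_comm]
      exact sum_congr rfl fun ψ _ => sum_congr rfl fun i _ => by ring
    rw [e]
    have b1 : ∀ φ, ∑ ψ, c ψ * ∑ i, ind ev φ i * ind ev ψ i ≤ θ * Fintype.card X + K := fun φ => by
      rw [← add_sum_erase _ _ (mem_univ φ)]
      refine add_le_add (mul_le_mul (hc φ) ?_ (sum_nonneg fun i _ =>
        mul_nonneg (ind_nonneg _ _) (ind_nonneg _ _)) hθ) ?_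
      · rw [← sum_ind (ev := ev) φ]
        exact sum_le_sum fun i _ => mul_le_of_le_one_right (ind_nonneg _ _) (ind_le _ _)
      · refine (sum_le_sum fun ψ hψ => mul_le_mul_of_nonneg_left
          (hK φ ψ (mem_erase.1 hψ).1.symm) (hc0 ψ)).trans ?_
        rw [← sum_mul]
        exact mul_le_of_le_one_left hK0 ((sum_le_sum_of_subset_of_nonneg (subset_univ _)
          fun ψ _ _ => hc0 ψ).trans hc1)
    refine (sum_le_sum fun φ _ => mul_le_mul_of_nonneg_left (b1 φ) (hc0 φ)).trans ?_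
    rw [← sum_mul]
    exact mul_le_of_le_one_left (by positivity) hc1
  refine (sum_le_sum fun i _ => h2 _ (h0 i) (h1 i)).trans ?_
  rw [sum_add_distrib, ← mul_sum, ← sum_div]
  gcongr

theorem bad_sum (hK : ∀ φ ψ, φ ≠ ψ → ∑ i, ind ev φ i * ind ev ψ i ≤ K) (hK0 : 0 ≤ K)
    (Λ : Finset Φ) :
    ∑ i, ∑ φ ∈ Λ, ∑ ψ ∈ Λ.erase φ, ind ev φ i * ind ev ψ i ≤ K * Λ.card ^ 2 := by
  rw [sum_comm, sq, mul_left_comm, ← nsmul_eq_mul]
  refine sum_le_card_nsmul _ _ _ fun φ _ => ?_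
  rw [sum_comm]
  refine (sum_le_card_nsmul _ _ K fun ψ hψ => hK φ ψ (mem_erase.1 hψ).1.symm).trans ?_
  rw [nsmul_eq_mul, mul_comm]
  exact mul_le_mul_of_nonneg_left (Nat.cast_le.2 card_erase_le) hK0

end

theorem exists_curves (q : ℕ) [Fact q.Prime] (K : ℕ) :
    ∃ ev : (Fin K → ZMod q) → ZMod q → ZMod q,
      ∀ φ ψ, φ ≠ ψ → ∑ i, ind ev φ i * ind ev ψ i ≤ K := by
  refine ⟨fun φ x => (Polynomial.ofFn K φ).eval x, fun φ ψ h => ?_⟩
  rw [sum_ind_ind, Nat.cast_le]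
  have h0 : Polynomial.ofFn K (ψ - φ) ≠ 0 := fun h' => h
    (sub_eq_zero.1 (Polynomial.injective_ofFn K (h'.trans (map_zero _).symm))).symm
  refine (Polynomial.card_le_degree_of_subset_roots (p := Polynomial.ofFn K (ψ - φ))
    fun x hx => ?_).trans (Polynomial.natDegree_le_of_degree_le
      (Polynomial.ofFn_degree_lt _).le)
  rw [Polynomial.mem_roots h0, Polynomial.IsRoot.def, map_sub, Polynomial.eval_sub, sub_eq_zero]
  exact (mem_filter.1 hx).2

end Pool.Agent.P.MP_6b6f2e_an
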