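import Mathlib

set_option autoImplicit false

namespace Pool.Agent.P.MP_6b6f2e_an

/-- `X` has an unconditional finite-dimensional decomposition. -/
def HasUFDD (𝕜 X : Type) [RCLike 𝕜] [NormedAddCommGroup X] [NormedSpace 𝕜 X] : Prop :=
  ∃ E : ℕ → Submodule 𝕜 X, (∀ n, FiniteDimensional 𝕜 (E n)) ∧
    ∀ x : X, ∃! y : ℕ → X, (∀ n, y n ∈ E n) ∧ HasSum y x

/-- `X` contains an isomorphic copy of `Z`. -/
def ContainsCopy (𝕜 X Z : Type) [RCLike 𝕜] [NormedAddCommGroup X] [NormedSpace 𝕜 X]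
    [NormedAddCommGroup Z] [NormedSpace 𝕜 Z] : Prop :=
  ∃ (i : Z →L[𝕜] X) (c : ℝ), 0 < c ∧ ∀ z, c * ‖z‖ ≤ ‖i z‖

/-- The number of non-trivial proper closed two-sided ideals of a topological ring. -/
def numProperClosedIdeals (A : Type) [Ring A] [TopologicalSpace A] : Cardinal :=
  Cardinal.mk {I : TwoSidedIdeal A // IsClosed (I : Set A) ∧ I ≠ ⊥ ∧ I ≠ ⊤}

/-- The number of non-trivial proper closed ideals of the algebra of bounded operators on `X`. -/
noncomputable def kappa (𝕜 X : Type) [RCLike 𝕜] [NormedAddCommGroup X] [NormedSpace 𝕜 X] :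
    Cardinal :=
  numProperClosedIdeals (X →L[𝕜] X)

end Pool.Agent.P.MP_6b6f2e_an
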