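import Pool.Agent.P.MP_6b6f2e_an.Main
import Pool.Agent.P.MP_6b6f2e_an.Defs

set_option autoImplicit false

namespace Pool.Agent.P.MP_6b6f2e_an

open Cardinal Pool.Agent.P.MP_38279d_an

theorem final (𝕜 X : Type) [RCLike 𝕜] [NormedAddCommGroup X] [NormedSpace 𝕜 X] [CompleteSpace X]
    (h : HasUFDD 𝕜 X) (h1 : ContainsCopy 𝕜 X (L1 𝕜)) (h0 : ContainsCopy 𝕜 X (C0 𝕜)) :
    kappa 𝕜 X = 2 ^ 𝔠 := by
  obtain ⟨E, hE, hexp⟩ := h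
  obtain ⟨i, c, hc, hi⟩ := h1
  obtain ⟨j, d, hd, hj⟩ := h0
  exact main 𝕜 X E hE hexp i ⟨c, hc, hi⟩ j ⟨d, hd, hj⟩

end Pool.Agent.P.MP_6b6f2e_an
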