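import Pool.Agent.P.MP_6b6f2e_an.Mix

set_option autoImplicit false
set_option linter.unusedSectionVars false

namespace Pool.Agent.P.MP_6b6f2e_an

open Finset Filter Topology
open scoped ENNReal

/-- A finite-dimensional operator with a test functional. -/
structure Gad (𝕜 : Type) [RCLike 𝕜] : Type 1 where
  α : Type
  β : Type
  I : Type
  fα : Fintype α
  fβ : Fintype β
  fI : Fintype I
  T : (α → β → 𝕜) →ₗ[𝕜] (α → β → 𝕜)
  x : I → α → β → 𝕜
  f : I → α → β → 𝕜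

variable {𝕜 : Type} [RCLike 𝕜]

instance (g : Gad 𝕜) : Fintype g.α := g.fα
instance (g : Gad 𝕜) : Fintype g.β := g.fβ
instance (g : Gad 𝕜) : Fintype g.I := g.fI

/-- The space of a gadget. -/
abbrev Gad.C (g : Gad 𝕜) : Type := g.α → g.β → 𝕜

/-- The test functional. -/
noncomputable def Gad.Φ (g : Gad 𝕜) (S : g.C →ₗ[𝕜] g.C) : 𝕜 := ∑ i, pair (g.f i) (S (g.x i))

/-- The transposed gadget. -/
@[reducible] noncomputable def Gad.t (g : Gad 𝕜) : Gad 𝕜 where
  α := g.α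
  β := g.β
  I := g.I
  fα := g.fα
  fβ := g.fβ
  fI := g.fI
  T := tr g.T
  x := g.f
  f := g.x

/-- Basic bounds of a gadget. -/
structure Basic (p r : ℝ≥0∞) (C : ℝ) (g : Gad 𝕜) : Prop where
  hT : ∀ y, N p r (g.T y) ≤ C * N p r y
  one : g.Φ g.T = 1
  hΦ : ∀ (S : g.C →ₗ[𝕜] g.C) (B : ℝ), 0 ≤ B → (∀ y, N p r (S y) ≤ B * N p r y) →
    ‖g.Φ S‖ ≤ C * B

/-- An independent sequence of gadgets. -/
structure Core (p r : ℝ≥0∞) (C : ℝ) (G : ℕ → Gad 𝕜) : Prop where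
  nonneg : 0 ≤ C
  basic : ∀ l, Basic p r C (G l)
  small : ∀ ε > 0, ∀ᶠ k in atTop, ∀ F : Finset ℕ, k ∉ F →
    ∀ (U : ∀ l : F, (G k).C →ₗ[𝕜] (G l).C) (V : ∀ l : F, (G l).C →ₗ[𝕜] (G k).C),
      (∀ x, nn p (fun l : F => N p r (U l x)) ≤ N p r x) →
      (∀ z : ∀ l : F, (G l).C, N p r (∑ l, V l (z l)) ≤ nn p (fun l : F => N p r (z l))) →
      ‖(G k).Φ (∑ l : F, V l ∘ₗ (G l).T ∘ₗ U l)‖ ≤ ε

theorem pair_sigma {L : Type} [Fintype L] {Γ : L → Type} [∀ l, Fintype (Γ l)]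
    {κ : ∀ l, Γ l → Type} [∀ l γ, Fintype (κ l γ)] (g x : ∀ σ : Σ l, Γ l, κ σ.1 σ.2 → 𝕜) :
    pair (κ := fun σ : Σ l, Γ l => κ σ.1 σ.2) g x =
      ∑ l, pair (κ := κ l) (fun a => g ⟨l, a⟩) (fun a => x ⟨l, a⟩) := by
  unfold pair
  rw [Fintype.sum_sigma]

section transpose

variable {p r p' r' : ℝ≥0∞} [Fact (1 ≤ p)] [Fact (1 ≤ r)] [Fact (1 ≤ p')] [Fact (1 ≤ r')]

theorem Φ_t (g : Gad 𝕜) (S : g.C →ₗ[𝕜] g.C) : g.t.Φ S = g.Φ (tr S) := by
  unfold Gad.Φ
  refine sum_congr rfl fun i _ => ?_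
  rw [pair_comm (g.f i), pair_tr]

theorem Basic.t {C : ℝ} (hC : 0 ≤ C) {g : Gad 𝕜} (h : Basic p r C g) (hp : DualE p p')
    (hr : DualE r r') (hp' : DualE p' p) (hr' : DualE r' r) : Basic p' r' C g.t where
  hT := N_tr_le hp' hr' g.T hC h.hT
  one := by
    rw [← h.one]
    unfold Gad.Φ
    refine sum_congr rfl fun i _ => ?_
    rw [← pair_tr g.T, pair_comm]
  hΦ S B hB hS := by
    rw [Φ_t]
    exact h.hΦ _ B hB (N_tr_le hp hr S hB hS)

theorem Core.t {C : ℝ} {G : ℕ → Gad 𝕜} (h : Core p r C G) (hp : DualE p p')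
    (hr : DualE r r') (hp' : DualE p' p) (hr' : DualE r' r) :
    Core p' r' C fun l => (G l).t where
  nonneg := h.nonneg
  basic l := (h.basic l).t h.nonneg hp hr hp' hr'
  small ε hε := by
    filter_upwards [h.small ε hε] with k hk F hF U V hU hV
    have key := hk F hF (fun l => tr (V l)) (fun l => tr (U l)) ?_ ?_
    · rw [Φ_t]
      convert key using 2
      unfold Gad.Φ
      refine sum_congr rfl fun i _ => ?_
      rw [pair_comm, pair_tr, LinearMap.sum_apply, LinearMap.sum_apply, pair_sum, pair_sum]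
      refine sum_congr rfl fun l _ => ?_
      simp only [LinearMap.comp_apply]
      rw [← pair_tr (V l), pair_comm ((G k).f i), pair_tr (U l), pair_comm _ (U l _),
        ← pair_tr (G l).T, pair_comm]
    · intro x
      rw [N_sigma (κ := fun (l : F) (_ : (G l).α) => (G l).β)]
      refine N_le_of_pair hp hr _ fun g hg => ?_
      rw [pair_sigma (κ := fun (l : F) (_ : (G l).α) => (G l).β)]
      have : ∀ l : F, pair (fun a => g ⟨l, a⟩) (fun a => tr (V l) x a) =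
          pair x (V l fun a => g ⟨l, a⟩) := fun l => by
        rw [pair_comm]; exact pair_tr (V l) x _
      simp only [this]
      rw [← pair_sum]
      refine (norm_pair_le hp hr _ _).trans (mul_le_of_le_one_right (N_nonneg _) ?_)
      refine (hV fun l a => g ⟨l, a⟩).trans ?_
      rw [N_sigma (κ := fun (l : F) (_ : (G l).α) => (G l).β)]
      exact hg
    · intro z
      refine N_le_of_pair hp hr _ fun g hg => ?_
      rw [pair_sum]
      have : ∀ l : F, pair g (tr (U l) (z l)) = pair (z l) (U l g) := fun l => by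
        rw [pair_comm]; exact pair_tr (U l) _ g
      simp only [this]
      have h2 := pair_sigma (κ := fun (l : F) (_ : (G l).α) => (G l).β)
        (fun σ => z σ.1 σ.2) (fun σ => U σ.1 g σ.2)
      rw [← h2, N_sigma (κ := fun (l : F) (_ : (G l).α) => (G l).β)]
      refine (norm_pair_le hp hr _ _).trans (mul_le_of_le_one_right (N_nonneg _) ?_)
      rw [← N_sigma (κ := fun (l : F) (_ : (G l).α) => (G l).β) (fun l => U l g)]
      exact (hU g).trans hg

end transpose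

/-- Local approximate factorisation through the formal identity `ℓ_p(ℓ_u) → ℓ_p(ℓ_v)`. -/
def Loc (p r u v : ℝ≥0∞) (C : ℝ) (g : Gad 𝕜) (D : ℕ) (η : ℝ) : Prop :=
  ∀ (J : Type) [Fintype J], Fintype.card J ≤ D → ∀ y : J → g.C, (∀ j, N p r (y j) ≤ 1) →
    ∃ W E : g.C →ₗ[𝕜] g.C, (∀ z, N p u (W z) ≤ C * N p r z) ∧ (∀ z, N p r (E z) ≤ C * N p v z) ∧
      ∀ j, N p r (g.T (y j) - E (W (y j))) ≤ η

/-- The test functional is small on operators factoring through `ℓ_p(ℓ_u) → ℓ_p(ℓ_v)`. -/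
def Glob (p r u v : ℝ≥0∞) (g : Gad 𝕜) (B ε : ℝ) : Prop :=
  ∀ (Γ : Type) [Fintype Γ] (κ : Γ → Type) [∀ γ, Fintype (κ γ)]
    (W : g.C →ₗ[𝕜] (∀ γ, κ γ → 𝕜)) (V : (∀ γ, κ γ → 𝕜) →ₗ[𝕜] g.C),
    (∀ z, N p u (W z) ≤ B * N p r z) → (∀ z, N p r (V z) ≤ B * N p v z) →
      ‖g.Φ (V ∘ₗ W)‖ ≤ ε

/-- The weight of a gadget. -/
noncomputable def Gad.w (C : ℝ) (g : Gad 𝕜) : ℝ :=
  (C + 1) * Fintype.card (Σ _ : g.α, g.β) + ∑ i, ∑ a, ∑ b, ‖g.f i a b‖

theorem exists_seq {C : ℝ} (hC : 0 ≤ C) (P : Gad 𝕜 → ℕ → ℝ → ℝ → ℝ → Prop)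
    (h : ∀ D η B ε, 0 < η → 0 ≤ B → 0 < ε → ∃ g, P g D η B ε) :
    ∃ (G : ℕ → Gad 𝕜) (D : ℕ → ℕ) (B : ℕ → ℝ), (∀ l, C + 1 ≤ B l) ∧
      (∀ k l, k < l → Fintype.card (G k).I ≤ D l ∧ (G k).w C ≤ B l) ∧
      ∀ l, P (G l) (D l) ((1 / 2) ^ l / B l) (B l) (1 / ((l : ℝ) + 1)) := by
  have h' : ∀ (D : ℕ) (B : ℝ) (l : ℕ), ∃ g, 0 < B → P g D ((1 / 2) ^ l / B) B (1 / ((l : ℝ) + 1)) := by
    intro D B l
    by_cases hB : 0 < B
    · obtain ⟨g, hg⟩ := h D ((1 / 2) ^ l / B) B (1 / ((l : ℝ) + 1)) (by positivity) hB.le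
        (by positivity)
      exact ⟨g, fun _ => hg⟩
    · obtain ⟨g, -⟩ := h 0 1 0 1 one_pos le_rfl one_pos
      exact ⟨g, fun h => (hB h).elim⟩
  choose nx hnx using h'
  let s : ℕ → ℕ × ℝ := fun l => Nat.rec (0, C + 1)
    (fun l a => (a.1 + Fintype.card (nx a.1 a.2 l).I, a.2 + (nx a.1 a.2 l).w C)) l
  have hw : ∀ g : Gad 𝕜, 0 ≤ g.w C := fun g => by unfold Gad.w; positivity
  have s1 : ∀ l, (s (l + 1)).1 = (s l).1 + Fintype.card (nx (s l).1 (s l).2 l).I := fun _ => rfl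
  have s2 : ∀ l, (s (l + 1)).2 = (s l).2 + (nx (s l).1 (s l).2 l).w C := fun _ => rfl
  have m1 : Monotone fun l => (s l).1 := monotone_nat_of_le_succ fun l => by rw [s1]; omega
  have m2 : Monotone fun l => (s l).2 := monotone_nat_of_le_succ fun l => by
    rw [s2]; linarith [hw (nx (s l).1 (s l).2 l)]
  have hB : ∀ l, C + 1 ≤ (s l).2 := fun l => m2 (Nat.zero_le l)
  refine ⟨fun l => nx (s l).1 (s l).2 l, fun l => (s l).1, fun l => (s l).2, hB, ?_,
    fun l => hnx _ _ _ (by linarith [hB l])⟩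
  intro k l hkl
  have a1 := m1 (Nat.succ_le_of_lt hkl)
  have a2 := m2 (Nat.succ_le_of_lt hkl)
  simp only [Nat.succ_eq_add_one, s1, s2] at a1 a2
  exact ⟨le_trans (Nat.le_add_left _ _) a1, by dsimp only; linarith [hB k]⟩

theorem core_of {p r u v : ℝ≥0∞} [Fact (1 ≤ p)] [Fact (1 ≤ r)] [Fact (1 ≤ u)] [Fact (1 ≤ v)]
    {C : ℝ} (hC : 0 ≤ C)
    (h : ∀ D η B ε, 0 < η → 0 ≤ B → 0 < ε → ∃ g : Gad 𝕜, (Basic p r C g ∧ ∀ i, N p r (g.x i) ≤ 1) ∧
      Loc p r u v C g D η ∧ Glob p r u v g B ε) :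
    ∃ G : ℕ → Gad 𝕜, Core p r C G := by
  classical
  obtain ⟨G, D, B, hB, hlt, hG⟩ := exists_seq hC _ h
  refine ⟨G, hC, fun l => (hG l).1.1, fun ε hε => ?_⟩
  obtain ⟨s, hs⟩ := summable_geometric_two.vanishing (Iio_mem_nhds (half_pos hε))
  filter_upwards [eventually_ge_atTop (s.sup id),
    tendsto_one_div_add_atTop_nhds_zero_nat.eventually (gt_mem_nhds (half_pos hε))]
    with k hk1 hk2 F hF U V hU hV
  have hBk : 0 ≤ B k := by linarith [hB k]
  have hU1 : ∀ (l : F) i, N p r (U l ((G k).x i)) ≤ 1 := fun l i =>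
    ((le_abs_self _).trans (abs_le_nn (p := p) (fun l : F => N p r (U l ((G k).x i))) l)).trans
      ((hU _).trans ((hG k).1.2 i))
  have hV1 : ∀ (l : F) z, N p r (V l z) ≤ N p r z := fun l z => by
    have h1 := hV (Pi.single l z)
    rw [sum_eq_single l (fun l' _ h' => by rw [Pi.single_eq_of_ne h', map_zero]) (by simp),
      Pi.single_eq_same] at h1
    refine h1.trans (le_of_eq ?_)
    rw [← abs_of_nonneg (N_nonneg (p := p) (u := r) z), ← nn_single (p := p) l]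
    congr 1
    funext l'
    split_ifs with h'
    · rw [h', Pi.single_eq_same]
    · rw [Pi.single_eq_of_ne h', N_zero]
  have hfac : ∀ l : F, ∃ W E : (G l).C →ₗ[𝕜] (G l).C, (∀ z, N p u (W z) ≤ B k * N p r z) ∧
      (∀ z, N p r (E z) ≤ B k * N p v z) ∧ ∀ i, N p r ((G l).T (U l ((G k).x i)) -
        E (W (U l ((G k).x i)))) ≤ if k < l then (1 / 2) ^ (l : ℕ) / B l else 0 := by
    intro l
    split_ifs with hl
    · obtain ⟨W, E, h1, h2, h3⟩ := (hG l).2.1 _ (hlt k l hl).1 _ (hU1 l)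
      refine ⟨W, E, fun z => (h1 z).trans ?_, fun z => (h2 z).trans ?_, h3⟩ <;>
        exact mul_le_mul_of_nonneg_right (by linarith [hB k]) (N_nonneg _)
    · have hl' : (l : ℕ) < k := lt_of_le_of_ne (not_lt.1 hl) fun h' => hF (h' ▸ l.2)
      have h1 := (hlt l k hl').2
      unfold Gad.w at h1
      have h2 : 0 ≤ ∑ i, ∑ a, ∑ b, ‖(G l).f i a b‖ := by positivity
      have h3 : (0 : ℝ) ≤ Fintype.card (Σ _ : (G l).α, (G l).β) := by positivity
      refine ⟨LinearMap.id, (G l).T, fun z => (N_le_card (v := r) z).trans ?_,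
        fun z => ((hG l).1.1.hT z).trans ?_, fun i => by simp [N_zero]⟩
      · exact mul_le_mul_of_nonneg_right (by nlinarith) (N_nonneg _)
      · refine (mul_le_mul_of_nonneg_left (N_le_card (v := v) z) hC).trans ?_
        rw [← mul_assoc]
        exact mul_le_mul_of_nonneg_right (by nlinarith) (N_nonneg _)
  choose W E hW hE herr using hfac
  let W' : (G k).C →ₗ[𝕜] (∀ σ : Σ l : F, (G l).α, (G σ.1).β → 𝕜) :=
    LinearMap.pi fun σ => LinearMap.proj σ.2 ∘ₗ W σ.1 ∘ₗ U σ.1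
  let V' : (∀ σ : Σ l : F, (G l).α, (G σ.1).β → 𝕜) →ₗ[𝕜] (G k).C :=
    ∑ l : F, V l ∘ₗ E l ∘ₗ LinearMap.pi fun a => LinearMap.proj (⟨l, a⟩ : Σ l : F, (G l).α)
  have hglob := (hG k).2.2 _ _ W' V' (fun z => by
      refine (N_sigma (κ := fun (l : F) (_ : (G l).α) => (G l).β)
        (fun l => W l (U l z))).symm.trans_le ?_
      refine (nn_mono' (fun _ => N_nonneg _) fun l => hW l _).trans ?_
      rw [nn_mul, abs_of_nonneg hBk]
      exact mul_le_mul_of_nonneg_left (hU z) hBk) (fun z => by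
      rw [LinearMap.sum_apply]
      refine (hV fun l => E l fun a => z ⟨l, a⟩).trans ?_
      refine (nn_mono' (fun _ => N_nonneg _) fun l => hE l _).trans ?_
      rw [nn_mul, abs_of_nonneg hBk,
        N_sigma (κ := fun (l : F) (_ : (G l).α) => (G l).β) (fun l a => z ⟨l, a⟩)])
  have hsplit : (G k).Φ (∑ l : F, V l ∘ₗ (G l).T ∘ₗ U l) = (G k).Φ (V' ∘ₗ W') +
      ∑ l : F, ∑ i, pair ((G k).f i) (V l ((G l).T (U l ((G k).x i)) -
        E l (W l (U l ((G k).x i))))) := by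
    unfold Gad.Φ
    rw [sum_comm, ← sum_add_distrib]
    refine sum_congr rfl fun i _ => ?_
    simp only [V', LinearMap.comp_apply, LinearMap.sum_apply, pair_sum, ← sum_add_distrib,
      map_sub, pair_sub]
    refine sum_congr rfl fun l _ => ?_
    exact (add_sub_cancel _ _).symm
  rw [hsplit]
  refine (norm_add_le _ _).trans ?_
  have herr' : ∀ l : F, ‖∑ i, pair ((G k).f i) (V l ((G l).T (U l ((G k).x i)) -
      E l (W l (U l ((G k).x i)))))‖ ≤ if k < l then (1 / 2) ^ (l : ℕ) else 0 := fun l => by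
    refine (norm_sum_le_of_le _ fun i _ => (norm_pair_le_sum (p := p) (u := r) _ _).trans
      (mul_le_mul_of_nonneg_left ((hV1 l _).trans (herr l i)) (by positivity))).trans ?_
    rw [← sum_mul]
    split_ifs with hl
    · have h1 := (hlt k l hl).2
      unfold Gad.w at h1
      have h2 : (0 : ℝ) ≤ (C + 1) * Fintype.card (Σ _ : (G k).α, (G k).β) := by positivity
      have h3 : 0 < B l := by linarith [hB l]
      rw [mul_div_assoc', div_le_iff₀ h3, mul_comm]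
      exact mul_le_mul_of_nonneg_left (by linarith) (by positivity)
    · simp
  have h1 := norm_sum_le_of_le univ fun l _ => herr' l
  rw [sum_coe_sort F (fun l => if k < l then ((1 : ℝ) / 2) ^ l else 0), ← sum_filter] at h1
  have h2 := hs (F.filter (k < ·)) (disjoint_left.2 fun l hl hl' => by
    have := le_sup (f := id) hl'
    have := (mem_filter.1 hl).2
    simp only [id] at *
    omega)
  have h3 : ∑ l ∈ F.filter (k < ·), ((1 : ℝ) / 2) ^ l < ε / 2 := h2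
  linarith

end Pool.Agent.P.MP_6b6f2e_an
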