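import Pool.Agent.P.MP_6b6f2e_an.Proj

set_option autoImplicit false

namespace Pool.Agent.P.MP_6b6f2e_an

open Finset Filter Topology Pool.Agent.P.MP_38279d_an

variable {𝕜 : Type*} [RCLike 𝕜] {X : Type*} [NormedAddCommGroup X] [NormedSpace 𝕜 X]

theorem l1_bound' {Z : Type*} [NormedAddCommGroup Z] [NormedSpace 𝕜 Z] (g : L1 𝕜 →L[𝕜] Z)
    {M : ℝ} (hM : ∀ u, ‖g (lp.single 1 u 1)‖ ≤ M) (b : L1 𝕜) : ‖g b‖ ≤ ‖b‖ * M := by
  have h1 := (lp.hasSum_single (p := 1) (by simp) b).mapL g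
  have h2 : HasSum (fun i => ‖b i‖) ‖b‖ := by
    simpa using lp.hasSum_norm (p := 1) (by simp) b
  refine h1.norm_le_of_bounded (h2.mul_right M) fun i => ?_
  have : lp.single (E := fun _ : ℕ => 𝕜) 1 i (b i) = b i • lp.single 1 i (1 : 𝕜) := by
    rw [← lp.single_smul, smul_eq_mul, mul_one]
  rw [this, map_smul, norm_smul]
  exact mul_le_mul_of_nonneg_left (hM i) (norm_nonneg _)

theorem norm_e (u : ℕ) : ‖(lp.single 1 u 1 : L1 𝕜)‖ = 1 := by
  rw [lp.norm_single (by simp)]; simp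

theorem exists_op_of_cols' {Z : Type*} [NormedAddCommGroup Z] [NormedSpace 𝕜 Z] [CompleteSpace Z]
    (col : ℕ → Z) (K : ℝ) (hcol : ∀ u, ‖col u‖ ≤ K) :
    ∃ T : L1 𝕜 →L[𝕜] Z, ∀ u, T (lp.single 1 u 1) = col u := by
  refine ⟨(lp.tsumCLM 𝕜 ℕ Z).comp (lp.mapCLM 1
    (fun u => ContinuousLinearMap.toSpanSingleton 𝕜 (col u)) ((norm_nonneg _).trans (hcol 0))
    (fun u => by rw [ContinuousLinearMap.norm_toSpanSingleton]; exact hcol u)), fun u => ?_⟩
  simp only [ContinuousLinearMap.comp_apply, lp.tsumCLM_apply, lp.mapCLM_apply_coe,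
    ContinuousLinearMap.toSpanSingleton_apply]
  rw [tsum_eq_single u]
  · simp
  · intro i hi
    rw [lp.single_apply_ne _ _ _ hi, zero_smul]

theorem exists_functional (i : L1 𝕜 →L[𝕜] X) (D : ℝ) (hD : 0 ≤ D) (hi : ∀ a, ‖a‖ ≤ D * ‖i a‖)
    (φ : L1 𝕜 →L[𝕜] 𝕜) (hφ : ∀ a, ‖φ a‖ ≤ ‖a‖) :
    ∃ f : X →L[𝕜] 𝕜, ‖f‖ ≤ D ∧ ∀ a, f (i a) = φ a := by
  have hinj : Function.Injective (i : L1 𝕜 →ₗ[𝕜] X) := by
    rw [injective_iff_map_eq_zero]
    intro a ha
    have := hi a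
    rw [show i a = 0 from ha, norm_zero, mul_zero] at this
    exact norm_le_zero_iff.1 this
  let e := LinearEquiv.ofInjective (i : L1 𝕜 →ₗ[𝕜] X) hinj
  have hb : ∀ z : LinearMap.range (i : L1 𝕜 →ₗ[𝕜] X),
      ‖((φ : L1 𝕜 →ₗ[𝕜] 𝕜) ∘ₗ (e.symm : _ →ₗ[𝕜] L1 𝕜)) z‖ ≤ D * ‖z‖ := by
    intro z
    obtain ⟨a, rfl⟩ := e.surjective z
    simp only [LinearMap.comp_apply, LinearEquiv.coe_coe, LinearEquiv.symm_apply_apply]
    exact (hφ a).trans (hi a)
  obtain ⟨f, hf, hn⟩ := exists_extension_norm_eq _ (LinearMap.mkContinuous _ D hb)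
  refine ⟨f, hn ▸ LinearMap.mkContinuous_norm_le _ hD _, fun a => ?_⟩
  have := hf (e a)
  simp only [LinearMap.mkContinuous_apply, LinearMap.comp_apply, LinearEquiv.coe_coe,
    LinearEquiv.symm_apply_apply] at this
  exact this

variable [CompleteSpace X]

/-- A space with an unconditional finite-dimensional decomposition that contains `ℓ1` maps onto
the unit vector basis of `ℓ1` with bounded preimages. -/
theorem exists_quotient (E : ℕ → Submodule 𝕜 X) (hE : ∀ n, FiniteDimensional 𝕜 (E n))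
    (hexp : ∀ x : X, ∃! y : ℕ → X, (∀ n, y n ∈ E n) ∧ HasSum y x)
    (i : L1 𝕜 →L[𝕜] X) (D : ℝ) (hD : 0 ≤ D) (hi : ∀ a, ‖a‖ ≤ D * ‖i a‖) :
    ∃ (Q : X →L[𝕜] L1 𝕜) (C : ℝ) (x : ℕ → X), (∀ u, ‖x u‖ ≤ C) ∧
      ∀ u, Q (x u) = lp.single 1 u 1 := by
  obtain ⟨P, C, hC, hPE, hPsum, hPb, hPP⟩ := exists_projections E hE hexp
  let x : ℕ → X := fun k => i (lp.single 1 k 1)
  have hx : ∀ k, ‖x k‖ ≤ ‖i‖ := fun k => by
    simpa [norm_e] using i.le_opNorm (lp.single 1 k 1)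
  set ε : ℝ := 1 / (4 * (D + 4 * (D * C)) + 1) with hε
  have hpos : 0 < 4 * (D + 4 * (D * C)) + 1 := by positivity
  have hε0 : 0 < ε := by positivity
  have step : ∀ s : ℕ × ℕ, ∃ k k' n', s.2 ≤ k ∧ k < k' ∧ s.1 ≤ n' ∧
      ‖∑ m ∈ range s.1, P m (x k - x k')‖ ≤ ε ∧
      ‖(x k - x k') - ∑ m ∈ range n', P m (x k - x k')‖ ≤ ε := by
    intro s
    obtain ⟨k, k', h1, h2, h3⟩ := exists_close E hE P hPE x ‖i‖ hx hε0 s.1 s.2
    have h4 := (hPsum (x k - x k')).tendsto_sum_nat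
    obtain ⟨n', h5, h6⟩ := ((eventually_ge_atTop s.1).and (Metric.tendsto_nhds.1 h4 ε hε0)).exists
    refine ⟨k, k', n', h1, h2, h5, h3, ?_⟩
    rw [dist_comm, dist_eq_norm] at h6
    exact h6.le
  choose k k' n' h1 h2 h3 h4 h5 using step
  let s : ℕ → ℕ × ℕ := fun j => Nat.rec (0, 0) (fun _ t => (n' t, k' t + 1)) j
  have hs : ∀ j, s (j + 1) = (n' (s j), k' (s j) + 1) := fun _ => rfl
  let a : ℕ → ℕ := fun j => k (s j)
  let b : ℕ → ℕ := fun j => k' (s j)
  let n : ℕ → ℕ := fun j => (s j).1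
  have hab : ∀ j, a j < b j := fun j => h2 _
  have hba : ∀ j, b j < a (j + 1) := fun j => h1 (s (j + 1))
  have ha : StrictMono a := strictMono_nat_of_lt_succ fun j => (hab j).trans (hba j)
  have hn : Monotone n := monotone_nat_of_le_succ fun j => h3 (s j)
  have hbne : ∀ j, b j ∉ Set.range a := by
    rintro j ⟨l, hl⟩
    rcases le_or_gt l j with h | h
    · exact absurd hl ((ha.monotone h).trans_lt (hab j)).ne
    · exact absurd hl ((hba j).trans_le (ha.monotone h)).ne'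
  let y : ℕ → X := fun j => x (a j) - x (b j)
  let Q : ℕ → X →L[𝕜] X := fun j => ∑ m ∈ Ico (n j) (n (j + 1)), P m
  have hQ : ∀ j z, Q j z = ∑ m ∈ Ico (n j) (n (j + 1)), P m z := fun j z => by simp [Q]
  have hy : ∀ j, ‖y j - Q j (y j)‖ ≤ 2 * ε := by
    intro j
    have e1 : ‖∑ m ∈ range (n j), P m (y j)‖ ≤ ε := h4 (s j)
    have e2 : ‖y j - ∑ m ∈ range (n (j + 1)), P m (y j)‖ ≤ ε := h5 (s j)
    rw [hQ, sum_Ico_eq_sub _ (hn (Nat.le_succ j))]
    have : y j - (∑ m ∈ range (n (j + 1)), P m (y j) - ∑ m ∈ range (n j), P m (y j)) =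
        (y j - ∑ m ∈ range (n (j + 1)), P m (y j)) + ∑ m ∈ range (n j), P m (y j) := by abel
    rw [this]
    linarith [norm_add_le (y j - ∑ m ∈ range (n (j + 1)), P m (y j))
      (∑ m ∈ range (n j), P m (y j))]
  have hdisj : ∀ j l, j ≠ l → Disjoint (Ico (n j) (n (j + 1))) (Ico (n l) (n (l + 1))) := by
    intro j l hjl
    rw [disjoint_left]
    intro m hm hm'
    rw [mem_Ico] at hm hm'
    rcases lt_or_gt_of_ne hjl with h | h
    · have := hn (show j + 1 ≤ l from h)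
      omega
    · have := hn (show l + 1 ≤ j from h)
      omega
  have hQQ : ∀ j l z, Q j (Q l z) = if j = l then Q l z else 0 := by
    intro j l z
    have : Q j (Q l z) =
        ∑ m ∈ Ico (n l) (n (l + 1)), if m ∈ Ico (n j) (n (j + 1)) then P m z else 0 := by
      rw [hQ l, map_sum]
      refine sum_congr rfl fun m _ => ?_
      rw [hQ]
      simp only [hPP]
      rw [sum_ite_eq']
    rw [this]
    split_ifs with h
    · subst h
      rw [hQ]
      exact sum_congr rfl fun m hm => if_pos hm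
    · exact sum_eq_zero fun m hm => if_neg fun hm' => disjoint_left.1 (hdisj j l h) hm' hm
  classical
  obtain ⟨φ, hφ⟩ := exists_op_of_cols (𝕜 := 𝕜) (Z := 𝕜)
    (fun u => if u ∈ Set.range a then 1 else 0) (fun u => by split_ifs <;> simp)
  obtain ⟨f, hf, hfi⟩ := exists_functional i D hD hi φ (fun v => by
    simpa using l1_bound φ (M := 1) (fun u => by rw [hφ]; split_ifs <;> simp) v)
  have hfy : ∀ j, f (y j) = 1 := by
    intro j
    simp only [y, x, map_sub, hfi, hφ]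
    rw [if_pos ⟨j, rfl⟩, if_neg (hbne j), sub_zero]
  have hsum : ∀ z (t : Finset ℕ), ∑ j ∈ t, ‖f (Q j z)‖ ≤ 4 * (D * C) * ‖z‖ := by
    intro z t
    rw [mul_assoc]
    refine sum_norm_le (fun t => ?_) t
    rw [← map_sum]
    simp only [hQ]
    rw [← sum_biUnion (fun j _ l _ hjl => hdisj j l hjl), mul_assoc]
    exact f.le_of_opNorm_le_of_le hf (hPb _ _)
  let R : X →L[𝕜] L1 𝕜 := LinearMap.mkContinuous
    { toFun := fun z => ⟨fun j => f (Q j z), memℓp_gen' (C := 4 * (D * C) * ‖z‖)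
        (fun t => by simpa using hsum z t)⟩
      map_add' := fun z z' => by
        ext j
        simp only [map_add]
        rfl
      map_smul' := fun c z => by
        ext j
        simp only [map_smul]
        rfl } (4 * (D * C)) (fun z => lp.norm_le_of_forall_sum_le (by simp) (by positivity)
          (fun t => by simpa using hsum z t))
  have hR : ∀ z j, R z j = f (Q j z) := fun _ _ => rfl
  have hRn : ‖R‖ ≤ 4 * (D * C) := LinearMap.mkContinuous_norm_le _ (by positivity) _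
  have hRy : ∀ j, ‖lp.single 1 j 1 - R (y j)‖ ≤ 1 / 2 := by
    intro j
    have e1 : R (Q j (y j)) = f (Q j (y j)) • lp.single 1 j 1 := by
      ext l
      rw [hR, hQQ]
      by_cases h : l = j
      · subst h
        simp
      · simp [h]
    have e2 : lp.single 1 j 1 - R (y j) =
        f (y j - Q j (y j)) • (lp.single 1 j 1 : L1 𝕜) - R (y j - Q j (y j)) := by
      rw [map_sub f (y j), map_sub R (y j) (Q j (y j)), e1, hfy, sub_smul, one_smul]
      abel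
    rw [e2]
    refine (norm_sub_le _ _).trans ?_
    rw [norm_smul, norm_e, mul_one]
    have e3 := f.le_of_opNorm_le_of_le hf (hy j)
    have e4 := R.le_of_opNorm_le_of_le hRn (hy j)
    have e5 : D * (2 * ε) + 4 * (D * C) * (2 * ε) ≤ 1 / 2 := by
      have : D * (2 * ε) + 4 * (D * C) * (2 * ε) =
          2 * (D + 4 * (D * C)) / (4 * (D + 4 * (D * C)) + 1) := by
        rw [hε]; field_simp
      rw [this, div_le_iff₀ hpos]
      linarith
    linarith
  have hyb : ∀ j, ‖y j‖ ≤ 2 * ‖i‖ := fun j => by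
    linarith [norm_sub_le (x (a j)) (x (b j)), hx (a j), hx (b j)]
  obtain ⟨V, hV⟩ := exists_op_of_cols' (𝕜 := 𝕜) y _ hyb
  have ht : ‖(1 : L1 𝕜 →L[𝕜] L1 𝕜) - R.comp V‖ < 1 := by
    refine lt_of_le_of_lt (ContinuousLinearMap.opNorm_le_bound _ (by norm_num : (0 : ℝ) ≤ 1 / 2)
      fun v => ?_) (by norm_num)
    rw [mul_comm]
    refine l1_bound' _ (fun u => ?_) v
    simpa [hV] using hRy u
  let U := Units.oneSub _ ht
  refine ⟨(U⁻¹ : (L1 𝕜 →L[𝕜] L1 𝕜)ˣ).val.comp R, _, y, hyb, fun u => ?_⟩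
  have e1 : (U : L1 𝕜 →L[𝕜] L1 𝕜) = R.comp V := by simp [U]
  have e2 : R (y u) = (U : L1 𝕜 →L[𝕜] L1 𝕜) (lp.single 1 u 1) := by
    rw [e1, ContinuousLinearMap.comp_apply, hV]
  rw [ContinuousLinearMap.comp_apply, e2, ← mul_apply_eq_comp, Units.inv_mul,
    one_apply_eq_self]

end Pool.Agent.P.MP_6b6f2e_an
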