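import Pool.Agent.P.MP_6b6f2e_an.Gad
import Pool.Agent.P.MP_6b6f2e_an.Defs
import Pool.Agent.P.MP_38279d_an.Card

set_option autoImplicit false
set_option linter.unusedSectionVars false

namespace Pool.Agent.P.MP_6b6f2e_an

open Finset Filter Topology Cardinal TopologicalSpace Pool.Agent.P.MP_38279d_an
open scoped ENNReal

variable {𝕜 : Type} [RCLike 𝕜] {X : Type} [NormedAddCommGroup X] [NormedSpace 𝕜 X]

theorem kappa_of_injective [SeparableSpace X] (g : Set (Set ℕ) → TwoSidedIdeal (X →L[𝕜] X))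
    (hginj : Function.Injective g) (hg : ∀ U, IsClosed (g U : Set (X →L[𝕜] X))) :
    kappa 𝕜 X = 2 ^ 𝔠 := by
  unfold kappa numProperClosedIdeals
  apply le_antisymm
  · exact (mk_subtype_le _).trans
      (mk_le_of_setLike (mk_clm_le_continuum 𝕜 X X (mk_le_continuum_of_separable X)))
  let S : Set (Set (Set ℕ)) := g ⁻¹' {⊥, ⊤}
  have hS : S.Finite := (Set.toFinite _).preimage hginj.injOn
  have hinf : Infinite (Set (Set ℕ)) := inferInstance
  have hc : Cardinal.mk (Sᶜ : Set (Set (Set ℕ))) = Cardinal.mk (Set (Set ℕ)) :=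
    mk_compl_of_infinite S ((hS.lt_aleph0).trans_le (aleph0_le_mk _))
  rw [← mk_set_set_nat, ← hc]
  refine mk_le_of_injective (f := fun U => ⟨g U.1, hg U.1,
    fun h' => U.2 (Or.inl h'), fun h' => U.2 (Or.inr h')⟩) fun U V hUV => ?_
  exact Subtype.ext (hginj (congrArg Subtype.val hUV))

theorem kappa_of_functionals [SeparableSpace X] (Ψ : ℕ → (X →L[𝕜] X) →+ 𝕜) (C : ℝ)
    (hΨ : ∀ k A, ‖Ψ k A‖ ≤ C * ‖A‖) (T : Set ℕ → X →L[𝕜] X) (h1 : ∀ M, ∀ k ∈ M, Ψ k (T M) = 1)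
    (h0 : ∀ M U V, ∀ ε > 0, ∀ᶠ k in atTop, k ∉ M → ‖Ψ k (V * T M * U)‖ ≤ ε) :
    kappa 𝕜 X = 2 ^ 𝔠 := by
  let g : Set (Set ℕ) → TwoSidedIdeal (X →L[𝕜] X) := fun 𝒰 => TwoSidedIdeal.mk'
    {S | ∀ ρ ∈ 𝒰, ∀ U V, Tendsto (fun k => Ψ (code ρ k) (V * S * U)) atTop (𝓝 0)}
    (fun ρ _ U V => by simp)
    (fun {S S'} hS hS' ρ hρ U V => by
      simpa [mul_add, add_mul] using (hS ρ hρ U V).add (hS' ρ hρ U V))
    (fun {S} hS ρ hρ U V => by simpa using (hS ρ hρ U V).neg)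
    (fun {A S} hS ρ hρ U V => by simpa [mul_assoc] using hS ρ hρ U (V * A))
    (fun {S A} hS ρ hρ U V => by simpa [mul_assoc] using hS ρ hρ (A * U) V)
  have hg : ∀ 𝒰 S, S ∈ g 𝒰 ↔
      ∀ ρ ∈ 𝒰, ∀ U V, Tendsto (fun k => Ψ (code ρ k) (V * S * U)) atTop (𝓝 0) :=
    fun 𝒰 S => TwoSidedIdeal.mem_mk' ..
  have hmem : ∀ q 𝒰, T (Set.range (code q)) ∈ g 𝒰 ↔ q ∉ 𝒰 := by
    intro q 𝒰
    rw [hg]
    constructor
    · intro h hq
      have := h q hq 1 1
      simp only [one_mul, mul_one, h1 _ _ (Set.mem_range_self _)] at this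
      exact one_ne_zero (tendsto_nhds_unique tendsto_const_nhds this)
    · intro hq ρ hρ U V
      have hne : ρ ≠ q := fun h' => hq (h' ▸ hρ)
      rw [NormedAddGroup.tendsto_nhds_zero]
      intro ε hε
      filter_upwards [eventually_code hne,
        (tendsto_code ρ).eventually (h0 (Set.range (code q)) U V (ε / 2) (half_pos hε))]
        with k hk hk'
      exact (hk' hk).trans_lt (half_lt_self hε)
  refine kappa_of_injective g (fun U V hUV => ?_) fun 𝒰 => ?_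
  · ext q
    have h1 := hmem q U
    rw [hUV, hmem q V] at h1
    tauto
  · apply isClosed_of_closure_subset
    intro S hS
    refine (hg _ _).2 fun ρ hρ U V => ?_
    rw [NormedAddGroup.tendsto_nhds_zero]
    intro ε hε
    have hp : 0 < |C| * ‖V‖ * ‖U‖ + 1 := by positivity
    obtain ⟨S', hS', hd⟩ := Metric.mem_closure_iff.1 hS (ε / 2 / (|C| * ‖V‖ * ‖U‖ + 1))
      (by positivity)
    filter_upwards [NormedAddGroup.tendsto_nhds_zero.1 ((hg _ _).1 hS' ρ hρ U V) _ (half_pos hε)]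
      with k hk
    have e : V * S * U = V * S' * U + V * (S - S') * U := by noncomm_ring
    rw [e, map_add]
    refine (norm_add_le _ _).trans_lt ?_
    have h2 : ‖V * (S - S') * U‖ ≤ ‖V‖ * ‖S - S'‖ * ‖U‖ :=
      (norm_mul_le _ _).trans (mul_le_mul_of_nonneg_right (norm_mul_le _ _) (norm_nonneg _))
    have h3 := (hΨ (code ρ k) (V * (S - S') * U)).trans
      (mul_le_mul (le_abs_self C) h2 (norm_nonneg _) (abs_nonneg _))
    rw [dist_eq_norm, lt_div_iff₀ hp] at hd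
    nlinarith [norm_nonneg (S - S')]

theorem Gad.Φ_add (g : Gad 𝕜) (S S' : g.C →ₗ[𝕜] g.C) : g.Φ (S + S') = g.Φ S + g.Φ S' := by
  simp [Gad.Φ, pair_add, Finset.sum_add_distrib]

theorem Gad.Φ_smul (g : Gad 𝕜) (c : 𝕜) (S : g.C →ₗ[𝕜] g.C) : g.Φ (c • S) = c * g.Φ S := by
  simp [Gad.Φ, pair_smul, mul_sum]

theorem kappa_of_blocks [SeparableSpace X] [CompleteSpace X] {p r : ℝ≥0∞} [Fact (1 ≤ p)]
    [Fact (1 ≤ r)] {C : ℝ} {G : ℕ → Gad 𝕜} (hG : Core p r C G)
    (J : ∀ l, (G l).C →ₗ[𝕜] X) (Q : ∀ l, X →ₗ[𝕜] (G l).C) {K : ℝ} (hK : 0 ≤ K)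
    (hQJ : ∀ l z, Q l (J l z) = z) (hQJ' : ∀ l l', l ≠ l' → ∀ z, Q l (J l' z) = 0)
    (hJ : ∀ (F : Finset ℕ) (z : ∀ l : F, (G l).C),
      ‖∑ l : F, J l (z l)‖ ≤ K * nn p fun l : F => N p r (z l))
    (hQ : ∀ (F : Finset ℕ) (y : X), nn p (fun l : F => N p r (Q l y)) ≤ K * ‖y‖)
    (htail : ∀ y : X, ∀ ε > 0, ∃ F₀ : Finset ℕ, ∀ F : Finset ℕ, Disjoint F F₀ →
      nn p (fun l : F => N p r (Q l y)) ≤ ε) :
    kappa 𝕜 X = 2 ^ 𝔠 := by
  classical
  have hC := hG.nonneg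
  have hQ1 : ∀ l y, N p r (Q l y) ≤ K * ‖y‖ := fun l y =>
    ((le_abs_self _).trans (abs_le_nn (p := p) (fun l' : ({l} : Finset ℕ) => N p r (Q l' y))
      ⟨l, mem_singleton_self l⟩)).trans (hQ {l} y)
  have hJ1 : ∀ l z, ‖J l z‖ ≤ K * N p r z := fun l z => by
    let l₀ : ({l} : Finset ℕ) := ⟨l, mem_singleton_self l⟩
    have h1 := hJ {l} (Pi.single (M := fun l' : ({l} : Finset ℕ) => (G l').C) l₀ z)
    rw [sum_eq_single l₀ (fun l' _ h' => by rw [Pi.single_eq_of_ne h', map_zero])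
      (fun h => (h (mem_univ _)).elim), Pi.single_eq_same] at h1
    refine h1.trans (le_of_eq ?_)
    rw [← abs_of_nonneg (N_nonneg (p := p) (u := r) z), ← nn_single (p := p) l₀]
    congr 2
    funext l'
    split_ifs with h'
    · rw [h', Pi.single_eq_same]
    · rw [Pi.single_eq_of_ne h', N_zero]
  let a : Set ℕ → ℕ → X →ₗ[𝕜] X := fun M l => if l ∈ M then J l ∘ₗ (G l).T ∘ₗ Q l else 0
  have ha : ∀ M (F : Finset ℕ) y, ∑ l ∈ F, a M l y =
      ∑ l : F.filter (· ∈ M), J l ((G l).T (Q l y)) := fun M F y => by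
    rw [sum_coe_sort (F.filter (· ∈ M)) fun l => J l ((G l).T (Q l y)), sum_filter]
    refine sum_congr rfl fun l _ => ?_
    simp only [a]
    split_ifs <;> rfl
  have hb : ∀ M (F : Finset ℕ) y, ‖∑ l ∈ F, a M l y‖ ≤
      K * C * nn p fun l : F.filter (· ∈ M) => N p r (Q l y) := fun M F y => by
    rw [ha, mul_assoc]
    refine (hJ _ _).trans (mul_le_mul_of_nonneg_left ?_ hK)
    refine (nn_mono' (fun _ => N_nonneg _)
      fun l : F.filter (· ∈ M) => (hG.basic l).hT (Q l y)).trans ?_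
    rw [nn_mul, abs_of_nonneg hC]
  have hsum : ∀ M y, Summable fun l => a M l y := fun M y => by
    rw [summable_iff_vanishing_norm]
    intro ε hε
    have hp : 0 < K * C + 1 := by positivity
    obtain ⟨F₀, hF⟩ := htail y (ε / (K * C + 1)) (by positivity)
    refine ⟨F₀, fun F hFF => (hb M F y).trans_lt ?_⟩
    have := hF _ (hFF.mono_left (filter_subset (· ∈ M) F))
    refine (mul_le_mul_of_nonneg_left this (by positivity)).trans_lt ?_
    rw [mul_div_assoc', div_lt_iff₀ hp]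
    nlinarith
  let T : Set ℕ → X →L[𝕜] X := fun M => LinearMap.mkContinuous
    { toFun := fun y => ∑' l, a M l y
      map_add' := fun y y' => by
        simp only [map_add]; exact (hsum M y).tsum_add (hsum M y')
      map_smul' := fun c y => by
        simp only [map_smul]; exact (hsum M y).tsum_const_smul c } (K * C * K) fun y => by
    refine le_of_tendsto' (hsum M y).hasSum.norm fun F => (hb M F y).trans ?_
    rw [mul_assoc _ K]
    exact mul_le_mul_of_nonneg_left (hQ _ y) (by positivity)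
  have hT : ∀ M y, HasSum (fun l => a M l y) (T M y) := fun M y => (hsum M y).hasSum
  let Ψ : ℕ → (X →L[𝕜] X) →+ 𝕜 := fun k => AddMonoidHom.mk'
    (fun A => (G k).Φ (Q k ∘ₗ (A : X →ₗ[𝕜] X) ∘ₗ J k)) fun A B => by
      rw [← Gad.Φ_add]; congr 1; ext; simp
  have hΨ : ∀ k A, Ψ k A = (G k).Φ (Q k ∘ₗ (A : X →ₗ[𝕜] X) ∘ₗ J k) := fun _ _ => rfl
  refine kappa_of_functionals Ψ (C * (K * K)) (fun k A => ?_) T (fun M k hk => ?_) ?_
  · rw [hΨ, mul_assoc]
    refine (hG.basic k).hΦ _ _ (by positivity) fun y => (hQ1 _ _).trans ?_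
    have := (A.le_opNorm (J k y)).trans (mul_le_mul_of_nonneg_left (hJ1 k y) (norm_nonneg _))
    calc K * ‖A (J k y)‖ ≤ K * (‖A‖ * (K * N p r y)) := mul_le_mul_of_nonneg_left this hK
      _ = _ := by ring
  · rw [hΨ, ← (hG.basic k).one]
    congr 1
    refine LinearMap.ext fun z => ?_
    have : T M (J k z) = J k ((G k).T z) := by
      refine (hT M _).unique ?_
      have := hasSum_single (f := fun l => a M l (J k z)) k fun l hl => by
        simp only [a]
        split_ifs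
        · simp [hQJ' l k hl]
        · rfl
      simpa [a, hk, hQJ] using this
    simp [this, hQJ]
  intro M U V ε hε
  set c := K * K * ‖U‖ + 1 with hc
  set d := K * K * ‖V‖ + 1 with hd
  have hc0 : 0 < c := by positivity
  have hd0 : 0 < d := by positivity
  filter_upwards [hG.small (ε / (c * d)) (by positivity)] with k hk hkM
  let lam : (G k).I → X →L[𝕜] 𝕜 := fun i => LinearMap.mkContinuous (pairL ((G k).f i) ∘ₗ Q k)
    ((∑ a, ∑ b, ‖(G k).f i a b‖) * K) fun y => by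
      rw [mul_assoc]
      exact (norm_pair_le_sum (p := p) (u := r) _ _).trans
        (mul_le_mul_of_nonneg_left (hQ1 k y) (by positivity))
  have hlim : HasSum (fun l => ∑ i, lam i (V (a M l (U (J k ((G k).x i))))))
      (Ψ k (V * T M * U)) :=
    hasSum_sum fun i _ => ((hT M _).mapL V).mapL (lam i)
  refine le_of_tendsto' hlim.norm fun F => ?_
  have hck : ((c : ℝ) : 𝕜) ≠ 0 := by exact_mod_cast hc0.ne'
  have hdk : ((d : ℝ) : 𝕜) ≠ 0 := by exact_mod_cast hd0.ne'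
  have key := hk (F.filter (· ∈ M)) (fun h => hkM (mem_filter.1 h).2)
    (fun l => ((c : ℝ) : 𝕜)⁻¹ • Q l ∘ₗ (U : X →ₗ[𝕜] X) ∘ₗ J k)
    (fun l => ((d : ℝ) : 𝕜)⁻¹ • Q k ∘ₗ (V : X →ₗ[𝕜] X) ∘ₗ J l) (fun x => by
      simp only [LinearMap.smul_apply, N_smul, nn_mul, norm_inv, RCLike.norm_ofReal,
        abs_of_pos hc0, LinearMap.comp_apply, abs_inv]
      rw [inv_mul_le_iff₀ hc0]
      refine (hQ _ _).trans ?_
      have := (U.le_opNorm (J k x)).trans (mul_le_mul_of_nonneg_left (hJ1 k x) (norm_nonneg _))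
      have h2 := mul_le_mul_of_nonneg_left this hK
      have h3 := N_nonneg (p := p) (u := r) x
      simp only [ContinuousLinearMap.coe_coe]
      nlinarith) (fun z => by
      simp only [LinearMap.smul_apply, LinearMap.comp_apply, ← smul_sum, ← map_sum, N_smul,
        norm_inv, RCLike.norm_ofReal, abs_of_pos hd0]
      rw [inv_mul_le_iff₀ hd0]
      refine (hQ1 _ _).trans ?_
      have := (V.le_opNorm _).trans (mul_le_mul_of_nonneg_left (hJ _ z) (norm_nonneg _))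
      have h2 := mul_le_mul_of_nonneg_left this hK
      have h3 := nn_nonneg (p := p) fun l : F.filter (· ∈ M) => N p r (z l)
      simp only [ContinuousLinearMap.coe_coe]
      nlinarith)
  have e : ∑ l ∈ F, ∑ i, lam i (V (a M l (U (J k ((G k).x i))))) = (c : 𝕜) * (d : 𝕜) *
      (G k).Φ (∑ l : F.filter (· ∈ M), (((d : ℝ) : 𝕜)⁻¹ • Q k ∘ₗ (V : X →ₗ[𝕜] X) ∘ₗ J l) ∘ₗ
        (G l).T ∘ₗ (((c : ℝ) : 𝕜)⁻¹ • Q l ∘ₗ (U : X →ₗ[𝕜] X) ∘ₗ J k)) := by
    rw [sum_comm, Gad.Φ, mul_sum]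
    refine sum_congr rfl fun i _ => ?_
    rw [← map_sum, ← map_sum, ha]
    simp only [LinearMap.sum_apply, LinearMap.comp_apply, LinearMap.smul_apply, map_smul,
      ← smul_sum, ← map_sum, pair_smul, ContinuousLinearMap.coe_coe]
    field_simp
    rfl
  rw [e, norm_mul, norm_mul, RCLike.norm_ofReal, RCLike.norm_ofReal, abs_of_pos hc0,
    abs_of_pos hd0]
  rwa [le_div_iff₀' (by positivity)] at key

end Pool.Agent.P.MP_6b6f2e_an
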