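import Pool.Agent.P.MP_6b6f2e_an.L2K

set_option autoImplicit false
set_option linter.unusedSectionVars false

namespace Pool.Agent.P.MP_6b6f2e_an.L2

open Finset
open scoped BigOperators

variable {ι A : Type} [Fintype ι] [DecidableEq ι] [Fintype A]

theorem sum_resample {M : Type} [AddCommMonoid M] (j : ι) (F : (ι → A) → M) :
    Fintype.card A • ∑ r, F r = ∑ r, ∑ a, F (Function.update r j a) := by
  have h : Function.Involutive fun p : (ι → A) × A => (Function.update p.1 j p.2, p.1 j) :=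
    fun p => by simp
  have h1 := Equiv.sum_comp h.toPerm fun p : (ι → A) × A => F p.1
  rw [Fintype.sum_prod_type, Fintype.sum_prod_type] at h1
  simp only [Function.Involutive.coe_toPerm, sum_const, card_univ] at h1
  rw [h1, smul_sum]

theorem expect_resample [Nonempty A] (j : ι) (F : (ι → A) → ℝ) :
    𝔼 r, F r = 𝔼 r, 𝔼 a, F (Function.update r j a) := by
  have h := sum_resample j F
  have hA : (Fintype.card A : ℝ) ≠ 0 := by exact_mod_cast Fintype.card_ne_zero
  simp only [Fintype.expect_eq_sum_div_card, ← sum_div]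
  rw [← h, nsmul_eq_mul, mul_div_cancel_left₀ _ hA]

theorem expect_eval [Nonempty A] (j : ι) (f : A → ℝ) : 𝔼 r : ι → A, f (r j) = 𝔼 a, f a := by
  rw [expect_resample j]
  simp only [Function.update_self]
  exact Fintype.expect_const _

theorem expect_eval_mul [Nonempty A] {i j : ι} (h : i ≠ j) (f g : A → ℝ) :
    𝔼 r : ι → A, f (r i) * g (r j) = (𝔼 a, f a) * 𝔼 a, g a := by
  rw [expect_resample j]
  simp only [Function.update_self, Function.update_of_ne h, ← mul_expect, ← expect_mul]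
  rw [expect_eval i f]

theorem expect_sum_sq_le [Nonempty A] (f : ι → A → ℝ) :
    𝔼 r : ι → A, (∑ i, f i (r i)) ^ 2 ≤ (∑ i, 𝔼 a, f i a) ^ 2 + ∑ i, 𝔼 a, f i a ^ 2 := by
  simp only [sq, sum_mul_sum, expect_sum_comm, ← sum_add_distrib]
  refine sum_le_sum fun i _ => ?_
  have h : ∀ j, 𝔼 r : ι → A, f i (r i) * f j (r j) ≤
      (𝔼 a, f i a) * (𝔼 a, f j a) + if i = j then 𝔼 a, f i a * f i a else 0 := fun j => by
    split_ifs with hij
    · subst hij
      rw [expect_eval i fun a => f i a * f i a]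
      linarith [mul_self_nonneg (𝔼 a, f i a)]
    · rw [expect_eval_mul hij, add_zero]
  refine (sum_le_sum fun j _ => h j).trans ?_
  rw [sum_add_distrib, sum_ite_eq, if_pos (mem_univ _)]

/-- The mean square of a Rademacher sum in an inner product space. -/
theorem expect_sign_sq {𝕜 H : Type} [RCLike 𝕜] [NormedAddCommGroup H] [InnerProductSpace 𝕜 H]
    (v : ι → H) : 𝔼 σ : ι → Bool, ‖∑ i, (sn (σ i) : 𝕜) • v i‖ ^ 2 = ∑ i, ‖v i‖ ^ 2 := by
  rw [Fintype.expect_eq_sum_div_card, (moments v univ).1,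
    mul_div_cancel_left₀ _ card_signs_pos.ne']

theorem sn_beq (a b : Bool) : sn (a == b) = sn a * sn b := by
  cases a <;> cases b <;> simp [sn]

theorem sn_sq (a : Bool) : sn a ^ 2 = 1 := by rw [sq, sn_mul_self]

theorem expect_flip (τ : ι → Bool) (F : (ι → Bool) → ℝ) :
    𝔼 σ : ι → Bool, F (fun i => σ i == τ i) = 𝔼 σ, F σ := by
  have h : Function.Involutive fun (σ : ι → Bool) i => σ i == τ i := fun σ => by
    funext i
    dsimp only
    cases σ i <;> cases τ i <;> rfl
  exact Fintype.expect_equiv h.toPerm _ _ fun _ => rfl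

theorem expect_comp_inj {J : Type} [Fintype J] [DecidableEq J] {e : J → ι}
    (he : Function.Injective e) (F : (J → Bool) → ℝ) :
    𝔼 θ : ι → Bool, F (fun j => θ (e j)) = 𝔼 σ, F σ := by
  have h1 : ∀ σ : J → Bool, 𝔼 θ : ι → Bool, F (fun j => θ (e j)) =
      𝔼 θ : ι → Bool, F (fun j => σ j == θ (e j)) := fun σ => by
    rw [← expect_flip (Function.extend e σ fun _ => true)]
    simp only [he.extend_apply, BEq.comm]
  rw [← Fintype.expect_const (ι := J → Bool) (𝔼 θ : ι → Bool, F fun j => θ (e j)),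
    expect_congr rfl fun σ _ => h1 σ, expect_comm]
  simp only [expect_flip]
  exact Fintype.expect_const _

theorem pi_sum_apply {Ω S P : Type} [NormedAddCommGroup P] (s : Finset S)
    (f : S → PiLp 2 (fun _ : Ω => P)) (ω : Ω) : (∑ i ∈ s, f i) ω = ∑ i ∈ s, f i ω := by
  simp

theorem expect_sq_sign (v : ι → ℝ) : 𝔼 σ : ι → Bool, (∑ i, sn (σ i) * v i) ^ 2 = ∑ i, v i ^ 2 := by
  simpa using expect_sign_sq (𝕜 := ℝ) v

variable {Y : Type} [NormedAddCommGroup Y] [NormedSpace ℝ Y]

theorem rad_sign (τ : ι → Bool) (y : ι → Y) : rad (fun i => sn (τ i) • y i) = rad y := by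
  rw [rad, rad, ← expect_flip τ fun σ => ‖∑ i, sn (σ i) • y i‖ ^ 2]
  simp only [sn_beq, mul_smul]

theorem rad_abs (c : ι → ℝ) (y : ι → Y) :
    rad (fun i => |c i| • y i) = rad (fun i => c i • y i) := by
  rw [← rad_sign (fun i => decide (0 ≤ c i)) fun i => c i • y i]
  congr 1
  funext i
  rw [smul_smul]
  congr 1
  by_cases h : 0 ≤ c i
  · simp [sn, h, abs_of_nonneg h]
  · simp [sn, h, abs_of_neg (not_le.1 h)]

theorem rad_inl_le {κ : Type} [Fintype κ] [DecidableEq κ] (y : ι ⊕ κ → Y) :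
    rad (fun i => y (Sum.inl i)) ≤ rad y := by
  have h1 : rad (fun i => y (Sum.inl i)) =
      𝔼 σ : ι ⊕ κ → Bool, ‖∑ i, sn (σ (Sum.inl i)) • y (Sum.inl i)‖ ^ 2 := by
    rw [Fintype.expect_equiv (Equiv.sumArrowEquivProdArrow ι κ Bool)
      (fun σ => ‖∑ i, sn (σ (Sum.inl i)) • y (Sum.inl i)‖ ^ 2)
      (fun p => ‖∑ i, sn (p.1 i) • y (Sum.inl i)‖ ^ 2) fun _ => rfl, ← univ_product_univ,
      expect_product]
    simp only [Fintype.expect_const]
    rfl
  have h2 := rad_sign (Sum.elim (fun _ => true) fun _ => false) y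
  have h3 : 2 * rad (fun i => y (Sum.inl i)) ≤
      rad y + rad fun i => sn (Sum.elim (fun _ => true) (fun _ => false) i) • y i := by
    rw [h1, rad, rad, ← expect_add_distrib, mul_expect]
    refine expect_le_expect fun σ _ => ?_
    simp only [Fintype.sum_sum_type, Sum.elim_inl, Sum.elim_inr, show sn true = 1 from rfl,
      show sn false = -1 from rfl, one_smul, neg_smul, smul_neg, sum_neg_distrib]
    set a := ∑ i, sn (σ (Sum.inl i)) • y (Sum.inl i)
    set b := ∑ i, sn (σ (Sum.inr i)) • y (Sum.inr i)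
    have h4 : 2 * ‖a‖ ≤ ‖a + b‖ + ‖a + -b‖ := by
      refine le_trans (le_of_eq ?_) (norm_add_le _ _)
      rw [show a + b + (a + -b) = (2 : ℝ) • a by module, norm_smul, Real.norm_two]
    nlinarith [norm_nonneg a, sq_nonneg (‖a + b‖ - ‖a + -b‖)]
  linarith

end Pool.Agent.P.MP_6b6f2e_an.L2
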