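import Pool.Agent.P.MP_6b6f2e_an.L2K
import Pool.Agent.P.MP_6b6f2e_an.Ideals
import Pool.Agent.P.MP_6b6f2e_an.SumDefs

set_option autoImplicit false
set_option linter.unusedSectionVars false

namespace Pool.Agent.P.MP_6b6f2e_an.L2

open Finset
open scoped BigOperators

open Filter Topology

variable {𝕜 : Type} [RCLike 𝕜] {X : Type} [NormedAddCommGroup X] [NormedSpace 𝕜 X]

section basic

variable {I : Type} {F : I → Type} [∀ i, NormedAddCommGroup (F i)] [∀ i, NormedSpace 𝕜 (F i)]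
  {J : ∀ i, F i →L[𝕜] X} {Q : ∀ i, X →L[𝕜] F i} {K : ℝ}

theorem Blk.J_le (h : Blk J Q K) (i : I) (z : F i) : ‖J i z‖ ^ 2 ≤ K * ‖z‖ ^ 2 := by
  classical
  simpa using h.upper {i} (Pi.single i z)

theorem Blk.Q_le (h : Blk J Q K) (i : I) (y : X) : ‖Q i y‖ ^ 2 ≤ K * ‖y‖ ^ 2 := by
  simpa using h.lower {i} y

theorem opNorm_le_of_sq {P P' : Type} [NormedAddCommGroup P] [NormedSpace 𝕜 P]
    [NormedAddCommGroup P'] [NormedSpace 𝕜 P'] (A : P →L[𝕜] P') {K : ℝ} (hK : 0 ≤ K)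
    (h : ∀ y, ‖A y‖ ^ 2 ≤ K * ‖y‖ ^ 2) : ‖A‖ ≤ K + 1 :=
  A.opNorm_le_bound (by positivity) fun y => (abs_le_of_sq_le_sq' ((h y).trans (by
    rw [mul_pow]
    exact mul_le_mul_of_nonneg_right (by nlinarith) (sq_nonneg _))) (by positivity)).2

theorem Blk.comp {I' : Type} (h : Blk J Q K) {e : I' → I} (he : Function.Injective e) :
    Blk (F := fun i => F (e i)) (fun i => J (e i)) (fun i => Q (e i)) K := by
  classical
  refine ⟨h.nonneg, fun i => h.same _, fun i i' hi => h.diff _ _ (he.ne hi), fun s z => ?_,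
    fun s y => ?_⟩
  · have hz : ∀ m, ∃ y : F m, ∀ l, e l = m → HEq y (z l) := fun m => by
      by_cases hm : ∃ l, e l = m
      · obtain ⟨l, rfl⟩ := hm
        exact ⟨z l, fun l' hl => by rw [he hl]⟩
      · exact ⟨0, fun l hl => (hm ⟨l, hl⟩).elim⟩
    choose y hy using hz
    have := h.upper (s.image e) y
    rw [sum_image he.injOn, sum_image he.injOn] at this
    simpa only [fun l => eq_of_heq (hy (e l) l rfl)] using this
  · have := h.lower (s.image e) y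
    rwa [sum_image he.injOn] at this

end basic

theorem kappa_of_blk [CompleteSpace X] [TopologicalSpace.SeparableSpace X] {P₁ P₂ : ℕ → Type}
    [∀ m, NormedAddCommGroup (P₁ m)] [∀ m, NormedSpace 𝕜 (P₁ m)] [∀ m, FiniteDimensional 𝕜 (P₁ m)]
    [∀ m, NormedAddCommGroup (P₂ m)] [∀ m, NormedSpace 𝕜 (P₂ m)]
    {J₁ : ∀ m, P₁ m →L[𝕜] X} {Q₁ : ∀ m, X →L[𝕜] P₁ m} {K₁ : ℝ} (h₁ : Blk J₁ Q₁ K₁)
    {J₂ : ∀ m, P₂ m →L[𝕜] X} {Q₂ : ∀ m, X →L[𝕜] P₂ m} {K₂ : ℝ} (h₂ : Blk J₂ Q₂ K₂)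
    {T : ∀ k, P₁ k →L[𝕜] P₂ k} {Φ : ∀ k, (P₁ k →L[𝕜] P₂ k) →L[𝕜] 𝕜} (H : Indep T Φ) :
    kappa 𝕜 X = 2 ^ Cardinal.continuum := by
  classical
  obtain ⟨hT2, hΦ2, hone, hsmall⟩ := H
  have hK₁ := h₁.nonneg
  have hK₂ := h₂.nonneg
  let a : Set ℕ → ℕ → X →L[𝕜] X := fun M l => if l ∈ M then J₂ l ∘L T l ∘L Q₁ l else 0
  have hb : ∀ M (s : Finset ℕ) y, ‖∑ l ∈ s, a M l y‖ ^ 2 ≤ K₂ * (4 * ∑ l ∈ s, ‖Q₁ l y‖ ^ 2) := by
    intro M s y
    have e : ∀ l, a M l y = J₂ l (if l ∈ M then T l (Q₁ l y) else 0) := fun l => by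
      simp only [a]
      split_ifs <;> simp
    simp only [e]
    refine (h₂.upper s _).trans (mul_le_mul_of_nonneg_left ?_ hK₂)
    rw [mul_sum]
    refine sum_le_sum fun l _ => ?_
    split_ifs
    · refine (pow_le_pow_left₀ (norm_nonneg _) ((T l).le_of_opNorm_le (hT2 l) _) 2).trans_eq ?_
      ring
    · simp
  have hsum : ∀ M y, Summable fun l => a M l y := fun M y => by
    rw [summable_iff_vanishing_norm]
    intro ε hε
    have hp : 0 < 4 * K₂ + 1 := by positivity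
    obtain ⟨s₀, hs⟩ := summable_iff_vanishing_norm.1 (summable_of_sum_le
      (fun l => sq_nonneg ‖Q₁ l y‖) fun s => h₁.lower s y) (ε ^ 2 / (4 * K₂ + 1)) (by positivity)
    refine ⟨s₀, fun s hss => lt_of_pow_lt_pow_left₀ 2 hε.le ((hb M s y).trans_lt ?_)⟩
    have := hs s hss
    rw [Real.norm_of_nonneg (by positivity), lt_div_iff₀ hp] at this
    nlinarith [sum_nonneg fun l (_ : l ∈ s) => sq_nonneg ‖Q₁ l y‖]
  let S : Set ℕ → X →L[𝕜] X := fun M => LinearMap.mkContinuous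
    { toFun := fun y => ∑' l, a M l y
      map_add' := fun y y' => by
        simp only [map_add]; exact (hsum M y).tsum_add (hsum M y')
      map_smul' := fun c y => by
        simp only [map_smul]; exact (hsum M y).tsum_const_smul c } (K₁ + K₂) fun y => by
    refine le_of_tendsto' (hsum M y).hasSum.norm fun s =>
      (abs_le_of_sq_le_sq' ((hb M s y).trans ?_) (by positivity)).2
    nlinarith [mul_le_mul_of_nonneg_left (h₁.lower s y) hK₂,
      mul_nonneg (sq_nonneg (K₁ - K₂)) (sq_nonneg ‖y‖)]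
  have hS : ∀ M y, HasSum (fun l => a M l y) (S M y) := fun M y => (hsum M y).hasSum
  let Ψ : ℕ → (X →L[𝕜] X) →+ 𝕜 := fun k => AddMonoidHom.mk'
    (fun A => Φ k (Q₂ k ∘L A ∘L J₁ k)) fun A B => by
      rw [← map_add]; congr 1; ext; simp
  have hΨ : ∀ k A, Ψ k A = Φ k (Q₂ k ∘L A ∘L J₁ k) := fun _ _ => rfl
  refine kappa_of_functionals Ψ (2 * ((K₂ + 1) * (K₁ + 1))) (fun k A => ?_) S (fun M k hk => ?_) ?_
  · rw [hΨ, mul_assoc]
    refine ((Φ k).le_of_opNorm_le (hΦ2 k) _).trans (mul_le_mul_of_nonneg_left ?_ zero_le_two)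
    refine ((Q₂ k).opNorm_comp_le _).trans ?_
    rw [mul_assoc, mul_comm (K₁ + 1)]
    refine mul_le_mul (opNorm_le_of_sq _ hK₂ (h₂.Q_le k)) ((A.opNorm_comp_le _).trans ?_)
      (norm_nonneg _) (by positivity)
    exact mul_le_mul_of_nonneg_left (opNorm_le_of_sq _ hK₁ (h₁.J_le k)) (norm_nonneg _)
  · rw [hΨ, ← hone k]
    congr 1
    ext z
    have : S M (J₁ k z) = J₂ k (T k z) := by
      refine (hS M _).unique ?_
      have := hasSum_single (f := fun l => a M l (J₁ k z)) k fun l hl => by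
        simp only [a]
        split_ifs
        · simp [h₁.diff l k hl]
        · rfl
      simpa [a, hk, h₁.same] using this
    simp [this, h₂.same]
  intro M U V ε hε
  set c := K₁ * ‖U‖ + 1 with hc
  set d := K₂ * ‖V‖ + 1 with hd
  have hc0 : 0 < c := by positivity
  have hd0 : 0 < d := by positivity
  filter_upwards [hsmall (ε / (c * d)) (by positivity)] with k hk hkM
  obtain ⟨n, e, f, hef⟩ := exists_coords 𝕜 (P₁ k)
  let lam : Fin n → X →L[𝕜] 𝕜 := fun i =>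
    (Φ k ∘L ContinuousLinearMap.smulRightL 𝕜 _ _ (f i)) ∘L Q₂ k
  have hlam : ∀ A : X →L[𝕜] X, Ψ k A = ∑ i, lam i (A (J₁ k (e i))) := fun A => by
    simp only [hΨ, lam, ContinuousLinearMap.comp_apply, ← map_sum]
    congr 1
    ext y
    conv_lhs => rw [← hef y]
    simp
  have hlim : HasSum (fun l => Ψ k (V * a M l * U)) (Ψ k (V * S M * U)) := by
    simp only [hlam]
    exact hasSum_sum fun i _ => ((hS M _).mapL V).mapL (lam i)
  refine le_of_tendsto' hlim.norm fun s => ?_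
  have hck : ((c : ℝ) : 𝕜) ≠ 0 := by exact_mod_cast hc0.ne'
  have hdk : ((d : ℝ) : 𝕜) ≠ 0 := by exact_mod_cast hd0.ne'
  have key := hk (s.filter (· ∈ M)) (fun h => hkM (mem_filter.1 h).2)
    (fun l => ((c : ℝ) : 𝕜)⁻¹ • Q₁ l ∘L U ∘L J₁ k)
    (fun l => ((d : ℝ) : 𝕜)⁻¹ • Q₂ k ∘L V ∘L J₂ l) (fun x => by
      simp only [_root_.smul_apply, norm_smul, norm_inv, RCLike.norm_ofReal, mul_pow,
        inv_pow, sq_abs, ← mul_sum, ContinuousLinearMap.comp_apply]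
      rw [inv_mul_le_iff₀ (by positivity)]
      refine (h₁.lower _ _).trans ?_
      have a1 := pow_le_pow_left₀ (norm_nonneg _) (U.le_opNorm (J₁ k x)) 2
      rw [mul_pow] at a1
      have a2 := mul_le_mul_of_nonneg_left
        (a1.trans (mul_le_mul_of_nonneg_left (h₁.J_le k x) (sq_nonneg _))) hK₁
      nlinarith [mul_nonneg (mul_nonneg hK₁ (norm_nonneg U)) (sq_nonneg ‖x‖), sq_nonneg ‖x‖])
    (fun z => by
      simp only [_root_.smul_apply, ContinuousLinearMap.comp_apply, ← smul_sum,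
        ← map_sum, norm_smul, norm_inv, RCLike.norm_ofReal, mul_pow, inv_pow, sq_abs]
      rw [inv_mul_le_iff₀ (by positivity)]
      refine (h₂.Q_le _ _).trans ?_
      have a1 := pow_le_pow_left₀ (norm_nonneg _)
        (V.le_opNorm (∑ l ∈ s.filter (· ∈ M), J₂ l (z l))) 2
      rw [mul_pow] at a1
      have a2 := mul_le_mul_of_nonneg_left
        (a1.trans (mul_le_mul_of_nonneg_left (h₂.upper _ z) (sq_nonneg _))) hK₂
      have a3 : 0 ≤ ∑ l ∈ s.filter (· ∈ M), ‖z l‖ ^ 2 := by positivity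
      nlinarith [mul_nonneg (mul_nonneg hK₂ (norm_nonneg V)) a3])
  have e1 : ∑ l ∈ s, Ψ k (V * a M l * U) = (c : 𝕜) * (d : 𝕜) *
      Φ k (∑ l ∈ s.filter (· ∈ M), (((d : ℝ) : 𝕜)⁻¹ • Q₂ k ∘L V ∘L J₂ l) ∘L T l ∘L
        (((c : ℝ) : 𝕜)⁻¹ • Q₁ l ∘L U ∘L J₁ k)) := by
    rw [map_sum, mul_sum, sum_filter]
    refine sum_congr rfl fun l _ => ?_
    simp only [a]
    split_ifs
    · rw [hΨ, ← smul_eq_mul ((c : 𝕜) * d), ← map_smul]
      congr 1
      ext y
      simp only [ContinuousLinearMap.comp_apply, _root_.smul_apply, map_smul,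
        mul_apply_eq_comp, smul_smul]
      rw [show (c : 𝕜) * d * ((c : 𝕜)⁻¹ * (d : 𝕜)⁻¹) = 1 by field_simp, one_smul]
    · simp
  rw [e1, norm_mul, norm_mul, RCLike.norm_ofReal, RCLike.norm_ofReal, abs_of_pos hc0,
    abs_of_pos hd0]
  rwa [le_div_iff₀' (by positivity)] at key

theorem Blk.group {G Ω : ℕ → Type} [∀ k, NormedAddCommGroup (G k)] [∀ k, NormedSpace 𝕜 (G k)]
    [∀ k, Fintype (Ω k)] {J : ∀ σ : Σ k, Ω k, G σ.1 →L[𝕜] X} {Q : ∀ σ : Σ k, Ω k, X →L[𝕜] G σ.1}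
    {K : ℝ} (h : Blk (F := fun σ : Σ k, Ω k => G σ.1) J Q K) :
    ∃ (J' : ∀ k, PiLp 2 (fun _ : Ω k => G k) →L[𝕜] X)
      (Q' : ∀ k, X →L[𝕜] PiLp 2 (fun _ : Ω k => G k)), Blk J' Q' K := by
  classical
  let J' : ∀ k, PiLp 2 (fun _ : Ω k => G k) →L[𝕜] X := fun k =>
    ∑ ω, J ⟨k, ω⟩ ∘L PiLp.proj 2 (fun _ : Ω k => G k) ω
  have hJ : ∀ k z, J' k z = ∑ ω, J ⟨k, ω⟩ (z ω) := fun k z => by simp [J']
  let Q' : ∀ k, X →L[𝕜] PiLp 2 (fun _ : Ω k => G k) := fun k =>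
    (PiLp.continuousLinearEquiv 2 𝕜 fun _ : Ω k => G k).symm.toContinuousLinearMap ∘L
      ContinuousLinearMap.pi fun ω => Q ⟨k, ω⟩
  have hQ : ∀ k y ω, Q' k y ω = Q ⟨k, ω⟩ y := fun _ _ _ => rfl
  refine ⟨J', Q', h.nonneg, fun k z => ?_, fun k k' hk z => ?_, fun s z => ?_, fun s y => ?_⟩
  · ext ω
    rw [hQ, hJ, map_sum, sum_eq_single ω (fun ω' _ hω => h.diff ⟨k, ω⟩ ⟨k, ω'⟩
      (fun hh => hω (by cases hh; rfl)) _) (by simp)]
    exact h.same ⟨k, ω⟩ _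
  · ext ω
    rw [hQ, hJ, map_sum]
    exact sum_eq_zero fun ω' _ => h.diff ⟨k, ω⟩ ⟨k', ω'⟩ (fun hh => hk (congrArg Sigma.fst hh)) _
  · have := h.upper (s.sigma fun _ => univ) fun σ => z σ.1 σ.2
    simpa only [sum_sigma, hJ, PiLp.norm_sq_eq_of_L2] using this
  · have := h.lower (s.sigma fun _ => univ) y
    simpa only [sum_sigma, hQ, PiLp.norm_sq_eq_of_L2] using this

variable {E : ℕ → Type} [∀ m, NormedAddCommGroup (E m)] [∀ m, NormedSpace 𝕜 (E m)]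

theorem blk_lp (hX : ComplementedCopy 𝕜 X (lp E 2)) :
    ∃ (J : ∀ m, E m →L[𝕜] X) (Q : ∀ m, X →L[𝕜] E m) (K : ℝ), Blk J Q K := by
  classical
  obtain ⟨i, q, hiq⟩ := hX
  refine ⟨fun m => i ∘L lp.singleContinuousLinearMap 𝕜 E 2 m, fun m => lp.evalCLM 𝕜 E 2 m ∘L q,
    ‖i‖ ^ 2 + ‖q‖ ^ 2, by positivity, fun m z => ?_, fun m m' hm z => ?_, fun s z => ?_,
    fun s y => ?_⟩
  · simp only [ContinuousLinearMap.comp_apply, hiq]
    exact lp.single_apply_self 2 m z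
  · simp only [ContinuousLinearMap.comp_apply, hiq]
    exact lp.single_apply_ne 2 m' z hm
  · simp only [ContinuousLinearMap.comp_apply, ← map_sum, lp.singleContinuousLinearMap_apply]
    have h1 := lp.norm_sum_single (p := 2) (by simp) z s
    simp only [ENNReal.toReal_ofNat, Real.rpow_ofNat] at h1
    have h2 := pow_le_pow_left₀ (norm_nonneg _) (i.le_opNorm (∑ m ∈ s, lp.single 2 m (z m))) 2
    rw [mul_pow, h1] at h2
    exact h2.trans (mul_le_mul_of_nonneg_right (by linarith [sq_nonneg ‖q‖]) (by positivity))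
  · refine (sum_le_hasSum s (fun _ _ => sq_nonneg _) (hasSum_sq (q y))).trans ?_
    refine (pow_le_pow_left₀ (norm_nonneg _) (q.le_opNorm y) 2).trans ?_
    rw [mul_pow]
    exact mul_le_mul_of_nonneg_right (by linarith [sq_nonneg ‖i‖]) (by positivity)

theorem Blk.far {J : ∀ m, E m →L[𝕜] X} {Q : ∀ m, X →L[𝕜] E m} {K : ℝ} (h : Blk J Q K)
    {G : ℕ → Type} [∀ k, NormedAddCommGroup (G k)] [∀ k, NormedSpace 𝕜 (G k)] {C : ℝ}
    (hC : 0 ≤ C) (hG : ∀ n, Far 𝕜 (G n) E C) :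
    ∃ (J' : ∀ p : ℕ × ℕ, G p.1 →L[𝕜] X) (Q' : ∀ p : ℕ × ℕ, X →L[𝕜] G p.1) (K' : ℝ),
      Blk (F := fun p : ℕ × ℕ => G p.1) J' Q' K' := by
  classical
  have hK := h.nonneg
  choose s U V hs hU hV hid using hG
  let N : ℕ → ℕ := fun i => Nat.rec 0 (fun i n => n + (s i.unpair.1 n).sup id + 1) i
  have hN : ∀ i, N (i + 1) = N i + (s i.unpair.1 (N i)).sup id + 1 := fun _ => rfl
  have hmono : Monotone N := monotone_nat_of_le_succ fun i => by rw [hN]; omega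
  let ν : ℕ × ℕ → ℕ := fun p => N (Nat.pair p.1 p.2)
  let t : ℕ × ℕ → Finset ℕ := fun p => s p.1 (ν p)
  have hlt : ∀ p p' : ℕ × ℕ, Nat.pair p.1 p.2 < Nat.pair p'.1 p'.2 → Disjoint (t p) (t p') := by
    intro p p' hp
    refine disjoint_left.2 fun m hm hm' => ?_
    have h1 := hs _ _ m hm'
    have h2 := hmono (Nat.succ_le_of_lt hp)
    rw [Nat.succ_eq_add_one, hN, Nat.unpair_pair] at h2
    have h3 : m ≤ (s p.1 (N (Nat.pair p.1 p.2))).sup id := le_sup (f := id) hm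
    simp only [ν] at h1 h2
    omega
  have hdis : ∀ p p' : ℕ × ℕ, p ≠ p' → Disjoint (t p) (t p') := fun p p' hp => by
    rcases lt_trichotomy (Nat.pair p.1 p.2) (Nat.pair p'.1 p'.2) with h1 | h1 | h1
    · exact hlt _ _ h1
    · exact (hp (Prod.ext (Nat.pair_eq_pair.1 h1).1 (Nat.pair_eq_pair.1 h1).2)).elim
    · exact (hlt _ _ h1).symm
  have hQJ : ∀ (p : ℕ × ℕ) (z : G p.1) m, Q m (∑ m' ∈ t p, J m' (U p.1 (ν p) m' z)) =
      if m ∈ t p then U p.1 (ν p) m z else 0 := fun p z m => by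
    rw [map_sum]
    split_ifs with hm
    · rw [sum_eq_single m (fun m' _ hh => h.diff _ _ hh.symm _) (fun hh => (hh hm).elim), h.same]
    · exact sum_eq_zero fun m' hm' => h.diff m m' (fun hh => hm (hh ▸ hm')) _
  refine ⟨fun p => ∑ m ∈ t p, J m ∘L U p.1 (ν p) m, fun p => ∑ m ∈ t p, V p.1 (ν p) m ∘L Q m,
    K * (C + 1), by positivity, fun p z => ?_, fun p p' hp z => ?_, fun A z => ?_, fun A y => ?_⟩
  all_goals simp only [_root_.sum_apply, ContinuousLinearMap.comp_apply]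
  · rw [sum_congr rfl fun m hm => by rw [hQJ, if_pos hm]]
    exact hid _ _ z
  · exact sum_eq_zero fun m hm => by
      rw [hQJ, if_neg (disjoint_left.1 (hdis _ _ hp) hm), map_zero]
  · have hA : (A : Set (ℕ × ℕ)).PairwiseDisjoint t := fun p _ p' _ hp => hdis p p' hp
    let w : ∀ m, E m := fun m => ∑ p ∈ A, if m ∈ t p then U p.1 (ν p) m (z p) else 0
    have hw : ∀ p ∈ A, ∀ m ∈ t p, w m = U p.1 (ν p) m (z p) := fun p hp m hm => by
      rw [show w m = _ from sum_eq_single p (fun p' _ hh =>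
        if_neg (disjoint_left.1 (hdis _ _ hh.symm) hm)) (fun hh => (hh hp).elim), if_pos hm]
    have h1 := h.upper (A.biUnion t) w
    rw [sum_biUnion hA, sum_biUnion hA,
      sum_congr rfl fun p hp => sum_congr rfl fun m hm => by rw [hw p hp m hm],
      sum_congr rfl fun p hp => sum_congr rfl fun m hm =>
        congrArg (fun y => ‖y‖ ^ 2) (hw p hp m hm)] at h1
    refine h1.trans ?_
    rw [mul_assoc]
    refine mul_le_mul_of_nonneg_left ((sum_le_sum fun p _ => hU _ _ (z p)).trans ?_) hK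
    exact le_mul_of_one_le_left (by positivity) (by linarith)
  · have hA : (A : Set (ℕ × ℕ)).PairwiseDisjoint t := fun p _ p' _ hp => hdis p p' hp
    refine (sum_le_sum fun p _ => hV p.1 (ν p) fun m => Q m y).trans ?_
    have h1 := h.lower (A.biUnion t) y
    rw [sum_biUnion hA] at h1
    rw [← mul_sum]
    nlinarith [mul_le_mul_of_nonneg_left h1 hC, mul_nonneg hK (sq_nonneg ‖y‖)]

end Pool.Agent.P.MP_6b6f2e_an.L2
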