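import Pool.Agent.P.MP_6b6f2e_an.L2K

set_option autoImplicit false
set_option linter.unusedSectionVars false

namespace Pool.Agent.P.MP_6b6f2e_an.L2

open Finset
open scoped BigOperators

variable {𝕜 : Type} [RCLike 𝕜] {E : ℕ → Type} [∀ m, NormedAddCommGroup (E m)]
  [∀ m, NormedSpace 𝕜 (E m)] {G : Type} [NormedAddCommGroup G] [NormedSpace 𝕜 G]

theorem Into.norm_le {s : Finset ℕ} {U : ∀ m, G →L[𝕜] E m} (h : Into s U) {m : ℕ} (hm : m ∈ s) :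
    ‖U m‖ ≤ 1 :=
  (U m).opNorm_le_bound zero_le_one fun x => (abs_le_of_sq_le_sq' (by
    simpa using h.mono (singleton_subset_iff.2 hm) x) (by positivity)).2

theorem Out.norm_le {s : Finset ℕ} {V : ∀ m, E m →L[𝕜] G} (h : Out s V 1) {m : ℕ} (hm : m ∈ s) :
    ‖V m‖ ≤ 1 :=
  (V m).opNorm_le_bound zero_le_one fun z => (abs_le_of_sq_le_sq' (by
    simpa using h.mono (singleton_subset_iff.2 hm) (Pi.single m z)) (by positivity)).2

theorem rank_one_mem {N m : ℕ} (hm : N ≤ m) {w : E m} (hw : w ≠ 0) {φ : G →L[𝕜] 𝕜} {y : G}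
    (hφ : ‖φ‖ ≤ 1) (hy : ‖y‖ ≤ 1) : φ.smulRight y ∈ Fac 𝕜 G E N := by
  have h0 : ‖w‖ ≠ 0 := norm_ne_zero_iff.2 hw
  have h1 : ‖((‖w‖⁻¹ : ℝ) : 𝕜) • w‖ = 1 := by
    rw [norm_smul, RCLike.norm_ofReal, abs_inv, abs_norm, inv_mul_cancel₀ h0]
  generalize ((‖w‖⁻¹ : ℝ) : 𝕜) • w = v at h1
  obtain ⟨ψ, hψ, hv⟩ := exists_dual_vector'' 𝕜 v
  refine ⟨{m}, Pi.single (M := fun m => G →L[𝕜] E m) m (φ.smulRight v),
    Pi.single (M := fun m => E m →L[𝕜] G) m (ψ.smulRight y), by simpa using hm, fun x => ?_,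
    fun z => ?_, ?_⟩
  · simp only [sum_singleton, Pi.single_eq_same, ContinuousLinearMap.smulRight_apply, norm_smul,
      h1, mul_one]
    exact pow_le_pow_left₀ (norm_nonneg _) ((φ.le_of_opNorm_le hφ x).trans_eq (one_mul _)) 2
  · simp only [sum_singleton, Pi.single_eq_same, ContinuousLinearMap.smulRight_apply, norm_smul,
      one_mul]
    refine pow_le_pow_left₀ (by positivity) ((mul_le_of_le_one_right (norm_nonneg _) hy).trans ?_) 2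
    exact (ψ.le_of_opNorm_le hψ _).trans_eq (one_mul _)
  · ext x
    simp [hv, h1]

theorem rank_one_le (hne : ∀ N, ∃ m, N ≤ m ∧ ∃ y : E m, y ≠ 0) {Φ : (G →L[𝕜] G) →L[𝕜] 𝕜} {N : ℕ}
    {δ : ℝ} (h : ∀ S ∈ Fac 𝕜 G E N, ‖Φ S‖ ≤ δ) (φ : G →L[𝕜] 𝕜) (y : G) :
    ‖Φ (φ.smulRight y)‖ ≤ ‖φ‖ * ‖y‖ * δ := by
  obtain ⟨m, hm, w, hw⟩ := hne N
  by_cases hφ : φ = 0
  · simp [hφ]
  by_cases hy : y = 0
  · simp [hy]
  have h1 : ‖φ‖ ≠ 0 := norm_ne_zero_iff.2 hφ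
  have h2 : ‖y‖ ≠ 0 := norm_ne_zero_iff.2 hy
  have h3 := h _ (rank_one_mem hm hw (φ := ((‖φ‖⁻¹ : ℝ) : 𝕜) • φ) (y := ((‖y‖⁻¹ : ℝ) : 𝕜) • y)
    (by rw [norm_smul, RCLike.norm_ofReal, abs_inv, abs_norm, inv_mul_cancel₀ h1])
    (by rw [norm_smul, RCLike.norm_ofReal, abs_inv, abs_norm, inv_mul_cancel₀ h2]))
  have e : φ.smulRight y = ((‖φ‖ * ‖y‖ : ℝ) : 𝕜) •
      (((‖φ‖⁻¹ : ℝ) : 𝕜) • φ).smulRight (((‖y‖⁻¹ : ℝ) : 𝕜) • y) := by
    ext x
    have h4 : ((‖φ‖ : ℝ) : 𝕜) ≠ 0 := by exact_mod_cast h1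
    have h5 : ((‖y‖ : ℝ) : 𝕜) ≠ 0 := by exact_mod_cast h2
    simp only [ContinuousLinearMap.smulRight_apply, _root_.smul_apply, smul_smul, smul_eq_mul]
    congr 1
    push_cast
    field_simp
  rw [e, map_smul, norm_smul, RCLike.norm_ofReal, abs_of_nonneg (by positivity)]
  exact mul_le_mul_of_nonneg_left h3 (by positivity)

theorem exists_nuc (𝕜 : Type) [RCLike 𝕜] (W : Type) [NormedAddCommGroup W] [NormedSpace 𝕜 W]
    [FiniteDimensional 𝕜 W] : ∃ γ : ℝ, 0 ≤ γ ∧ ∀ (G : Type) [NormedAddCommGroup G]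
      [NormedSpace 𝕜 G] (Φ : (G →L[𝕜] G) →L[𝕜] 𝕜) (δ : ℝ), 0 ≤ δ →
        (∀ (φ : G →L[𝕜] 𝕜) (y : G), ‖Φ (φ.smulRight y)‖ ≤ ‖φ‖ * ‖y‖ * δ) →
          ∀ (U : G →L[𝕜] W) (V : W →L[𝕜] G), ‖U‖ ≤ 1 → ‖V‖ ≤ 1 → ‖Φ (V ∘L U)‖ ≤ γ * δ := by
  obtain ⟨n, e, f, hef⟩ := exists_coords 𝕜 W
  refine ⟨∑ i, ‖f i‖ * ‖e i‖, by positivity, fun G _ _ Φ δ hδ h U V hU hV => ?_⟩
  have e1 : V ∘L U = ∑ i, (f i ∘L U).smulRight (V (e i)) := by
    ext x
    rw [ContinuousLinearMap.comp_apply, ← hef (U x)]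
    simp
  rw [e1, map_sum, sum_mul]
  refine (norm_sum_le _ _).trans (sum_le_sum fun i _ => (h _ _).trans ?_)
  refine mul_le_mul_of_nonneg_right (mul_le_mul ?_ ?_ (norm_nonneg _) (norm_nonneg _)) hδ
  · exact ((f i).opNorm_comp_le U).trans (mul_le_of_le_one_right (norm_nonneg _) hU)
  · exact (V.le_of_opNorm_le hV _).trans_eq (one_mul _)

theorem indep_of_sep [∀ m, FiniteDimensional 𝕜 (E m)] (hne : ∀ N, ∃ m, N ≤ m ∧ ∃ y : E m, y ≠ 0)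
    (h : ∀ C : ℝ, 0 < C → ∀ n₀, ∃ n, n₀ ≤ n ∧ Sep 𝕜 (E n) E C) :
    ∃ (n : ℕ → ℕ) (Φ : ∀ k, (E (n k) →L[𝕜] E (n k)) →L[𝕜] 𝕜), Function.Injective n ∧
      Indep (P₁ := fun k => E (n k)) (fun k => ContinuousLinearMap.id 𝕜 (E (n k))) Φ := by
  choose γ hγ0 hγ using fun m => exists_nuc 𝕜 (E m)
  simp only [Sep] at h
  choose ν hν Φ N h1 h2 h3 using fun (c : ℝ) (n₀ : ℕ) => h (|c| + 1) (by positivity) n₀
  let st : ℕ → ℕ × ℝ := fun k => Nat.rec (0, 0) (fun k p =>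
    (ν ((k + 1) * (1 + p.2)) p.1 + N ((k + 1) * (1 + p.2)) p.1 + 1,
      p.2 + γ (ν ((k + 1) * (1 + p.2)) p.1))) k
  let c : ℕ → ℝ := fun k => (k + 1) * (1 + (st k).2)
  let n : ℕ → ℕ := fun k => ν (c k) (st k).1
  have hs1 : ∀ k, (st (k + 1)).1 = n k + N (c k) (st k).1 + 1 := fun _ => rfl
  have hs2 : ∀ k, (st k).2 = ∑ l ∈ range k, γ (n l) := fun k => by
    induction k with
    | zero => rfl
    | succ k ih => rw [sum_range_succ, ← ih]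
  have hn1 : ∀ k, n k + N (c k) (st k).1 + 1 ≤ n (k + 1) := fun k => hs1 k ▸ hν _ _
  have hn : StrictMono n := strictMono_nat_of_lt_succ fun k => by have := hn1 k; omega
  refine ⟨n, fun k => Φ (c k) (st k).1, hn.injective,
    fun k => ContinuousLinearMap.norm_id_le.trans one_le_two, fun k => h1 _ _, fun k => h2 _ _,
    fun ε hε => ?_⟩
  obtain ⟨k₀, hk₀⟩ := exists_nat_gt (2 / ε)
  filter_upwards [Filter.eventually_ge_atTop k₀] with k hk s hks U V hU hV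
  have hΓ : 0 ≤ (st k).2 := hs2 k ▸ sum_nonneg fun l _ => hγ0 _
  have hδ : 0 ≤ 2 / (|c k| + 1) := by positivity
  have a1 : ‖Φ (c k) (st k).1 (∑ l ∈ s.filter (· < k), V l ∘L U l)‖ ≤
      (st k).2 * (2 / (|c k| + 1)) := by
    rw [map_sum, hs2, sum_mul]
    refine (norm_sum_le _ _).trans ((sum_le_sum fun l hl => hγ (n l) _ _ _ hδ
      (rank_one_le hne (h3 _ _)) _ _ (hU.norm_le (mem_filter.1 hl).1)
      (hV.norm_le (mem_filter.1 hl).1)).trans ?_)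
    exact sum_le_sum_of_subset_of_nonneg (fun l hl => mem_range.2 (mem_filter.1 hl).2)
      fun l _ _ => mul_nonneg (hγ0 _) hδ
  have a2 : ‖Φ (c k) (st k).1 (∑ l ∈ s.filter (¬ · < k), V l ∘L U l)‖ ≤ 2 / (|c k| + 1) := by
    have ext : ∀ {β : ℕ → Type} [∀ m, Zero (β m)] (f : ∀ l, β (n l)),
        ∃ g : ∀ m, β m, ∀ l, g (n l) = f l := fun {β} _ f => by
      have hz : ∀ m, ∃ y : β m, ∀ l, n l = m → HEq y (f l) := fun m => by
        by_cases hm : ∃ l, n l = m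
        · obtain ⟨l, rfl⟩ := hm
          exact ⟨f l, fun l' hl => by rw [hn.injective hl]⟩
        · exact ⟨0, fun l hl => (hm ⟨l, hl⟩).elim⟩
      choose g hg using hz
      exact ⟨g, fun l => eq_of_heq (hg _ l rfl)⟩
    obtain ⟨U', hU'⟩ := ext (β := fun m => E (n k) →L[𝕜] E m) U
    obtain ⟨V', hV'⟩ := ext (β := fun m => E m →L[𝕜] E (n k)) V
    refine h3 _ _ _ ⟨(s.filter (¬ · < k)).image n, U', V', fun m hm => ?_, fun x => ?_,
      fun z => ?_, ?_⟩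
    · obtain ⟨l, hl, rfl⟩ := mem_image.1 hm
      obtain ⟨hl1, hl2⟩ := mem_filter.1 hl
      have hkl : k + 1 ≤ l := lt_of_le_of_ne (not_lt.1 hl2) fun hh => hks (hh ▸ hl1)
      have := hn.monotone hkl
      have := hn1 k
      omega
    · rw [sum_image hn.injective.injOn]
      simp only [hU']
      exact hU.mono (filter_subset _ _) x
    · rw [sum_image hn.injective.injOn, sum_image hn.injective.injOn]
      simp only [hV']
      exact hV.mono (filter_subset _ _) fun l => z (n l)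
    · rw [sum_image hn.injective.injOn]
      simp only [hU', hV']
  simp only [ContinuousLinearMap.id_comp]
  rw [← sum_filter_add_sum_filter_not s (· < k), map_add]
  refine (norm_add_le _ _).trans ((add_le_add a1 a2).trans ?_)
  rw [← add_one_mul, mul_div_assoc', div_le_iff₀ (by positivity)]
  rw [div_lt_iff₀ hε] at hk₀
  have hk' : (k₀ : ℝ) ≤ k := by exact_mod_cast hk
  have hc : (k + 1) * (1 + (st k).2) ≤ |c k| := le_abs_self _
  nlinarith [mul_le_mul_of_nonneg_left hc hε.le, mul_le_mul_of_nonneg_right hk' hε.le,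
    mul_nonneg hΓ hε.le]

end Pool.Agent.P.MP_6b6f2e_an.L2
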