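import Pool.Agent.P.MP_6b6f2e_an.Khin

set_option autoImplicit false

namespace Pool.Agent.P.MP_6b6f2e_an.L2

open Finset
open scoped BigOperators

/-- The real matrix `A` has squared operator norm at most `lam` on Euclidean spaces. -/
def IsC {ι κ : Type} [Fintype ι] [Fintype κ] (A : ι → κ → ℝ) (lam : ℝ) : Prop :=
  ∀ v : κ → ℝ, ∑ i, (∑ j, A i j * v j) ^ 2 ≤ lam * ∑ j, v j ^ 2

/-- Every real contraction matrix acts on `Y`-valued families with squared norm at most `K`. -/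
def IsK (Y : Type) [NormedAddCommGroup Y] [NormedSpace ℝ Y] (K : ℝ) : Prop :=
  ∀ (ι κ : Type) [Fintype ι] [Fintype κ] (A : ι → κ → ℝ), IsC A 1 →
    ∀ x : κ → Y, ∑ i, ‖∑ j, A i j • x j‖ ^ 2 ≤ K * ∑ j, ‖x j‖ ^ 2

/-- The squared Rademacher average of a finite family. -/
noncomputable def rad {ι Y : Type} [Fintype ι] [DecidableEq ι] [NormedAddCommGroup Y]
    [NormedSpace ℝ Y] (x : ι → Y) : ℝ :=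
  𝔼 σ : ι → Bool, ‖∑ i, sn (σ i) • x i‖ ^ 2

/-- Type 2 with squared constant `T`. -/
def IsT (Y : Type) [NormedAddCommGroup Y] [NormedSpace ℝ Y] (T : ℝ) : Prop :=
  ∀ (ι : Type) [Fintype ι] [DecidableEq ι] (x : ι → Y), rad x ≤ T * ∑ i, ‖x i‖ ^ 2

/-- All Rademacher averages of split copies of the family `ξ` are at most `Γ`. -/
def RadBd {J Y : Type} [DecidableEq J] [NormedAddCommGroup Y] [NormedSpace ℝ Y] (ξ : J → Y)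
    (Γ : ℝ) : Prop :=
  ∀ (L : Type) [Fintype L] [DecidableEq L] (I : L → J) (b : L → ℝ),
    (∀ j, ∑ t ∈ univ.filter (fun t => I t = j), b t ^ 2 ≤ 1) →
      rad (fun t => b t • ξ (I t)) ≤ Γ

/-- A weak form of cotype 2 with squared constant `C`. -/
def IsGC (Y : Type) [NormedAddCommGroup Y] [NormedSpace ℝ Y] (C : ℝ) : Prop :=
  ∀ (J : Type) [Fintype J] [DecidableEq J] (ξ : J → Y) (Γ : ℝ), RadBd ξ Γ →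
    ∑ j, ‖ξ j‖ ^ 2 ≤ C * Γ

section pair

variable {𝕜 : Type} [RCLike 𝕜]

/-- A pairing in which each space norms the other exactly. -/
structure Pair {F F' : Type} [NormedAddCommGroup F] [NormedSpace 𝕜 F] [NormedAddCommGroup F']
    [NormedSpace 𝕜 F'] (B : F →ₗ[𝕜] F' →ₗ[𝕜] 𝕜) : Prop where
  le : ∀ x ξ, ‖B x ξ‖ ≤ ‖x‖ * ‖ξ‖
  left : ∀ x, ∃ ξ, ‖ξ‖ ≤ 1 ∧ B x ξ = (‖x‖ : ℝ)
  right : ∀ ξ, ∃ x, ‖x‖ ≤ 1 ∧ B x ξ = (‖ξ‖ : ℝ)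

/-- The evaluation pairing of a space with its dual. -/
def ev (𝕜 : Type) [RCLike 𝕜] (P : Type) [NormedAddCommGroup P] [NormedSpace 𝕜 P] :
    P →ₗ[𝕜] (P →L[𝕜] 𝕜) →ₗ[𝕜] 𝕜 :=
  LinearMap.mk₂ 𝕜 (fun x φ => φ x) (fun _ _ φ => map_add φ _ _) (fun _ _ φ => map_smul φ _ _)
    (fun _ _ _ => rfl) (fun _ _ _ => rfl)

@[simp] theorem ev_apply {P : Type} [NormedAddCommGroup P] [NormedSpace 𝕜 P] (x : P)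
    (φ : P →L[𝕜] 𝕜) : ev 𝕜 P x φ = φ x := rfl

variable {F F' : Type} [NormedAddCommGroup F] [NormedSpace 𝕜 F] [NormedAddCommGroup F']
  [NormedSpace 𝕜 F']

/-- The pairing of the `ℓ_2`-powers. -/
def piB (B : F →ₗ[𝕜] F' →ₗ[𝕜] 𝕜) (Ω : Type) [Fintype Ω] :
    PiLp 2 (fun _ : Ω => F) →ₗ[𝕜] PiLp 2 (fun _ : Ω => F') →ₗ[𝕜] 𝕜 :=
  LinearMap.mk₂ 𝕜 (fun u v => ∑ ω, B (u ω) (v ω))
    (fun _ _ _ => by simp [sum_add_distrib]) (fun _ _ _ => by simp [mul_sum])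
    (fun _ _ _ => by simp [sum_add_distrib]) (fun _ _ _ => by simp [mul_sum])

theorem piB_apply (B : F →ₗ[𝕜] F' →ₗ[𝕜] 𝕜) (Ω : Type) [Fintype Ω]
    (u : PiLp 2 (fun _ : Ω => F)) (v : PiLp 2 (fun _ : Ω => F')) :
    piB B Ω u v = ∑ ω, B (u ω) (v ω) := rfl

/-- The source half of a gadget. -/
structure Src {S : Type} [Fintype S] [DecidableEq S] (B : F →ₗ[𝕜] F' →ₗ[𝕜] 𝕜) (h : S → F')
    (x : S → F) (β τ : ℝ) : Prop where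
  bi : ∀ s t, B (x s) (h t) = if s = t then 1 else 0
  xle : ∀ s, ‖x s‖ ≤ 2
  up : ∀ u, ∑ s, ‖B u (h s)‖ ^ 2 ≤ 2 * ‖u‖ ^ 2
  flat : ∀ (u : F) (A : Finset S), (∀ s ∈ A, ‖B u (h s)‖ ≤ β * ‖u‖) →
    ∑ s ∈ A, ‖B u (h s)‖ ^ 2 ≤ τ * ‖u‖ ^ 2

/-- The target half of a gadget. -/
structure Tgt {S : Type} [Fintype S] (B : F →ₗ[𝕜] F' →ₗ[𝕜] 𝕜) (z : S → F) (g : S → F')
    (N ε : ℝ) : Prop where
  one : ∑ s, B (z s) (g s) = 1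
  gle : ∑ s, ‖g s‖ ≤ 1
  up : ∀ a : S → 𝕜, ‖∑ s, a s • z s‖ ^ 2 ≤ ∑ s, ‖a s‖ ^ 2 + (∑ s, ‖a s‖) ^ 2 / N
  small : ∀ (J : Type) [Fintype J] (β : J → F' →ₗ[𝕜] 𝕜),
    (∀ v, ∑ j, ‖β j v‖ ^ 2 ≤ ‖v‖ ^ 2) → ∑ s, √(∑ j, ‖β j (g s)‖ ^ 2) ≤ ε

variable {G G' : Type} [NormedAddCommGroup G] [NormedSpace 𝕜 G] [NormedAddCommGroup G']
  [NormedSpace 𝕜 G']

/-- A gadget: the operator `u ↦ ∑ B₁ u (h s) • z s` with the test pairs `(x s, g s)`. -/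
structure IsGad {S : Type} [Fintype S] [DecidableEq S] (B₁ : F →ₗ[𝕜] F' →ₗ[𝕜] 𝕜)
    (B₂ : G →ₗ[𝕜] G' →ₗ[𝕜] 𝕜) (h : S → F') (x : S → F) (z : S → G) (g : S → G') (ε : ℝ)
    (D : ℕ) (η : ℝ) : Prop where
  bd : ∀ u v, ‖∑ s, B₁ u (h s) * B₂ (z s) v‖ ≤ 2 * (‖u‖ * ‖v‖)
  test : ∑ s, ‖x s‖ * ‖g s‖ ≤ 2
  one : ∑ s, ∑ t, B₁ (x s) (h t) * B₂ (z t) (g s) = 1
  small : ∀ (J : Type) [Fintype J] (α : J → F →ₗ[𝕜] 𝕜) (β : J → G' →ₗ[𝕜] 𝕜),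
    (∀ u, ∑ j, ‖α j u‖ ^ 2 ≤ ‖u‖ ^ 2) → (∀ v, ∑ j, ‖β j v‖ ^ 2 ≤ ‖v‖ ^ 2) →
      ‖∑ s, ∑ j, α j (x s) * β j (g s)‖ ≤ ε
  loc : ∀ (I : Type) [Fintype I], Fintype.card I ≤ D → ∀ (u : I → F) (v : I → G'),
    ∃ A : Finset S, (∀ u, ∑ s ∈ A, ‖B₁ u (h s)‖ ^ 2 ≤ 2 * ‖u‖ ^ 2) ∧
      (∀ v, ∑ s ∈ A, ‖B₂ (z s) v‖ ^ 2 ≤ 2 * ‖v‖ ^ 2) ∧
      ∀ i, ‖∑ s ∈ Aᶜ, B₁ (u i) (h s) * B₂ (z s) (v i)‖ ≤ η * (‖u i‖ * ‖v i‖)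

end pair

section blocks

variable {𝕜 : Type} [RCLike 𝕜]

/-- A system of uniformly complemented, `ℓ_2`-orthogonal copies of the spaces `F i` in `X`. -/
structure Blk {X I : Type} [NormedAddCommGroup X] [NormedSpace 𝕜 X] {F : I → Type}
    [∀ i, NormedAddCommGroup (F i)] [∀ i, NormedSpace 𝕜 (F i)] (J : ∀ i, F i →L[𝕜] X)
    (Q : ∀ i, X →L[𝕜] F i) (K : ℝ) : Prop where
  nonneg : 0 ≤ K
  same : ∀ i z, Q i (J i z) = z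
  diff : ∀ i i', i ≠ i' → ∀ z, Q i (J i' z) = 0
  upper : ∀ (s : Finset I) (z : ∀ i, F i), ‖∑ i ∈ s, J i (z i)‖ ^ 2 ≤ K * ∑ i ∈ s, ‖z i‖ ^ 2
  lower : ∀ (s : Finset I) (y : X), ∑ i ∈ s, ‖Q i y‖ ^ 2 ≤ K * ‖y‖ ^ 2

variable {G G' : Type} [NormedAddCommGroup G] [NormedSpace 𝕜 G] [NormedAddCommGroup G']
  [NormedSpace 𝕜 G'] {E : ℕ → Type} [∀ m, NormedAddCommGroup (E m)] [∀ m, NormedSpace 𝕜 (E m)]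

/-- The maps `U m`, `m ∈ s`, form a contraction into the `ℓ_2`-sum. -/
def Into (s : Finset ℕ) (U : ∀ m, G →L[𝕜] E m) : Prop :=
  ∀ x, ∑ m ∈ s, ‖U m x‖ ^ 2 ≤ ‖x‖ ^ 2

/-- The maps `V m`, `m ∈ s`, form a map of squared norm at most `C` out of the `ℓ_2`-sum. -/
def Out (s : Finset ℕ) (V : ∀ m, E m →L[𝕜] G) (C : ℝ) : Prop :=
  ∀ z : ∀ m, E m, ‖∑ m ∈ s, V m (z m)‖ ^ 2 ≤ C * ∑ m ∈ s, ‖z m‖ ^ 2

/-- Operators on `G` that factor contractively through finitely many blocks `E m`, `m ≥ N`. -/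
def Fac (𝕜 : Type) [RCLike 𝕜] (G : Type) [NormedAddCommGroup G] [NormedSpace 𝕜 G] (E : ℕ → Type)
    [∀ m, NormedAddCommGroup (E m)] [∀ m, NormedSpace 𝕜 (E m)] (N : ℕ) : Set (G →L[𝕜] G) :=
  {S | ∃ (s : Finset ℕ) (U : ∀ m, G →L[𝕜] E m) (V : ∀ m, E m →L[𝕜] G),
    (∀ m ∈ s, N ≤ m) ∧ Into s U ∧ Out s V 1 ∧ S = ∑ m ∈ s, V m ∘L U m}

/-- First alternative: a functional separates the identity of `G` from far factorizations. -/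
def Sep (𝕜 : Type) [RCLike 𝕜] (G : Type) [NormedAddCommGroup G] [NormedSpace 𝕜 G] (E : ℕ → Type)
    [∀ m, NormedAddCommGroup (E m)] [∀ m, NormedSpace 𝕜 (E m)] (C : ℝ) : Prop :=
  ∃ (Φ : (G →L[𝕜] G) →L[𝕜] 𝕜) (N : ℕ), ‖Φ‖ ≤ 2 ∧ Φ (ContinuousLinearMap.id 𝕜 G) = 1 ∧
    ∀ S ∈ Fac 𝕜 G E N, ‖Φ S‖ ≤ 2 / C

/-- Second alternative: the identity of `G` factors through arbitrarily far blocks. -/
def Far (𝕜 : Type) [RCLike 𝕜] (G : Type) [NormedAddCommGroup G] [NormedSpace 𝕜 G] (E : ℕ → Type)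
    [∀ m, NormedAddCommGroup (E m)] [∀ m, NormedSpace 𝕜 (E m)] (C : ℝ) : Prop :=
  ∀ N : ℕ, ∃ (s : Finset ℕ) (U : ∀ m, G →L[𝕜] E m) (V : ∀ m, E m →L[𝕜] G),
    (∀ m ∈ s, N ≤ m) ∧ Into s U ∧ Out s V C ∧ ∀ x, ∑ m ∈ s, V m (U m x) = x

/-- The functionals `Φ k` are eventually small on factorizations through the other `T l`. -/
def Indep {P₁ P₂ : ℕ → Type} [∀ m, NormedAddCommGroup (P₁ m)] [∀ m, NormedSpace 𝕜 (P₁ m)]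
    [∀ m, NormedAddCommGroup (P₂ m)] [∀ m, NormedSpace 𝕜 (P₂ m)] (T : ∀ k, P₁ k →L[𝕜] P₂ k)
    (Φ : ∀ k, (P₁ k →L[𝕜] P₂ k) →L[𝕜] 𝕜) : Prop :=
  (∀ k, ‖T k‖ ≤ 2) ∧ (∀ k, ‖Φ k‖ ≤ 2) ∧ (∀ k, Φ k (T k) = 1) ∧
    ∀ ε > 0, ∀ᶠ k in Filter.atTop, ∀ s : Finset ℕ, k ∉ s →
      ∀ (U : ∀ l, P₁ k →L[𝕜] P₁ l) (V : ∀ l, P₂ l →L[𝕜] P₂ k), Into s U → Out s V 1 →
        ‖Φ k (∑ l ∈ s, V l ∘L T l ∘L U l)‖ ≤ ε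

end blocks

end Pool.Agent.P.MP_6b6f2e_an.L2
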