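import Pool.Agent.P.MP_6b6f2e_an.L2K

set_option autoImplicit false
set_option linter.unusedSectionVars false

namespace Pool.Agent.P.MP_6b6f2e_an.L2

open Finset
open scoped BigOperators

variable {𝕜 : Type} [RCLike 𝕜] {E : ℕ → Type} [∀ m, NormedAddCommGroup (E m)]
  [∀ m, NormedSpace 𝕜 (E m)] {G : Type} [NormedAddCommGroup G] [NormedSpace 𝕜 G]

theorem fac_zero (N : ℕ) : 0 ∈ Fac 𝕜 G E N :=
  ⟨∅, 0, 0, by simp, fun x => by simp, fun z => by simp, by simp⟩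

theorem fac_smul {N : ℕ} {S : G →L[𝕜] G} (h : S ∈ Fac 𝕜 G E N) {c : 𝕜} (hc : ‖c‖ ≤ 1) :
    c • S ∈ Fac 𝕜 G E N := by
  obtain ⟨s, U, V, hs, hU, hV, rfl⟩ := h
  refine ⟨s, U, fun m => c • V m, hs, hU, fun z => le_trans ?_ (hV z), ?_⟩
  · simp only [_root_.smul_apply, ← smul_sum, norm_smul]
    exact pow_le_pow_left₀ (by positivity) (mul_le_of_le_one_left (norm_nonneg _) hc) 2
  · simp only [smul_sum, ContinuousLinearMap.smul_comp]

theorem fac_anti {N N' : ℕ} (h : N ≤ N') : Fac 𝕜 G E N' ⊆ Fac 𝕜 G E N :=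
  fun _ ⟨s, U, V, hs, hh⟩ => ⟨s, U, V, fun m hm => h.trans (hs m hm), hh⟩

theorem fac_norm {N : ℕ} {S : G →L[𝕜] G} (h : S ∈ Fac 𝕜 G E N) : ‖S‖ ≤ 1 := by
  obtain ⟨s, U, V, -, hU, hV, rfl⟩ := h
  refine ContinuousLinearMap.opNorm_le_bound _ zero_le_one fun x =>
    (abs_le_of_sq_le_sq' ?_ (by positivity)).2
  simp only [_root_.sum_apply, ContinuousLinearMap.comp_apply, one_mul]
  exact (hV fun m => U m x).trans ((one_mul _).trans_le (hU x))

theorem fac_combo {N : ℕ} {S : G →L[𝕜] G} (h : S ∈ Fac 𝕜 G E N) : ∃ N', ∀ S' ∈ Fac 𝕜 G E N',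
    ∀ a b : ℝ, 0 ≤ a → 0 ≤ b → a + b = 1 → (a : 𝕜) • S + (b : 𝕜) • S' ∈ Fac 𝕜 G E N := by
  obtain ⟨s, U, V, hs, hU, hV, rfl⟩ := h
  refine ⟨N + s.sup id + 1, ?_⟩
  rintro _ ⟨s', U', V', hs', hU', hV', rfl⟩ a b ha hb hab
  have hd : Disjoint s s' := disjoint_left.2 fun m hm hm' => by
    have h1 : m ≤ s.sup id := le_sup (f := id) hm
    have h2 := hs' m hm'
    omega
  obtain ⟨p, hp, rfl⟩ : ∃ p, 0 ≤ p ∧ p ^ 2 = a := ⟨√a, Real.sqrt_nonneg _, Real.sq_sqrt ha⟩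
  obtain ⟨q, hq, rfl⟩ : ∃ q, 0 ≤ q ∧ q ^ 2 = b := ⟨√b, Real.sqrt_nonneg _, Real.sq_sqrt hb⟩
  have split : ∀ {M : Type} [AddCommMonoid M] (f g : ℕ → M),
      ∑ m ∈ s ∪ s', (if m ∈ s then f m else g m) = ∑ m ∈ s, f m + ∑ m ∈ s', g m := fun f g => by
    rw [sum_union hd, sum_congr rfl fun m hm => if_pos hm,
      sum_congr rfl fun m hm => if_neg (disjoint_right.1 hd hm)]
  refine ⟨s ∪ s', fun m => if m ∈ s then (p : 𝕜) • U m else (q : 𝕜) • U' m,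
    fun m => if m ∈ s then (p : 𝕜) • V m else (q : 𝕜) • V' m, fun m hm => ?_, fun x => ?_,
    fun z => ?_, ?_⟩
  · rcases mem_union.1 hm with h | h
    · exact hs m h
    · have := hs' m h
      omega
  · have e : ∀ m, ‖(if m ∈ s then (p : 𝕜) • U m else (q : 𝕜) • U' m) x‖ ^ 2 =
        if m ∈ s then p ^ 2 * ‖U m x‖ ^ 2 else q ^ 2 * ‖U' m x‖ ^ 2 := fun m => by
      split_ifs <;> simp [norm_smul, mul_pow]
    simp only [e, split, ← mul_sum]
    nlinarith [mul_le_mul_of_nonneg_left (hU x) ha, mul_le_mul_of_nonneg_left (hU' x) hb]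
  · have e : ∀ m, (if m ∈ s then (p : 𝕜) • V m else (q : 𝕜) • V' m) (z m) =
        if m ∈ s then (p : 𝕜) • V m (z m) else (q : 𝕜) • V' m (z m) := fun m => by
      split_ifs <;> rfl
    simp only [e, split, ← smul_sum]
    rw [sum_union hd]
    have h1 := hV z
    have h2 := hV' z
    set y := ∑ m ∈ s, V m (z m)
    set y' := ∑ m ∈ s', V' m (z m)
    have h3 : ‖(p : 𝕜) • y + (q : 𝕜) • y'‖ ≤ p * ‖y‖ + q * ‖y'‖ := by
      simpa [norm_smul, abs_of_nonneg hp, abs_of_nonneg hq] using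
        norm_add_le ((p : 𝕜) • y) ((q : 𝕜) • y')
    have h4 : (p * ‖y‖ + q * ‖y'‖) ^ 2 ≤ (p ^ 2 + q ^ 2) * (‖y‖ ^ 2 + ‖y'‖ ^ 2) := by
      nlinarith [sq_nonneg (p * ‖y'‖ - q * ‖y‖)]
    rw [hab] at h4
    linarith [pow_le_pow_left₀ (norm_nonneg _) h3 2]
  · rw [smul_sum, smul_sum, ← split]
    refine sum_congr rfl fun m _ => ?_
    by_cases hm : m ∈ s <;>
      simp [hm, ContinuousLinearMap.smul_comp, smul_smul, sq]

theorem far_of_close [CompleteSpace G] {C : ℝ} {S : G →L[𝕜] G}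
    (hS : ∀ N, S ∈ closure (Fac 𝕜 G E N)) (h : ‖1 - (C : 𝕜) • S‖ < 1 / 2) :
    Far 𝕜 G E (4 * C ^ 2) := by
  intro N
  obtain ⟨_, h1, s, U, V, hs, hU, hV, rfl⟩ := mem_closure_iff.1 (hS N)
    {A | ‖1 - (C : 𝕜) • A‖ < 1 / 2} (isOpen_lt (by fun_prop) continuous_const) h
  set A := (C : 𝕜) • ∑ m ∈ s, V m ∘L U m with hA
  have h1 : ‖1 - A‖ < 1 / 2 := h1
  let u := Units.oneSub (1 - A) (h1.trans (by norm_num))
  have hu : (u : G →L[𝕜] G) = A := by simp [u]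
  have hW : ∀ y, ‖(↑u⁻¹ : G →L[𝕜] G) y‖ ≤ 2 * ‖y‖ := fun y => by
    set w := (↑u⁻¹ : G →L[𝕜] G) y with hw
    have h2 : A w = y := by rw [← hu, hw, ← mul_apply_eq_comp, Units.mul_inv]; rfl
    have h3 := (1 - A).le_of_opNorm_le h1.le w
    have h4 : w = (1 - A) w + y := by simp [h2]
    have h5 := norm_add_le ((1 - A) w) y
    rw [← h4] at h5
    linarith
  refine ⟨s, U, fun m => (C : 𝕜) • (↑u⁻¹ : G →L[𝕜] G) ∘L V m, hs, hU, fun z => ?_, fun x => ?_⟩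
  · simp only [_root_.smul_apply, ContinuousLinearMap.comp_apply, ← smul_sum, ← map_sum,
      norm_smul, RCLike.norm_ofReal, mul_pow, sq_abs]
    nlinarith [mul_le_mul_of_nonneg_left ((pow_le_pow_left₀ (norm_nonneg _) (hW _) 2).trans
      ((mul_pow _ _ _).trans_le (mul_le_mul_of_nonneg_left (hV z) (by positivity)))) (sq_nonneg C)]
  · have h2 : (↑u⁻¹ : G →L[𝕜] G) (A x) = x := by
      rw [← hu, ← mul_apply_eq_comp, Units.inv_mul]; rfl
    simpa [hA, smul_sum] using h2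

theorem sep_or_far (G : Type) [NormedAddCommGroup G] [NormedSpace 𝕜 G] [FiniteDimensional 𝕜 G]
    {C : ℝ} (hC : 0 < C) : Sep 𝕜 G E C ∨ Far 𝕜 G E (4 * C ^ 2) := by
  have := FiniteDimensional.complete 𝕜 G
  let _ : NormedSpace ℝ G := NormedSpace.restrictScalars ℝ 𝕜 G
  have : IsScalarTower ℝ 𝕜 G := IsScalarTower.restrictScalars ℝ 𝕜 G
  let D : Set (G →L[𝕜] G) := {S | ∀ N, S ∈ closure (Fac 𝕜 G E N)}
  by_cases hc : ∃ S ∈ D, ‖1 - (C : 𝕜) • S‖ < 1 / 2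
  · obtain ⟨S, hS, h⟩ := hc
    exact Or.inr (far_of_close hS h)
  left
  have hD0 : 0 ∈ D := fun N => subset_closure (fac_zero N)
  have hDs : ∀ S ∈ D, ∀ c : 𝕜, ‖c‖ ≤ 1 → c • S ∈ D := fun S hS c hc N =>
    map_mem_closure (continuous_const_smul c) (hS N) fun _ hA => fac_smul hA hc
  have hDc : Convex ℝ ((fun S => (C : 𝕜) • S) '' D) := by
    rintro _ ⟨S, hS, rfl⟩ _ ⟨S', hS', rfl⟩ a b ha hb hab
    refine ⟨(a : 𝕜) • S + (b : 𝕜) • S', fun N => ?_, ?_⟩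
    · refine closure_minimal (fun A hA => ?_)
        (isClosed_closure.preimage (f := fun A => (a : 𝕜) • A + (b : 𝕜) • S') (by fun_prop)) (hS N)
      obtain ⟨N', hN'⟩ := fac_combo hA
      exact map_mem_closure (f := fun A' => (a : 𝕜) • A + (b : 𝕜) • A') (by fun_prop) (hS' N')
        fun A' hA' => hN' A' hA' a b ha hb hab
    · simp only [RCLike.real_smul_eq_coe_smul (K := 𝕜), smul_add, smul_comm (C : 𝕜)]
  obtain ⟨f, u, hf1, hf2⟩ := RCLike.geometric_hahn_banach_open (𝕜 := 𝕜)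
    (convex_ball (1 : G →L[𝕜] G) (1 / 2)) Metric.isOpen_ball hDc (Set.disjoint_left.2 (by
      rintro _ h1 ⟨S, hS, rfl⟩
      exact hc ⟨S, hS, by rwa [mem_ball_iff_norm'] at h1⟩))
  have hu : u ≤ 0 := by simpa using hf2 _ ⟨0, hD0, rfl⟩
  have h0 : RCLike.re (f 1) < u := hf1 1 (Metric.mem_ball_self (by norm_num))
  have h1 : -RCLike.re (f 1) ≤ ‖f 1‖ := (neg_le_abs _).trans (RCLike.abs_re_le_norm _)
  have hp : 0 < ‖f 1‖ := by linarith
  have h2 : ‖f‖ ≤ 2 * ‖f 1‖ := not_lt.1 fun hlt => by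
    obtain ⟨A, hA, hA'⟩ := f.exists_lt_apply_of_lt_opNorm hlt
    obtain ⟨c, hc1, hc2⟩ := exists_phase (f A)
    have h3 := hf1 (1 + ((1 / 2 : ℝ) : 𝕜) • c • A) (by
      rw [mem_ball_iff_norm, add_sub_cancel_left, norm_smul, norm_smul, hc1, RCLike.norm_ofReal,
        abs_of_pos (by norm_num)]
      linarith)
    rw [map_add, map_smul, map_smul, smul_eq_mul, smul_eq_mul, hc2, map_add, RCLike.re_ofReal_mul,
      RCLike.ofReal_re] at h3
    linarith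
  have h3 : ∀ S ∈ D, C * ‖f S‖ ≤ ‖f 1‖ := fun S hS => by
    obtain ⟨c, hc1, hc2⟩ := exists_phase (f S)
    have h4 := hf2 _ ⟨_, hDs S hS (-c) (by rw [norm_neg, hc1]), rfl⟩
    simp only [map_smul, smul_eq_mul, neg_mul, hc2, mul_neg, map_neg, RCLike.re_ofReal_mul,
      RCLike.ofReal_re] at h4
    linarith
  have h4 : ∀ S, ‖((f 1)⁻¹ • f) S‖ = ‖f S‖ / ‖f 1‖ := fun S => by
    rw [_root_.smul_apply, norm_smul, norm_inv, div_eq_inv_mul]
  by_contra hN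
  simp only [Sep, not_exists, not_and, not_forall, not_le] at hN
  replace hN := fun N => hN ((f 1)⁻¹ • f) N
    (ContinuousLinearMap.opNorm_le_bound _ zero_le_two fun S => by
      rw [h4, div_le_iff₀ hp]
      exact (f.le_of_opNorm_le h2 S).trans_eq (by ring))
    (by rw [_root_.smul_apply, smul_eq_mul]; exact inv_mul_cancel₀ (norm_pos_iff.1 hp))
  have := FiniteDimensional.proper_rclike 𝕜 (G →L[𝕜] G)
  have hcl : ∀ N, IsClosed (closure (Fac 𝕜 G E N) ∩ {S | 2 / C ≤ ‖((f 1)⁻¹ • f) S‖}) := fun N =>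
    isClosed_closure.inter (isClosed_le continuous_const (by fun_prop))
  obtain ⟨S, hS⟩ := IsCompact.nonempty_iInter_of_sequence_nonempty_isCompact_isClosed
    (fun N => closure (Fac 𝕜 G E N) ∩ {S | 2 / C ≤ ‖((f 1)⁻¹ • f) S‖})
    (fun N => Set.inter_subset_inter_left _ (closure_mono (fac_anti N.le_succ)))
    (fun N => by
      obtain ⟨S, h5, h6⟩ := hN N
      exact ⟨S, subset_closure h5, h6.le⟩)
    ((isCompact_closedBall 0 1).of_isClosed_subset (hcl 0) (Set.inter_subset_left.trans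
      (closure_minimal (fun S hS => mem_closedBall_zero_iff.2 (fac_norm hS))
        Metric.isClosed_closedBall))) hcl
  rw [Set.mem_iInter] at hS
  have h5 : 2 / C ≤ ‖((f 1)⁻¹ • f) S‖ := (hS 0).2
  rw [h4, div_le_div_iff₀ hC hp] at h5
  linarith [h3 S fun N => (hS N).1]

end Pool.Agent.P.MP_6b6f2e_an.L2
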