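import Pool.Agent.P.MP_6b6f2e_an.L2Av

set_option autoImplicit false
set_option linter.unusedSectionVars false

namespace Pool.Agent.P.MP_6b6f2e_an.L2

open Finset
open scoped BigOperators

variable {𝕜 : Type} [RCLike 𝕜] {F F' : Type} [NormedAddCommGroup F] [NormedSpace 𝕜 F]
  [NormedAddCommGroup F'] [NormedSpace 𝕜 F'] [NormedSpace ℝ F'] [IsScalarTower ℝ 𝕜 F']

/-- The function on `J → R` equal to `a • y j` where the `j`-th coordinate is `r`. -/
noncomputable def spike (𝕜 : Type) [RCLike 𝕜] {P : Type} [NormedAddCommGroup P] [NormedSpace 𝕜 P]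
    {J R : Type} [DecidableEq R] (a : ℝ) (y : J → P) (s : J × R) : PiLp 2 (fun _ : J → R => P) :=
  WithLp.toLp 2 fun ω => if ω s.1 = s.2 then (a : 𝕜) • y s.1 else 0

theorem sum_spike {P : Type} [NormedAddCommGroup P] [NormedSpace 𝕜 P] {J R : Type} [Fintype J]
    [Fintype R] [DecidableEq R] (a : ℝ) (y : J → P) (c : J × R → 𝕜) (ω : J → R) :
    (∑ s, c s • spike 𝕜 a y s) ω = (a : 𝕜) • ∑ j, c (j, ω j) • y j := by
  rw [pi_sum_apply, Fintype.sum_prod_type, smul_sum]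
  refine sum_congr rfl fun j _ => ?_
  simp only [PiLp.smul_apply, spike, smul_ite, smul_zero, sum_ite_eq, mem_univ, if_true]
  exact smul_comm _ _ _

theorem target {B : F →ₗ[𝕜] F' →ₗ[𝕜] 𝕜} (hB : Pair B) {J : Type} [Fintype J] [DecidableEq J]
    {ξ : J → F'} {ε : ℝ} (hε : 0 < ε) (h : rad ξ ≤ ε ^ 2 * ∑ j, ‖ξ j‖ ^ 2)
    (h0 : 0 < ∑ j, ‖ξ j‖ ^ 2) {N : ℕ} (hN : 0 < N) :
    ∃ (Ω : Type) (_ : Fintype Ω) (z : J × Fin N → PiLp 2 (fun _ : Ω => F))
      (g : J × Fin N → PiLp 2 (fun _ : Ω => F')), Tgt (piB B Ω) z g N ε := by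
  have : Nonempty (Fin N) := ⟨⟨0, hN⟩⟩
  have hN' : (0 : ℝ) < N := by exact_mod_cast hN
  have hΩ : (0 : ℝ) < Fintype.card (J → Fin N) := by exact_mod_cast Fintype.card_pos
  obtain ⟨a, ha⟩ : ∃ a : ℝ, a ^ 2 * Fintype.card (J → Fin N) = N :=
    ⟨√(N / Fintype.card (J → Fin N)), by
      rw [Real.sq_sqrt (by positivity), div_mul_cancel₀ _ hΩ.ne']⟩
  have hE : ∀ f : (J → Fin N) → ℝ, a ^ 2 * ∑ ω, f ω = N * 𝔼 ω, f ω := fun f => by
    rw [← Fintype.card_mul_expect, ← mul_assoc, ha]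
  have hcount : ∀ (s : J × Fin N) (t : ℝ),
      ∑ ω : J → Fin N, (if ω s.1 = s.2 then a ^ 2 * t else 0) = t := fun s t => by
    have h1 := hE fun ω => if ω s.1 = s.2 then t else 0
    rw [expect_eval s.1 fun r => if r = s.2 then t else 0, Fintype.expect_eq_sum_div_card,
      sum_ite_eq', if_pos (mem_univ _), Fintype.card_fin, mul_div_cancel₀ _ hN'.ne', mul_sum] at h1
    simpa only [mul_ite, mul_zero] using h1
  choose e he1 he2 using fun j => hB.right (ξ j)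
  set q := ∑ j, ‖ξ j‖ ^ 2 with hq
  let w : J × Fin N → ℝ := fun s => ‖ξ s.1‖ / (N * q)
  have hw : ∀ s, 0 ≤ w s := fun s => by positivity
  have hw1 : ∑ s, w s * ‖ξ s.1‖ = 1 := by
    simp only [w, Fintype.sum_prod_type, sum_const, card_univ, Fintype.card_fin, nsmul_eq_mul,
      div_mul_eq_mul_div, ← sq, ← mul_sum, ← sum_div, ← hq]
    field_simp
  have hw2 : ∑ s, w s ^ 2 = 1 / (N * q) := by
    simp only [w, Fintype.sum_prod_type, sum_const, card_univ, Fintype.card_fin, nsmul_eq_mul,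
      div_pow, ← mul_sum, ← sum_div, ← hq]
    field_simp
  refine ⟨J → Fin N, inferInstance, spike 𝕜 a e, fun s => (w s : 𝕜) • spike 𝕜 a ξ s,
    ?_, ?_, fun c => ?_, fun I _ β hβ => ?_⟩
  · have h1 : ∀ s, piB B (J → Fin N) (spike 𝕜 a e s) ((w s : 𝕜) • spike 𝕜 a ξ s) =
        ((w s * ‖ξ s.1‖ : ℝ) : 𝕜) := fun s => by
      rw [map_smul, smul_eq_mul, RCLike.ofReal_mul, piB_apply, ← hcount s ‖ξ s.1‖,
        RCLike.ofReal_sum]
      congr 1
      refine sum_congr rfl fun ω _ => ?_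
      simp only [spike]
      split_ifs
      · simp only [map_smul, LinearMap.smul_apply, he2, smul_eq_mul]
        push_cast
        ring
      · simp
    simp only [h1]
    rw [← RCLike.ofReal_sum, hw1, RCLike.ofReal_one]
  · refine le_of_eq (Eq.trans (sum_congr rfl fun s _ => ?_) hw1)
    rw [norm_smul, RCLike.norm_ofReal, abs_of_nonneg (hw s)]
    congr 1
    refine (sq_eq_sq₀ (norm_nonneg _) (norm_nonneg _)).1 ?_
    rw [PiLp.norm_sq_eq_of_L2, ← hcount s (‖ξ s.1‖ ^ 2)]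
    refine sum_congr rfl fun ω _ => ?_
    simp only [spike]
    split_ifs
    · rw [norm_smul, RCLike.norm_ofReal, mul_pow, sq_abs]
    · simp
  · rw [PiLp.norm_sq_eq_of_L2]
    have h1 : ∀ ω : J → Fin N, ‖(∑ s, c s • spike 𝕜 a e s) ω‖ ^ 2 ≤
        a ^ 2 * (∑ j, ‖c (j, ω j)‖) ^ 2 := fun ω => by
      rw [sum_spike, norm_smul, RCLike.norm_ofReal, mul_pow, sq_abs]
      refine mul_le_mul_of_nonneg_left (pow_le_pow_left₀ (norm_nonneg _) ?_ 2) (sq_nonneg _)
      refine (norm_sum_le _ _).trans (sum_le_sum fun j _ => ?_)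
      rw [norm_smul]
      exact mul_le_of_le_one_right (norm_nonneg _) (he1 j)
    refine (sum_le_sum fun ω _ => h1 ω).trans ?_
    rw [← mul_sum, hE]
    refine (mul_le_mul_of_nonneg_left (expect_sum_sq_le fun j r => ‖c (j, r)‖) hN'.le).trans
      (le_of_eq ?_)
    simp only [Fintype.expect_eq_sum_div_card, Fintype.card_fin, ← sum_div, Fintype.sum_prod_type]
    field_simp
    ring
  · have h1 : ∀ s, √(∑ j, ‖β j ((w s : 𝕜) • spike 𝕜 a ξ s)‖ ^ 2) =
        w s * √(∑ j, ‖β j (spike 𝕜 a ξ s)‖ ^ 2) := fun s => by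
      simp only [map_smul, norm_smul, RCLike.norm_ofReal, mul_pow, sq_abs, ← mul_sum]
      rw [Real.sqrt_mul (sq_nonneg _), Real.sqrt_sq (hw s)]
    have h2 : ∑ s : J × Fin N, ∑ j, ‖β j (spike 𝕜 a ξ s)‖ ^ 2 ≤ N * rad ξ := by
      rw [sum_comm]
      simp only [← expect_sign_sq (𝕜 := 𝕜) fun s => β _ (spike 𝕜 a ξ s)]
      rw [← expect_sum_comm]
      have h3 : ∀ θ : J × Fin N → Bool, ∑ j, ‖∑ s, (sn (θ s) : 𝕜) • β j (spike 𝕜 a ξ s)‖ ^ 2 ≤
          ∑ ω : J → Fin N, a ^ 2 * ‖∑ j, sn (θ (j, ω j)) • ξ j‖ ^ 2 := fun θ => by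
        simp only [← map_smul, ← map_sum]
        refine (hβ _).trans (le_of_eq ?_)
        rw [PiLp.norm_sq_eq_of_L2]
        refine sum_congr rfl fun ω _ => ?_
        rw [sum_spike, norm_smul, RCLike.norm_ofReal, mul_pow, sq_abs]
        simp only [RCLike.real_smul_eq_coe_smul (K := 𝕜)]
      refine (expect_le_expect fun θ _ => h3 θ).trans (le_of_eq ?_)
      have h4 : ∀ ω : J → Fin N, 𝔼 θ : J × Fin N → Bool,
          a ^ 2 * ‖∑ j, sn (θ (j, ω j)) • ξ j‖ ^ 2 = a ^ 2 * rad ξ := fun ω => by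
        rw [← mul_expect, expect_comp_inj (e := fun j => (j, ω j))
          (fun j j' hh => congrArg Prod.fst hh) fun σ => ‖∑ j, sn (σ j) • ξ j‖ ^ 2, rad]
      rw [expect_sum_comm]
      simp only [h4, sum_const, card_univ, nsmul_eq_mul]
      rw [← ha]
      ring
    simp only [h1]
    refine (abs_le_of_sq_le_sq' ((sum_mul_sq_le_sq_mul_sq _ _ _).trans ?_) hε.le).2
    rw [hw2, sum_congr rfl fun s _ => Real.sq_sqrt (by positivity), one_div,
      inv_mul_le_iff₀ (by positivity)]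
    refine h2.trans ((mul_le_mul_of_nonneg_left h hN'.le).trans (le_of_eq (by ring)))

end Pool.Agent.P.MP_6b6f2e_an.L2
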