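import Pool.Agent.P.MP_6b6f2e_an.L2Source
import Pool.Agent.P.MP_6b6f2e_an.L2Target

set_option autoImplicit false
set_option linter.unusedSectionVars false

namespace Pool.Agent.P.MP_6b6f2e_an.L2

open Finset
open scoped BigOperators

variable {𝕜 : Type} [RCLike 𝕜]

section one

variable {F F' G G' : Type} [NormedAddCommGroup F] [NormedSpace 𝕜 F]
  [NormedAddCommGroup F'] [NormedSpace 𝕜 F'] [NormedAddCommGroup G] [NormedSpace 𝕜 G]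
  [NormedAddCommGroup G'] [NormedSpace 𝕜 G'] {S : Type} [Fintype S] [DecidableEq S]

theorem Tgt.sub {B₂ : G →ₗ[𝕜] G' →ₗ[𝕜] 𝕜} (hB₂ : ∀ y v, ‖B₂ y v‖ ≤ ‖y‖ * ‖v‖) {z : S → G}
    {g : S → G'} {N ε : ℝ} (ht : Tgt B₂ z g N ε) (A : Finset S) (c : S → 𝕜) (v : G') :
    ‖∑ s ∈ A, c s * B₂ (z s) v‖ ^ 2 ≤
      (∑ s ∈ A, ‖c s‖ ^ 2 + (∑ s ∈ A, ‖c s‖) ^ 2 / N) * ‖v‖ ^ 2 := by
  have h1 := ht.up fun s => if s ∈ A then c s else 0
  simp only [ite_smul, zero_smul, apply_ite norm, norm_zero, ite_pow, zero_pow two_ne_zero,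
    sum_ite_mem, univ_inter] at h1
  have h2 := pow_le_pow_left₀ (norm_nonneg _) (hB₂ (∑ s ∈ A, c s • z s) v) 2
  rw [mul_pow] at h2
  simp only [map_sum, map_smul, LinearMap.sum_apply, LinearMap.smul_apply, smul_eq_mul] at h2
  exact h2.trans (mul_le_mul_of_nonneg_right h1 (sq_nonneg _))

theorem isGad_of {B₁ : F →ₗ[𝕜] F' →ₗ[𝕜] 𝕜} {B₂ : G →ₗ[𝕜] G' →ₗ[𝕜] 𝕜}
    (hB₂ : ∀ y v, ‖B₂ y v‖ ≤ ‖y‖ * ‖v‖) {h : S → F'} {x : S → F} {z : S → G} {g : S → G'}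
    {β τ N ε η k : ℝ} {D : ℕ} (hs : Src B₁ h x β τ) (ht : Tgt B₂ z g N ε) (hβ : 0 < β)
    (hN : 0 < N) (hτ : 0 ≤ τ) (hη : 0 ≤ η) (hk : (Fintype.card S : ℝ) ≤ k * N)
    (h1 : 16 ≤ N * β ^ 2) (h2 : 2 * D ≤ N * β ^ 2) (h3 : 4 * k * τ ≤ 1)
    (h4 : τ * (1 + k) ≤ η ^ 2) : IsGad B₁ B₂ h x z g (2 * ε) D η := by
  have flat1 : ∀ (u : F) (A : Finset S), (∀ s ∈ A, ‖B₁ u (h s)‖ ≤ β * ‖u‖) →
      (∑ s ∈ A, ‖B₁ u (h s)‖) ^ 2 ≤ k * N * (τ * ‖u‖ ^ 2) := fun u A hA =>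
    sq_sum_le_card_mul_sum_sq.trans (mul_le_mul
      (le_trans (by exact_mod_cast card_le_univ A) hk) (hs.flat u A hA) (by positivity)
      ((Nat.cast_nonneg _).trans hk))
  have sub : ∀ (u : F) (A : Finset S), ∑ s ∈ A, ‖B₁ u (h s)‖ ^ 2 ≤ 2 * ‖u‖ ^ 2 := fun u A =>
    (sum_le_sum_of_subset_of_nonneg (subset_univ _) fun _ _ _ => sq_nonneg _).trans (hs.up u)
  refine ⟨fun u v => ?_, ?_, ?_, fun J _ α γ hα hγ => ?_, fun I _ hI u v => ?_⟩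
  · rcases (norm_nonneg u).eq_or_lt with h0 | h0
    · simp [norm_eq_zero.1 h0.symm]
    refine (abs_le_of_sq_le_sq' ((ht.sub hB₂ univ _ v).trans ?_) (by positivity)).2
    let A := univ.filter fun s => ‖B₁ u (h s)‖ ≤ β * ‖u‖
    have a1 := flat1 u A fun s hs => (mem_filter.1 hs).2
    have a2 : β * ∑ s ∈ Aᶜ, ‖B₁ u (h s)‖ ≤ 2 * ‖u‖ := by
      refine le_of_mul_le_mul_left (le_trans ?_ ((sub u Aᶜ).trans (le_of_eq (by ring)))) h0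
      rw [← mul_assoc, mul_sum]
      refine sum_le_sum fun s hs => ?_
      have : ¬ ‖B₁ u (h s)‖ ≤ β * ‖u‖ := fun hh => mem_compl.1 hs (mem_filter.2 ⟨mem_univ _, hh⟩)
      rw [sq, mul_comm ‖u‖]
      exact mul_le_mul_of_nonneg_right (not_le.1 this).le (norm_nonneg _)
    have a3 : (∑ s ∈ Aᶜ, ‖B₁ u (h s)‖) ^ 2 * 4 ≤ N * ‖u‖ ^ 2 := by
      have := pow_le_pow_left₀ (by positivity) a2 2
      refine le_of_mul_le_mul_left ?_ (sq_pos_of_pos hβ)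
      nlinarith [mul_le_mul_of_nonneg_right h1 (sq_nonneg ‖u‖)]
    have a4 : (∑ s, ‖B₁ u (h s)‖) ^ 2 / N ≤ ‖u‖ ^ 2 := by
      rw [div_le_iff₀ hN, ← sum_add_sum_compl A]
      nlinarith [mul_le_mul_of_nonneg_right h3 (by positivity : 0 ≤ N * ‖u‖ ^ 2),
        sq_nonneg (∑ s ∈ A, ‖B₁ u (h s)‖ - ∑ s ∈ Aᶜ, ‖B₁ u (h s)‖)]
    nlinarith [mul_le_mul_of_nonneg_right (add_le_add (hs.up u) a4) (sq_nonneg ‖v‖),
      mul_nonneg (sq_nonneg ‖u‖) (sq_nonneg ‖v‖)]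
  · refine (sum_le_sum fun s _ => mul_le_mul_of_nonneg_right (hs.xle s) (norm_nonneg _)).trans ?_
    rw [← mul_sum]
    linarith [ht.gle]
  · simpa [hs.bi] using ht.one
  · refine (norm_sum_le _ _).trans (le_trans ?_
      (mul_le_mul_of_nonneg_left (ht.small J γ hγ) zero_le_two))
    rw [mul_sum]
    refine sum_le_sum fun s _ => (norm_sum_le _ _).trans ?_
    simp only [norm_mul]
    refine (Real.sum_mul_le_sqrt_mul_sqrt _ _ _).trans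
      (mul_le_mul_of_nonneg_right ?_ (Real.sqrt_nonneg _))
    exact (Real.sqrt_le_iff.2 ⟨norm_nonneg _, hα _⟩).trans (hs.xle s)
  · classical
    let A := univ.biUnion fun i => univ.filter fun s => β * ‖u i‖ < ‖B₁ (u i) (h s)‖
    have a1 : ∀ i, ((univ.filter fun s => β * ‖u i‖ < ‖B₁ (u i) (h s)‖).card : ℝ) * β ^ 2 ≤ 2 := by
      intro i
      rcases (norm_nonneg (u i)).eq_or_lt with h0 | h0
      · simp [norm_eq_zero.1 h0.symm]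
      refine le_of_mul_le_mul_right (le_trans ?_ (sub (u i)
        (univ.filter fun s => β * ‖u i‖ < ‖B₁ (u i) (h s)‖))) (sq_pos_of_pos h0)
      rw [mul_assoc, ← nsmul_eq_mul, ← mul_pow]
      exact card_nsmul_le_sum _ _ _ fun s hs =>
        pow_le_pow_left₀ (by positivity) (mem_filter.1 hs).2.le 2
    have a2 : (A.card : ℝ) ≤ N := by
      refine le_of_mul_le_mul_right (le_trans ?_ h2) (sq_pos_of_pos hβ)
      have a3 : (A.card : ℝ) ≤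
          ∑ i, ((univ.filter fun s => β * ‖u i‖ < ‖B₁ (u i) (h s)‖).card : ℝ) := by
        exact_mod_cast card_biUnion_le
      refine (mul_le_mul_of_nonneg_right a3 (sq_nonneg _)).trans ?_
      rw [sum_mul]
      refine (sum_le_sum fun i _ => a1 i).trans ?_
      rw [sum_const, card_univ, nsmul_eq_mul, mul_comm]
      exact mul_le_mul_of_nonneg_left (by exact_mod_cast hI) zero_le_two
    refine ⟨A, fun u => sub u A, fun v => ?_, fun i => ?_⟩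
    · have a3 := ht.sub hB₂ A (fun s => starRingEnd 𝕜 (B₂ (z s) v)) v
      simp only [RCLike.conj_mul, RCLike.norm_conj] at a3
      have e : ∑ s ∈ A, ((‖B₂ (z s) v‖ : ℝ) : 𝕜) ^ 2 = ((∑ s ∈ A, ‖B₂ (z s) v‖ ^ 2 : ℝ) : 𝕜) := by
        push_cast; rfl
      rw [e, RCLike.norm_ofReal, sq_abs] at a3
      have a4 : (∑ s ∈ A, ‖B₂ (z s) v‖) ^ 2 / N ≤ ∑ s ∈ A, ‖B₂ (z s) v‖ ^ 2 := by
        rw [div_le_iff₀ hN, mul_comm]
        exact sq_sum_le_card_mul_sum_sq.trans (mul_le_mul_of_nonneg_right a2 (by positivity))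
      refine le_of_sq_le_mul (by positivity) (a3.trans ?_)
      nlinarith [mul_le_mul_of_nonneg_right a4 (sq_nonneg ‖v‖)]
    · have a3 : ∀ s ∈ Aᶜ, ‖B₁ (u i) (h s)‖ ≤ β * ‖u i‖ := fun s hs => not_lt.1 fun hh =>
        mem_compl.1 hs (mem_biUnion.2 ⟨i, mem_univ _, mem_filter.2 ⟨mem_univ _, hh⟩⟩)
      refine (abs_le_of_sq_le_sq' ((ht.sub hB₂ Aᶜ _ _).trans ?_) (by positivity)).2
      have a4 : (∑ s ∈ Aᶜ, ‖B₁ (u i) (h s)‖) ^ 2 / N ≤ k * (τ * ‖u i‖ ^ 2) := by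
        rw [div_le_iff₀ hN]
        exact (flat1 _ _ a3).trans_eq (by ring)
      nlinarith [mul_le_mul_of_nonneg_right (add_le_add (hs.flat _ _ a3) a4) (sq_nonneg ‖v i‖),
        mul_le_mul_of_nonneg_right h4 (mul_nonneg (sq_nonneg ‖u i‖) (sq_nonneg ‖v i‖))]

theorem IsGad.flip {B₁ : F →ₗ[𝕜] F' →ₗ[𝕜] 𝕜} {B₂ : G →ₗ[𝕜] G' →ₗ[𝕜] 𝕜} {h : S → F'}
    {x : S → F} {z : S → G} {g : S → G'} {ε η : ℝ} {D : ℕ} (H : IsGad B₁ B₂ h x z g ε D η) :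
    IsGad B₂.flip B₁.flip z g h x ε D η := by
  refine ⟨fun u v => ?_, ?_, ?_, fun J _ α β hα hβ => ?_, fun I _ hI u v => ?_⟩
  · simpa only [LinearMap.flip_apply, mul_comm] using H.bd v u
  · simpa only [mul_comm] using H.test
  · simpa only [LinearMap.flip_apply, mul_comm] using H.one
  · simpa only [mul_comm] using H.small J β α hβ hα
  · obtain ⟨A, h1, h2, h3⟩ := H.loc I hI v u
    exact ⟨A, h2, h1, fun i => by simpa only [LinearMap.flip_apply, mul_comm] using h3 i⟩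

theorem dual_rep (Ω : Type) [Fintype Ω] :
    ∃ (L : PiLp 2 (fun _ : Ω => F →L[𝕜] 𝕜) →ₗ[𝕜] PiLp 2 (fun _ : Ω => F) →L[𝕜] 𝕜)
      (R : (PiLp 2 (fun _ : Ω => F) →L[𝕜] 𝕜) → PiLp 2 (fun _ : Ω => F →L[𝕜] 𝕜)),
      (∀ ξ y, L ξ y = piB (ev 𝕜 F) Ω y ξ) ∧ (∀ ξ, ‖L ξ‖ ≤ ‖ξ‖) ∧
        (∀ v y, piB (ev 𝕜 F) Ω y (R v) = v y) ∧ ∀ v, ‖R v‖ ≤ ‖v‖ := by
  classical
  have hle : ∀ ξ y, ‖(piB (ev 𝕜 F) Ω).flip ξ y‖ ≤ 1 * ‖ξ‖ * ‖y‖ := fun ξ y => by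
    refine (abs_le_of_sq_le_sq' ?_ (by positivity)).2
    rw [one_mul, mul_pow, PiLp.norm_sq_eq_of_L2, PiLp.norm_sq_eq_of_L2]
    refine le_trans (pow_le_pow_left₀ (norm_nonneg _) ?_ 2) (sum_mul_sq_le_sq_mul_sq _ _ _)
    exact (norm_sum_le _ _).trans (sum_le_sum fun ω _ => (ξ ω).le_opNorm _)
  let j : Ω → F →L[𝕜] PiLp 2 (fun _ : Ω => F) := fun ω =>
    (PiLp.continuousLinearEquiv 2 𝕜 fun _ : Ω => F).symm.toContinuousLinearMap ∘L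
      ContinuousLinearMap.single 𝕜 (fun _ : Ω => F) ω
  have hj : ∀ y : Ω → F, ∑ ω, j ω (y ω) = WithLp.toLp 2 y := fun y => by
    ext ω
    simp [j]
  refine ⟨((piB (ev 𝕜 F) Ω).flip.mkContinuous₂ 1 hle).toLinearMap,
    fun v => WithLp.toLp 2 fun ω => v ∘L j ω, fun _ _ => rfl, fun ξ => ?_, fun v y => ?_,
    fun v => ?_⟩
  · exact ContinuousLinearMap.opNorm_le_bound _ (norm_nonneg _) fun y =>
      (hle ξ y).trans_eq (by rw [one_mul])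
  · simp only [piB_apply, ev_apply, ContinuousLinearMap.comp_apply, ← map_sum, hj]
  · refine (abs_le_of_sq_le_sq' ?_ (norm_nonneg _)).2
    rw [PiLp.norm_sq_eq_of_L2]
    refine sum_norm_sq_le univ (fun ω => v ∘L j ω) (sq_nonneg _) fun y => ?_
    simp only [ContinuousLinearMap.comp_apply, ← map_sum, hj]
    refine (pow_le_pow_left₀ (norm_nonneg _) (v.le_opNorm _) 2).trans_eq ?_
    rw [mul_pow, PiLp.norm_sq_eq_of_L2]

theorem IsGad.toDual {Ω₁ Ω₂ : Type} [Fintype Ω₁] [Fintype Ω₂]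
    {h : S → PiLp 2 (fun _ : Ω₁ => F →L[𝕜] 𝕜)} {x : S → PiLp 2 (fun _ : Ω₁ => F)}
    {z : S → PiLp 2 (fun _ : Ω₂ => G)} {g : S → PiLp 2 (fun _ : Ω₂ => G →L[𝕜] 𝕜)} {ε η : ℝ}
    {D : ℕ} (hη : 0 ≤ η) (H : IsGad (piB (ev 𝕜 F) Ω₁) (piB (ev 𝕜 G) Ω₂) h x z g ε D η) :
    ∃ h' g', IsGad (ev 𝕜 _) (ev 𝕜 _) h' x z g' ε D η := by
  obtain ⟨L₁, -, a1, -⟩ := dual_rep (𝕜 := 𝕜) (F := F) Ω₁
  obtain ⟨L₂, R, b1, b2, b3, b4⟩ := dual_rep (𝕜 := 𝕜) (F := G) Ω₂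
  refine ⟨fun s => L₁ (h s), fun s => L₂ (g s), fun u v => ?_, ?_, ?_, fun J _ α β hα hβ => ?_,
    fun I _ hI u v => ?_⟩
  · simp only [ev_apply, a1, ← b3 v]
    refine (H.bd u (R v)).trans ?_
    gcongr
    exact b4 v
  · exact (sum_le_sum fun s _ => mul_le_mul_of_nonneg_left (b2 _) (norm_nonneg _)).trans H.test
  · simp only [ev_apply, a1, b1]
    exact H.one
  · exact H.small J α (fun j => β j ∘ₗ L₂) hα fun v =>
      (hβ _).trans (pow_le_pow_left₀ (norm_nonneg _) (b2 v) 2)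
  · obtain ⟨A, h1, h2, h3⟩ := H.loc I hI u fun i => R (v i)
    refine ⟨A, fun u => ?_, fun v => ?_, fun i => ?_⟩
    · simp only [ev_apply, a1]
      exact h1 u
    · simp only [ev_apply, ← b3 v]
      refine (h2 (R v)).trans ?_
      gcongr
      exact b4 v
    · simp only [ev_apply, a1, ← b3 (v i)]
      refine (h3 i).trans ?_
      gcongr
      exact b4 _

end one

theorem exists_gad {F F' : ℕ → Type} [∀ n, NormedAddCommGroup (F n)] [∀ n, NormedSpace 𝕜 (F n)]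
    [∀ n, NormedAddCommGroup (F' n)] [∀ n, NormedSpace 𝕜 (F' n)] [∀ n, NormedSpace ℝ (F' n)]
    [∀ n, IsScalarTower ℝ 𝕜 (F' n)] (B : ∀ n, F n →ₗ[𝕜] F' n →ₗ[𝕜] 𝕜) (hB : ∀ n, Pair (B n))
    (hF : ∀ C, ∃ n, ¬ IsGC (F' n) C) {ε η : ℝ} (hε : 0 < ε) (hη : 0 < η) (D : ℕ) :
    ∃ (n₁ n₂ : ℕ) (Ω₁ Ω₂ S : Type) (_ : Fintype Ω₁) (_ : Fintype Ω₂) (_ : Fintype S)
      (_ : DecidableEq S) (h : S → _) (x : S → _) (z : S → _) (g : S → _),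
      IsGad (piB (B n₁) Ω₁) (piB (B n₂) Ω₂) h x z g ε D η := by
  simp only [IsGC, not_forall, not_le] at hF
  obtain ⟨n₂, J, _, _, ξ, Γ, hΓ, hlt⟩ := hF (1 / (ε / 2) ^ 2)
  have hq : 0 < ∑ j, ‖ξ j‖ ^ 2 := (mul_nonneg (by positivity) hΓ.nonneg).trans_lt hlt
  rw [one_div, inv_mul_lt_iff₀ (by positivity)] at hlt
  set k : ℝ := (Fintype.card J : ℝ) with hk
  have hk0 : 0 ≤ k := Nat.cast_nonneg _
  obtain ⟨θ, hθ, h3, h4⟩ : ∃ θ : ℝ, 0 < θ ∧ 4 * k * (2 * θ) ≤ 1 ∧ 2 * θ * (1 + k) ≤ η ^ 2 := by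
    refine ⟨min (1 / (8 * (1 + k))) (η ^ 2 / (2 * (1 + k))), by positivity, ?_, ?_⟩
    · have := (le_div_iff₀ (by positivity)).1
        (min_le_left (1 / (8 * (1 + k))) (η ^ 2 / (2 * (1 + k))))
      nlinarith [lt_min (by positivity : 0 < 1 / (8 * (1 + k)))
        (by positivity : 0 < η ^ 2 / (2 * (1 + k)))]
    · have := (le_div_iff₀ (by positivity)).1
        (min_le_right (1 / (8 * (1 + k))) (η ^ 2 / (2 * (1 + k))))
      linarith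
  obtain ⟨n₁, J', _, _, ξ', Γ', hΓ', hlt'⟩ := hF (3 / θ ^ 2)
  obtain ⟨β, hβ, H⟩ := source (hB n₁) hΓ' hlt' hθ (div_mul_cancel₀ _ (by positivity)).ge
  obtain ⟨N, hN⟩ := exists_nat_gt ((16 + 2 * D) / β ^ 2)
  have hN0 : (0 : ℝ) < N := lt_trans (by positivity) hN
  rw [div_lt_iff₀ (by positivity)] at hN
  obtain ⟨Ω₂, _, z, g, ht⟩ := target (hB n₂) (half_pos hε) (hΓ.rad_le.trans hlt.le) hq
    (N := N) (by exact_mod_cast hN0)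
  obtain ⟨Ω₁, _, h, x, hs⟩ := H (J × Fin N)
  have hD : (0 : ℝ) ≤ D := Nat.cast_nonneg _
  have := isGad_of ((hB n₂).piB_le Ω₂) hs ht hβ hN0 (by positivity) hη.le (k := k) (D := D)
    (by simp [hk]) (by linarith) (by linarith) h3 h4
  rw [mul_div_cancel₀ _ two_ne_zero] at this
  exact ⟨n₁, n₂, Ω₁, Ω₂, _, _, _, _, _, h, x, z, g, this⟩

end Pool.Agent.P.MP_6b6f2e_an.L2
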