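import Pool.Agent.P.MP_6b6f2e_an.L2Av

set_option autoImplicit false
set_option linter.unusedSectionVars false

namespace Pool.Agent.P.MP_6b6f2e_an.L2

open Finset
open scoped BigOperators

variable {ι : Type} [Fintype ι] [DecidableEq ι] {Y : Type} [NormedAddCommGroup Y] [NormedSpace ℝ Y]

theorem markov_le {Ω : Type} [Fintype Ω] (p : Ω → Ω → ℝ) (h0 : ∀ a b, 0 ≤ p a b)
    (h1 : ∀ a, ∑ b, p a b = 1) (h2 : ∀ b, ∑ a, p a b = 1) (Φ : Ω → Y) :
    ∑ a, ‖∑ b, p a b • Φ b‖ ^ 2 ≤ ∑ b, ‖Φ b‖ ^ 2 := by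
  have h : ∀ a, ‖∑ b, p a b • Φ b‖ ^ 2 ≤ ∑ b, p a b * ‖Φ b‖ ^ 2 := fun a => by
    refine le_trans (pow_le_pow_left₀ (norm_nonneg _) ?_ 2) (Real.pow_arith_mean_le_arith_mean_pow
      univ (p a) (fun b => ‖Φ b‖) (fun b _ => h0 a b) (h1 a) (fun _ _ => norm_nonneg _) 2)
    refine (norm_sum_le _ _).trans (le_of_eq (sum_congr rfl fun b _ => ?_))
    rw [norm_smul, Real.norm_of_nonneg (h0 a b)]
  refine (sum_le_sum fun a _ => h a).trans (le_of_eq ?_)
  rw [sum_comm]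
  simp only [← sum_mul, h2, one_mul]

theorem sum_riesz (c : ι → ℝ) :
    ∑ σ : ι → Bool, ∏ i, (1 + c i * sn (σ i)) = Fintype.card (ι → Bool) := by
  rw [← Fintype.prod_sum fun i b => 1 + c i * sn b]
  have : ∀ i, ∑ b, (1 + c i * sn b) = 2 := fun i => by simp [sn]; ring
  simp only [this]
  simp

/-- The Walsh functions. -/
def wal (S : Finset ι) (σ : ι → Bool) : ℝ := ∏ i ∈ S, sn (σ i)

theorem riesz_expand (c : ι → ℝ) (σ τ : ι → Bool) :
    ∏ i, (1 + c i * sn (σ i) * sn (τ i)) = ∑ S, (∏ i ∈ S, c i) * wal S σ * wal S τ := by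
  rw [prod_one_add, powerset_univ]
  simp only [prod_mul_distrib, wal]

theorem isC_wal : IsC (fun (S : Finset ι) σ => wal S σ) (Fintype.card (ι → Bool)) := by
  intro v
  have h : ∀ σ τ : ι → Bool, ∑ S, wal S σ * wal S τ =
      if σ = τ then (Fintype.card (ι → Bool) : ℝ) else 0 := fun σ τ => by
    have h1 := riesz_expand (fun _ => 1) σ τ
    simp only [prod_const_one, one_mul] at h1
    rw [← h1]
    split_ifs with hh
    · subst hh
      simp [sn_mul_self, one_add_one_eq_two]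
    · obtain ⟨i, hi⟩ := Function.ne_iff.1 hh
      refine prod_eq_zero (mem_univ i) ?_
      revert hi
      cases σ i <;> cases τ i <;> simp [sn]
  refine le_of_eq ?_
  calc ∑ S : Finset ι, (∑ σ, wal S σ * v σ) ^ 2
      = ∑ σ, ∑ τ, (∑ S, wal S σ * wal S τ) * (v σ * v τ) := by
        simp only [sq, sum_mul_sum]
        simp only [sum_mul]
        rw [sum_comm]
        refine sum_congr rfl fun σ _ => ?_
        rw [sum_comm]
        exact sum_congr rfl fun _ _ => sum_congr rfl fun _ _ => by ring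
    _ = _ := by simp [h, mul_sum, sq]

theorem isC_mult (d : Finset ι → ℝ) {lam : ℝ} (hd : ∀ S, d S ^ 2 ≤ lam) :
    IsC (fun σ τ => (∑ S, d S * wal S σ * wal S τ) / Fintype.card (ι → Bool)) lam := by
  intro v
  have hN := card_signs_pos (ι := ι)
  have hl : 0 ≤ lam := (sq_nonneg _).trans (hd ∅)
  have h1 := isC_wal.transpose hN.le fun S : Finset ι => d S * ∑ τ, wal S τ * v τ
  have h2 : ∑ S : Finset ι, (d S * ∑ τ, wal S τ * v τ) ^ 2 ≤
      lam * (Fintype.card (ι → Bool) * ∑ τ, v τ ^ 2) := by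
    refine le_trans ?_ (mul_le_mul_of_nonneg_left (isC_wal v) hl)
    rw [mul_sum]
    exact sum_le_sum fun S _ => by
      rw [mul_pow]; exact mul_le_mul_of_nonneg_right (hd S) (sq_nonneg _)
  have h3 : ∀ σ, ∑ τ, (∑ S, d S * wal S σ * wal S τ) / Fintype.card (ι → Bool) * v τ =
      (∑ S, wal S σ * (d S * ∑ τ, wal S τ * v τ)) / Fintype.card (ι → Bool) := fun σ => by
    simp only [div_mul_eq_mul_div, ← sum_div, sum_mul, mul_sum]
    rw [sum_comm]
    congr 1
    exact sum_congr rfl fun _ _ => sum_congr rfl fun _ _ => by ring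
  simp only [h3, div_pow, ← sum_div]
  rw [div_le_iff₀ (by positivity)]
  nlinarith [mul_le_mul_of_nonneg_left h2 hN.le]

/-- The first order Fourier coefficients of `Φ`. -/
noncomputable def fc (Φ : (ι → Bool) → Y) (i : ι) : Y :=
  ∑ τ, (sn (τ i) / Fintype.card (ι → Bool)) • Φ τ

theorem sum_smul_fc (Φ : (ι → Bool) → Y) (a : ι → ℝ) :
    ∑ i, a i • fc Φ i = ∑ τ, ((∑ i, a i * sn (τ i)) / Fintype.card (ι → Bool)) • Φ τ := by
  simp only [fc, smul_sum, smul_smul, sum_div, sum_smul, mul_div_assoc]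
  exact sum_comm

theorem rad_noise {K r : ℝ} (h : IsK Y K) (hr : 0 < r) (hr1 : r ≤ 1) (c : ι → ℝ)
    (hc : ∀ i, |c i| ≤ r) (Φ : (ι → Bool) → Y) :
    rad (fun i => c i • fc Φ i) ≤ 3 * (2 + K * r ^ 4) * 𝔼 τ, ‖Φ τ‖ ^ 2 := by
  have hN := card_signs_pos (ι := ι)
  let d : Finset ι → ℝ := fun S =>
    ∏ i ∈ S, c i - (if S = ∅ then 1 else 0) - ∑ i, if S = {i} then c i else 0
  have hd : ∀ S, d S ^ 2 ≤ r ^ 4 := fun S => by
    rcases S.eq_empty_or_nonempty with rfl | hS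
    · simp [d, (singleton_ne_empty _).symm, hr.le]
    by_cases h1 : ∃ i, S = {i}
    · obtain ⟨i, rfl⟩ := h1
      simp [d, hr.le]
    · have h2 : 2 ≤ S.card := by
        have := hS.card_pos
        have := mt card_eq_one.1 h1
        omega
      simp only [not_exists] at h1
      simp only [d, if_neg hS.ne_empty, if_neg (h1 _), sum_const_zero, sub_zero]
      rw [← sq_abs, show r ^ 4 = (r ^ 2) ^ 2 by ring, abs_prod]
      refine pow_le_pow_left₀ (by positivity) ?_ 2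
      refine (prod_le_prod (fun _ _ => abs_nonneg _) fun i _ => hc i).trans ?_
      rw [prod_const]
      exact pow_le_pow_of_le_one hr.le hr1 h2
  have he : ∀ σ τ : ι → Bool, ∑ i, sn (σ i) * c i * sn (τ i) =
      ∏ i, (1 + c i * sn (σ i) * sn (τ i)) - 1 - ∑ S, d S * wal S σ * wal S τ := fun σ τ => by
    simp only [riesz_expand, d, sub_mul, sum_sub_distrib, sum_mul, ite_mul, zero_mul, sum_ite_eq',
      mem_univ, if_true]
    rw [sum_comm]
    simp only [sum_ite_eq', mem_univ, if_true, wal, prod_empty, prod_singleton, mul_comm (c _)]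
    ring
  have hpos : ∀ (σ τ : ι → Bool) i, 0 ≤ 1 + c i * sn (σ i) * sn (τ i) := fun σ τ i => by
    have : |c i * sn (σ i) * sn (τ i)| ≤ 1 := by
      rw [abs_mul, abs_mul, abs_sn, abs_sn, mul_one, mul_one]; exact (hc i).trans hr1
    linarith [neg_abs_le (c i * sn (σ i) * sn (τ i))]
  have a1 := markov_le (fun σ τ : ι → Bool => (∏ i, (1 + c i * sn (σ i) * sn (τ i))) /
      Fintype.card (ι → Bool)) (fun σ τ => div_nonneg (prod_nonneg fun i _ => hpos σ τ i) hN.le)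
    (fun σ => by rw [← sum_div, sum_riesz, div_self hN.ne'])
    (fun τ => by
      simp only [mul_right_comm (c _)]
      rw [← sum_div, sum_riesz, div_self hN.ne']) Φ
  have hone : ∑ _σ : ι → Bool, (1 : ℝ) / Fintype.card (ι → Bool) = 1 := by
    rw [sum_const, card_univ, nsmul_eq_mul, mul_one_div_cancel hN.ne']
  have a2 := markov_le (fun _ _ : ι → Bool => (1 : ℝ) / Fintype.card (ι → Bool))
    (fun _ _ => by positivity) (fun _ => hone) (fun _ => hone) Φ
  have a3 := h.scale (by positivity) (isC_mult d hd) Φ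
  rw [rad, Fintype.expect_eq_sum_div_card, Fintype.expect_eq_sum_div_card, ← mul_div_assoc]
  refine div_le_div_of_nonneg_right ?_ hN.le
  have key : ∀ σ : ι → Bool, ‖∑ i, sn (σ i) • c i • fc Φ i‖ ^ 2 ≤
      3 * (‖∑ τ, ((∏ i, (1 + c i * sn (σ i) * sn (τ i))) / Fintype.card (ι → Bool)) • Φ τ‖ ^ 2 +
      ‖∑ τ, ((1 : ℝ) / Fintype.card (ι → Bool)) • Φ τ‖ ^ 2 +
      ‖∑ τ, ((∑ S, d S * wal S σ * wal S τ) / Fintype.card (ι → Bool)) • Φ τ‖ ^ 2) := fun σ => by
    simp only [smul_smul, sum_smul_fc, he, sub_div, sub_smul, sum_sub_distrib]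
    set x := ∑ τ, ((∏ i, (1 + c i * sn (σ i) * sn (τ i))) / Fintype.card (ι → Bool)) • Φ τ
    set y := ∑ τ, ((1 : ℝ) / Fintype.card (ι → Bool)) • Φ τ
    set z := ∑ τ, ((∑ S, d S * wal S σ * wal S τ) / Fintype.card (ι → Bool)) • Φ τ
    have h4 : ‖x - y - z‖ ≤ ‖x‖ + ‖y‖ + ‖z‖ :=
      (norm_sub_le _ _).trans (add_le_add_left (norm_sub_le _ _) _)
    nlinarith [pow_le_pow_left₀ (norm_nonneg _) h4 2, sq_nonneg (‖x‖ - ‖y‖),
      sq_nonneg (‖x‖ - ‖z‖), sq_nonneg (‖y‖ - ‖z‖)]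
  refine (sum_le_sum fun σ _ => key σ).trans ?_
  rw [← mul_sum, sum_add_distrib, sum_add_distrib]
  linarith

section split

variable {L : Type} [Fintype L] [DecidableEq L] (I : L → ι) (b : L → ℝ)

/-- The Rademacher sum over one fibre. -/
def gam (θ : L → Bool) (i : ι) : ℝ := ∑ t ∈ univ.filter (fun t => I t = i), sn (θ t) * b t

theorem expect_sym {ψ : ℝ → ℝ} (hψ : ∀ a x, ψ (sn a * x) = sn a * ψ x) (G : (ι → ℝ) → ℝ) :
    𝔼 θ, G (fun i => ψ (gam I b θ i)) =
      𝔼 θ, 𝔼 σ : ι → Bool, G (fun i => sn (σ i) * ψ (gam I b θ i)) := by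
  rw [expect_comm, ← Fintype.expect_const (ι := ι → Bool) (𝔼 θ, G fun i => ψ (gam I b θ i))]
  refine expect_congr rfl fun σ _ => ?_
  rw [← expect_flip fun t => σ (I t)]
  refine expect_congr rfl fun θ _ => ?_
  congr 1
  funext i
  rw [← hψ, gam, gam, mul_sum]
  congr 1
  refine sum_congr rfl fun t ht => ?_
  rw [sn_beq, (mem_filter.1 ht).2]
  ring

theorem radBd_fc {K r s : ℝ} (h : IsK Y K) (hr : 0 < r) (hr1 : r ≤ 1) (hs : 0 < s)
    (Φ : (ι → Bool) → Y) : RadBd (fc Φ)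
      ((2 * ((s / r) ^ 2 * (3 * (2 + K * r ^ 4))) + 2 * (K * (3 / s ^ 2))) * 𝔼 τ, ‖Φ τ‖ ^ 2) := by
  intro L _ _ I b hb
  have hN := card_signs_pos (ι := ι)
  have hL := card_signs_pos (ι := L)
  let tr : ℝ → ℝ := fun x => if |x| ≤ s then x else 0
  let tl : ℝ → ℝ := fun x => if |x| ≤ s then 0 else x
  have htr : ∀ a x, tr (sn a * x) = sn a * tr x := fun a x => by
    simp only [tr, abs_mul, abs_sn, one_mul, mul_ite, mul_zero]
  have htl : ∀ a x, tl (sn a * x) = sn a * tl x := fun a x => by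
    simp only [tl, abs_mul, abs_sn, one_mul, mul_ite, mul_zero]
  have e : ∀ θ : L → Bool, ∑ t, sn (θ t) • b t • fc Φ (I t) =
      ∑ i, tr (gam I b θ i) • fc Φ i + ∑ i, tl (gam I b θ i) • fc Φ i := fun θ => by
    rw [← sum_add_distrib, ← sum_fiberwise (s := univ) (g := I)]
    refine sum_congr rfl fun i _ => ?_
    rw [← add_smul, show tr (gam I b θ i) + tl (gam I b θ i) = gam I b θ i by
      simp only [tr, tl]; split_ifs <;> simp, gam, sum_smul]
    exact sum_congr rfl fun t ht => by rw [(mem_filter.1 ht).2, smul_smul]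
  have a1 : 𝔼 θ, ‖∑ i, tr (gam I b θ i) • fc Φ i‖ ^ 2 ≤
      (s / r) ^ 2 * (3 * (2 + K * r ^ 4) * 𝔼 τ, ‖Φ τ‖ ^ 2) := by
    rw [expect_sym I b htr fun a => ‖∑ i, a i • fc Φ i‖ ^ 2]
    refine expect_le univ_nonempty fun θ _ => ?_
    have h1 := rad_noise h hr hr1 (fun i => r / s * tr (gam I b θ i)) (fun i => by
      rw [abs_mul, abs_of_pos (div_pos hr hs), div_mul_eq_mul_div, div_le_iff₀ hs]
      refine mul_le_mul_of_nonneg_left ?_ hr.le
      simp only [tr]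
      split_ifs with hh
      · exact hh
      · simp [hs.le]) Φ
    refine le_trans (le_of_eq ?_) (mul_le_mul_of_nonneg_left h1 (sq_nonneg _))
    rw [rad, mul_expect]
    refine expect_congr rfl fun σ _ => ?_
    rw [← sq_abs (s / r), ← mul_pow, ← Real.norm_eq_abs, ← norm_smul, smul_sum]
    congr 2
    refine sum_congr rfl fun i _ => ?_
    rw [smul_smul, smul_smul]
    congr 1
    field_simp
  have a2 : ∀ i, 𝔼 θ, tl (gam I b θ i) ^ 2 ≤ 3 / s ^ 2 := fun i => by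
    have h1 := (moments (𝕜 := ℝ) b (univ.filter fun t => I t = i)).2
    simp only [RCLike.ofReal_real_eq_id, id, smul_eq_mul, Real.norm_eq_abs, sq_abs,
      (by norm_num : Even 4).pow_abs] at h1
    have h2 : ∀ x, tl x ^ 2 ≤ x ^ 4 / s ^ 2 := fun x => by
      rw [le_div_iff₀ (by positivity)]
      simp only [tl]
      split_ifs with hh
      · simp only [ne_eq, OfNat.ofNat_ne_zero, not_false_eq_true, zero_pow, zero_mul]
        positivity
      · have := pow_le_pow_left₀ hs.le (not_le.1 hh).le 2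
        rw [sq_abs] at this
        nlinarith [sq_nonneg x]
    refine (expect_le_expect fun θ _ => h2 _).trans ?_
    rw [← expect_div, Fintype.expect_eq_sum_div_card]
    refine div_le_div_of_nonneg_right ((div_le_iff₀ hL).2 (h1.trans ?_)) (by positivity)
    refine mul_le_of_le_one_right (by positivity) ?_
    exact pow_le_one₀ (by positivity) (hb i)
  have a3 : IsC (fun (θ : L → Bool) (τ : ι → Bool) =>
      (∑ i, tl (gam I b θ i) * sn (τ i)) / Fintype.card (ι → Bool))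
      (Fintype.card (L → Bool) * (3 / s ^ 2) / Fintype.card (ι → Bool)) := by
    intro v
    have h1 : IsC (fun (τ : ι → Bool) i => sn (τ i)) (Fintype.card (ι → Bool)) := fun u => by
      rw [← expect_sq_sign u, Fintype.card_mul_expect]
    have h2 := h1.transpose hN.le v
    set w : ι → ℝ := fun i => ∑ τ, sn (τ i) * v τ with hw
    have h3 : ∀ θ, ∑ τ, (∑ i, tl (gam I b θ i) * sn (τ i)) / Fintype.card (ι → Bool) * v τ =
        (∑ i, tl (gam I b θ i) * w i) / Fintype.card (ι → Bool) := fun θ => by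
      simp only [hw, div_mul_eq_mul_div, ← sum_div, sum_mul, mul_sum, mul_assoc]
      rw [sum_comm]
    have h4 : 𝔼 θ, (∑ i, tl (gam I b θ i) * w i) ^ 2 ≤ 3 / s ^ 2 * ∑ i, w i ^ 2 := by
      rw [expect_sym I b htl fun a => (∑ i, a i * w i) ^ 2]
      simp only [mul_assoc, expect_sq_sign, mul_pow, expect_sum_comm, ← expect_mul]
      rw [mul_sum]
      exact sum_le_sum fun i _ => mul_le_mul_of_nonneg_right (a2 i) (sq_nonneg _)
    rw [Fintype.expect_eq_sum_div_card, div_le_iff₀ hL] at h4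
    simp only [h3, div_pow, ← sum_div]
    rw [div_le_iff₀ (by positivity)]
    refine h4.trans ?_
    have h5 := mul_le_mul_of_nonneg_left h2
      (by positivity : 0 ≤ 3 / s ^ 2 * Fintype.card (L → Bool))
    refine le_trans (le_of_eq (by ring)) (h5.trans (le_of_eq ?_))
    field_simp
  have a4 : 𝔼 θ, ‖∑ i, tl (gam I b θ i) • fc Φ i‖ ^ 2 ≤ K * (3 / s ^ 2) * 𝔼 τ, ‖Φ τ‖ ^ 2 := by
    simp only [sum_smul_fc, Fintype.expect_eq_sum_div_card]
    rw [div_le_iff₀ hL]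
    refine (h.scale (by positivity) a3 Φ).trans (le_of_eq ?_)
    ring
  have a5 : rad (fun t => b t • fc Φ (I t)) ≤ 2 * (𝔼 θ, ‖∑ i, tr (gam I b θ i) • fc Φ i‖ ^ 2) +
      2 * 𝔼 θ, ‖∑ i, tl (gam I b θ i) • fc Φ i‖ ^ 2 := by
    rw [rad, mul_expect, mul_expect, ← expect_add_distrib]
    refine expect_le_expect fun θ _ => ?_
    rw [e]
    set x := ∑ i, tr (gam I b θ i) • fc Φ i
    set y := ∑ i, tl (gam I b θ i) • fc Φ i
    nlinarith [pow_le_pow_left₀ (norm_nonneg _) (norm_add_le x y) 2, sq_nonneg (‖x‖ - ‖y‖)]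
  linarith

end split

theorem exists_noise {ε : ℝ} (hε : 0 < ε) : ∃ c : ℝ, 0 ≤ c ∧
    ∀ (Y Y' : Type) [NormedAddCommGroup Y] [NormedSpace ℝ Y] [NormedAddCommGroup Y']
      [NormedSpace ℝ Y'] (B : Y →ₗ[ℝ] Y' →ₗ[ℝ] ℝ), Pair B → ∀ K C : ℝ, 0 ≤ K → 0 ≤ C →
        IsK Y' K → IsGC Y' C → IsT Y (C * (c + ε * K)) := by
  obtain ⟨s, hs1, hs2⟩ : ∃ s : ℝ, 1 ≤ s ∧ 12 ≤ ε * s :=
    ⟨12 / ε + 1, by linarith [div_pos (by norm_num : (0 : ℝ) < 12) hε], by
      rw [mul_add, mul_div_cancel₀ _ hε.ne']; linarith⟩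
  have hs : 0 < s := by linarith
  obtain ⟨r, hr, hr1, hr2⟩ : ∃ r : ℝ, 0 < r ∧ r ≤ 1 ∧ r * (12 * s ^ 2) ≤ ε :=
    ⟨min 1 (ε / (12 * s ^ 2)), by positivity, min_le_left _ _,
      (le_div_iff₀ (by positivity)).1 (min_le_right _ _)⟩
  refine ⟨12 * (s / r) ^ 2, by positivity, fun Y Y' _ _ _ _ B hB K C hK hC h1 h2 ι _ _ x => ?_⟩
  have hN := card_signs_pos (ι := ι)
  choose e he1 he2 using fun σ : ι → Bool => hB.left (∑ i, sn (σ i) • x i)
  let Φ : (ι → Bool) → Y' := fun σ => ‖∑ i, sn (σ i) • x i‖ • e σ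
  have hΦ : 𝔼 τ, ‖Φ τ‖ ^ 2 ≤ rad x := expect_le_expect fun σ _ => by
    refine pow_le_pow_left₀ (norm_nonneg _) ?_ 2
    rw [norm_smul, norm_norm]
    exact mul_le_of_le_one_right (norm_nonneg _) (he1 σ)
  have hc : 2 * ((s / r) ^ 2 * (3 * (2 + K * r ^ 4))) + 2 * (K * (3 / s ^ 2)) ≤
      12 * (s / r) ^ 2 + ε * K := by
    have e1 : (s / r) ^ 2 * r ^ 4 = s ^ 2 * r ^ 2 := by field_simp
    have e2 : 3 / s ^ 2 ≤ ε / 4 := by
      rw [div_le_iff₀ (by positivity)]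
      nlinarith
    have e3 : s ^ 2 * r ^ 2 ≤ ε / 12 := by nlinarith [mul_nonneg (sq_nonneg s) hr.le]
    nlinarith [mul_le_mul_of_nonneg_left e2 hK, mul_le_mul_of_nonneg_left e3 hK]
  have h3 := (h2 ι _ _ (radBd_fc h1 hr hr1 hs Φ)).trans (mul_le_mul_of_nonneg_left
    (mul_le_mul hc hΦ (expect_nonneg fun _ _ => by positivity) (by positivity)) hC)
  have h4 : rad x = ∑ i, B (x i) (fc Φ i) := by
    have : ∀ σ : ι → Bool, ‖∑ i, sn (σ i) • x i‖ ^ 2 = ∑ i, sn (σ i) * B (x i) (Φ σ) := fun σ => by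
      have h5 : B (∑ i, sn (σ i) • x i) (Φ σ) = ‖∑ i, sn (σ i) • x i‖ ^ 2 := by
        simp only [Φ, map_smul, he2, smul_eq_mul, sq]
        rfl
      rw [← h5]
      simp only [map_sum, map_smul, LinearMap.sum_apply, LinearMap.smul_apply, smul_eq_mul]
    simp only [rad, this, Fintype.expect_eq_sum_div_card, fc, map_sum, map_smul, smul_eq_mul,
      sum_div, div_mul_eq_mul_div]
    exact sum_comm
  have h5 : rad x ≤ ∑ i, ‖x i‖ * ‖fc Φ i‖ := by
    rw [h4]
    exact sum_le_sum fun i _ => (le_abs_self _).trans (hB.le _ _)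
  have h6 := (pow_le_pow_left₀ (rad_nonneg x) h5 2).trans (sum_mul_sq_le_sq_mul_sq _ _ _)
  refine le_of_sq_le_mul (by positivity) (h6.trans ?_)
  refine (mul_le_mul_of_nonneg_left h3 (by positivity)).trans (le_of_eq (by ring))

end Pool.Agent.P.MP_6b6f2e_an.L2
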