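import Pool.Agent.P.MP_6b6f2e_an.L2Gauss
import Pool.Agent.P.MP_6b6f2e_an.L2Noise

set_option autoImplicit false
set_option linter.unusedSectionVars false

namespace Pool.Agent.P.MP_6b6f2e_an.L2

open Finset
open scoped BigOperators

theorem IsC.split {ι κ L : Type} [Fintype ι] [DecidableEq ι] [Fintype κ] [Fintype L]
    {A : ι → κ → ℝ} (hA : IsC A 1) (I : L → ι) (b : L → ℝ)
    (hb : ∀ j, ∑ t ∈ univ.filter (fun t => I t = j), b t ^ 2 ≤ 1) :
    IsC (fun t j => b t * A (I t) j) 1 := by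
  intro v
  refine le_trans ?_ (hA v)
  simp only [mul_assoc, ← mul_sum, mul_pow]
  rw [← sum_fiberwise (s := univ) (g := I)]
  refine sum_le_sum fun i _ => ?_
  rw [sum_congr rfl fun t ht => by rw [(mem_filter.1 ht).2], ← sum_mul]
  exact mul_le_of_le_one_left (sq_nonneg _) (hb i)

theorem pisier {C : ℝ} (hC : 0 ≤ C) : ∃ K : ℝ,
    ∀ (Y Y' : Type) [NormedAddCommGroup Y] [NormedSpace ℝ Y] [NormedAddCommGroup Y']
      [NormedSpace ℝ Y'] (B : Y →ₗ[ℝ] Y' →ₗ[ℝ] ℝ), Pair B → (∃ K', 0 ≤ K' ∧ IsK Y K') →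
        IsGC Y C → IsGC Y' C → IsK Y K := by
  obtain ⟨m, hm, hG⟩ := exists_gauss
  have hp : 0 < 2 * (m * C ^ 2 + 1) := by positivity
  obtain ⟨c, hc, hN⟩ := exists_noise (ε := 1 / (2 * (m * C ^ 2 + 1))) (by positivity)
  refine ⟨1 + 2 * (m * C ^ 2 * c), fun Y Y' _ _ _ _ B hB ⟨K', hK', h0⟩ h1 h2 => ?_⟩
  have step : ∀ K, 0 ≤ K → IsK Y K → IsK Y (K / 2 + m * C ^ 2 * c) := by
    intro K hK h ι κ _ _ A hA x
    classical
    have hT := hN Y Y' B hB K C hK hC (h.dual hB hK) h2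
    have h3 := h1 ι (fun i => ∑ j, A i j • x j) _ fun L _ _ I b hb => by
      have := hG Y _ (by positivity) hT L κ _ (hA.split I b hb) x
      simp only [mul_smul, ← smul_sum] at this
      exact this
    refine h3.trans ?_
    rw [← mul_assoc]
    refine mul_le_mul_of_nonneg_right ?_ (by positivity)
    have h4 : m * C ^ 2 * (1 / (2 * (m * C ^ 2 + 1))) ≤ 1 / 2 := by
      rw [mul_one_div, div_le_iff₀ hp]
      linarith
    nlinarith [mul_le_mul_of_nonneg_right h4 hK]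
  have iter : ∀ n : ℕ, IsK Y (K' * (1 / 2) ^ n + 2 * (m * C ^ 2 * c)) := by
    intro n
    induction n with
    | zero => exact h0.mono (by simp; positivity)
    | succ n ih => exact (step _ (by positivity) ih).mono (le_of_eq (by ring))
  obtain ⟨n, hn⟩ := exists_pow_lt_of_lt_one (by positivity : 0 < 1 / (K' + 1))
    (by norm_num : (1 / 2 : ℝ) < 1)
  refine (iter n).mono ?_
  rw [lt_div_iff₀ (by positivity)] at hn
  nlinarith [pow_nonneg (by norm_num : (0 : ℝ) ≤ 1 / 2) n]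

end Pool.Agent.P.MP_6b6f2e_an.L2
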