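import Pool.Agent.P.MP_6b6f2e_an.L2K

set_option autoImplicit false
set_option linter.unusedSectionVars false

namespace Pool.Agent.P.MP_6b6f2e_an.L2

open Finset
open scoped BigOperators

variable {𝕜 : Type} [RCLike 𝕜]

theorem indep_of_gads {P₁ P₂ S : ℕ → Type} [∀ m, NormedAddCommGroup (P₁ m)]
    [∀ m, NormedSpace 𝕜 (P₁ m)] [∀ m, NormedAddCommGroup (P₂ m)] [∀ m, NormedSpace 𝕜 (P₂ m)]
    [∀ k, Fintype (S k)] [∀ k, DecidableEq (S k)] {h : ∀ k, S k → P₁ k →L[𝕜] 𝕜}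
    {x : ∀ k, S k → P₁ k} {z : ∀ k, S k → P₂ k} {g : ∀ k, S k → P₂ k →L[𝕜] 𝕜} {ε M : ℕ → ℝ}
    {D : ℕ → ℕ}
    (H : ∀ k, IsGad (ev 𝕜 _) (ev 𝕜 _) (h k) (x k) (z k) (g k) (ε k) (D k) (1 / (k + 1)))
    (hD : ∀ k l, k < l → Fintype.card (S k) ≤ D l) (hM : ∀ k, 2 ≤ M k)
    (hh : ∀ k l, l < k → ∑ t, ‖h l t‖ ^ 2 ≤ M k) (hz : ∀ k l, l < k → ∑ t, ‖z l t‖ ^ 2 ≤ M k)
    (hε : ∀ k, M k * ε k ≤ 1 / (k + 1)) :
    ∃ (T : ∀ k, P₁ k →L[𝕜] P₂ k) (Φ : ∀ k, _ →L[𝕜] 𝕜), Indep T Φ := by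
  let T : ∀ k, P₁ k →L[𝕜] P₂ k := fun k => ∑ t, (h k t).smulRight (z k t)
  have hT : ∀ k u, T k u = ∑ t, h k t u • z k t := fun k u => by simp [T]
  let Φ : ∀ k, (P₁ k →L[𝕜] P₂ k) →L[𝕜] 𝕜 := fun k =>
    ∑ i, g k i ∘L ContinuousLinearMap.apply 𝕜 (P₂ k) (x k i)
  have hΦ : ∀ k A, Φ k A = ∑ i, g k i (A (x k i)) := fun k A => by simp [Φ]
  refine ⟨T, Φ, fun k => ?_, fun k => ?_, fun k => ?_, fun δ hδ => ?_⟩
  · refine (T k).opNorm_le_bound zero_le_two fun u => ?_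
    obtain ⟨v, hv1, hv2⟩ := exists_dual_vector'' 𝕜 (T k u)
    have h1 := (H k).bd u v
    have h2 : ∑ t, ev 𝕜 _ u (h k t) * ev 𝕜 _ (z k t) v = v (T k u) := by simp [hT]
    rw [h2, hv2, RCLike.norm_ofReal, abs_norm] at h1
    nlinarith [norm_nonneg u]
  · refine (Φ k).opNorm_le_bound zero_le_two fun A => ?_
    rw [hΦ]
    refine (norm_sum_le _ _).trans (le_trans ?_
      (mul_le_mul_of_nonneg_right (H k).test (norm_nonneg A)))
    rw [sum_mul]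
    refine sum_le_sum fun i _ => ((g k i).le_opNorm _).trans ?_
    exact (mul_le_mul_of_nonneg_left (A.le_opNorm _) (norm_nonneg _)).trans_eq (by ring)
  · simpa [hΦ, hT] using (H k).one
  obtain ⟨k₀, hk₀⟩ := exists_nat_gt (3 / δ)
  filter_upwards [Filter.eventually_ge_atTop k₀] with k hk s hks U V hU hV
  have hM0 : 0 < M k := by linarith [hM k]
  have hA : ∀ l, ∃ A : Finset (S l), l ≠ k → (∀ u, ∑ t ∈ A, ‖h l t u‖ ^ 2 ≤ M k * ‖u‖ ^ 2) ∧
      (∀ v : P₂ l →L[𝕜] 𝕜, ∑ t ∈ A, ‖v (z l t)‖ ^ 2 ≤ M k * ‖v‖ ^ 2) ∧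
      ∀ i, ‖∑ t ∈ Aᶜ, h l t (U l (x k i)) * g k i (V l (z l t))‖ ≤
        1 / (k + 1) * (‖U l (x k i)‖ * ‖g k i ∘L V l‖) := fun l => by
    rcases lt_trichotomy l k with hl | hl | hl
    · refine ⟨univ, fun _ => ⟨fun u => ?_, fun v => ?_, fun i => ?_⟩⟩
      · refine le_trans ?_ (mul_le_mul_of_nonneg_right (hh k l hl) (sq_nonneg _))
        rw [sum_mul]
        exact sum_le_sum fun t _ =>
          (pow_le_pow_left₀ (norm_nonneg _) ((h l t).le_opNorm u) 2).trans_eq (mul_pow _ _ _)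
      · refine le_trans ?_ (mul_le_mul_of_nonneg_right (hz k l hl) (sq_nonneg _))
        rw [sum_mul]
        exact sum_le_sum fun t _ =>
          (pow_le_pow_left₀ (norm_nonneg _) (v.le_opNorm _) 2).trans_eq (by ring)
      · rw [compl_univ, sum_empty, norm_zero]
        positivity
    · exact ⟨univ, fun hh => (hh hl).elim⟩
    · obtain ⟨A, h1, h2, h3⟩ := (H l).loc (S k) (hD k l hl) (fun i => U l (x k i))
        fun i => g k i ∘L V l
      refine ⟨A, fun _ => ⟨fun u => (h1 u).trans (mul_le_mul_of_nonneg_right (hM k) (sq_nonneg _)),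
        fun v => (h2 v).trans (mul_le_mul_of_nonneg_right (hM k) (sq_nonneg _)),
        fun i => (h3 i).trans (mul_le_mul_of_nonneg_right ?_ (by positivity))⟩⟩
      exact Nat.one_div_le_one_div hl.le
  choose A hA using hA
  have hne : ∀ l ∈ s, l ≠ k := fun l hl hh => hks (hh ▸ hl)
  have hadj : ∀ v : P₂ k →L[𝕜] 𝕜, ∑ l ∈ s, ‖v ∘L V l‖ ^ 2 ≤ ‖v‖ ^ 2 := fun v =>
    sum_norm_sq_le s (fun l => v ∘L V l) (sq_nonneg _) fun y => by
      simp only [ContinuousLinearMap.comp_apply, ← map_sum]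
      refine (pow_le_pow_left₀ (norm_nonneg _) (v.le_opNorm _) 2).trans ?_
      rw [mul_pow]
      exact mul_le_mul_of_nonneg_left ((hV y).trans_eq (one_mul _)) (sq_nonneg _)
  obtain ⟨c, hc⟩ : ∃ c : ℝ, c ^ 2 * M k = 1 :=
    ⟨√(1 / M k), by rw [Real.sq_sqrt (by positivity), one_div_mul_cancel hM0.ne']⟩
  have a1 := (H k).small (s.sigma A)
    (fun j => (c : 𝕜) • ((h j.1.1 j.1.2 ∘L U j.1.1 : P₁ k →L[𝕜] 𝕜) : P₁ k →ₗ[𝕜] 𝕜))
    (fun j => (c : 𝕜) • ev 𝕜 (P₂ k) (V j.1.1 (z j.1.1 j.1.2))) (fun u => by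
      simp only [LinearMap.smul_apply, norm_smul, RCLike.norm_ofReal, mul_pow, sq_abs, ← mul_sum,
        ContinuousLinearMap.coe_coe, ContinuousLinearMap.comp_apply]
      rw [sum_coe_sort (s.sigma A) fun j => ‖h j.1 j.2 (U j.1 u)‖ ^ 2, sum_sigma]
      have h1 := sum_le_sum fun l hl => (hA l (hne l hl)).1 (U l u)
      rw [← mul_sum] at h1
      refine (mul_le_mul_of_nonneg_left (h1.trans (mul_le_mul_of_nonneg_left (hU u) hM0.le))
        (sq_nonneg c)).trans_eq ?_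
      rw [← mul_assoc, hc, one_mul]) (fun v => by
      simp only [LinearMap.smul_apply, norm_smul, RCLike.norm_ofReal, mul_pow, sq_abs, ← mul_sum,
        ev_apply]
      rw [sum_coe_sort (s.sigma A) fun j => ‖v (V j.1 (z j.1 j.2))‖ ^ 2, sum_sigma]
      have h1 := sum_le_sum fun l hl => (hA l (hne l hl)).2.1 (v ∘L V l)
      rw [← mul_sum] at h1
      refine (mul_le_mul_of_nonneg_left (h1.trans (mul_le_mul_of_nonneg_left (hadj v) hM0.le))
        (sq_nonneg c)).trans_eq ?_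
      rw [← mul_assoc, hc, one_mul])
  have a2 : ‖∑ i, ∑ l ∈ s, ∑ t ∈ A l, h l t (U l (x k i)) * g k i (V l (z l t))‖ ≤
      1 / (k + 1) := by
    refine le_trans (le_of_eq ?_) ((mul_le_mul_of_nonneg_left a1 hM0.le).trans (hε k))
    rw [← abs_of_pos hM0, ← RCLike.norm_ofReal (K := 𝕜), ← norm_mul, mul_sum]
    congr 1
    refine sum_congr rfl fun i _ => ?_
    simp only [LinearMap.smul_apply, ContinuousLinearMap.coe_coe, ContinuousLinearMap.comp_apply,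
      ev_apply, smul_eq_mul]
    rw [sum_coe_sort (s.sigma A) fun j =>
      (c : 𝕜) * h j.1 j.2 (U j.1 (x k i)) * ((c : 𝕜) * g k i (V j.1 (z j.1 j.2))), sum_sigma,
      mul_sum]
    refine sum_congr rfl fun l _ => ?_
    rw [mul_sum]
    refine sum_congr rfl fun t _ => ?_
    have hc' : (c : 𝕜) ^ 2 * (M k : 𝕜) = 1 := by exact_mod_cast hc
    linear_combination (-(h l t (U l (x k i)) * g k i (V l (z l t)))) * hc'
  have a3 : ‖∑ i, ∑ l ∈ s, ∑ t ∈ (A l)ᶜ, h l t (U l (x k i)) * g k i (V l (z l t))‖ ≤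
      1 / (k + 1) * 2 := by
    refine (norm_sum_le _ _).trans (le_trans ?_
      (mul_le_mul_of_nonneg_left (H k).test (by positivity)))
    rw [mul_sum]
    refine sum_le_sum fun i _ => (norm_sum_le _ _).trans
      ((sum_le_sum fun l hl => (hA l (hne l hl)).2.2 i).trans ?_)
    rw [← mul_sum]
    refine mul_le_mul_of_nonneg_left (abs_le_of_sq_le_sq'
      ((sum_mul_sq_le_sq_mul_sq _ _ _).trans ?_) (by positivity)).2 (by positivity)
    rw [mul_pow]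
    exact mul_le_mul (hU _) (hadj _) (by positivity) (sq_nonneg _)
  have e : Φ k (∑ l ∈ s, V l ∘L T l ∘L U l) =
      ∑ i, ∑ l ∈ s, ∑ t ∈ A l, h l t (U l (x k i)) * g k i (V l (z l t)) +
      ∑ i, ∑ l ∈ s, ∑ t ∈ (A l)ᶜ, h l t (U l (x k i)) * g k i (V l (z l t)) := by
    simp only [← sum_add_distrib, sum_add_sum_compl, hΦ, _root_.sum_apply,
      ContinuousLinearMap.comp_apply, hT, map_sum, map_smul, smul_eq_mul]
  rw [e]
  refine (norm_add_le _ _).trans ((add_le_add a2 a3).trans ?_)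
  rw [div_lt_iff₀ hδ] at hk₀
  have hk' : (k₀ : ℝ) ≤ k := by exact_mod_cast hk
  rw [show (1 : ℝ) / (k + 1) + 1 / (k + 1) * 2 = 3 / (k + 1) by ring, div_le_iff₀ (by positivity)]
  nlinarith

theorem exists_indep {G : ℕ → Type} [∀ n, NormedAddCommGroup (G n)] [∀ n, NormedSpace 𝕜 (G n)]
    (H : ∀ ε η : ℝ, 0 < ε → 0 < η → ∀ D : ℕ,
      ∃ (n₁ n₂ : ℕ) (Ω₁ Ω₂ S : Type) (_ : Fintype Ω₁) (_ : Fintype Ω₂) (_ : Fintype S)
        (_ : DecidableEq S) (h : S → _) (x : S → PiLp 2 (fun _ : Ω₁ => G n₁))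
        (z : S → PiLp 2 (fun _ : Ω₂ => G n₂)) (g : S → _),
        IsGad (ev 𝕜 _) (ev 𝕜 _) h x z g ε D η) :
    ∃ (n₁ n₂ : ℕ → ℕ) (Ω₁ Ω₂ : ℕ → Type) (_ : ∀ k, Fintype (Ω₁ k)) (_ : ∀ k, Fintype (Ω₂ k))
      (T : ∀ k, PiLp 2 (fun _ : Ω₁ k => G (n₁ k)) →L[𝕜] PiLp 2 (fun _ : Ω₂ k => G (n₂ k)))
      (Φ : ∀ k, _ →L[𝕜] 𝕜), Indep T Φ := by
  choose n₁ n₂ Ω₁ Ω₂ S i1 i2 i3 i4 h x z g hG using fun (k : ℕ) (p : ℝ × ℕ) =>
    H (1 / ((k + 1) * (|p.1| + 2))) (1 / (k + 1)) (by positivity) (by positivity) p.2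
  let w : ℕ → ℝ × ℕ → ℝ := fun k p => ∑ t, ‖h k p t‖ ^ 2 + ∑ t, ‖z k p t‖ ^ 2
  let st : ℕ → ℝ × ℕ := fun k =>
    Nat.rec (0, 0) (fun k p => (p.1 + w k p, p.2 + Fintype.card (S k p))) k
  have hs1 : ∀ k, (st k).1 = ∑ l ∈ range k, w l (st l) := fun k => by
    induction k with
    | zero => rfl
    | succ k ih => rw [sum_range_succ, ← ih]
  have hs2 : ∀ k, (st k).2 = ∑ l ∈ range k, Fintype.card (S l (st l)) := fun k => by
    induction k with
    | zero => rfl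
    | succ k ih => rw [sum_range_succ, ← ih]
  have hw : ∀ k l, l < k → w l (st l) ≤ |(st k).1| + 2 := fun k l hl => by
    have h1 := single_le_sum (f := fun l => w l (st l)) (fun l _ => by positivity) (mem_range.2 hl)
    linarith [hs1 k, le_abs_self (st k).1]
  obtain ⟨T, Φ, hI⟩ := indep_of_gads (M := fun k => |(st k).1| + 2) (fun k => hG k (st k))
    (fun k l hl => by
      rw [hs2 l]
      exact single_le_sum (f := fun l => Fintype.card (S l (st l))) (fun _ _ => Nat.zero_le _)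
        (mem_range.2 hl))
    (fun k => le_add_of_nonneg_left (abs_nonneg _))
    (fun k l hl => le_trans (le_add_of_nonneg_right (by positivity)) (hw k l hl))
    (fun k l hl => le_trans (le_add_of_nonneg_left (by positivity)) (hw k l hl))
    (fun k => le_of_eq (by field_simp))
  exact ⟨_, _, _, _, _, _, T, Φ, hI⟩

end Pool.Agent.P.MP_6b6f2e_an.L2
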