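import Pool.Agent.P.MP_6b6f2e_an.L2Hilb
import Pool.Agent.P.MP_6b6f2e_an.L2Pisier
import Pool.Agent.P.MP_6b6f2e_an.L2Gad
import Pool.Agent.P.MP_6b6f2e_an.L2Seq
import Pool.Agent.P.MP_6b6f2e_an.L2Blocks
import Pool.Agent.P.MP_6b6f2e_an.L2Dich
import Pool.Agent.P.MP_6b6f2e_an.L2Case1

set_option autoImplicit false
set_option linter.unusedSectionVars false

namespace Pool.Agent.P.MP_6b6f2e_an.L2

open Finset
open scoped BigOperators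

section

variable {𝕜 : Type} [RCLike 𝕜] {G : ℕ → Type} [∀ n, NormedAddCommGroup (G n)]
  [∀ n, NormedSpace 𝕜 (G n)] [∀ n, FiniteDimensional 𝕜 (G n)] [∀ n, NormedSpace ℝ (G n)]
  [∀ n, IsScalarTower ℝ 𝕜 (G n)]

theorem exists_isK' (𝕜 : Type) [RCLike 𝕜] (Y : Type) [NormedAddCommGroup Y] [NormedSpace 𝕜 Y]
    [FiniteDimensional 𝕜 Y] [NormedSpace ℝ Y] [IsScalarTower ℝ 𝕜 Y] : ∃ K, 0 ≤ K ∧ IsK Y K := by
  have : FiniteDimensional ℝ Y := Module.Finite.trans 𝕜 Y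
  exact exists_isK

theorem gc_dichotomy (hG : ∀ K, ∃ n, ¬ IsK (G n) K) :
    (∀ C, ∃ n, ¬ IsGC (G n →L[𝕜] 𝕜) C) ∨ ∀ C, ∃ n, ¬ IsGC (G n) C := by
  by_contra hc
  simp only [not_or, not_forall, not_exists, not_not] at hc
  obtain ⟨⟨C₁, h₁⟩, C₂, h₂⟩ := hc
  obtain ⟨K, hK⟩ := pisier (C := max 0 (max C₁ C₂)) (le_max_left _ _)
  obtain ⟨n, hn⟩ := hG K
  obtain ⟨B, hB⟩ := (pair_ev (𝕜 := 𝕜) (F := G n)).exists_real
  exact hn (hK _ _ B hB (exists_isK' 𝕜 _)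
    ((h₂ n).mono ((le_max_right _ _).trans (le_max_right _ _)))
    ((h₁ n).mono ((le_max_left _ _).trans (le_max_right _ _))))

theorem exists_gad' (hG : ∀ K, ∃ n, ¬ IsK (G n) K) (ε η : ℝ) (hε : 0 < ε) (hη : 0 < η) (D : ℕ) :
    ∃ (n₁ n₂ : ℕ) (Ω₁ Ω₂ S : Type) (_ : Fintype Ω₁) (_ : Fintype Ω₂) (_ : Fintype S)
      (_ : DecidableEq S) (h : S → _) (x : S → PiLp 2 (fun _ : Ω₁ => G n₁))
      (z : S → PiLp 2 (fun _ : Ω₂ => G n₂)) (g : S → _),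
      IsGad (ev 𝕜 _) (ev 𝕜 _) h x z g ε D η := by
  rcases gc_dichotomy (𝕜 := 𝕜) hG with h | h
  · obtain ⟨n₁, n₂, Ω₁, Ω₂, S, i1, i2, i3, i4, h, x, z, g, H⟩ :=
      exists_gad (fun n => ev 𝕜 (G n)) (fun _ => pair_ev) h hε hη D
    obtain ⟨h', g', H'⟩ := H.toDual hη.le
    exact ⟨n₁, n₂, Ω₁, Ω₂, S, i1, i2, i3, i4, h', x, z, g', H'⟩
  · obtain ⟨n₁, n₂, Ω₁, Ω₂, S, i1, i2, i3, i4, h, x, z, g, H⟩ :=
      exists_gad (fun n => (ev 𝕜 (G n)).flip) (fun _ => pair_ev.flip) h hε hη D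
    have H' : IsGad (piB (ev 𝕜 (G n₂)) Ω₂) (piB (ev 𝕜 (G n₁)) Ω₁) z g h x ε D η := H.flip
    obtain ⟨h', g', H''⟩ := H'.toDual hη.le
    exact ⟨n₂, n₁, Ω₂, Ω₁, S, i2, i1, i3, i4, h', g, h, g', H''⟩

theorem blk_pow {X : Type} [NormedAddCommGroup X] [NormedSpace 𝕜 X]
    {J : ∀ p : ℕ × ℕ, G p.1 →L[𝕜] X} {Q : ∀ p : ℕ × ℕ, X →L[𝕜] G p.1} {K : ℝ}
    (h : Blk (F := fun p : ℕ × ℕ => G p.1) J Q K) (n : ℕ → ℕ) (Ω : ℕ → Type)
    [∀ k, Fintype (Ω k)] :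
    ∃ (J' : ∀ k, PiLp 2 (fun _ : Ω k => G (n k)) →L[𝕜] X)
      (Q' : ∀ k, X →L[𝕜] PiLp 2 (fun _ : Ω k => G (n k))), Blk J' Q' K := by
  let e : (Σ k, Ω k) → ℕ × ℕ := fun σ => (n σ.1, Nat.pair σ.1 (Fintype.equivFin _ σ.2))
  have he : Function.Injective e := by
    rintro ⟨k, a⟩ ⟨k', a'⟩ hh
    obtain ⟨h1, h2⟩ := Nat.pair_eq_pair.1 (congrArg Prod.snd hh)
    dsimp only at h1 h2
    subst h1
    rw [(Fintype.equivFin _).injective (Fin.ext h2)]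
  exact Blk.group (G := fun k => G (n k)) (h.comp he)

end

theorem kappa_l2 (𝕜 : Type) [RCLike 𝕜] (E : ℕ → Type) [∀ n, NormedAddCommGroup (E n)]
    [∀ n, NormedSpace 𝕜 (E n)] [∀ n, FiniteDimensional 𝕜 (E n)]
    (hZ : ∀ (H : Type) [NormedAddCommGroup H] [InnerProductSpace 𝕜 H], IsEmpty (lp E 2 ≃L[𝕜] H))
    (X : Type) [NormedAddCommGroup X] [NormedSpace 𝕜 X] [CompleteSpace X]
    [TopologicalSpace.SeparableSpace X] (hX : ComplementedCopy 𝕜 X (lp E 2)) :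
    kappa 𝕜 X = 2 ^ Cardinal.continuum := by
  let _ : ∀ n, NormedSpace ℝ (E n) := fun n => NormedSpace.restrictScalars ℝ 𝕜 (E n)
  have : ∀ n, IsScalarTower ℝ 𝕜 (E n) := fun n => IsScalarTower.restrictScalars ℝ 𝕜 (E n)
  have : IsScalarTower ℝ 𝕜 (lp E 2) := ⟨fun a b y => by
    ext n
    simp only [lp.coeFn_smul, Pi.smul_apply, smul_assoc]⟩
  have hK : ∀ n₀ K, ∃ n, ¬ IsK (E (n + n₀)) K := by
    intro n₀ K
    by_contra hc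
    simp only [not_exists, not_not] at hc
    choose K' h0 hK' using fun n => exists_isK' 𝕜 (E n)
    have hs : 0 ≤ ∑ n ∈ range n₀, K' n := sum_nonneg fun n _ => h0 n
    have hall : ∀ n, IsK (E n) (|K| + ∑ n ∈ range n₀, K' n) := fun n => by
      rcases lt_or_ge n n₀ with h | h
      · refine (hK' n).mono ?_
        have := single_le_sum (fun n _ => h0 n) (mem_range.2 h)
        linarith [abs_nonneg K]
      · obtain ⟨m, rfl⟩ := Nat.exists_eq_add_of_le' h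
        exact (hc m).mono (by linarith [le_abs_self K])
    obtain ⟨H, i1, i2, ⟨e⟩⟩ := hilbert_of_isK 𝕜 (lp E 2) (isK_lp hall)
    exact (hZ H).false e
  obtain ⟨J, Q, K, hB⟩ := blk_lp hX
  by_cases hc : ∀ C : ℝ, 0 < C → ∀ n₀, ∃ n, n₀ ≤ n ∧ Sep 𝕜 (E n) E C
  · obtain ⟨n, Φ, hn, H⟩ := indep_of_sep (fun N => by
      obtain ⟨m, hm⟩ := hK N 0
      refine ⟨m + N, Nat.le_add_left _ _, ?_⟩
      by_contra h
      simp only [not_exists, not_not] at h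
      exact hm (isK_of_subsingleton h 0)) hc
    exact kappa_of_blk (hB.comp hn) (hB.comp hn) H
  · simp only [not_forall, not_exists, not_and] at hc
    obtain ⟨C, hC, n₀, hc⟩ := hc
    obtain ⟨J', Q', K', hB'⟩ := hB.far (G := fun n => E (n + n₀)) (C := 4 * C ^ 2) (by positivity)
      fun n => (sep_or_far _ hC).resolve_left (hc _ (Nat.le_add_left _ _))
    obtain ⟨n₁, n₂, Ω₁, Ω₂, i1, i2, T, Φ, H⟩ :=
      exists_indep (exists_gad' (𝕜 := 𝕜) (G := fun n => E (n + n₀)) (hK n₀))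
    obtain ⟨J₁, Q₁, h₁⟩ := blk_pow (G := fun n => E (n + n₀)) hB' n₁ Ω₁
    obtain ⟨J₂, Q₂, h₂⟩ := blk_pow (G := fun n => E (n + n₀)) hB' n₂ Ω₂
    exact kappa_of_blk h₁ h₂ H

end Pool.Agent.P.MP_6b6f2e_an.L2
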