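import Pool.Agent.P.MP_6b6f2e_an.L2Av

set_option autoImplicit false
set_option linter.unusedSectionVars false

namespace Pool.Agent.P.MP_6b6f2e_an.L2

open Finset
open scoped BigOperators

open MeasureTheory ProbabilityTheory

section dil

open scoped MatrixOrder

theorem IsC.dilate {ι κ : Type} [Fintype ι] [Fintype κ] {A : ι → κ → ℝ} (hA : IsC A 1) :
    ∃ A' : κ → κ → ℝ, ∀ v : κ → ℝ,
      ∑ i, (∑ j, A i j * v j) ^ 2 + ∑ k, (∑ j, A' k j * v j) ^ 2 = ∑ j, v j ^ 2 := by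
  classical
  have key : ∀ {τ : Type} [Fintype τ] (M : Matrix τ κ ℝ) (v : κ → ℝ),
      v ⬝ᵥ (M.transpose * M).mulVec v = ∑ i, (∑ j, M i j * v j) ^ 2 := fun M v => by
    rw [← Matrix.mulVec_mulVec, Matrix.dotProduct_mulVec, Matrix.vecMul_transpose]
    simp only [sq]
    rfl
  let M : Matrix ι κ ℝ := Matrix.of A
  have h1 : ∀ v : κ → ℝ, v ⬝ᵥ (1 - M.transpose * M).mulVec v =
      ∑ j, v j ^ 2 - ∑ i, (∑ j, A i j * v j) ^ 2 := fun v => by
    rw [Matrix.sub_mulVec, dotProduct_sub, key, Matrix.one_mulVec]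
    simp only [sq]
    rfl
  have h2 : (1 - M.transpose * M).PosSemidef := by
    refine Matrix.PosSemidef.of_dotProduct_mulVec_nonneg ?_ fun v => ?_
    · refine Matrix.isHermitian_one.sub ?_
      simpa using Matrix.isHermitian_conjTranspose_mul_self M
    · rw [star_trivial, h1]
      linarith [hA v]
  obtain ⟨B, hB⟩ := CStarAlgebra.nonneg_iff_eq_star_mul_self.mp h2.nonneg
  refine ⟨B, fun v => ?_⟩
  have h3 := h1 v
  rw [hB, Matrix.star_eq_conjTranspose, Matrix.conjTranspose_eq_transpose_of_trivial, key] at h3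
  linarith

end dil

/-- The standard Gaussian measure on `ℝ^ι`. -/
noncomputable abbrev gm (ι : Type) [Fintype ι] : Measure (EuclideanSpace ℝ ι) :=
  stdGaussian (EuclideanSpace ℝ ι)

theorem integral_iso {ι κ : Type} [Fintype ι] [Fintype κ] (V : ι → κ → ℝ)
    (hV : ∀ v : κ → ℝ, ∑ i, (∑ j, V i j * v j) ^ 2 = ∑ j, v j ^ 2)
    (F : EuclideanSpace ℝ κ → ℝ) (hF : Continuous F) :
    ∫ g, F (WithLp.toLp 2 fun j => ∑ i, V i j * g i) ∂gm ι = ∫ g, F g ∂gm κ := by
  have hc : Continuous fun g : EuclideanSpace ℝ ι =>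
      (WithLp.toLp 2 fun j => ∑ i, V i j * g i : EuclideanSpace ℝ κ) := by fun_prop
  rw [← integral_map hc.aemeasurable hF.aestronglyMeasurable]
  congr 1
  refine Measure.ext_of_charFun (funext fun t => ?_)
  have h1 : ‖(WithLp.toLp 2 fun i => ∑ j, V i j * t j : EuclideanSpace ℝ ι)‖ = ‖t‖ := by
    refine (sq_eq_sq₀ (norm_nonneg _) (norm_nonneg _)).1 ?_
    rw [EuclideanSpace.real_norm_sq_eq, EuclideanSpace.real_norm_sq_eq]
    exact hV _
  rw [charFun_stdGaussian, ← h1, ← charFun_stdGaussian, charFun_apply, charFun_apply,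
    integral_map hc.aemeasurable (by fun_prop)]
  refine integral_congr_ae (.of_forall fun g => ?_)
  have h2 : inner ℝ (WithLp.toLp 2 fun j => ∑ i, V i j * g i : EuclideanSpace ℝ κ) t =
      inner ℝ g (WithLp.toLp 2 fun i => ∑ j, V i j * t j : EuclideanSpace ℝ ι) := by
    simp only [PiLp.inner_apply, RCLike.inner_apply, conj_trivial, mul_sum, sum_mul]
    rw [sum_comm]
    exact sum_congr rfl fun _ _ => sum_congr rfl fun _ _ => by ring
  simp only [h2]

theorem integral_coord {ι : Type} [Fintype ι] (i : ι) (f : ℝ → ℝ) (hf : Continuous f) :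
    ∫ g, f (g i) ∂gm ι = ∫ g, f (g ()) ∂gm Unit := by
  classical
  have := integral_iso (fun (i' : ι) (_ : Unit) => if i' = i then (1 : ℝ) else 0)
    (fun v => by simp) (fun g => f (g ())) (by fun_prop)
  simpa using this

theorem memLp_coord {ι : Type} [Fintype ι] (i : ι) :
    MemLp (fun g : EuclideanSpace ℝ ι => g i) 2 (gm ι) :=
  IsGaussian.memLp_dual (gm ι) (EuclideanSpace.proj i) 2 (by simp)

theorem abs_moment_pos : 0 < ∫ g, |g ()| ∂gm Unit := by
  refine (integral_nonneg fun g => abs_nonneg _).lt_of_ne fun h => ?_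
  have h1 := (integral_eq_zero_iff_of_nonneg (fun g => abs_nonneg _)
    ((memLp_coord ()).integrable one_le_two).abs).1 h.symm
  have h2 : (EuclideanSpace.proj () : EuclideanSpace ℝ Unit →L[ℝ] ℝ) =ᵐ[gm Unit] 0 := by
    filter_upwards [h1] with g hg
    simpa using hg
  have h3 := variance_dual_stdGaussian (EuclideanSpace.proj () : EuclideanSpace ℝ Unit →L[ℝ] ℝ)
  rw [variance_congr h2, variance_zero, eq_comm, pow_eq_zero_iff two_ne_zero, norm_eq_zero] at h3
  simpa using congrArg (fun L => L (EuclideanSpace.single () 1)) h3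

variable {Y : Type} [NormedAddCommGroup Y] [NormedSpace ℝ Y]

theorem integrable_gauss {ι : Type} [Fintype ι] (y : ι → Y) :
    Integrable (fun g : EuclideanSpace ℝ ι => ‖∑ i, g i • y i‖ ^ 2) (gm ι) := by
  refine MemLp.integrable_norm_pow (p := 2) ?_ two_ne_zero
  exact memLp_finsetSum _ fun i _ =>
    (ContinuousLinearMap.toSpanSingleton ℝ (y i)).comp_memLp' (memLp_coord i)

theorem gauss_iso {ι κ : Type} [Fintype ι] [Fintype κ] (V : ι → κ → ℝ)
    (hV : ∀ v : κ → ℝ, ∑ i, (∑ j, V i j * v j) ^ 2 = ∑ j, v j ^ 2) (x : κ → Y) :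
    ∫ g, ‖∑ i, g i • ∑ j, V i j • x j‖ ^ 2 ∂gm ι = ∫ g, ‖∑ j, g j • x j‖ ^ 2 ∂gm κ := by
  rw [← integral_iso V hV (fun g => ‖∑ j, g j • x j‖ ^ 2) (by fun_prop)]
  refine integral_congr_ae (.of_forall fun g => ?_)
  simp only [smul_sum, sum_smul, smul_smul]
  rw [sum_comm]
  simp only [mul_comm]

variable {ι : Type} [Fintype ι] [DecidableEq ι]

theorem rad_mul_eq (y : ι → Y) (g : EuclideanSpace ℝ ι) : rad (fun i => g i • y i) =
    (∑ σ : ι → Bool, ‖∑ i, g i • sn (σ i) • y i‖ ^ 2) / Fintype.card (ι → Bool) := by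
  simp only [rad, Fintype.expect_eq_sum_div_card, smul_comm (g _)]

theorem integrable_rad (y : ι → Y) :
    Integrable (fun g : EuclideanSpace ℝ ι => rad fun i => g i • y i) (gm ι) := by
  simp only [rad_mul_eq]
  exact (integrable_finsetSum _ fun σ _ => integrable_gauss _).div_const _

theorem gauss_eq (y : ι → Y) :
    ∫ g, rad (fun i => g i • y i) ∂gm ι = ∫ g, ‖∑ i, g i • y i‖ ^ 2 ∂gm ι := by
  simp only [rad_mul_eq]
  rw [integral_div, integral_finsetSum _ fun σ _ => integrable_gauss _]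
  have h : ∀ σ : ι → Bool, ∫ g, ‖∑ i, g i • sn (σ i) • y i‖ ^ 2 ∂gm ι =
      ∫ g, ‖∑ i, g i • y i‖ ^ 2 ∂gm ι := fun σ => by
    have := gauss_iso (fun i j => if i = j then sn (σ i) else 0)
      (fun v => by simp [mul_pow, sn_sq]) y
    simpa using this
  simp only [h, sum_const, card_univ, nsmul_eq_mul]
  exact mul_div_cancel_left₀ _ card_signs_pos.ne'

theorem rad_le_gauss (y : ι → Y) :
    (∫ g, |g ()| ∂gm Unit) ^ 2 * rad y ≤ ∫ g, ‖∑ i, g i • y i‖ ^ 2 ∂gm ι := by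
  set m := ∫ g, |g ()| ∂gm Unit with hm
  have hm0 : 0 < m := abs_moment_pos
  choose f hf1 hf2 using fun σ : ι → Bool => exists_dual_vector'' ℝ (∑ i, sn (σ i) • y i)
  let a : (ι → Bool) → ℝ := fun σ => m * ‖∑ i, sn (σ i) • y i‖
  let u : (ι → Bool) → EuclideanSpace ℝ ι → ℝ := fun σ g =>
    2 * a σ * (∑ i, |g i| * f σ (sn (σ i) • y i)) - a σ ^ 2
  have hi : ∀ (σ : ι → Bool) (i : ι), Integrable
      (fun g : EuclideanSpace ℝ ι => |g i| * f σ (sn (σ i) • y i)) (gm ι) := fun σ i =>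
    ((memLp_coord i).integrable one_le_two).abs.mul_const _
  have hu : ∀ σ, Integrable (u σ) (gm ι) := fun σ =>
    ((integrable_finsetSum _ fun i _ => hi σ i).const_mul _).sub (integrable_const _)
  have hu' : ∀ σ, ∫ g, u σ g ∂gm ι = a σ ^ 2 := fun σ => by
    rw [integral_sub ((integrable_finsetSum _ fun i _ => hi σ i).const_mul _) (integrable_const _),
      integral_const_mul, integral_finsetSum _ fun i _ => hi σ i]
    simp only [integral_mul_const, integral_coord _ _ continuous_abs, ← mul_sum, ← map_sum,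
      hf2, integral_const, probReal_univ, smul_eq_mul, a, RCLike.ofReal_real_eq_id, id]
    ring
  have h1 : m ^ 2 * rad y = ∫ g, (∑ σ, u σ g) / Fintype.card (ι → Bool) ∂gm ι := by
    rw [integral_div, integral_finsetSum _ fun σ _ => hu σ, rad, Fintype.expect_eq_sum_div_card]
    simp only [hu', a, mul_pow, ← mul_sum, mul_div_assoc]
  rw [h1, ← gauss_eq]
  refine integral_mono ((integrable_finsetSum _ fun σ _ => hu σ).div_const _) (integrable_rad y)
    fun g => ?_
  dsimp only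
  rw [← rad_abs, rad, Fintype.expect_eq_sum_div_card]
  refine div_le_div_of_nonneg_right (sum_le_sum fun σ _ => ?_) card_signs_pos.le
  have h2 : ∑ i, |g i| * f σ (sn (σ i) • y i) = f σ (∑ i, sn (σ i) • |g i| • y i) := by
    simp only [map_sum, map_smul, smul_eq_mul, mul_left_comm]
  have h3 := ((f σ).le_of_opNorm_le (hf1 σ) (∑ i, sn (σ i) • |g i| • y i))
  rw [one_mul, Real.norm_eq_abs] at h3
  have h4 := pow_le_pow_left₀ (abs_nonneg _) h3 2
  rw [sq_abs] at h4
  simp only [u, h2]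
  nlinarith [sq_nonneg (f σ (∑ i, sn (σ i) • |g i| • y i) - a σ)]

theorem gauss_le {T : ℝ} (h : IsT Y T) (y : ι → Y) : ∫ g, ‖∑ i, g i • y i‖ ^ 2 ∂gm ι ≤
    T * ((∫ g, g () ^ 2 ∂gm Unit) * ∑ i, ‖y i‖ ^ 2) := by
  have hi : ∀ i : ι, Integrable (fun g : EuclideanSpace ℝ ι => g i ^ 2 * ‖y i‖ ^ 2) (gm ι) :=
    fun i => (memLp_coord i).integrable_sq.mul_const _
  have h1 : ∫ g, T * ∑ i, g i ^ 2 * ‖y i‖ ^ 2 ∂gm ι =
      T * ((∫ g, g () ^ 2 ∂gm Unit) * ∑ i, ‖y i‖ ^ 2) := by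
    rw [integral_const_mul, integral_finsetSum _ fun i _ => hi i]
    simp only [integral_mul_const, integral_coord _ _ (continuous_pow 2), ← mul_sum]
  rw [← gauss_eq, ← h1]
  refine integral_mono (integrable_rad y) ((integrable_finsetSum _ fun i _ => hi i).const_mul _)
    fun g => (h ι _).trans (le_of_eq ?_)
  simp only [norm_smul, mul_pow, Real.norm_eq_abs, sq_abs]

theorem exists_gauss : ∃ m : ℝ, 0 < m ∧ ∀ (Y : Type) [NormedAddCommGroup Y] [NormedSpace ℝ Y]
    (T : ℝ), 0 ≤ T → IsT Y T → ∀ (ι κ : Type) [Fintype ι] [DecidableEq ι] [Fintype κ]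
      (A : ι → κ → ℝ), IsC A 1 → ∀ x : κ → Y,
        rad (fun i => ∑ j, A i j • x j) ≤ m * T * ∑ j, ‖x j‖ ^ 2 := by
  have hm := abs_moment_pos
  have hv : 0 ≤ ∫ g, g () ^ 2 ∂gm Unit := integral_nonneg fun g => sq_nonneg _
  refine ⟨((∫ g, g () ^ 2 ∂gm Unit) + 1) / (∫ g, |g ()| ∂gm Unit) ^ 2, by positivity,
    fun Y _ _ T hT h ι κ _ _ _ A hA x => ?_⟩
  classical
  obtain ⟨A', hA'⟩ := hA.dilate
  have h1 := rad_inl_le fun t : ι ⊕ κ => ∑ j, Sum.elim A A' t j • x j
  have h2 := rad_le_gauss fun t : ι ⊕ κ => ∑ j, Sum.elim A A' t j • x j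
  rw [gauss_iso _ (fun v => by rw [Fintype.sum_sum_type]; exact hA' v)] at h2
  have h3 := ((mul_le_mul_of_nonneg_left h1 (sq_nonneg _)).trans h2).trans (gauss_le h x)
  rw [mul_assoc, div_mul_eq_mul_div, le_div_iff₀ (by positivity)]
  have h4 : 0 ≤ T * ∑ j, ‖x j‖ ^ 2 := by positivity
  simp only [Sum.elim_inl] at h3
  nlinarith

end Pool.Agent.P.MP_6b6f2e_an.L2
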