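import Pool.Agent.P.MP_6b6f2e_an.L2K

set_option autoImplicit false
set_option linter.unusedSectionVars false

namespace Pool.Agent.P.MP_6b6f2e_an.L2

open Finset
open scoped BigOperators

section real

variable {Z : Type} [NormedAddCommGroup Z] [NormedSpace ℝ Z]

theorem exists_matrix {ι κ : Type} [Fintype ι] [Fintype κ] (x : ι → Z) (z : κ → Z)
    (h : ∀ ξ : Module.Dual ℝ Z, ∑ i, ξ (x i) ^ 2 ≤ ∑ j, ξ (z j) ^ 2) :
    ∃ A : ι → κ → ℝ, IsC A 1 ∧ ∀ i, x i = ∑ j, A i j • z j := by
  classical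
  let e : Module.Dual ℝ Z →ₗ[ℝ] EuclideanSpace ℝ κ :=
    { toFun := fun ξ => WithLp.toLp 2 fun j => ξ (z j)
      map_add' := fun _ _ => rfl
      map_smul' := fun _ _ => rfl }
  have he : ∀ ξ j, e ξ j = ξ (z j) := fun _ _ => rfl
  have : Module.Free ℝ (LinearMap.range e) := Module.Free.of_divisionRing ℝ _
  obtain ⟨s, hs⟩ := e.rangeRestrict.exists_rightInverse_of_surjective e.range_rangeRestrict
  let P := (LinearMap.range e).orthogonalProjectionOnto
  let L : EuclideanSpace ℝ κ →ₗ[ℝ] Module.Dual ℝ Z := s ∘ₗ (P : _ →ₗ[ℝ] _)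
  have hL : ∀ v, e (L v) = (P v : EuclideanSpace ℝ κ) := fun v =>
    congrArg Subtype.val (LinearMap.congr_fun hs (P v))
  have hA : ∀ (v : EuclideanSpace ℝ κ) i,
      ∑ j, L (EuclideanSpace.single j 1) (x i) * v j = L v (x i) := fun v i => by
    conv_rhs => rw [← (EuclideanSpace.basisFun κ ℝ).sum_repr v]
    simp only [map_sum, map_smul, LinearMap.sum_apply, LinearMap.smul_apply, smul_eq_mul,
      EuclideanSpace.basisFun_apply, EuclideanSpace.basisFun_repr]
    exact sum_congr rfl fun j _ => mul_comm _ _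
  refine ⟨fun i j => L (EuclideanSpace.single j 1) (x i), fun v => ?_, fun i => ?_⟩
  · have h1 := hA (WithLp.toLp 2 v)
    simp only [h1]
    refine (h _).trans ?_
    have h2 : ‖e (L (WithLp.toLp 2 v))‖ ≤ ‖(WithLp.toLp 2 v : EuclideanSpace ℝ κ)‖ := by
      rw [hL]
      exact (LinearMap.range e).norm_orthogonalProjectionOnto_apply_le _
    have h3 := pow_le_pow_left₀ (norm_nonneg _) h2 2
    rw [EuclideanSpace.real_norm_sq_eq, EuclideanSpace.real_norm_sq_eq] at h3
    rw [one_mul]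
    exact h3
  · rw [← sub_eq_zero, ← Module.forall_dual_apply_eq_zero_iff ℝ]
    intro ξ
    have h1 : e (L (e ξ) - ξ) = 0 := by
      rw [map_sub, hL, sub_eq_zero]
      exact congrArg Subtype.val
        ((LinearMap.range e).orthogonalProjectionOnto_mem_subspace_eq_self ⟨e ξ, ξ, rfl⟩)
    have h2 := h (L (e ξ) - ξ)
    simp only [← he, h1, PiLp.zero_apply, ne_eq, OfNat.ofNat_ne_zero, not_false_eq_true,
      zero_pow, sum_const_zero] at h2
    have h3 := (single_le_sum (fun i _ => sq_nonneg ((L (e ξ) - ξ) (x i))) (mem_univ i)).trans h2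
    have h4 := pow_eq_zero_iff (two_ne_zero) |>.1 (le_antisymm h3 (sq_nonneg _))
    rw [LinearMap.sub_apply, ← hA] at h4
    simp only [map_sub, map_sum, map_smul, smul_eq_mul, he] at h4 ⊢
    linarith

theorem exists_form {K : ℝ} (hK : 1 ≤ K) (h : IsK Z K) :
    ∃ B : Z →ₗ[ℝ] Z →ₗ[ℝ] ℝ, (∀ x y, B x y = B y x) ∧
      ∀ x, ‖x‖ ^ 2 ≤ B x x ∧ B x x ≤ K * ‖x‖ ^ 2 := by
  classical
  let π : (Z →₀ ℝ) →ₗ[ℝ] Module.Dual ℝ Z → ℝ := Finsupp.linearCombination ℝ fun x ξ => ξ x ^ 2
  let φ : ℝ → ℝ := fun c => (K - 1) * max c 0 + c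
  let N : (Z →₀ ℝ) → ℝ := fun f => ∑ x ∈ f.support, φ (f x) * ‖x‖ ^ 2
  have hN : ∀ (f : Z →₀ ℝ) (s : Finset Z), f.support ⊆ s → N f = ∑ x ∈ s, φ (f x) * ‖x‖ ^ 2 :=
    fun f s hs => sum_subset hs fun x _ hx => by simp [φ, Finsupp.notMem_support_iff.1 hx]
  obtain ⟨g, hg0, hg⟩ := exists_extension_of_le_sublinear ⟨LinearMap.ker π, 0⟩ N
    (fun c hc f => by
      rw [hN _ _ Finsupp.support_smul, mul_sum]
      refine sum_congr rfl fun x _ => ?_
      have := mul_max_of_nonneg (f x) 0 hc.le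
      simp only [φ, Finsupp.smul_apply, smul_eq_mul, mul_zero] at this ⊢
      rw [← this]
      ring)
    (fun f f' => by
      rw [hN _ _ Finsupp.support_add, hN f _ subset_union_left, hN f' _ subset_union_right,
        ← sum_add_distrib]
      refine sum_le_sum fun x _ => ?_
      rw [← add_mul]
      refine mul_le_mul_of_nonneg_right ?_ (sq_nonneg _)
      have : max (f x + f' x) 0 ≤ max (f x) 0 + max (f' x) 0 :=
        max_le (add_le_add (le_max_left _ _) (le_max_left _ _)) (by positivity)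
      simp only [φ, Finsupp.add_apply]
      nlinarith)
    (fun ⟨f, hf⟩ => by
      change (0 : ℝ) ≤ N f
      have e1 : ∀ c : ℝ, √(max c 0) ^ 2 = max c 0 := fun c => Real.sq_sqrt (le_max_right _ _)
      have e2 : ∀ c : ℝ, max (-c) 0 = max c 0 - c := fun c => by
        rcases le_total c 0 with hc | hc
        · rw [max_eq_left (neg_nonneg.2 hc), max_eq_right hc, zero_sub]
        · rw [max_eq_right (neg_nonpos.2 hc), max_eq_left hc, sub_self]
      obtain ⟨A, hA, hx⟩ := exists_matrix (fun x : f.support => √(max (-f x) 0) • (x : Z))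
        (fun x : f.support => √(max (f x) 0) • (x : Z)) fun ξ => by
          have h1 : ∑ x ∈ f.support, f x * ξ x ^ 2 = 0 := by
            simpa [π, Finsupp.linearCombination_apply, Finsupp.sum] using congrFun hf ξ
          rw [← sum_coe_sort] at h1
          simp only [map_smul, smul_eq_mul, mul_pow, e1]
          simp only [e2, sub_mul, sum_sub_distrib]
          linarith
      have h2 := h _ _ A hA fun x : f.support => √(max (f x) 0) • (x : Z)
      simp only [← hx, norm_smul, mul_pow, Real.norm_eq_abs, sq_abs, e1] at h2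
      simp only [e2, sub_mul, sum_sub_distrib] at h2
      simp only [N, φ]
      rw [← sum_coe_sort]
      simp only [add_mul, sum_add_distrib, mul_assoc, ← mul_sum]
      rw [sub_mul]
      linarith)
  have hmem : g ∈ (LinearMap.ker π).dualAnnihilator :=
    (Submodule.mem_dualAnnihilator g).2 fun f hf => hg0 ⟨f, hf⟩
  rw [← LinearMap.range_dualMap_eq_dualAnnihilator_ker] at hmem
  obtain ⟨g', hg'⟩ := hmem
  have key : ∀ (x : Z) (c : ℝ), c * g' (fun ξ => ξ x * ξ x) ≤ φ c * ‖x‖ ^ 2 := fun x c => by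
    have h1 := hg (Finsupp.single x c)
    rw [hN _ _ Finsupp.support_single_subset, sum_singleton, Finsupp.single_eq_same, ← hg',
      LinearMap.dualMap_apply, Finsupp.linearCombination_single, map_smul] at h1
    simpa only [sq, smul_eq_mul] using h1
  refine ⟨LinearMap.mk₂ ℝ (fun x y => g' fun ξ => ξ x * ξ y) (fun x x' y => ?_) (fun c x y => ?_)
    (fun x y y' => ?_) (fun c x y => ?_), fun x y => ?_, fun x => ⟨?_, ?_⟩⟩
  · rw [← map_add]; congr 1; funext ξ; simp [add_mul]
  · rw [← map_smul]; congr 1; funext ξ; simp [mul_assoc]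
  · rw [← map_add]; congr 1; funext ξ; simp [mul_add]
  · rw [← map_smul]; congr 1; funext ξ; simp [mul_left_comm]
  · simp only [LinearMap.mk₂_apply, mul_comm]
  · have := key x (-1)
    simp only [φ, max_eq_right (by norm_num : (-1 : ℝ) ≤ 0)] at this
    rw [LinearMap.mk₂_apply]
    linarith
  · have := key x 1
    simp only [φ, max_eq_left (by norm_num : (0 : ℝ) ≤ 1)] at this
    rw [LinearMap.mk₂_apply]
    linarith

end real

theorem hilbert_of_isK (𝕜 : Type) [RCLike 𝕜] (Z : Type) [NormedAddCommGroup Z] [NormedSpace 𝕜 Z]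
    [NormedSpace ℝ Z] [IsScalarTower ℝ 𝕜 Z] {K : ℝ} (h : IsK Z K) :
    ∃ (H : Type) (_ : NormedAddCommGroup H) (_ : InnerProductSpace 𝕜 H),
      Nonempty (Z ≃L[𝕜] H) := by
  obtain ⟨B, hs, hB⟩ := exists_form (le_max_right K 1) (h.mono (le_max_left _ _))
  have hK : 0 ≤ max K 1 := zero_le_one.trans (le_max_right _ _)
  generalize max K 1 = M at hB hK
  let i : Z →ₗ[ℝ] Z := (LinearMap.lsmul 𝕜 Z RCLike.I).restrictScalars ℝ
  have hi : ∀ x, i x = (RCLike.I : 𝕜) • x := fun _ => rfl
  let B' : Z →ₗ[ℝ] Z →ₗ[ℝ] ℝ := B + B.compl₁₂ i i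
  have hB' : ∀ x y, B' x y = B x y + B (i x) (i y) := fun _ _ => rfl
  have hs' : ∀ x y, B' x y = B' y x := fun x y => by rw [hB', hB', hs x, hs (i x)]
  have hcase : (RCLike.I : 𝕜) = 0 ∧ (∀ x, i x = 0) ∨
      (RCLike.I : 𝕜) * RCLike.I = -1 ∧ ∀ x, i (i x) = -x := by
    by_cases hI : (RCLike.I : 𝕜) = 0
    · exact Or.inl ⟨hI, fun x => by rw [hi, hI, zero_smul]⟩
    · have := RCLike.I_mul_I_of_nonzero hI
      exact Or.inr ⟨this, fun x => by rw [hi, hi, smul_smul, this, neg_one_smul]⟩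
  have anti : ∀ x y, B' (i x) y = -B' x (i y) := fun x y => by
    rcases hcase with ⟨-, h0⟩ | ⟨-, h0⟩
    · simp [h0]
    · simp [hB', h0]
  let inn : Z → Z → 𝕜 := fun x y => (B' x y : ℝ) - RCLike.I * (B' x (i y) : ℝ)
  have hre : ∀ x, RCLike.re (inn x x) = B' x x := fun x => by simp [inn]
  have hI : ∀ x y, inn (i x) y = -RCLike.I * inn x y := fun x y => by
    rcases hcase with ⟨h1, h0⟩ | ⟨h1, h0⟩
    · simp [inn, h0, h1]
    · simp only [inn, anti, h0, map_neg, neg_neg]
      linear_combination (-(B' x (i y) : 𝕜)) * h1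
  have hlo : ∀ x, ‖x‖ ^ 2 ≤ B' x x := fun x => by
    linarith [hB' x x, (hB x).1, (hB (i x)).1, sq_nonneg ‖i x‖]
  have hhi : ∀ x, B' x x ≤ 2 * M * ‖x‖ ^ 2 := fun x => by
    have h1 : ‖i x‖ ≤ ‖x‖ := by
      rw [hi, norm_smul]
      refine mul_le_of_le_one_left (norm_nonneg _) ?_
      by_cases hI : (RCLike.I : 𝕜) = 0
      · simp [hI]
      · exact (RCLike.norm_I_of_ne_zero hI).le
    have h2 := mul_le_mul_of_nonneg_left (pow_le_pow_left₀ (norm_nonneg _) h1 2) hK
    linarith [hB' x x, (hB x).2, (hB (i x)).2]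
  let c : InnerProductSpace.Core 𝕜 (WithLp 2 Z) :=
    { inner := fun x y => inn x.ofLp y.ofLp
      conj_inner_symm := fun x y => by
        simp only [inn, map_sub, map_mul, RCLike.conj_ofReal, RCLike.conj_I]
        rw [hs' y.ofLp (i _), anti, hs' y.ofLp]
        push_cast
        ring
      re_inner_nonneg := fun x => by rw [hre]; exact (sq_nonneg _).trans (hlo _)
      add_left := fun x y z => by
        simp only [inn, WithLp.ofLp_add, map_add, LinearMap.add_apply]
        ring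
      smul_left := fun x y r => by
        have e1 : (r • x).ofLp = RCLike.re r • x.ofLp + RCLike.im r • i x.ofLp := by
          rw [WithLp.ofLp_smul, hi, RCLike.real_smul_eq_coe_smul (K := 𝕜),
            RCLike.real_smul_eq_coe_smul (K := 𝕜), smul_smul, ← add_smul, RCLike.re_add_im]
        have e2 : inn (RCLike.re r • x.ofLp + RCLike.im r • i x.ofLp) y.ofLp =
            (RCLike.re r : ℝ) * inn x.ofLp y.ofLp + (RCLike.im r : ℝ) * inn (i x.ofLp) y.ofLp := by
          simp only [inn, map_add, map_smul, LinearMap.add_apply, LinearMap.smul_apply,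
            smul_eq_mul, map_mul]
          ring
        rw [e1, e2, hI, RCLike.conj_eq_re_sub_im]
        ring
      definite := fun x hx => by
        have h1 := hlo x.ofLp
        rw [← hre, show inn x.ofLp x.ofLp = 0 from hx, map_zero] at h1
        exact WithLp.ofLp_eq_zero 2 |>.1
          (norm_eq_zero.1 (pow_eq_zero_iff two_ne_zero |>.1 (le_antisymm h1 (sq_nonneg _)))) }
  let n : NormedAddCommGroup (WithLp 2 Z) := c.toNormedAddCommGroup
  let ip : InnerProductSpace 𝕜 (WithLp 2 Z) := InnerProductSpace.ofCore c.toCore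
  have hn : ∀ x : WithLp 2 Z, ‖x‖ = √(B' x.ofLp x.ofLp) := fun x => by rw [← hre]; rfl
  refine ⟨WithLp 2 Z, n, ip, ⟨(WithLp.linearEquiv 2 𝕜 Z).symm.toContinuousLinearEquivOfBounds
    √(2 * M) 1 (fun x => ?_) fun x => ?_⟩⟩
  · rw [hn, ← Real.sqrt_sq (norm_nonneg x), ← Real.sqrt_mul (by positivity)]
    exact Real.sqrt_le_sqrt (hhi x)
  · rw [hn, one_mul]
    exact Real.le_sqrt_of_sq_le (hlo _)

end Pool.Agent.P.MP_6b6f2e_an.L2
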