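import Pool.Agent.P.MP_6b6f2e_an.L2Defs

set_option autoImplicit false
set_option linter.unusedSectionVars false

namespace Pool.Agent.P.MP_6b6f2e_an.L2

open Finset
open scoped BigOperators

theorem le_of_sq_le_mul {a M : ℝ} (hM : 0 ≤ M) (h : a ^ 2 ≤ M * a) : a ≤ M := by
  by_contra hc
  nlinarith [not_le.1 hc]

theorem le_of_forall_mul_le {a M : ℝ} (hM : 0 ≤ M) (h : ∀ t < 1, t * a ≤ M) : a ≤ M := by
  by_contra hc
  have h1 := not_le.1 hc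
  have ha : 0 < a := hM.trans_lt h1
  have h2 := h ((M / a + 1) / 2) (by linarith [(div_lt_one ha).2 h1])
  have h3 : (M / a + 1) / 2 * a = (M + a) / 2 := by field_simp
  linarith

section real

variable {ι κ : Type} [Fintype ι] [Fintype κ]

theorem IsC.transpose {A : ι → κ → ℝ} {lam : ℝ} (h : IsC A lam) (hl : 0 ≤ lam) :
    IsC (fun j i => A i j) lam := by
  intro u
  set w : κ → ℝ := fun j => ∑ i, A i j * u i with hw
  have e : ∑ j, w j ^ 2 = ∑ i, u i * ∑ j, A i j * w j := by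
    simp only [mul_sum]
    rw [sum_comm]
    refine sum_congr rfl fun j _ => ?_
    rw [sq]
    nth_rewrite 1 [hw]
    rw [sum_mul]
    exact sum_congr rfl fun i _ => by ring
  have h1 := sum_mul_sq_le_sq_mul_sq univ u fun i => ∑ j, A i j * w j
  rw [← e] at h1
  have h2 := mul_le_mul_of_nonneg_left (h w) (by positivity : 0 ≤ ∑ i, u i ^ 2)
  refine le_of_sq_le_mul (by positivity) ?_
  change (∑ j, w j ^ 2) ^ 2 ≤ _ * ∑ j, w j ^ 2
  linarith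

variable {Y : Type} [NormedAddCommGroup Y] [NormedSpace ℝ Y]

theorem IsK.scale {K : ℝ} (h : IsK Y K) {A : ι → κ → ℝ} {lam : ℝ} (hl : 0 < lam)
    (hA : IsC A lam) (x : κ → Y) :
    ∑ i, ‖∑ j, A i j • x j‖ ^ 2 ≤ K * lam * ∑ j, ‖x j‖ ^ 2 := by
  have hc : 0 < √lam := Real.sqrt_pos.2 hl
  have hc2 : √lam ^ 2 = lam := Real.sq_sqrt hl.le
  generalize √lam = c at hc hc2
  subst hc2
  have h1 := h ι κ (fun i j => c⁻¹ * A i j) (fun v => by
    have := hA v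
    simp only [mul_assoc, ← mul_sum, mul_pow]
    rw [inv_pow, inv_mul_le_iff₀ hl]
    linarith) x
  simp only [mul_smul, ← smul_sum, norm_smul, mul_pow, ← mul_sum, norm_inv, Real.norm_eq_abs,
    inv_pow, sq_abs] at h1
  rw [inv_mul_le_iff₀ hl] at h1
  linarith

theorem IsK.mono {K K' : ℝ} (h : IsK Y K) (hK : K ≤ K') : IsK Y K' :=
  fun ι κ _ _ A hA x => (h ι κ A hA x).trans (mul_le_mul_of_nonneg_right hK (by positivity))

theorem rad_nonneg [DecidableEq ι] (x : ι → Y) : 0 ≤ rad x :=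
  expect_nonneg fun _ _ => by positivity

theorem RadBd.nonneg {J : Type} [DecidableEq J] {ξ : J → Y} {Γ : ℝ} (h : RadBd ξ Γ) : 0 ≤ Γ :=
  (rad_nonneg _).trans (h Empty Empty.elim Empty.elim fun j => by simp)

theorem RadBd.rad_le {J : Type} [Fintype J] [DecidableEq J] {ξ : J → Y} {Γ : ℝ} (h : RadBd ξ Γ) :
    rad ξ ≤ Γ := by
  simpa using h J id (fun _ => 1) fun j => by simp [filter_eq']

theorem IsGC.mono {C C' : ℝ} (h : IsGC Y C) (hC : C ≤ C') : IsGC Y C' :=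
  fun J _ _ ξ Γ hΓ => (h J ξ Γ hΓ).trans (mul_le_mul_of_nonneg_right hC hΓ.nonneg)

theorem exists_isK [FiniteDimensional ℝ Y] : ∃ K, 0 ≤ K ∧ IsK Y K := by
  let e := Module.finBasis ℝ Y
  let f : Fin (Module.finrank ℝ Y) → Y →L[ℝ] ℝ := fun l =>
    LinearMap.toContinuousLinearMap (e.coord l)
  have h1 : ∀ y : Y, ‖y‖ ^ 2 ≤ (∑ l, ‖e l‖ ^ 2) * ∑ l, f l y ^ 2 := fun y => by
    have h2 : ‖y‖ ≤ ∑ l, ‖e l‖ * |f l y| := by
      nth_rewrite 1 [← e.sum_repr y]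
      refine (norm_sum_le _ _).trans (le_of_eq (sum_congr rfl fun l _ => ?_))
      rw [norm_smul, mul_comm]
      rfl
    have h3 := sum_mul_sq_le_sq_mul_sq univ (fun l => ‖e l‖) fun l => |f l y|
    simp only [sq_abs] at h3
    exact (pow_le_pow_left₀ (norm_nonneg _) h2 2).trans h3
  refine ⟨(∑ l, ‖e l‖ ^ 2) * ∑ l, ‖f l‖ ^ 2, by positivity, fun ι κ _ _ A hA x => ?_⟩
  refine (sum_le_sum fun i _ => h1 _).trans ?_
  rw [← mul_sum, mul_assoc]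
  refine mul_le_mul_of_nonneg_left ?_ (by positivity)
  rw [sum_comm, sum_mul]
  refine sum_le_sum fun l _ => ?_
  simp only [map_sum, map_smul, smul_eq_mul]
  refine (hA fun j => f l (x j)).trans ?_
  rw [one_mul, mul_sum]
  refine sum_le_sum fun j _ => ?_
  rw [← mul_pow, ← sq_abs]
  exact pow_le_pow_left₀ (abs_nonneg _) ((f l).le_opNorm (x j)) 2

theorem isK_of_subsingleton (h : ∀ y : Y, y = 0) (K : ℝ) : IsK Y K := by
  intro ι κ _ _ A _ x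
  have : ∀ y : Y, ‖y‖ = 0 := fun y => by rw [h y, norm_zero]
  simp [this]

theorem IsK.dual {Y' : Type} [NormedAddCommGroup Y'] [NormedSpace ℝ Y']
    {B : Y →ₗ[ℝ] Y' →ₗ[ℝ] ℝ} (hB : Pair B) {K : ℝ} (hK : 0 ≤ K) (h : IsK Y K) : IsK Y' K := by
  intro ι κ _ _ A hA ξ
  set y : ι → Y' := fun i => ∑ j, A i j • ξ j with hy
  choose e he1 he2 using fun i => hB.right (y i)
  let x : ι → Y := fun i => ‖y i‖ • e i
  have hx : ∑ i, ‖x i‖ ^ 2 ≤ ∑ i, ‖y i‖ ^ 2 := sum_le_sum fun i _ => by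
    refine pow_le_pow_left₀ (norm_nonneg _) ?_ 2
    rw [norm_smul, norm_norm]
    exact mul_le_of_le_one_right (norm_nonneg _) (he1 i)
  have e1 : ∑ i, ‖y i‖ ^ 2 = ∑ j, B (∑ i, A i j • x i) (ξ j) := by
    have : ∀ i, ‖y i‖ ^ 2 = B (x i) (y i) := fun i => by
      simp only [x, map_smul, LinearMap.smul_apply, he2, smul_eq_mul, sq]
      rfl
    simp only [this]
    simp only [hy, map_sum, map_smul, LinearMap.sum_apply, LinearMap.smul_apply]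
    exact sum_comm
  have h1 : ∑ i, ‖y i‖ ^ 2 ≤ ∑ j, ‖∑ i, A i j • x i‖ * ‖ξ j‖ := by
    rw [e1]
    exact sum_le_sum fun j _ => (le_abs_self _).trans (hB.le _ _)
  have h2 := (pow_le_pow_left₀ (by positivity) h1 2).trans (sum_mul_sq_le_sq_mul_sq _ _ _)
  have h3 := (h κ ι _ (hA.transpose zero_le_one) x).trans (mul_le_mul_of_nonneg_left hx hK)
  have h4 := mul_le_mul_of_nonneg_right h3 (by positivity : 0 ≤ ∑ j, ‖ξ j‖ ^ 2)
  refine le_of_sq_le_mul (by positivity) ?_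
  change (∑ i, ‖y i‖ ^ 2) ^ 2 ≤ _ * ∑ i, ‖y i‖ ^ 2
  linarith

theorem hasSum_sq {E : ℕ → Type} [∀ n, NormedAddCommGroup (E n)] (y : lp E 2) :
    HasSum (fun n => ‖y n‖ ^ 2) (‖y‖ ^ 2) := by
  simpa using lp.hasSum_norm (p := 2) (by simp) y

theorem isK_lp {E : ℕ → Type} [∀ n, NormedAddCommGroup (E n)] [∀ n, NormedSpace ℝ (E n)] {K : ℝ}
    (h : ∀ n, IsK (E n) K) : IsK (lp E 2) K := by
  intro ι κ _ _ A hA x
  refine hasSum_le (fun n => ?_) (hasSum_sum fun i _ => hasSum_sq (∑ j, A i j • x j))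
    ((hasSum_sum fun j _ => hasSum_sq (x j)).mul_left K)
  have := h n ι κ A hA fun j => x j n
  simpa only [lp.coeFn_sum, Finset.sum_apply, lp.coeFn_smul, Pi.smul_apply] using this

end real

section pair

variable {𝕜 : Type} [RCLike 𝕜] {F F' : Type} [NormedAddCommGroup F] [NormedSpace 𝕜 F]
  [NormedAddCommGroup F'] [NormedSpace 𝕜 F']

theorem Pair.flip {B : F →ₗ[𝕜] F' →ₗ[𝕜] 𝕜} (hB : Pair B) : Pair B.flip :=
  ⟨fun x ξ => (hB.le ξ x).trans_eq (mul_comm _ _), hB.right, hB.left⟩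

theorem exists_phase (c : 𝕜) : ∃ u : 𝕜, ‖u‖ = 1 ∧ u * c = (‖c‖ : ℝ) := by
  by_cases hc : c = 0
  · exact ⟨1, norm_one, by simp [hc]⟩
  · have h : ‖c‖ ≠ 0 := norm_ne_zero_iff.2 hc
    refine ⟨(‖c‖ : ℝ) / c, ?_, div_mul_cancel₀ _ hc⟩
    rw [norm_div, RCLike.norm_ofReal, abs_norm, div_self h]

theorem pair_ev [FiniteDimensional 𝕜 F] : Pair (ev 𝕜 F) := by
  refine ⟨fun x φ => (φ.le_opNorm x).trans_eq (mul_comm _ _), fun x => exists_dual_vector'' 𝕜 x,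
    fun φ => ?_⟩
  have := FiniteDimensional.proper_rclike 𝕜 F
  obtain ⟨x, hx, hm⟩ := (isCompact_closedBall (0 : F) 1).exists_isMaxOn
    ⟨0, Metric.mem_closedBall_self zero_le_one⟩ (f := fun x => ‖φ x‖) (by fun_prop)
  rw [mem_closedBall_zero_iff] at hx
  have h1 : ‖φ x‖ = ‖φ‖ := by
    refine le_antisymm (φ.unit_le_opNorm x hx) (not_lt.1 fun hlt => ?_)
    obtain ⟨y, hy, hy'⟩ := φ.exists_lt_apply_of_lt_opNorm hlt
    exact hy'.not_ge (hm (mem_closedBall_zero_iff.2 hy.le))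
  obtain ⟨u, hu, hu'⟩ := exists_phase (φ x)
  refine ⟨u • x, by rwa [norm_smul, hu, one_mul], ?_⟩
  rw [ev_apply, map_smul, smul_eq_mul, hu', h1]

theorem Pair.exists_real [NormedSpace ℝ F] [IsScalarTower ℝ 𝕜 F] [NormedSpace ℝ F']
    [IsScalarTower ℝ 𝕜 F'] {B : F →ₗ[𝕜] F' →ₗ[𝕜] 𝕜} (hB : Pair B) :
    ∃ B' : F →ₗ[ℝ] F' →ₗ[ℝ] ℝ, Pair B' := by
  refine ⟨LinearMap.mk₂ ℝ (fun x ξ => RCLike.re (B x ξ)) (fun _ _ _ => by simp)
    (fun c x ξ => ?_) (fun _ _ _ => by simp) (fun c x ξ => ?_), fun x ξ => ?_, fun x => ?_,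
    fun ξ => ?_⟩
  · rw [RCLike.real_smul_eq_coe_smul (K := 𝕜), map_smul, LinearMap.smul_apply, smul_eq_mul,
      RCLike.re_ofReal_mul, smul_eq_mul]
  · rw [RCLike.real_smul_eq_coe_smul (K := 𝕜), map_smul, smul_eq_mul,
      RCLike.re_ofReal_mul, smul_eq_mul]
  · exact (RCLike.abs_re_le_norm _).trans (hB.le x ξ)
  · obtain ⟨ξ, h1, h2⟩ := hB.left x
    exact ⟨ξ, h1, by simp [h2]⟩
  · obtain ⟨x, h1, h2⟩ := hB.right ξ
    exact ⟨x, h1, by simp [h2]⟩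

theorem Pair.piB_le {B : F →ₗ[𝕜] F' →ₗ[𝕜] 𝕜} (hB : Pair B) (Ω : Type) [Fintype Ω]
    (u : PiLp 2 (fun _ : Ω => F)) (v : PiLp 2 (fun _ : Ω => F')) :
    ‖piB B Ω u v‖ ≤ ‖u‖ * ‖v‖ := by
  refine (abs_le_of_sq_le_sq' ?_ (by positivity)).2
  rw [mul_pow, PiLp.norm_sq_eq_of_L2, PiLp.norm_sq_eq_of_L2]
  refine le_trans (pow_le_pow_left₀ (norm_nonneg _) ?_ 2) (sum_mul_sq_le_sq_mul_sq _ _ _)
  exact (norm_sum_le _ _).trans (sum_le_sum fun ω _ => hB.le _ _)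

/-- Functionals that are jointly bounded on an `ℓ_2`-sum have square-summable norms. -/
theorem sum_norm_sq_le {I : Type} (s : Finset I) {P : I → Type} [∀ i, NormedAddCommGroup (P i)]
    [∀ i, NormedSpace 𝕜 (P i)] (w : ∀ i, P i →L[𝕜] 𝕜) {M : ℝ} (hM : 0 ≤ M)
    (h : ∀ z : ∀ i, P i, ‖∑ i ∈ s, w i (z i)‖ ^ 2 ≤ M * ∑ i ∈ s, ‖z i‖ ^ 2) :
    ∑ i ∈ s, ‖w i‖ ^ 2 ≤ M := by
  refine le_of_forall_mul_le hM fun t ht => ?_
  rcases le_or_gt t 0 with ht0 | ht0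
  · exact (mul_nonpos_of_nonpos_of_nonneg ht0 (by positivity)).trans hM
  have hq : 0 < √t := Real.sqrt_pos.2 ht0
  have hq1 : √t < 1 := by rwa [Real.sqrt_lt' one_pos, one_pow]
  rw [← Real.sq_sqrt ht0.le]
  generalize √t = q at hq hq1
  have key : ∀ i, ∃ (y : P i) (a : ℝ), ‖y‖ ≤ ‖w i‖ ∧ q * ‖w i‖ ^ 2 ≤ a ∧ w i y = a := fun i => by
    rcases (norm_nonneg (w i)).eq_or_lt with h0 | h0
    · exact ⟨0, 0, by simp, by simp [← h0], by simp⟩
    obtain ⟨y, hy, hy'⟩ := (w i).exists_lt_apply_of_lt_opNorm (mul_lt_of_lt_one_left h0 hq1)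
    obtain ⟨u, hu, hu'⟩ := exists_phase (w i y)
    refine ⟨((‖w i‖ : ℝ) : 𝕜) • u • y, ‖w i‖ * ‖w i y‖, ?_, by nlinarith, ?_⟩
    · rw [norm_smul, norm_smul, hu, one_mul, RCLike.norm_ofReal, abs_norm]
      exact mul_le_of_le_one_right h0.le hy.le
    · rw [map_smul, map_smul, smul_eq_mul, smul_eq_mul, hu', RCLike.ofReal_mul]
  choose y a h1 h2 h3 using key
  have h4 := h y
  simp only [h3] at h4
  rw [← RCLike.ofReal_sum, RCLike.norm_ofReal, sq_abs] at h4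
  have h5 : q * ∑ i ∈ s, ‖w i‖ ^ 2 ≤ ∑ i ∈ s, a i := by
    rw [mul_sum]; exact sum_le_sum fun i _ => h2 i
  have h6 : ∑ i ∈ s, ‖y i‖ ^ 2 ≤ ∑ i ∈ s, ‖w i‖ ^ 2 :=
    sum_le_sum fun i _ => pow_le_pow_left₀ (norm_nonneg _) (h1 i) 2
  have h7 := (pow_le_pow_left₀ (by positivity) h5 2).trans
    (h4.trans (mul_le_mul_of_nonneg_left h6 hM))
  refine le_of_sq_le_mul hM ?_
  have h8 := mul_le_mul_of_nonneg_left h7 (sq_nonneg q)
  calc (q ^ 2 * ∑ i ∈ s, ‖w i‖ ^ 2) ^ 2 = q ^ 2 * (q * ∑ i ∈ s, ‖w i‖ ^ 2) ^ 2 := by ring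
    _ ≤ _ := h8.trans_eq (by ring)

theorem exists_coords (𝕜 : Type) [RCLike 𝕜] (P : Type) [NormedAddCommGroup P] [NormedSpace 𝕜 P]
    [FiniteDimensional 𝕜 P] :
    ∃ (n : ℕ) (e : Fin n → P) (f : Fin n → P →L[𝕜] 𝕜), ∀ y, ∑ i, f i y • e i = y :=
  ⟨_, Module.finBasis 𝕜 P,
    fun i => LinearMap.toContinuousLinearMap ((Module.finBasis 𝕜 P).coord i),
    (Module.finBasis 𝕜 P).sum_repr⟩

variable {E : ℕ → Type} [∀ m, NormedAddCommGroup (E m)] [∀ m, NormedSpace 𝕜 (E m)]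

theorem Into.mono {s t : Finset ℕ} {U : ∀ m, F →L[𝕜] E m} (h : Into s U) (hts : t ⊆ s) :
    Into t U :=
  fun x => (sum_le_sum_of_subset_of_nonneg hts fun _ _ _ => sq_nonneg _).trans (h x)

theorem Out.mono {s t : Finset ℕ} {V : ∀ m, E m →L[𝕜] F} {C : ℝ} (h : Out s V C) (hts : t ⊆ s) :
    Out t V C := fun z => by
  have := h fun m => if m ∈ t then z m else 0
  simpa only [apply_ite (V _), map_zero, apply_ite norm, norm_zero, ite_pow,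
    zero_pow two_ne_zero, sum_ite_mem, inter_eq_right.2 hts] using this

end pair

end Pool.Agent.P.MP_6b6f2e_an.L2
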