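import Pool.Agent.P.MP_6b6f2e_an.L2Av

set_option autoImplicit false
set_option linter.unusedSectionVars false

namespace Pool.Agent.P.MP_6b6f2e_an.L2

open Finset
open scoped BigOperators

section real

variable {Y J : Type} [NormedAddCommGroup Y] [NormedSpace ℝ Y] [Fintype J] [DecidableEq J]
  {ι : Type} [Fintype ι] [DecidableEq ι]

/-- The mean square of `∑ b i • Y i` for independent copies `Y i` of `± ξ I`. -/
noncomputable def nq (ξ : J → Y) (b : ι → ℝ) : ℝ :=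
  𝔼 ω : ι → Bool × J, ‖∑ i, (b i * sn (ω i).1) • ξ (ω i).2‖ ^ 2

theorem nq_eq (ξ : J → Y) (b : ι → ℝ) : nq ξ b = 𝔼 I : ι → J, rad fun i => b i • ξ (I i) := by
  rw [nq, Fintype.expect_equiv (Equiv.arrowProdEquivProdArrow ι (fun _ => Bool) fun _ => J)
    (fun ω => ‖∑ i, (b i * sn (ω i).1) • ξ (ω i).2‖ ^ 2)
    (fun p => ‖∑ i, (b i * sn (p.1 i)) • ξ (p.2 i)‖ ^ 2) fun _ => rfl, ← univ_product_univ,
    expect_product, expect_comm]
  simp only [rad, smul_smul, mul_comm]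

theorem RadBd.scale {ξ : J → Y} {Γ lam : ℝ} (h : RadBd ξ Γ) (hl : 0 < lam) (I : ι → J) (b : ι → ℝ)
    (hb : ∀ j, ∑ t ∈ univ.filter (fun t => I t = j), b t ^ 2 ≤ lam) :
    rad (fun t => b t • ξ (I t)) ≤ lam * Γ := by
  have hc : 0 < √lam := Real.sqrt_pos.2 hl
  have hc2 : √lam ^ 2 = lam := Real.sq_sqrt hl.le
  generalize √lam = c at hc hc2
  subst hc2
  have h1 := h ι I (fun t => c⁻¹ * b t) fun j => by
    simp only [mul_pow, ← mul_sum]
    rw [inv_pow, inv_mul_le_iff₀ hl, mul_one]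
    exact hb j
  simp only [rad, mul_smul, smul_comm (sn _) c⁻¹, ← smul_sum, norm_smul, mul_pow, ← mul_expect,
    norm_inv, Real.norm_eq_abs, inv_pow, sq_abs] at h1
  rwa [inv_mul_le_iff₀ hl] at h1

theorem nq_le [Nonempty J] {ξ : J → Y} {Γ : ℝ} (h : RadBd ξ Γ) {b : ι → ℝ}
    (hb : ∑ i, b i ^ 2 ≤ 1) : nq ξ b ≤ Γ := by
  rw [nq_eq]
  exact expect_le univ_nonempty fun I _ => h ι I b fun j =>
    (sum_le_sum_of_subset_of_nonneg (filter_subset _ _) fun _ _ _ => sq_nonneg _).trans hb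

theorem nq_flat [Nonempty J] {ξ : J → Y} {Γ : ℝ} (h : RadBd ξ Γ) {b : ι → ℝ}
    (hb : ∑ i, b i ^ 2 ≤ 1) (hb' : ∀ i, |b i| ≤ 1 / Fintype.card J) :
    nq ξ b ≤ 3 / Fintype.card J * Γ := by
  have hm : (0 : ℝ) < Fintype.card J := by exact_mod_cast Fintype.card_pos
  set m : ℝ := (Fintype.card J : ℝ) with hm'
  let f : J → ι → J → ℝ := fun j i a => b i ^ 2 * ((if a = j then 1 else 0) - 1 / m)
  have h1 : ∀ I : ι → J, rad (fun i => b i • ξ (I i)) ≤
      (2 / m + m * ∑ j, (∑ i, f j i (I i)) ^ 2) * Γ := fun I => by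
    refine h.scale (by positivity) I b fun j => ?_
    have e1 : ∑ t ∈ univ.filter (fun t => I t = j), b t ^ 2 =
        ∑ i, f j i (I i) + (∑ i, b i ^ 2) * (1 / m) := by
      simp only [f, mul_sub, sum_sub_distrib, ← sum_mul, sum_filter, mul_ite, mul_one, mul_zero,
        sub_add_cancel]
    have e2 := mul_le_mul_of_nonneg_left (single_le_sum
      (fun j _ => sq_nonneg (∑ i, f j i (I i))) (mem_univ j)) hm.le
    have e3 := mul_le_mul_of_nonneg_right hb (by positivity : 0 ≤ 1 / m)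
    have e4 : ∑ i, f j i (I i) ≤ 1 / m + m * (∑ i, f j i (I i)) ^ 2 := by
      generalize ∑ i, f j i (I i) = w
      refine le_of_mul_le_mul_left ?_ hm
      rw [mul_add, mul_one_div_cancel hm.ne']
      nlinarith [sq_nonneg (m * w - 1), sq_nonneg (m * w)]
    have e5 : 2 / m = 1 / m + 1 / m := by ring
    linarith
  have h2 : 𝔼 I : ι → J, ∑ j, (∑ i, f j i (I i)) ^ 2 ≤ (1 / m) ^ 2 := by
    rw [expect_sum_comm]
    refine (sum_le_sum fun j _ => expect_sum_sq_le (f j)).trans ?_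
    have e1 : ∀ j i, 𝔼 a, f j i a = 0 := fun j i => by
      simp only [f, ← mul_expect, expect_sub_distrib, Fintype.expect_const]
      rw [Fintype.expect_eq_sum_div_card, sum_ite_eq', if_pos (mem_univ _), sub_self, mul_zero]
    simp only [e1, sum_const_zero, ne_eq, OfNat.ofNat_ne_zero, not_false_eq_true, zero_pow,
      zero_add]
    rw [sum_comm]
    refine le_trans (sum_le_sum fun i _ => ?_ : _ ≤ ∑ i, (1 / m) ^ 2 * b i ^ 2) ?_
    · rw [← expect_sum_comm]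
      refine expect_le univ_nonempty fun a _ => ?_
      have e2 : ∀ j, ((if a = j then 1 else 0) - 1 / m) ^ 2 =
          (if a = j then 1 - 2 / m else 0) + (1 / m) ^ 2 := fun j => by split_ifs <;> ring
      have e3 : ∑ j, ((if a = j then 1 else 0) - 1 / m) ^ 2 ≤ 1 := by
        simp only [e2, sum_add_distrib, sum_ite_eq, mem_univ, if_true, sum_const, card_univ,
          nsmul_eq_mul, ← hm']
        have : m * (1 / m) ^ 2 = 1 / m := by field_simp
        have e5 : 2 / m = 1 / m + 1 / m := by ring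
        linarith [one_div_pos.2 hm]
      have e4 := pow_le_pow_left₀ (abs_nonneg _) (hb' i) 2
      rw [sq_abs] at e4
      simp only [f, mul_pow, ← mul_sum]
      refine (mul_le_of_le_one_right (by positivity) e3).trans ?_
      rw [sq (b i ^ 2)]
      exact mul_le_mul_of_nonneg_right e4 (sq_nonneg _)
    · rw [← mul_sum]
      exact mul_le_of_le_one_right (by positivity) hb
  rw [nq_eq]
  refine (expect_le_expect fun I _ => h1 I).trans ?_
  rw [← expect_mul, expect_add_distrib, Fintype.expect_const, ← mul_expect]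
  refine mul_le_mul_of_nonneg_right ?_ h.nonneg
  refine (add_le_add_right (mul_le_mul_of_nonneg_left h2 hm.le) _).trans (le_of_eq ?_)
  field_simp
  norm_num

theorem nq_one [Nonempty J] (ξ : J → Y) :
    nq ξ (fun _ : Unit => 1) = (∑ j, ‖ξ j‖ ^ 2) / Fintype.card J := by
  rw [nq_eq]
  simp only [rad, Fintype.sum_unique, one_smul, norm_smul, Real.norm_eq_abs, abs_sn, one_mul,
    Fintype.expect_const]
  rw [expect_eval (default : Unit) fun j => ‖ξ j‖ ^ 2, Fintype.expect_eq_sum_div_card]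

theorem nq_prod {S : Type} [Fintype S] [DecidableEq S] (ξ : J → Y) (b : S → ℝ) (c : ι → ℝ) :
    nq ξ (fun p : S × ι => b p.1 * c p.2) = 𝔼 ω : S → ι → Bool × J,
      ‖∑ s, b s • ∑ i, (c i * sn (ω s i).1) • ξ (ω s i).2‖ ^ 2 := by
  refine Fintype.expect_equiv (Equiv.curry S ι (Bool × J)) _ _ fun ω => ?_
  simp only [Fintype.sum_prod_type, smul_sum, smul_smul, mul_assoc, Equiv.curry_apply,
    Function.curry_apply]

theorem exists_eta {ξ : J → Y} {Γ C θ : ℝ} (hΓ : RadBd ξ Γ) (hlt : C * Γ < ∑ j, ‖ξ j‖ ^ 2)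
    (hθ : 0 < θ) (hC : 3 ≤ C * θ ^ 2) : ∃ β : ℝ, 0 < β ∧
      ∃ (A : Type) (_ : Fintype A) (_ : Nonempty A) (η : A → Y), ∑ a, η a = 0 ∧
        1 / 4 ≤ 𝔼 a, ‖η a‖ ^ 2 ∧ ∀ (S : Type) [Fintype S] [DecidableEq S] (b : S → ℝ),
          ∑ s, b s ^ 2 ≤ 1 → 𝔼 ω : S → A, ‖∑ s, b s • η (ω s)‖ ^ 2 ≤ 1 ∧
            ((∀ s, |b s| ≤ β) → 𝔼 ω : S → A, ‖∑ s, b s • η (ω s)‖ ^ 2 ≤ θ ^ 2) := by
  have hΓ0 := hΓ.nonneg
  have hC0 : 0 < C := by
    by_contra hh
    nlinarith [sq_pos_of_pos hθ, not_lt.1 hh]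
  have hq : 0 < ∑ j, ‖ξ j‖ ^ 2 := (mul_nonneg hC0.le hΓ0).trans_lt hlt
  have : Nonempty J := by
    by_contra hJ
    rw [not_nonempty_iff] at hJ
    simp at hq
  have hm : (0 : ℝ) < Fintype.card J := by exact_mod_cast Fintype.card_pos
  let R : Set ℝ := {r | ∃ (ι : Type) (_ : Fintype ι) (_ : DecidableEq ι) (b : ι → ℝ),
    ∑ i, b i ^ 2 ≤ 1 ∧ r = nq ξ b}
  have hR : BddAbove R := ⟨Γ, fun r ⟨ι, _, _, b, hb, hr⟩ => hr ▸ nq_le hΓ hb⟩
  have h1 : (∑ j, ‖ξ j‖ ^ 2) / Fintype.card J ∈ R :=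
    ⟨Unit, inferInstance, inferInstance, fun _ => 1, by simp, (nq_one ξ).symm⟩
  have h2 := le_csSup hR h1
  have hρ : 0 < sSup R := (div_pos hq hm).trans_le h2
  obtain ⟨_, ⟨ι, _, _, c, hc, rfl⟩, h3⟩ := exists_lt_of_lt_csSup ⟨_, h1⟩
    (by linarith : sSup R / 4 < sSup R)
  obtain ⟨t, ht⟩ : ∃ t : ℝ, t ^ 2 * sSup R = 1 :=
    ⟨√(1 / sSup R), by rw [Real.sq_sqrt (by positivity), one_div_mul_cancel hρ.ne']⟩
  refine ⟨1 / Fintype.card J, by positivity, ι → Bool × J, inferInstance, inferInstance,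
    fun ω => t • ∑ i, (c i * sn (ω i).1) • ξ (ω i).2, ?_, ?_, fun S _ _ b hb => ?_⟩
  · have hi : Function.Involutive fun (ω : ι → Bool × J) i => (!(ω i).1, (ω i).2) := fun ω => by
      simp
    have h4 := Equiv.sum_comp hi.toPerm fun ω => t • ∑ i, (c i * sn (ω i).1) • ξ (ω i).2
    simp only [Function.Involutive.coe_toPerm, sn_not, mul_neg, neg_smul, sum_neg_distrib,
      smul_neg] at h4
    exact (smul_eq_zero.1 ((two_smul ℝ _).trans (neg_eq_iff_add_eq_zero.1 h4))).resolve_left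
      two_ne_zero
  · simp only [norm_smul, mul_pow, Real.norm_eq_abs, sq_abs, ← mul_expect]
    rw [nq] at h3
    nlinarith [mul_le_mul_of_nonneg_left h3.le (sq_nonneg t)]
  · simp only [smul_comm (b _) t, ← smul_sum, norm_smul, mul_pow, Real.norm_eq_abs, sq_abs,
      ← mul_expect, ← nq_prod]
    have h4 : ∑ p : S × ι, (b p.1 * c p.2) ^ 2 ≤ 1 := by
      simp only [Fintype.sum_prod_type, mul_pow, ← mul_sum, ← sum_mul]
      exact mul_le_one₀ hb (by positivity) hc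
    refine ⟨?_, fun hb' => ?_⟩
    · rw [← ht]
      exact mul_le_mul_of_nonneg_left (le_csSup hR ⟨_, _, _, _, h4, rfl⟩) (sq_nonneg _)
    · have h5 := nq_flat hΓ h4 fun p => by
        rw [abs_mul]
        refine (mul_le_of_le_one_right (abs_nonneg _) ?_).trans (hb' _)
        exact sq_le_one_iff_abs_le_one _ |>.1
          ((single_le_sum (fun i _ => sq_nonneg (c i)) (mem_univ p.2)).trans hc)
      have h6 : 3 / Fintype.card J * Γ ≤ θ ^ 2 * sSup R := by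
        refine le_trans ?_ (mul_le_mul_of_nonneg_left h2 (sq_nonneg θ))
        rw [div_mul_eq_mul_div, ← mul_div_assoc]
        refine div_le_div_of_nonneg_right ?_ hm.le
        nlinarith [mul_le_mul_of_nonneg_left hlt.le (sq_nonneg θ)]
      calc _ ≤ t ^ 2 * (θ ^ 2 * sSup R) := mul_le_mul_of_nonneg_left (h5.trans h6) (sq_nonneg _)
        _ = θ ^ 2 := by rw [mul_left_comm, ht, mul_one]

end real

variable {𝕜 : Type} [RCLike 𝕜] {F F' : Type} [NormedAddCommGroup F] [NormedSpace 𝕜 F]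
  [NormedAddCommGroup F'] [NormedSpace 𝕜 F'] [NormedSpace ℝ F'] [IsScalarTower ℝ 𝕜 F']

section coef

variable {B : F →ₗ[𝕜] F' →ₗ[𝕜] 𝕜} (hB : ∀ x ξ, ‖B x ξ‖ ≤ ‖x‖ * ‖ξ‖) {S : Type} [Fintype S]
  [DecidableEq S] {h : S → F'}

include hB

theorem coef_le {β θ M : ℝ} (hβ : 0 ≤ β) (hM : 0 < M)
    (H : ∀ b : S → ℝ, ∑ s, b s ^ 2 ≤ 1 → (∀ s, |b s| ≤ β) → ‖∑ s, b s • h s‖ ≤ θ) (u : F)
    (A : Finset S) (h1 : ∑ s ∈ A, RCLike.re (B u (h s)) ^ 2 ≤ M ^ 2)
    (h2 : ∀ s ∈ A, |RCLike.re (B u (h s))| ≤ β * M) :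
    ∑ s ∈ A, RCLike.re (B u (h s)) ^ 2 ≤ M * (‖u‖ * θ) := by
  let b : S → ℝ := fun s => if s ∈ A then RCLike.re (B u (h s)) / M else 0
  have h3 := H b (by
      simp only [b, ite_pow, zero_pow two_ne_zero, sum_ite_mem, univ_inter, div_pow, ← sum_div]
      exact (div_le_one (by positivity)).2 h1) fun s => by
    simp only [b]
    split_ifs with hs
    · rw [abs_div, abs_of_pos hM, div_le_iff₀ hM]
      exact h2 s hs
    · rwa [abs_zero]
  have h4 : RCLike.re (B u (∑ s, b s • h s)) = (∑ s ∈ A, RCLike.re (B u (h s)) ^ 2) / M := by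
    simp only [RCLike.real_smul_eq_coe_smul (K := 𝕜), map_sum, map_smul, smul_eq_mul,
      RCLike.re_ofReal_mul, b, ite_mul, zero_mul, sum_ite_mem, univ_inter, sum_div, sq,
      div_mul_eq_mul_div]
  rw [mul_comm, ← div_le_iff₀ hM, ← h4]
  exact (RCLike.re_le_norm _).trans
    ((hB _ _).trans (mul_le_mul_of_nonneg_left h3 (norm_nonneg _)))

theorem src_of {x : S → F} {β θ : ℝ} (hβ : 0 ≤ β) (hθ : 0 ≤ θ)
    (bi : ∀ s t, B (x s) (h t) = if s = t then 1 else 0) (xle : ∀ s, ‖x s‖ ≤ 2)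
    (H : ∀ b : S → ℝ, ∑ s, b s ^ 2 ≤ 1 →
      ‖∑ s, b s • h s‖ ≤ 1 ∧ ((∀ s, |b s| ≤ β) → ‖∑ s, b s • h s‖ ≤ θ)) :
    Src B h x β (2 * θ) := by
  have up : ∀ u, ∑ s, RCLike.re (B u (h s)) ^ 2 ≤ ‖u‖ ^ 2 := fun u => by
    have h0 : 0 ≤ ∑ s, RCLike.re (B u (h s)) ^ 2 := by positivity
    rcases h0.eq_or_lt with h1 | h1
    · rw [← h1]; positivity
    have h2 := coef_le hB zero_le_one (Real.sqrt_pos.2 h1) (fun b hb _ => (H b hb).1) u univ
      (Real.sq_sqrt h0).ge fun s hs => by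
        rw [one_mul]
        exact Real.abs_le_sqrt (single_le_sum (fun s _ => sq_nonneg (RCLike.re (B u (h s)))) hs)
    rw [← Real.sq_sqrt h0]
    refine pow_le_pow_left₀ (Real.sqrt_nonneg _) (le_of_sq_le_mul (norm_nonneg _) ?_) 2
    rw [Real.sq_sqrt h0]
    linarith
  have hI : ‖(RCLike.I : 𝕜)‖ ≤ 1 := by
    by_cases hI : (RCLike.I : 𝕜) = 0
    · simp [hI]
    · exact (RCLike.norm_I_of_ne_zero hI).le
  have hIu : ∀ u : F, ‖(RCLike.I : 𝕜) • u‖ ≤ ‖u‖ := fun u => by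
    rw [norm_smul]; exact mul_le_of_le_one_left (norm_nonneg _) hI
  have e : ∀ u s, ‖B u (h s)‖ ^ 2 =
      RCLike.re (B u (h s)) ^ 2 + RCLike.re (B ((RCLike.I : 𝕜) • u) (h s)) ^ 2 := fun u s => by
    rw [map_smul, LinearMap.smul_apply, smul_eq_mul, RCLike.I_mul_re, RCLike.norm_sq_eq_def]
    ring
  refine ⟨bi, xle, fun u => ?_, fun u A hA => ?_⟩
  · simp only [e, sum_add_distrib]
    linarith [up u, up ((RCLike.I : 𝕜) • u), pow_le_pow_left₀ (norm_nonneg _) (hIu u) 2]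
  · rcases (norm_nonneg u).eq_or_lt with h0 | h0
    · simp [norm_eq_zero.1 h0.symm]
    have sub : ∀ v, ∑ s ∈ A, RCLike.re (B v (h s)) ^ 2 ≤ ‖v‖ ^ 2 := fun v =>
      (sum_le_sum_of_subset_of_nonneg (subset_univ _) fun _ _ _ => sq_nonneg _).trans (up v)
    have h1 := coef_le hB hβ h0 (fun b hb => (H b hb).2) u A (sub u) fun s hs =>
      (RCLike.abs_re_le_norm _).trans (hA s hs)
    have h2 := coef_le hB hβ h0 (fun b hb => (H b hb).2) ((RCLike.I : 𝕜) • u) A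
      ((sub _).trans (pow_le_pow_left₀ (norm_nonneg _) (hIu u) 2)) fun s hs => by
        refine (RCLike.abs_re_le_norm _).trans (le_trans ?_ (hA s hs))
        rw [map_smul, LinearMap.smul_apply, norm_smul]
        exact mul_le_of_le_one_left (norm_nonneg _) hI
    simp only [e, sum_add_distrib]
    nlinarith [mul_le_mul_of_nonneg_left (hIu u) (mul_nonneg h0.le hθ)]

end coef

theorem source {B : F →ₗ[𝕜] F' →ₗ[𝕜] 𝕜} (hB : Pair B) {J : Type} [Fintype J] [DecidableEq J]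
    {ξ : J → F'} {Γ C θ : ℝ} (hΓ : RadBd ξ Γ) (hlt : C * Γ < ∑ j, ‖ξ j‖ ^ 2) (hθ : 0 < θ)
    (hC : 3 ≤ C * θ ^ 2) : ∃ β : ℝ, 0 < β ∧ ∀ (S : Type) [Fintype S] [DecidableEq S],
      ∃ (Ω : Type) (_ : Fintype Ω) (h : S → PiLp 2 (fun _ : Ω => F'))
        (x : S → PiLp 2 (fun _ : Ω => F)), Src (piB B Ω) h x β (2 * θ) := by
  obtain ⟨β, hβ, A, _, _, η, h0, hq, H⟩ := exists_eta hΓ hlt hθ hC
  refine ⟨β, hβ, fun S _ _ => ?_⟩
  have hΩ : (0 : ℝ) < Fintype.card (S → A) := by exact_mod_cast Fintype.card_pos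
  obtain ⟨a, ha⟩ : ∃ a : ℝ, a ^ 2 * Fintype.card (S → A) = 1 :=
    ⟨√(1 / Fintype.card (S → A)), by
      rw [Real.sq_sqrt (by positivity), div_mul_cancel₀ _ hΩ.ne']⟩
  have hE : ∀ f : (S → A) → ℝ, ∑ ω, a ^ 2 * f ω = 𝔼 ω, f ω := fun f => by
    rw [← mul_sum, ← Fintype.card_mul_expect, ← mul_assoc, ha, one_mul]
  choose e he1 he2 using fun w => hB.right (η w)
  set q := 𝔼 a, ‖η a‖ ^ 2 with hq'
  have hq0 : 0 < q := by linarith
  have hs : ∀ s : S, ∑ ω : S → A, a ^ 2 * ‖η (ω s)‖ ^ 2 = q := fun s => by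
    rw [hE, expect_eval s fun w => ‖η w‖ ^ 2]
  refine ⟨S → A, inferInstance, fun s => WithLp.toLp 2 fun ω => a • η (ω s),
    fun s => WithLp.toLp 2 fun ω => ((a * ‖η (ω s)‖ / q : ℝ) : 𝕜) • e (ω s),
    src_of (hB.piB_le _) hβ.le hθ.le (fun s t => ?_) (fun s => ?_) fun b hb => ?_⟩
  · rw [piB_apply]
    split_ifs with hst
    · subst hst
      rw [← RCLike.ofReal_one, ← div_self hq0.ne', ← hs s, sum_div, RCLike.ofReal_sum, hs s]
      refine sum_congr rfl fun ω _ => ?_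
      simp only [RCLike.real_smul_eq_coe_smul (K := 𝕜), map_smul, LinearMap.smul_apply, he2,
        smul_eq_mul]
      push_cast
      ring
    · have h1 := sum_resample t fun ω : S → A =>
        B (((a * ‖η (ω s)‖ / q : ℝ) : 𝕜) • e (ω s)) (a • η (ω t))
      simp only [Function.update_self, Function.update_of_ne hst, ← map_sum, ← smul_sum, h0,
        smul_zero, map_zero, sum_const_zero] at h1
      exact (smul_eq_zero.1 h1).resolve_left Fintype.card_ne_zero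
  · refine (abs_le_of_sq_le_sq' ?_ zero_le_two).2
    rw [PiLp.norm_sq_eq_of_L2]
    refine le_trans (sum_le_sum fun ω _ => ?_ : _ ≤ ∑ ω : S → A, a ^ 2 * ‖η (ω s)‖ ^ 2 / q ^ 2) ?_
    · rw [← mul_pow, ← div_pow, ← sq_abs (_ / q)]
      refine pow_le_pow_left₀ (norm_nonneg _) ?_ 2
      simp only [norm_smul, RCLike.norm_ofReal]
      exact mul_le_of_le_one_right (abs_nonneg _) (he1 _)
    · rw [← sum_div, hs, div_le_iff₀ (by positivity)]
      nlinarith
  · have h1 : ‖∑ s, b s • (WithLp.toLp 2 fun ω => a • η (ω s) : PiLp 2 fun _ : S → A => F')‖ ^ 2 =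
        𝔼 ω : S → A, ‖∑ s, b s • η (ω s)‖ ^ 2 := by
      rw [PiLp.norm_sq_eq_of_L2, ← hE]
      refine sum_congr rfl fun ω _ => ?_
      rw [pi_sum_apply]
      simp only [PiLp.smul_apply, smul_comm (b _) a, ← smul_sum, norm_smul, mul_pow,
        Real.norm_eq_abs, sq_abs]
    refine ⟨(abs_le_of_sq_le_sq' ?_ zero_le_one).2, fun hb' => (abs_le_of_sq_le_sq' ?_ hθ.le).2⟩
    · rw [h1, one_pow]; exact (H S b hb).1
    · rw [h1]; exact (H S b hb).2 hb'

end Pool.Agent.P.MP_6b6f2e_an.L2
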