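import Pool.Agent.P.MP_6b6f2e_an.Hump
import Pool.Agent.P.MP_38279d_an.Card

set_option autoImplicit false

namespace Pool.Agent.P.MP_6b6f2e_an

open Cardinal TopologicalSpace Filter Pool.Agent.P.MP_38279d_an

theorem separable_of_ufdd {𝕜 : Type} [RCLike 𝕜] {X : Type} [NormedAddCommGroup X]
    [NormedSpace 𝕜 X] (E : ℕ → Submodule 𝕜 X) (hE : ∀ n, FiniteDimensional 𝕜 (E n))
    (hexp : ∀ x : X, ∃! y : ℕ → X, (∀ n, y n ∈ E n) ∧ HasSum y x) : SeparableSpace X := by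
  have h1 : ∀ n, IsSeparable (E n : Set X) := fun n => by
    have := FiniteDimensional.proper_rclike 𝕜 (E n)
    exact IsSeparable.of_subtype _
  have h2 := ((isSeparable_iUnion.2 h1).span (R := 𝕜)).closure
  rw [← isSeparable_univ_iff]
  refine h2.mono fun x _ => ?_
  obtain ⟨y, ⟨hy, hs⟩, -⟩ := hexp x
  refine mem_closure_of_tendsto hs (Eventually.of_forall fun A => ?_)
  exact Submodule.sum_mem _ fun n _ => Submodule.subset_span (Set.mem_iUnion.2 ⟨n, hy n⟩)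

theorem main (𝕜 : Type) [RCLike 𝕜] (X : Type) [NormedAddCommGroup X] [NormedSpace 𝕜 X]
    [CompleteSpace X] (E : ℕ → Submodule 𝕜 X) (hE : ∀ n, FiniteDimensional 𝕜 (E n))
    (hexp : ∀ x : X, ∃! y : ℕ → X, (∀ n, y n ∈ E n) ∧ HasSum y x)
    (i : L1 𝕜 →L[𝕜] X) (hi : ∃ c > 0, ∀ a, c * ‖a‖ ≤ ‖i a‖)
    (j : C0 𝕜 →L[𝕜] X) (hj : ∃ c > 0, ∀ z, c * ‖z‖ ≤ ‖j z‖) :
    #{I : TwoSidedIdeal (X →L[𝕜] X) // IsClosed (I : Set (X →L[𝕜] X)) ∧ I ≠ ⊥ ∧ I ≠ ⊤} =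
      2 ^ 𝔠 := by
  have := separable_of_ufdd E hE hexp
  apply le_antisymm
  · exact (mk_subtype_le _).trans
      (mk_le_of_setLike (mk_clm_le_continuum 𝕜 X X (mk_le_continuum_of_separable X)))
  obtain ⟨c, hc, hi⟩ := hi
  obtain ⟨d, hd, hj⟩ := hj
  obtain ⟨Q, C, x, hx, hQ⟩ := exists_quotient E hE hexp i c⁻¹ (by positivity) (fun a => by
    rw [le_inv_mul_iff₀ hc]; exact hi a)
  obtain ⟨f, hf, h⟩ := exists_ideals X X Q C x hx hQ j d⁻¹ (fun z => by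
    rw [le_inv_mul_iff₀ hd]; exact hj z)
  let g : Set (Set ℕ) → TwoSidedIdeal (X →L[𝕜] X) := fun U =>
    TwoSidedIdeal.mk' (f U) (f U).zero_mem (f U).add_mem (f U).neg_mem
      (fun {S T} hT => (h U).2 T hT (ContinuousLinearMap.id 𝕜 X) S)
      (fun {S T} hS => (h U).2 S hS T (ContinuousLinearMap.id 𝕜 X))
  have hg : ∀ U, (g U : Set (X →L[𝕜] X)) = f U := fun U => TwoSidedIdeal.coe_mk' ..
  have hginj : Function.Injective g := fun U V hUV => by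
    apply hf
    apply SetLike.coe_injective
    rw [← hg, ← hg, hUV]
  let S : Set (Set (Set ℕ)) := g ⁻¹' {⊥, ⊤}
  have hS : S.Finite := (Set.toFinite _).preimage hginj.injOn
  have hinf : Infinite (Set (Set ℕ)) := inferInstance
  have hc : #(Sᶜ : Set (Set (Set ℕ))) = #(Set (Set ℕ)) :=
    mk_compl_of_infinite S ((hS.lt_aleph0).trans_le (aleph0_le_mk _))
  rw [← mk_set_set_nat, ← hc]
  refine mk_le_of_injective (f := fun U => ⟨g U.1, by rw [hg]; exact (h U.1).1,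
    fun h' => U.2 (Or.inl h'), fun h' => U.2 (Or.inr h')⟩) fun U V hUV => ?_
  exact Subtype.ext (hginj (congrArg Subtype.val hUV))

end Pool.Agent.P.MP_6b6f2e_an
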