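import Pool.Agent.P.MP_6b6f2e_an.Nn

set_option autoImplicit false
set_option linter.unusedSectionVars false

namespace Pool.Agent.P.MP_6b6f2e_an

open Finset
open scoped ENNReal

variable {𝕜 : Type} [RCLike 𝕜]

/-- The mixed `ℓ_p(ℓ_u)` norm. -/
noncomputable def N (p u : ℝ≥0∞) {Γ : Type} [Fintype Γ] {κ : Γ → Type} [∀ γ, Fintype (κ γ)]
    (x : ∀ γ, κ γ → 𝕜) : ℝ :=
  nn p fun γ => nn u fun b => ‖x γ b‖

/-- The bilinear pairing. -/
noncomputable def pair {Γ : Type} [Fintype Γ] {κ : Γ → Type} [∀ γ, Fintype (κ γ)]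
    (g x : ∀ γ, κ γ → 𝕜) : 𝕜 :=
  ∑ γ, ∑ b, g γ b * x γ b

section

variable {p u : ℝ≥0∞} [Fact (1 ≤ p)] [Fact (1 ≤ u)] {Γ : Type} [Fintype Γ] {κ : Γ → Type}
  [∀ γ, Fintype (κ γ)]

omit [Fact (1 ≤ u)] in
theorem N_nonneg (x : ∀ γ, κ γ → 𝕜) : 0 ≤ N p u x := nn_nonneg _

theorem N_mono {x y : ∀ γ, κ γ → 𝕜} (h : ∀ γ b, ‖x γ b‖ ≤ ‖y γ b‖) : N p u x ≤ N p u y :=
  nn_mono' (fun _ => nn_nonneg _) fun γ => nn_mono' (fun _ => norm_nonneg _) (h γ)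

theorem N_add_le (x y : ∀ γ, κ γ → 𝕜) : N p u (x + y) ≤ N p u x + N p u y := by
  refine le_trans (nn_mono' (fun _ => nn_nonneg _) fun γ => ?_) (nn_add_le _ _)
  exact le_trans (nn_mono' (fun _ => norm_nonneg _) fun b => norm_add_le _ _) (nn_add_le _ _)

theorem N_smul (c : 𝕜) (x : ∀ γ, κ γ → 𝕜) : N p u (c • x) = ‖c‖ * N p u x := by
  unfold N
  simp only [Pi.smul_apply, norm_smul, nn_mul, abs_norm]

theorem N_zero : N p u (0 : ∀ γ, κ γ → 𝕜) = 0 := by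
  have := N_smul (p := p) (u := u) (0 : 𝕜) (0 : ∀ γ, κ γ → 𝕜)
  simpa using this

theorem N_sum_le {J : Type} (s : Finset J) (x : J → ∀ γ, κ γ → 𝕜) :
    N p u (∑ j ∈ s, x j) ≤ ∑ j ∈ s, N p u (x j) := by
  classical
  induction s using Finset.induction_on with
  | empty => simp [N_zero]
  | insert j s hj ih =>
    simp only [sum_insert hj]
    exact (N_add_le _ _).trans (by linarith)

theorem row_le_N (x : ∀ γ, κ γ → 𝕜) (γ : Γ) : (nn u fun b => ‖x γ b‖) ≤ N p u x :=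
  (le_abs_self _).trans (abs_le_nn (p := p) (fun γ => nn u fun b => ‖x γ b‖) γ)

theorem norm_le_N (x : ∀ γ, κ γ → 𝕜) (γ : Γ) (b : κ γ) : ‖x γ b‖ ≤ N p u x :=
  ((le_abs_self _).trans (abs_le_nn (p := u) (fun b => ‖x γ b‖) b)).trans (row_le_N x γ)

theorem N_le_sum (x : ∀ γ, κ γ → 𝕜) : N p u x ≤ ∑ γ, ∑ b, ‖x γ b‖ := by
  refine (nn_le_sum _).trans (sum_le_sum fun γ _ => ?_)
  rw [abs_of_nonneg (nn_nonneg _)]
  simpa using nn_le_sum (p := u) fun b => ‖x γ b‖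

theorem N_le_card {v : ℝ≥0∞} [Fact (1 ≤ v)] (x : ∀ γ, κ γ → 𝕜) :
    N p u x ≤ Fintype.card (Σ γ, κ γ) * N p v x := by
  refine (N_le_sum x).trans ?_
  rw [← Fintype.sum_sigma (fun σ : Σ γ, κ γ => ‖x σ.1 σ.2‖), ← nsmul_eq_mul, ← card_univ]
  exact sum_le_card_nsmul _ _ _ fun σ _ => norm_le_N x σ.1 σ.2

theorem norm_pair_le_sum (g x : ∀ γ, κ γ → 𝕜) :
    ‖pair g x‖ ≤ (∑ γ, ∑ b, ‖g γ b‖) * N p u x := by
  unfold pair
  rw [sum_mul]
  refine norm_sum_le_of_le _ fun γ _ => ?_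
  rw [sum_mul]
  refine norm_sum_le_of_le _ fun b _ => ?_
  rw [norm_mul]
  exact mul_le_mul_of_nonneg_left (norm_le_N x γ b) (norm_nonneg _)

/-- A vector supported in one row. -/
theorem N_row [DecidableEq Γ] (x : ∀ γ, κ γ → 𝕜) (γ : Γ) (h : ∀ γ', γ' ≠ γ → x γ' = 0) :
    N p u x = nn u fun b => ‖x γ b‖ := by
  unfold N
  have : (fun γ' => nn u fun b => ‖x γ' b‖) =
      fun γ' => if γ' = γ then nn u fun b => ‖x γ b‖ else 0 := by
    funext γ'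
    split_ifs with h'
    · rw [h']
    · simp [h γ' h', nn_zero]
  rw [this, nn_single, abs_of_nonneg (nn_nonneg _)]

theorem N_sigma {L : Type} [Fintype L] {Γ : L → Type} [∀ l, Fintype (Γ l)]
    {κ : ∀ l, Γ l → Type} [∀ l γ, Fintype (κ l γ)] (x : ∀ l γ, κ l γ → 𝕜) :
    nn p (fun l => N p u (x l)) =
      N p u (Γ := Σ l, Γ l) (κ := fun σ => κ σ.1 σ.2) fun σ => x σ.1 σ.2 :=
  nn_sigma (fun l γ => nn u fun b => ‖x l γ b‖)

end

section pairing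

variable {Γ : Type} [Fintype Γ] {κ : Γ → Type} [∀ γ, Fintype (κ γ)]

theorem pair_comm (g x : ∀ γ, κ γ → 𝕜) : pair g x = pair x g := by
  unfold pair; simp only [mul_comm]

theorem pair_add (g x y : ∀ γ, κ γ → 𝕜) : pair g (x + y) = pair g x + pair g y := by
  unfold pair; simp only [Pi.add_apply, mul_add, sum_add_distrib]

theorem pair_smul (g : ∀ γ, κ γ → 𝕜) (c : 𝕜) (x : ∀ γ, κ γ → 𝕜) :
    pair g (c • x) = c * pair g x := by
  unfold pair; simp only [Pi.smul_apply, smul_eq_mul, mul_sum, mul_left_comm]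

/-- The pairing as a linear functional. -/
noncomputable def pairL (g : ∀ γ, κ γ → 𝕜) : (∀ γ, κ γ → 𝕜) →ₗ[𝕜] 𝕜 where
  toFun := pair g
  map_add' := pair_add g
  map_smul' := pair_smul g

theorem pair_sum {J : Type} (s : Finset J) (g : ∀ γ, κ γ → 𝕜) (x : J → ∀ γ, κ γ → 𝕜) :
    pair g (∑ j ∈ s, x j) = ∑ j ∈ s, pair g (x j) := map_sum (pairL g) _ _

theorem pair_sub (g x y : ∀ γ, κ γ → 𝕜) : pair g (x - y) = pair g x - pair g y :=
  map_sub (pairL g) _ _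

theorem pair_zero (g : ∀ γ, κ γ → 𝕜) : pair g 0 = 0 := map_zero (pairL g)

open Classical in
/-- Unit vectors. -/
noncomputable def ee (γ : Γ) (b : κ γ) : ∀ γ, κ γ → 𝕜 := Pi.single γ (Pi.single b 1)

theorem pair_ee (g : ∀ γ, κ γ → 𝕜) (γ : Γ) (b : κ γ) : pair g (ee γ b) = g γ b := by
  classical
  unfold pair ee
  rw [sum_eq_single γ]
  · rw [sum_eq_single b] <;> simp +contextual
  · intro γ' _ h
    simp [Pi.single_eq_of_ne h]
  · simp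

omit [Fintype Γ] [∀ γ, Fintype (κ γ)] in
theorem ee_same (γ : Γ) (b : κ γ) : (ee γ b : ∀ γ, κ γ → 𝕜) γ b = 1 := by
  simp [ee]

omit [Fintype Γ] [∀ γ, Fintype (κ γ)] in
theorem ee_of_ne (γ : Γ) (b : κ γ) {γ' : Γ} (h : γ' ≠ γ) : (ee γ b : ∀ γ, κ γ → 𝕜) γ' = 0 := by
  classical
  simp [ee, Pi.single_eq_of_ne h]

omit [Fintype Γ] [∀ γ, Fintype (κ γ)] in
theorem ee_of_ne' (γ : Γ) {b b' : κ γ} (h : b' ≠ b) : (ee γ b : ∀ γ, κ γ → 𝕜) γ b' = 0 := by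
  classical
  simp [ee, Pi.single_eq_of_ne h]

theorem eq_sum_ee (x : ∀ γ, κ γ → 𝕜) : x = ∑ γ, ∑ b, x γ b • ee γ b := by
  funext γ' b'
  simp only [Finset.sum_apply, Pi.smul_apply, smul_eq_mul]
  rw [sum_eq_single γ']
  · rw [sum_eq_single b']
    · simp [ee_same]
    · intro b _ h; simp [ee_of_ne' γ' h.symm]
    · simp
  · intro γ _ h; simp [ee_of_ne γ _ h.symm]
  · simp

variable {Γ' : Type} [Fintype Γ'] {κ' : Γ' → Type} [∀ γ, Fintype (κ' γ)]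

theorem map_apply_eq (S : (∀ γ, κ γ → 𝕜) →ₗ[𝕜] (∀ γ, κ' γ → 𝕜)) (x : ∀ γ, κ γ → 𝕜)
    (γ' : Γ') (b' : κ' γ') : S x γ' b' = ∑ γ, ∑ b, x γ b * S (ee γ b) γ' b' := by
  conv_lhs => rw [eq_sum_ee x]
  simp [map_sum, Finset.sum_apply]

/-- The transpose of a linear map. -/
noncomputable def tr (S : (∀ γ, κ γ → 𝕜) →ₗ[𝕜] (∀ γ, κ' γ → 𝕜)) :
    (∀ γ, κ' γ → 𝕜) →ₗ[𝕜] (∀ γ, κ γ → 𝕜) where
  toFun g := fun γ b => pair (S (ee γ b)) g
  map_add' g h := by funext γ b; simp [pair_add]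
  map_smul' c g := by funext γ b; simp [pair_smul]

theorem pair_tr (S : (∀ γ, κ γ → 𝕜) →ₗ[𝕜] (∀ γ, κ' γ → 𝕜)) (g : ∀ γ, κ' γ → 𝕜)
    (x : ∀ γ, κ γ → 𝕜) : pair (tr S g) x = pair g (S x) := by
  conv_rhs => rw [eq_sum_ee x]
  simp only [map_sum, map_smul, pair_sum, pair_smul]
  unfold tr
  simp only [LinearMap.coe_mk, AddHom.coe_mk]
  conv_lhs => unfold pair
  refine sum_congr rfl fun γ _ => sum_congr rfl fun b _ => ?_
  rw [mul_comm]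
  congr 1
  exact pair_comm _ _

end pairing

theorem exists_phase (z : 𝕜) : ∃ c : 𝕜, ‖c‖ ≤ 1 ∧ c * z = (‖z‖ : ℝ) := by
  by_cases h : z = 0
  · exact ⟨0, by simp, by simp [h]⟩
  · have h' : ((‖z‖ : ℝ) : 𝕜) ≠ 0 := by simpa using h
    refine ⟨(‖z‖ : ℝ) / z, ?_, by field_simp⟩
    rw [norm_div, RCLike.norm_ofReal, abs_norm, div_self (by simpa using h)]

section duality

variable {p u p' u' : ℝ≥0∞} [Fact (1 ≤ p)] [Fact (1 ≤ u)] [Fact (1 ≤ p')] [Fact (1 ≤ u')]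
  {Γ : Type} [Fintype Γ] {κ : Γ → Type} [∀ γ, Fintype (κ γ)]

theorem norm_pair_le (hp : DualE p p') (hu : DualE u u') (g x : ∀ γ, κ γ → 𝕜) :
    ‖pair g x‖ ≤ N p u g * N p' u' x := by
  refine le_trans ?_ ((hp Γ).1 _ _)
  refine norm_sum_le_of_le _ fun γ _ => ?_
  rw [abs_of_nonneg (nn_nonneg _), abs_of_nonneg (nn_nonneg _)]
  refine le_trans ?_ ((hu _).1 _ _)
  refine norm_sum_le_of_le _ fun b _ => ?_
  simp

theorem exists_norming (hp : DualE p p') (hu : DualE u u') (x : ∀ γ, κ γ → 𝕜) :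
    ∃ g : ∀ γ, κ γ → 𝕜, N p' u' g ≤ 1 ∧ pair g x = (N p u x : ℝ) := by
  choose t ht0 ht1 ht using fun γ => (hu (κ γ)).2 fun b => ‖x γ b‖
  obtain ⟨s, hs0, hs1, hs⟩ := (hp Γ).2 fun γ => nn u fun b => ‖x γ b‖
  choose c hc1 hc using fun γ b => exists_phase (x γ b)
  refine ⟨fun γ b => ((s γ * t γ b : ℝ) : 𝕜) * c γ b, ?_, ?_⟩
  · refine le_trans (nn_mono' (fun _ => nn_nonneg _) fun γ => ?_) hs1
    calc (nn u' fun b => ‖((s γ * t γ b : ℝ) : 𝕜) * c γ b‖) ≤ nn u' fun b => s γ * t γ b := by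
          refine nn_mono' (fun _ => norm_nonneg _) fun b => ?_
          have := mul_nonneg (hs0 γ) (ht0 γ b)
          rw [norm_mul, RCLike.norm_ofReal, abs_of_nonneg this]
          exact mul_le_of_le_one_right this (hc1 γ b)
      _ ≤ s γ := by
          rw [nn_mul, abs_of_nonneg (hs0 γ)]
          exact mul_le_of_le_one_right (hs0 γ) (ht1 γ)
  · unfold pair N
    rw [← hs]
    push_cast
    refine sum_congr rfl fun γ _ => ?_
    rw [abs_of_nonneg (nn_nonneg _), ← ht γ]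
    push_cast
    rw [sum_mul]
    refine sum_congr rfl fun b _ => ?_
    rw [mul_assoc, hc, abs_norm]
    ring

theorem N_le_of_pair (hp : DualE p p') (hu : DualE u u') (x : ∀ γ, κ γ → 𝕜) {c : ℝ}
    (h : ∀ g : ∀ γ, κ γ → 𝕜, N p' u' g ≤ 1 → ‖pair g x‖ ≤ c) : N p u x ≤ c := by
  obtain ⟨g, hg, hx⟩ := exists_norming hp hu x
  have := h g hg
  rwa [hx, RCLike.norm_ofReal, abs_of_nonneg (N_nonneg x)] at this

variable {Γ' : Type} [Fintype Γ'] {κ' : Γ' → Type} [∀ γ, Fintype (κ' γ)]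

theorem N_tr_le (hp : DualE p p') (hu : DualE u u')
    (S : (∀ γ, κ γ → 𝕜) →ₗ[𝕜] (∀ γ, κ' γ → 𝕜)) {B : ℝ} (hB : 0 ≤ B)
    (h : ∀ x, N p' u' (S x) ≤ B * N p' u' x) (g : ∀ γ, κ' γ → 𝕜) :
    N p u (tr S g) ≤ B * N p u g := by
  refine N_le_of_pair hp hu _ fun x hx => ?_
  rw [pair_comm, pair_tr]
  refine (norm_pair_le hp hu _ _).trans ?_
  rw [mul_comm]
  refine mul_le_mul_of_nonneg_right ((h x).trans ?_) (N_nonneg _)
  exact mul_le_of_le_one_right hB hx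

end duality

end Pool.Agent.P.MP_6b6f2e_an
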