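import Mathlib

set_option autoImplicit false

namespace Pool.Agent.P.MP_6b6f2e_an

open Finset
open scoped ENNReal

/-- The `ℓ_p` norm of a finite real vector. -/
noncomputable def nn (p : ℝ≥0∞) {ι : Type} [Fintype ι] (a : ι → ℝ) : ℝ :=
  ‖(WithLp.toLp p a : PiLp p fun _ : ι => ℝ)‖

section basic

variable {p : ℝ≥0∞} [hp : Fact (1 ≤ p)] {ι : Type} [Fintype ι]

theorem one_le_toReal (h : p ≠ ∞) : 1 ≤ p.toReal := by
  have := ENNReal.toReal_mono h hp.out
  simpa using this

theorem toReal_pos' (h : p ≠ ∞) : 0 < p.toReal := lt_of_lt_of_le one_pos (one_le_toReal h)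

theorem nn_nonneg (a : ι → ℝ) : 0 ≤ nn p a := norm_nonneg _

theorem nn_eq (h : p ≠ ∞) (a : ι → ℝ) :
    nn p a = (∑ i, |a i| ^ p.toReal) ^ (1 / p.toReal) := by
  unfold nn
  rw [PiLp.norm_eq_sum (toReal_pos' h)]
  simp

theorem nn_rpow (h : p ≠ ∞) (a : ι → ℝ) : nn p a ^ p.toReal = ∑ i, |a i| ^ p.toReal := by
  rw [nn_eq h, ← Real.rpow_mul (by positivity), one_div_mul_cancel (toReal_pos' h).ne',
    Real.rpow_one]

theorem nn_le_iff (h : p ≠ ∞) (a : ι → ℝ) {c : ℝ} (hc : 0 ≤ c) :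
    nn p a ≤ c ↔ ∑ i, |a i| ^ p.toReal ≤ c ^ p.toReal := by
  rw [← nn_rpow h, Real.rpow_le_rpow_iff (nn_nonneg a) hc (toReal_pos' h)]

theorem nn_top_le_iff (a : ι → ℝ) {c : ℝ} (hc : 0 ≤ c) : nn ∞ a ≤ c ↔ ∀ i, |a i| ≤ c := by
  unfold nn
  rw [PiLp.norm_toLp, pi_norm_le_iff_of_nonneg hc]
  simp

theorem abs_le_nn (a : ι → ℝ) (i : ι) : |a i| ≤ nn p a :=
  PiLp.norm_apply_le (WithLp.toLp p a : PiLp p fun _ : ι => ℝ) i

theorem nn_add_le (a b : ι → ℝ) : nn p (fun i => a i + b i) ≤ nn p a + nn p b :=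
  norm_add_le (WithLp.toLp p a : PiLp p fun _ : ι => ℝ) (WithLp.toLp p b)

theorem nn_mul (c : ℝ) (a : ι → ℝ) : nn p (fun i => c * a i) = |c| * nn p a :=
  norm_smul c (WithLp.toLp p a : PiLp p fun _ : ι => ℝ)

theorem nn_zero : nn p (fun _ : ι => (0 : ℝ)) = 0 := by
  have := nn_mul (p := p) 0 (fun _ : ι => (0 : ℝ))
  simpa using this

theorem nn_mono {a b : ι → ℝ} (h : ∀ i, |a i| ≤ |b i|) : nn p a ≤ nn p b := by
  by_cases hp' : p = ∞
  · subst hp'
    exact (nn_top_le_iff a (nn_nonneg b)).2 fun i => (h i).trans (abs_le_nn b i)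
  · rw [nn_le_iff hp' a (nn_nonneg b), nn_rpow hp']
    exact sum_le_sum fun i _ => Real.rpow_le_rpow (abs_nonneg _) (h i) (toReal_pos' hp').le

theorem nn_mono' {a b : ι → ℝ} (h0 : ∀ i, 0 ≤ a i) (h : ∀ i, a i ≤ b i) : nn p a ≤ nn p b :=
  nn_mono fun i => by rw [abs_of_nonneg (h0 i)]; exact (h i).trans (le_abs_self _)

theorem nn_sum_le {J : Type} (s : Finset J) (a : J → ι → ℝ) :
    nn p (fun i => ∑ j ∈ s, a j i) ≤ ∑ j ∈ s, nn p (a j) := by
  classical
  induction s using Finset.induction_on with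
  | empty => simp [nn_zero]
  | insert j s hj ih =>
    simp only [sum_insert hj]
    exact (nn_add_le _ _).trans (by linarith)

theorem nn_single [DecidableEq ι] (i : ι) (c : ℝ) :
    nn p (fun j => if j = i then c else 0) = |c| := by
  have := PiLp.norm_toLp_single (p := p) (β := fun _ : ι => ℝ) i c
  rw [Real.norm_eq_abs] at this
  rw [← this]
  unfold nn
  congr 2
  funext j
  simp [Pi.single_apply]

theorem nn_le_sum (a : ι → ℝ) : nn p a ≤ ∑ i, |a i| := by
  classical
  have : a = fun j => ∑ i, if j = i then a i else 0 := by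
    funext j; simp
  calc nn p a = nn p (fun j => ∑ i, if j = i then a i else 0) := by rw [← this]
    _ ≤ ∑ i, nn p (fun j => if j = i then a i else 0) := nn_sum_le _ _
    _ = _ := by simp [nn_single]

theorem nn_comp_le {κ : Type} [Fintype κ] {e : κ → ι} (he : Function.Injective e) (a : ι → ℝ) :
    nn p (fun k => a (e k)) ≤ nn p a := by
  classical
  by_cases hp' : p = ∞
  · subst hp'
    exact (nn_top_le_iff _ (nn_nonneg a)).2 fun k => abs_le_nn a (e k)
  · rw [nn_le_iff hp' _ (nn_nonneg a), nn_rpow hp',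
      ← sum_image (s := univ) (g := e) (f := fun i => |a i| ^ p.toReal) he.injOn]
    exact sum_le_sum_of_subset_of_nonneg (subset_univ _) fun i _ _ => by positivity

theorem nn_le_comp {κ : Type} [Fintype κ] (e : κ → ι) (a : ι → ℝ)
    (h : ∀ i, a i ≠ 0 → ∃ k, e k = i) : nn p a ≤ nn p (fun k => a (e k)) := by
  classical
  by_cases hp' : p = ∞
  · subst hp'
    refine (nn_top_le_iff _ (nn_nonneg _)).2 fun i => ?_
    by_cases hi : a i = 0
    · rw [hi, abs_zero]; exact nn_nonneg _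
    · obtain ⟨k, rfl⟩ := h i hi
      exact abs_le_nn (fun k => a (e k)) k
  · rw [nn_le_iff hp' _ (nn_nonneg _), nn_rpow hp']
    have h1 : ∑ i, |a i| ^ p.toReal = ∑ i ∈ univ.image e, |a i| ^ p.toReal := by
      refine (sum_subset (subset_univ _) fun i _ hi => ?_).symm
      have : a i = 0 := by
        by_contra h0
        obtain ⟨k, rfl⟩ := h i h0
        exact hi (mem_image_of_mem _ (mem_univ k))
      rw [this, abs_zero, Real.zero_rpow (toReal_pos' hp').ne']
    rw [h1]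
    exact sum_image_le_of_nonneg fun i _ => by positivity

theorem nn_sigma {κ : ι → Type} [∀ i, Fintype (κ i)] (a : ∀ i, κ i → ℝ) :
    nn p (fun i => nn p (a i)) = nn p (fun σ : Σ i, κ i => a σ.1 σ.2) := by
  by_cases hp' : p = ∞
  · subst hp'
    apply le_antisymm
    · refine (nn_top_le_iff _ (nn_nonneg _)).2 fun i => ?_
      rw [abs_of_nonneg (nn_nonneg _)]
      exact (nn_top_le_iff _ (nn_nonneg _)).2 fun k =>
        abs_le_nn (fun σ : Σ i, κ i => a σ.1 σ.2) ⟨i, k⟩
    · refine (nn_top_le_iff _ (nn_nonneg _)).2 fun σ => (abs_le_nn (p := ∞) (a σ.1) σ.2).trans ?_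
      exact (le_abs_self _).trans (abs_le_nn (fun i => nn ∞ (a i)) σ.1)
  · rw [nn_eq hp', nn_eq hp', Fintype.sum_sigma]
    congr 1
    refine sum_congr rfl fun i _ => ?_
    rw [abs_of_nonneg (nn_nonneg _), nn_rpow hp']

theorem norm_piLp {E : ι → Type} [∀ i, NormedAddCommGroup (E i)] (x : PiLp p E) :
    ‖x‖ = nn p fun i => ‖x i‖ := by
  by_cases hp' : p = ∞
  · subst hp'
    unfold nn
    rw [PiLp.norm_eq_ciSup, PiLp.norm_eq_ciSup]
    simp
  · rw [nn_eq hp', PiLp.norm_eq_sum (toReal_pos' hp')]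
    simp

end basic

/-- Duality of the `ℓ_p` and `ℓ_q` norms. -/
def DualE (p q : ℝ≥0∞) : Prop :=
  ∀ (ι : Type) [Fintype ι], (∀ a b : ι → ℝ, ∑ i, |a i| * |b i| ≤ nn p a * nn q b) ∧
    ∀ a : ι → ℝ, ∃ b : ι → ℝ, (∀ i, 0 ≤ b i) ∧ nn q b ≤ 1 ∧ ∑ i, |a i| * b i = nn p a

theorem nn_one {ι : Type} [Fintype ι] (a : ι → ℝ) : nn 1 a = ∑ i, |a i| := by
  rw [nn_eq (by simp)]; simp

theorem dualE_one : DualE 1 ∞ := by
  intro ι _
  refine ⟨fun a b => ?_, fun a => ⟨fun _ => 1, fun _ => zero_le_one, ?_, ?_⟩⟩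
  · rw [nn_one, sum_mul]
    exact sum_le_sum fun i _ => mul_le_mul_of_nonneg_left (abs_le_nn b i) (abs_nonneg _)
  · exact (nn_top_le_iff _ zero_le_one).2 fun _ => by simp
  · simp [nn_one]

theorem dualE_top : DualE ∞ 1 := by
  classical
  intro ι _
  refine ⟨fun a b => ?_, fun a => ?_⟩
  · rw [nn_one, mul_sum]
    exact sum_le_sum fun i _ => mul_le_mul_of_nonneg_right (abs_le_nn a i) (abs_nonneg _)
  · rcases isEmpty_or_nonempty ι with h | h
    · refine ⟨fun _ => 0, fun _ => le_rfl, by simp [nn_zero], ?_⟩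
      apply le_antisymm (by simpa using nn_nonneg a)
      exact (nn_top_le_iff _ (by simp)).2 fun i => (h.false i).elim
    · obtain ⟨i, -, hi⟩ := exists_max_image univ (fun i => |a i|) univ_nonempty
      refine ⟨fun j => if j = i then 1 else 0, fun j => by dsimp only; split_ifs <;> simp, by
        simp [nn_single], ?_⟩
      simp only [mul_ite, mul_one, mul_zero, sum_ite_eq', mem_univ, if_true]
      exact le_antisymm (abs_le_nn a i)
        ((nn_top_le_iff _ (abs_nonneg _)).2 fun j => hi j (mem_univ j))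

theorem dualE_real {p q : ℝ≥0∞} [Fact (1 ≤ p)] [Fact (1 ≤ q)] (hp : p ≠ ∞) (hq : q ≠ ∞)
    (h : p.toReal.HolderConjugate q.toReal) : DualE p q := by
  intro ι _
  refine ⟨fun a b => ?_, fun a => ?_⟩
  · rw [nn_eq hp, nn_eq hq]
    exact Real.inner_le_Lp_mul_Lq_of_nonneg univ h (fun _ _ => abs_nonneg _)
      (fun _ _ => abs_nonneg _)
  · rcases (nn_nonneg (p := p) a).eq_or_lt with h0 | h0
    · exact ⟨fun _ => 0, fun _ => le_rfl, by simp [nn_zero], by simp [← h0]⟩
    have hp1 := h.lt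
    have hm : (p.toReal - 1) * q.toReal = p.toReal := h.sub_one_mul_conj
    refine ⟨fun i => (|a i| / nn p a) ^ (p.toReal - 1), fun i => by positivity, ?_, ?_⟩
    · rw [nn_le_iff hq _ zero_le_one, Real.one_rpow]
      have : ∀ i, |(|a i| / nn p a) ^ (p.toReal - 1)| ^ q.toReal =
          |a i| ^ p.toReal / nn p a ^ p.toReal := fun i => by
        rw [abs_of_nonneg (by positivity), ← Real.rpow_mul (by positivity), hm,
          Real.div_rpow (abs_nonneg _) h0.le]
      simp only [this]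
      rw [← sum_div, ← nn_rpow hp, div_self (by positivity)]
    · have : ∀ i, |a i| * (|a i| / nn p a) ^ (p.toReal - 1) =
          |a i| ^ p.toReal / nn p a ^ (p.toReal - 1) := fun i => by
        rw [Real.div_rpow (abs_nonneg _) h0.le, ← mul_div_assoc]
        congr 1
        rw [mul_comm, ← Real.rpow_add_one' (abs_nonneg _) (by linarith), sub_add_cancel]
      simp only [this]
      rw [← sum_div, ← nn_rpow hp, ← Real.rpow_sub h0]
      simp

theorem dualE_of_conj (p q : ℝ≥0∞) [Fact (1 ≤ p)] [Fact (1 ≤ q)] [h : p.HolderConjugate q] :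
    DualE p q := by
  by_cases hp : p = ∞
  · subst hp
    have : q = 1 := ENNReal.HolderConjugate.unique ∞ q 1
    subst this
    exact dualE_top
  by_cases hq : q = ∞
  · subst hq
    have : p = 1 := ENNReal.HolderConjugate.unique ∞ p 1
    subst this
    exact dualE_one
  exact dualE_real hp hq (ENNReal.HolderConjugate.toReal_of_ne_top hp hq)

end Pool.Agent.P.MP_6b6f2e_an
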