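import Pool.Agent.P.MP_38279d_an.Main

set_option autoImplicit false

namespace Pool.Agent.P.MP_6b6f2e_an

open Finset Filter Topology

variable {𝕜 : Type*} [RCLike 𝕜] {X : Type*} [NormedAddCommGroup X] [NormedSpace 𝕜 X]
  [CompleteSpace X]

theorem bdd_partial {y : ℕ → X} (hy : Summable y) :
    BddAbove (Set.range fun A : Finset ℕ => ‖∑ n ∈ A, y n‖) := by
  obtain ⟨s, hs⟩ := summable_iff_vanishing_norm.1 hy 1 one_pos
  refine ⟨∑ n ∈ s, ‖y n‖ + 1, ?_⟩
  rintro _ ⟨A, rfl⟩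
  have h1 : ∑ n ∈ A, y n = ∑ n ∈ A ∩ s, y n + ∑ n ∈ A \ s, y n :=
    (sum_inter_add_sum_sdiff A s y).symm
  dsimp only
  rw [h1]
  refine (norm_add_le _ _).trans (add_le_add ?_ (hs _ sdiff_disjoint).le)
  exact (norm_sum_le _ _).trans
    (sum_le_sum_of_subset_of_nonneg inter_subset_right fun _ _ _ => norm_nonneg _)

/-- The projections of an unconditional finite-dimensional decomposition are uniformly bounded. -/
theorem exists_projections (E : ℕ → Submodule 𝕜 X) (hE : ∀ n, FiniteDimensional 𝕜 (E n))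
    (hexp : ∀ x : X, ∃! y : ℕ → X, (∀ n, y n ∈ E n) ∧ HasSum y x) :
    ∃ (P : ℕ → X →L[𝕜] X) (C : ℝ), 0 ≤ C ∧ (∀ n x, P n x ∈ E n) ∧
      (∀ x, HasSum (fun n => P n x) x) ∧ (∀ (A : Finset ℕ) x, ‖∑ n ∈ A, P n x‖ ≤ C * ‖x‖) ∧
      ∀ n m x, P n (P m x) = if n = m then P m x else 0 := by
  choose π hπ huniq using hexp
  have hadd : ∀ x x', π (x + x') = π x + π x' := fun x x' =>
    (huniq (x + x') (π x + π x') ⟨fun n => (E n).add_mem ((hπ x).1 n) ((hπ x').1 n),
      (hπ x).2.add (hπ x').2⟩).symm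
  have hsmul : ∀ (c : 𝕜) x, π (c • x) = c • π x := fun c x =>
    (huniq (c • x) (c • π x) ⟨fun n => (E n).smul_mem c ((hπ x).1 n),
      (hπ x).2.const_smul c⟩).symm
  let Φ : X →ₗ[𝕜] lp (fun _ : Finset ℕ => X) ⊤ :=
    { toFun := fun x => ⟨fun A => ∑ n ∈ A, π x n, memℓp_infty (bdd_partial (hπ x).2.summable)⟩
      map_add' := fun x x' => by
        ext A
        simp only [hadd, Pi.add_apply, sum_add_distrib]
        rfl
      map_smul' := fun c x => by
        ext A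
        simp [hsmul, smul_sum] }
  have hΦ : ∀ x A, Φ x A = ∑ n ∈ A, π x n := fun _ _ => rfl
  have hcont : Continuous Φ := by
    refine Φ.continuous_of_seq_closed_graph fun u x F hu hF => ?_
    have hev : ∀ A, Tendsto (fun k => Φ (u k) A) atTop (𝓝 (F A)) := by
      intro A
      rw [tendsto_iff_norm_sub_tendsto_zero] at hF ⊢
      refine squeeze_zero (fun _ => norm_nonneg _) (fun k => ?_) hF
      exact lp.norm_apply_le_norm (by simp) (Φ (u k) - F) A
    have hy : ∀ n, Tendsto (fun k => π (u k) n) atTop (𝓝 (F {n})) := fun n => by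
      simpa [hΦ] using hev {n}
    have hFA : ∀ A, F A = ∑ n ∈ A, F {n} := fun A =>
      tendsto_nhds_unique (hev A) (tendsto_finsetSum A fun n _ => hy n)
    have hmem : ∀ n, F {n} ∈ E n := fun n =>
      (E n).closed_of_finiteDimensional.mem_of_tendsto (hy n)
        (Eventually.of_forall fun k => (hπ _).1 n)
    have hsum : HasSum (fun n => F {n}) x := by
      rw [HasSum, Metric.tendsto_nhds]
      intro ε hε
      obtain ⟨k, hk1, hk2⟩ := ((Metric.tendsto_nhds.1 hu (ε / 3) (by positivity)).and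
        (Metric.tendsto_nhds.1 hF (ε / 3) (by positivity))).exists
      filter_upwards [Metric.tendsto_nhds.1 (hπ (u k)).2 (ε / 3) (by positivity)] with A hA
      rw [← hFA]
      have h1 : dist (F A) (Φ (u k) A) < ε / 3 := by
        rw [dist_comm, dist_eq_norm]
        rw [dist_eq_norm] at hk2
        exact lt_of_le_of_lt (lp.norm_apply_le_norm (by simp) (Φ (u k) - F) A) hk2
      have h2 := dist_triangle4 (F A) (Φ (u k) A) (u k) x
      rw [hΦ] at h1 h2
      linarith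
    have := huniq x (fun n => F {n}) ⟨hmem, hsum⟩
    ext A
    rw [hΦ, hFA, ← this]
  let Φ' : X →L[𝕜] lp (fun _ : Finset ℕ => X) ⊤ := ⟨Φ, hcont⟩
  have hb : ∀ (A : Finset ℕ) x, ‖∑ n ∈ A, π x n‖ ≤ ‖Φ'‖ * ‖x‖ := fun A x =>
    (lp.norm_apply_le_norm (by simp) (Φ' x) A).trans (Φ'.le_opNorm x)
  let P : ℕ → X →L[𝕜] X := fun n => LinearMap.mkContinuous
    { toFun := fun x => π x n
      map_add' := fun x x' => by simp [hadd]
      map_smul' := fun c x => by simp [hsmul] } ‖Φ'‖ (fun x => by simpa using hb {n} x)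
  refine ⟨P, ‖Φ'‖, norm_nonneg _, fun n x => (hπ x).1 n, fun x => (hπ x).2, hb, fun n m x => ?_⟩
  have := huniq (π x m) (fun n => if n = m then π x m else 0) ⟨fun n => by
    dsimp only
    split_ifs with h
    · exact h ▸ (hπ x).1 m
    · exact (E n).zero_mem, hasSum_ite_eq m _⟩
  exact (congrFun this n).symm

theorem sum_abs_le {r : ℕ → ℝ} {M : ℝ} (h : ∀ s : Finset ℕ, |∑ i ∈ s, r i| ≤ M) (s : Finset ℕ) :
    ∑ i ∈ s, |r i| ≤ 2 * M := by
  rw [← sum_filter_add_sum_filter_not s (fun i => 0 ≤ r i)]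
  have h1 : ∑ i ∈ s.filter (fun i => 0 ≤ r i), |r i| = ∑ i ∈ s.filter (fun i => 0 ≤ r i), r i :=
    sum_congr rfl fun i hi => abs_of_nonneg (mem_filter.1 hi).2
  have h2 : ∑ i ∈ s.filter (fun i => ¬ 0 ≤ r i), |r i| =
      -∑ i ∈ s.filter (fun i => ¬ 0 ≤ r i), r i := by
    rw [← sum_neg_distrib]
    exact sum_congr rfl fun i hi => abs_of_neg (not_le.1 (mem_filter.1 hi).2)
  rw [h1, h2]
  linarith [le_abs_self (∑ i ∈ s.filter (fun i => 0 ≤ r i), r i),
    neg_le_abs (∑ i ∈ s.filter (fun i => ¬ 0 ≤ r i), r i), h (s.filter (fun i => 0 ≤ r i)),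
    h (s.filter (fun i => ¬ 0 ≤ r i))]

theorem sum_norm_le {z : ℕ → 𝕜} {M : ℝ} (h : ∀ s : Finset ℕ, ‖∑ i ∈ s, z i‖ ≤ M) (s : Finset ℕ) :
    ∑ i ∈ s, ‖z i‖ ≤ 4 * M := by
  have h1 := sum_abs_le (r := fun i => RCLike.re (z i)) (M := M) (fun s => by
    rw [← map_sum]; exact (RCLike.abs_re_le_norm _).trans (h s)) s
  have h2 := sum_abs_le (r := fun i => RCLike.im (z i)) (M := M) (fun s => by
    rw [← map_sum]; exact (RCLike.abs_im_le_norm _).trans (h s)) s
  have h3 : ∑ i ∈ s, ‖z i‖ ≤ ∑ i ∈ s, (|RCLike.re (z i)| + |RCLike.im (z i)|) := by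
    refine sum_le_sum fun i _ => ?_
    conv_lhs => rw [← RCLike.re_add_im (z i)]
    refine (norm_add_le _ _).trans (add_le_add (by rw [RCLike.norm_ofReal]) ?_)
    rw [norm_mul, RCLike.norm_ofReal]
    refine mul_le_of_le_one_right (abs_nonneg _) ?_
    rcases RCLike.I_eq_zero_or_im_I_eq_one (K := 𝕜) with h | h
    · simp [h]
    · rw [RCLike.norm_I_of_ne_zero]
      intro h0
      simp [h0] at h
  rw [sum_add_distrib] at h3
  linarith

omit [CompleteSpace X] in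
theorem exists_close (E : ℕ → Submodule 𝕜 X) (hE : ∀ n, FiniteDimensional 𝕜 (E n))
    (P : ℕ → X →L[𝕜] X) (hP : ∀ n x, P n x ∈ E n) (x : ℕ → X) (B : ℝ) (hx : ∀ k, ‖x k‖ ≤ B)
    {ε : ℝ} (hε : 0 < ε) (n k₀ : ℕ) :
    ∃ k k', k₀ ≤ k ∧ k < k' ∧ ‖∑ m ∈ range n, P m (x k - x k')‖ ≤ ε := by
  let F : Submodule 𝕜 X := (range n).sup E
  have : FiniteDimensional 𝕜 F := Submodule.finiteDimensional_finset_sup _ _
  have : ProperSpace F := FiniteDimensional.proper_rclike 𝕜 F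
  let Q : X →L[𝕜] X := ∑ m ∈ range n, P m
  have hQ : ∀ z, Q z = ∑ m ∈ range n, P m z := fun z => by simp [Q]
  have hmem : ∀ z, Q z ∈ F := fun z => by
    rw [hQ]
    exact Submodule.sum_mem _ fun m hm => (Finset.le_sup (f := E) hm : E m ≤ F) (hP m z)
  let w : ℕ → F := fun k => ⟨Q (x k), hmem _⟩
  have hw : ∀ k, w k ∈ Metric.closedBall (0 : F) (‖Q‖ * B) := fun k => by
    rw [mem_closedBall_zero_iff]
    exact Q.le_of_opNorm_le_of_le le_rfl (hx k)
  obtain ⟨a, -, φ, hφ, hlim⟩ := (isCompact_closedBall (0 : F) (‖Q‖ * B)).tendsto_subseq hw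
  obtain ⟨N, hN⟩ := Metric.cauchySeq_iff.1 hlim.cauchySeq ε hε
  refine ⟨φ (max N k₀), φ (max N k₀ + 1), (le_max_right _ _).trans (hφ.id_le _),
    hφ (Nat.lt_succ_self _), ?_⟩
  have := hN (max N k₀) (le_max_left _ _) (max N k₀ + 1) ((le_max_left _ _).trans (Nat.le_succ _))
  rw [dist_eq_norm] at this
  rw [← hQ, map_sub]
  exact this.le

end Pool.Agent.P.MP_6b6f2e_an
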