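import Pool.Agent.P.MP_6b6f2e_an.CoreA
import Pool.Agent.P.MP_6b6f2e_an.CoreB
import Pool.Agent.P.MP_6b6f2e_an.CoreC
import Pool.Agent.P.MP_6b6f2e_an.Blocks

set_option autoImplicit false

namespace Pool.Agent.P.MP_6b6f2e_an

open scoped ENNReal

variable {𝕜 : Type} [RCLike 𝕜]

theorem core_lt {p r : ℝ≥0∞} [Fact (1 ≤ p)] [Fact (1 ≤ r)] (h2 : r ≠ 2) (h : r < p) :
    ∃ (C : ℝ) (G : ℕ → Gad 𝕜), Core p r C G := by
  by_cases hp : p = ∞
  · subst hp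
    rcases h2.lt_or_gt with h' | h'
    · exact ⟨8, coreB h'⟩
    · exact coreC h' h.ne
  · exact ⟨2, coreA h hp h2⟩

theorem core_ne {p r : ℝ≥0∞} [hp : Fact (1 ≤ p)] [hr : Fact (1 ≤ r)] (h2 : r ≠ 2) (h : r ≠ p) :
    ∃ (C : ℝ) (G : ℕ → Gad 𝕜), Core p r C G := by
  rcases h.lt_or_gt with h | h
  · exact core_lt h2 h
  have h1 := ENNReal.HolderConjugate.conjExponent hp.out
  have h3 := ENNReal.HolderConjugate.conjExponent hr.out
  generalize p.conjExponent = p' at h1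
  generalize r.conjExponent = r' at h3
  have h4 := h1.symm
  have h5 := h3.symm
  have : Fact (1 ≤ p') := ⟨ENNReal.HolderConjugate.one_le p' p⟩
  have : Fact (1 ≤ r') := ⟨ENNReal.HolderConjugate.one_le r' r⟩
  obtain ⟨C, G, hG⟩ := core_lt (𝕜 := 𝕜) (p := p') (r := r')
    (fun e => h2 (by subst e; exact ENNReal.HolderConjugate.unique 2 r 2)) (by
      by_contra hle
      have a1 := ENNReal.HolderConjugate.inv_add_inv_eq_one p p'
      have a2 := ENNReal.HolderConjugate.inv_add_inv_eq_one r r'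
      have a3 := ENNReal.add_lt_add_of_lt_of_le
        (ne_top_of_le_ne_top ENNReal.one_ne_top (ENNReal.inv_le_one.2 Fact.out))
        (ENNReal.inv_lt_inv.2 h) (ENNReal.inv_le_inv.2 (not_lt.1 hle))
      rw [a1, a2] at a3
      exact lt_irrefl _ a3)
  exact ⟨C, _, hG.t (dualE_of_conj p' p) (dualE_of_conj r' r) (dualE_of_conj p p')
    (dualE_of_conj r r')⟩

theorem kappa_blockSum (r p : ℝ≥0∞) [Fact (1 ≤ r)] [Fact (1 ≤ p)] (h2 : r ≠ 2) (h : r ≠ p)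
    (Z : Type) [NormedAddCommGroup Z] [NormedSpace 𝕜 Z]
    (hZ : IsSum 𝕜 p (fun n => PiLp r fun _ : Fin n => 𝕜) Z)
    (X : Type) [NormedAddCommGroup X] [NormedSpace 𝕜 X] [CompleteSpace X]
    [TopologicalSpace.SeparableSpace X] (hX : ComplementedCopy 𝕜 X Z) :
    kappa 𝕜 X = 2 ^ Cardinal.continuum := by
  obtain ⟨C, G, hG⟩ := core_ne (𝕜 := 𝕜) h2 h
  obtain ⟨e, he⟩ := hZ
  obtain ⟨i, q, hiq⟩ := hX
  let e' : Z →ₗᵢ[𝕜] blockSum 𝕜 r p :=
    ⟨e.toLinearMap.codRestrict _ fun z => (he _).1 ⟨z, rfl⟩, fun z => e.norm_map z⟩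
  let E := LinearIsometryEquiv.ofSurjective e' fun x =>
    ((he x.1).2 x.2).imp fun z hz => Subtype.ext hz
  refine kappa_of_core ⟨i ∘L E.symm.toContinuousLinearEquiv.toContinuousLinearMap,
    E.toContinuousLinearEquiv.toContinuousLinearMap ∘L q, fun z => ?_⟩ hG
  simp [hiq]

/-- The sums exist. -/
theorem isSum_blockSum (r p : ℝ≥0∞) [Fact (1 ≤ r)] [Fact (1 ≤ p)] :
    IsSum 𝕜 p (fun n => PiLp r fun _ : Fin n => 𝕜) (blockSum 𝕜 r p) :=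
  ⟨(blockSum 𝕜 r p).subtypeₗᵢ, fun x => ⟨fun ⟨z, hz⟩ => hz ▸ z.2, fun hx => ⟨⟨x, hx⟩, rfl⟩⟩⟩

end Pool.Agent.P.MP_6b6f2e_an
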