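import Pool.Agent.P.MP_6b6f2e_an.Gad
import Pool.Agent.P.MP_6b6f2e_an.Khin

set_option autoImplicit false
set_option linter.unusedSectionVars false

namespace Pool.Agent.P.MP_6b6f2e_an

open Finset
open scoped ENNReal

theorem sum_rpow_small {ι : Type} (s : Finset ι) (h : ι → ℝ) {θ ρ σ : ℝ} (hρ : 0 < ρ) (hσ : ρ ≤ σ)
    (h0 : ∀ i ∈ s, 0 ≤ h i) (h1 : ∀ i ∈ s, h i ≤ θ) :
    ∑ i ∈ s, h i ^ σ ≤ θ ^ (σ - ρ) * ∑ i ∈ s, h i ^ ρ := by
  rw [mul_sum]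
  refine sum_le_sum fun i hi => ?_
  have : h i ^ σ = h i ^ (σ - ρ) * h i ^ ρ := by
    rw [← Real.rpow_add' (h0 i hi) (by linarith), sub_add_cancel]
  rw [this]
  exact mul_le_mul_of_nonneg_right (Real.rpow_le_rpow (h0 i hi) (h1 i hi) (by linarith))
    (Real.rpow_nonneg (h0 i hi) _)

theorem exists_rpow_le {β c : ℝ} (hβ : 0 < β) (hc : 0 < c) : ∃ θ : ℝ, 0 < θ ∧ θ ^ β ≤ c :=
  ⟨c ^ (1 / β), by positivity, by
    rw [← Real.rpow_mul hc.le, one_div_mul_cancel hβ.ne', Real.rpow_one]⟩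

section

variable {r s : ℝ≥0∞} [Fact (1 ≤ r)] [Fact (1 ≤ s)] {ι : Type} [Fintype ι]

theorem nn_two (h : ι → ℝ) : nn 2 h = √(∑ i, h i ^ 2) := by
  rw [nn_eq (by simp), Real.sqrt_eq_rpow]
  simp

theorem nn_anti (hrs : r ≤ s) (h : ι → ℝ) : nn s h ≤ nn r h := by
  by_cases hs : s = ∞
  · subst hs
    exact (nn_top_le_iff _ (nn_nonneg _)).2 (abs_le_nn h)
  have hr : r ≠ ∞ := ne_top_of_le_ne_top hs hrs
  have h1 := ENNReal.toReal_mono hs hrs
  rw [nn_le_iff hs _ (nn_nonneg _)]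
  refine (sum_rpow_small univ (fun i => |h i|) (toReal_pos' hr) h1 (fun _ _ => abs_nonneg _)
    fun i _ => abs_le_nn (p := r) h i).trans (le_of_eq ?_)
  rw [← nn_rpow hr, ← Real.rpow_add' (nn_nonneg _) (by linarith [toReal_pos' hs]), sub_add_cancel]

theorem sum_sq_le_nn (hr : r ≤ 2) (h : ι → ℝ) : ∑ i, h i ^ 2 ≤ nn r h ^ 2 := by
  have := pow_le_pow_left₀ (nn_nonneg _) (nn_anti hr h) 2
  rwa [nn_two, Real.sq_sqrt (by positivity)] at this

theorem nn_le_card (hrs : r ≤ s) (hs : s ≠ ∞) (h : ι → ℝ) :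
    nn r h ≤ (Fintype.card ι : ℝ) ^ (1 / r.toReal - 1 / s.toReal) * nn s h := by
  have hr : r ≠ ∞ := ne_top_of_le_ne_top hs hrs
  have h1 := ENNReal.toReal_mono hs hrs
  have hρ := toReal_pos' hr
  have hσ := toReal_pos' hs
  have := Real.inner_le_weight_mul_Lp_of_nonneg univ (p := s.toReal / r.toReal)
    ((one_le_div hρ).2 h1) (fun _ => 1) (fun i => |h i| ^ r.toReal) (fun _ => zero_le_one)
    fun i => by positivity
  simp only [one_mul, sum_const, card_univ, nsmul_eq_mul, mul_one,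
    ← Real.rpow_mul (abs_nonneg _), mul_div_cancel₀ _ hρ.ne'] at this
  rw [nn_le_iff hr _ (mul_nonneg (by positivity) (nn_nonneg _)),
    Real.mul_rpow (by positivity) (nn_nonneg _), ← Real.rpow_mul (Nat.cast_nonneg _)]
  refine this.trans (le_of_eq ?_)
  rw [← nn_rpow hs, ← Real.rpow_mul (nn_nonneg _)]
  congr 2 <;> field_simp

theorem sum_le_card_nn (hr : r ≠ ∞) (Λ : Finset ι) (h : ι → ℝ) :
    ∑ i ∈ Λ, |h i| ≤ (Λ.card : ℝ) ^ (1 - 1 / r.toReal) * nn r h := by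
  have h1 := nn_le_card (r := 1) (s := r) Fact.out hr fun i : Λ => h i
  rw [nn_one, sum_coe_sort Λ fun i => |h i|] at h1
  simp only [Fintype.card_coe, ENNReal.toReal_one, div_one] at h1
  exact h1.trans (mul_le_mul_of_nonneg_left (nn_comp_le Subtype.val_injective h) (by positivity))

theorem sum_rpow_le_of_nn (hr : r ≠ ∞) {h : ι → ℝ} (h0 : ∀ i, 0 ≤ h i) {c : ℝ}
    (hc : nn r h ≤ c) : ∑ i, h i ^ r.toReal ≤ c ^ r.toReal := by
  have := (nn_le_iff hr h ((nn_nonneg _).trans hc)).1 hc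
  simpa only [abs_of_nonneg (h0 _)] using this

end

theorem card_mul_le {ι : Type} (Λ : Finset ι) (h : ι → ℝ) {c : ℝ} (h1 : ∀ i ∈ Λ, c ≤ h i) :
    Λ.card * c ≤ ∑ i ∈ Λ, h i := by
  simpa using card_nsmul_le_sum Λ h c h1

variable {𝕜 : Type} [RCLike 𝕜]

theorem phase_sum {σ : Type} [Fintype σ] (t : σ → ℝ) (ht : ∀ s, 0 ≤ t s) (z : σ → 𝕜) :
    ∃ g : σ → 𝕜, (∀ s, ‖g s‖ ≤ t s) ∧ ∑ s, t s * ‖z s‖ = ‖∑ s, g s * z s‖ := by
  choose c hc1 hc using fun s => exists_phase (z s)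
  refine ⟨fun s => t s * c s, fun s => ?_, ?_⟩
  · rw [norm_mul, RCLike.norm_ofReal, abs_of_nonneg (ht s)]
    exact mul_le_of_le_one_right (ht s) (hc1 s)
  · simp only [mul_assoc, hc, ← RCLike.ofReal_mul]
    rw [← RCLike.ofReal_sum, RCLike.norm_ofReal,
      abs_of_nonneg (sum_nonneg fun s _ => mul_nonneg (ht s) (norm_nonneg _))]

theorem norm_sum_mul_le {σ : Type} (s : Finset σ) (a b : σ → 𝕜) :
    ‖∑ i ∈ s, a i * b i‖ ≤ √(∑ i ∈ s, ‖a i‖ ^ 2) * √(∑ i ∈ s, ‖b i‖ ^ 2) :=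
  (norm_sum_le_of_le _ fun _ _ => (norm_mul _ _).le).trans (Real.sum_mul_le_sqrt_mul_sqrt _ _ _)

/-- Restriction to a set of coordinates. -/
noncomputable def mask {α β : Type} (P : α → β → Prop) [∀ a b, Decidable (P a b)] :
    (α → β → 𝕜) →ₗ[𝕜] (α → β → 𝕜) where
  toFun z a b := if P a b then z a b else 0
  map_add' z z' := by funext a b; by_cases h : P a b <;> simp [h]
  map_smul' c z := by funext a b; by_cases h : P a b <;> simp [h]

theorem mask_apply {α β : Type} (P : α → β → Prop) [∀ a b, Decidable (P a b)] (z : α → β → 𝕜)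
    (a : α) (b : β) : mask P z a b = if P a b then z a b else 0 := rfl

theorem norm_mask_le {α β : Type} (P : α → β → Prop) [∀ a b, Decidable (P a b)] (z : α → β → 𝕜)
    (a : α) (b : β) : ‖mask P z a b‖ ≤ ‖z a b‖ := by
  rw [mask_apply]; split_ifs <;> simp

section

variable {p r u v : ℝ≥0∞} [Fact (1 ≤ p)] [Fact (1 ≤ r)] [Fact (1 ≤ u)] [Fact (1 ≤ v)]

theorem N_anti {Γ : Type} [Fintype Γ] {κ : Γ → Type} [∀ γ, Fintype (κ γ)] (h : u ≤ v)
    (x : ∀ γ, κ γ → 𝕜) : N p v x ≤ N p u x :=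
  nn_mono' (fun _ => nn_nonneg _) fun _ => nn_anti h _

theorem N_top_le {Γ : Type} [Fintype Γ] {κ : Γ → Type} [∀ γ, Fintype (κ γ)]
    (x : ∀ γ, κ γ → 𝕜) {c : ℝ} (hc : 0 ≤ c) (h : ∀ γ, (nn u fun b => ‖x γ b‖) ≤ c) :
    N ∞ u x ≤ c :=
  (nn_top_le_iff _ hc).2 fun γ => by rw [abs_of_nonneg (nn_nonneg _)]; exact h γ

theorem N_ee {Γ : Type} [Fintype Γ] {κ : Γ → Type} [∀ γ, Fintype (κ γ)] (γ : Γ) (b : κ γ) :
    N p u (ee γ b : ∀ γ, κ γ → 𝕜) ≤ 1 := by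
  classical
  rw [N_row _ γ fun γ' h => ee_of_ne γ b h]
  refine le_of_eq (Eq.trans ?_ ((nn_single (p := u) b 1).trans abs_one))
  congr 1
  funext b'
  split_ifs with h
  · rw [h, ee_same, norm_one]
  · rw [ee_of_ne' γ h, norm_zero]

theorem Loc.mono {C C' : ℝ} {g : Gad 𝕜} {D D' : ℕ} {η η' : ℝ} (h : Loc p r u v C g D η)
    (hC : C ≤ C') (hD : D' ≤ D) (hη : η ≤ η') : Loc p r u v C' g D' η' := by
  intro J _ hJ y hy
  obtain ⟨W, E, h1, h2, h3⟩ := h J (hJ.trans hD) y hy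
  exact ⟨W, E, fun z => (h1 z).trans (mul_le_mul_of_nonneg_right hC (N_nonneg _)),
    fun z => (h2 z).trans (mul_le_mul_of_nonneg_right hC (N_nonneg _)), fun j => (h3 j).trans hη⟩

theorem Loc.bound {C : ℝ} (hC : 0 ≤ C) {g : Gad 𝕜} {D : ℕ} {η : ℝ} (h : Loc p r u v C g D η)
    (hD : 1 ≤ D) (huv : u ≤ v) (y : g.C) : N p r (g.T y) ≤ (C * C + η) * N p r y := by
  rcases (N_nonneg (p := p) (u := r) y).eq_or_lt with h0 | h0
  · have : y = 0 := by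
      funext a b
      exact norm_le_zero_iff.1 ((norm_le_N y a b).trans h0.ge)
    simp [this, N_zero]
  have hc : ‖(((N p r y)⁻¹ : ℝ) : 𝕜)‖ = (N p r y)⁻¹ := by
    rw [RCLike.norm_ofReal, abs_of_pos (inv_pos.2 h0)]
  have h1 : N p r ((((N p r y)⁻¹ : ℝ) : 𝕜) • y) ≤ 1 := by
    rw [N_smul, hc, inv_mul_cancel₀ h0.ne']
  obtain ⟨W, E, hW, hE, h3⟩ := h Unit (by simpa using hD) (fun _ => (((N p r y)⁻¹ : ℝ) : 𝕜) • y)
    fun _ => h1
  have h4 := h3 ()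
  set y' := (((N p r y)⁻¹ : ℝ) : 𝕜) • y with hy'
  have h5 : N p r (E (W y')) ≤ C * C := (hE _).trans (mul_le_mul_of_nonneg_left
    ((N_anti huv _).trans ((hW _).trans (mul_le_of_le_one_right hC h1))) hC)
  have h6 := N_add_le (p := p) (u := r) (g.T y' - E (W y')) (E (W y'))
  have h7 : N p r (g.T y') = (N p r y)⁻¹ * N p r (g.T y) := by rw [hy', map_smul, N_smul, hc]
  rw [sub_add_cancel, h7] at h6
  rw [mul_comm, ← inv_mul_le_iff₀ h0]
  linarith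

end

end Pool.Agent.P.MP_6b6f2e_an
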